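import Mathlib

/-! MP_e3ace9_al, Q2: definitions.  The free idempotent generated semigroup `IG S`
of a semigroup `S`, residual finiteness, and the partition monoid. -/

namespace Pool.Agent.IGP

/-- The idempotents of a semigroup. -/
abbrev Idem (S : Type) [Semigroup S] : Type := {e : S // e * e = e}

/-- `(e, f)` is a basic pair: `{ef, fe}` meets `{e, f}`. -/
def IsBasic {S : Type} [Semigroup S] (e f : S) : Prop :=
  e * f = e ∨ e * f = f ∨ f * e = e ∨ f * e = f

/-- The defining relations `x_e x_f = x_{ef}` for basic pairs `(e, f)`. -/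
inductive IGRel (S : Type) [Semigroup S] :
    FreeSemigroup (Idem S) → FreeSemigroup (Idem S) → Prop
  | mk (e f g : Idem S) (h : IsBasic e.1 f.1) (hg : g.1 = e.1 * f.1) :
      IGRel S (FreeSemigroup.of e * FreeSemigroup.of f) (FreeSemigroup.of g)

/-- The free idempotent-generated semigroup over the biordered set of idempotents of `S`:
the semigroup generated by the `x_e` subject to `x_e x_f = x_{ef}` for basic pairs. -/
def IG (S : Type) [Semigroup S] : Type := (conGen (IGRel S)).Quotient

instance (S : Type) [Semigroup S] : Semigroup (IG S) :=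
  inferInstanceAs (Semigroup (conGen (IGRel S)).Quotient)

/-- A semigroup is residually finite if any two distinct elements are separated by a
homomorphism to a finite semigroup. -/
def ResiduallyFinite (T : Type) [Semigroup T] : Prop :=
  ∀ s t : T, s ≠ t →
    ∃ (F : Type) (_ : Semigroup F) (_ : Finite F) (φ : T →ₙ* F), φ s ≠ φ t

/-! ### The partition monoid -/

/-- The set partitions of `[n] ∪ [n]'`: `Sum.inl i` is the upper point `i`, `Sum.inr i` is the
lower point `i'`. -/
structure Part (n : ℕ) where
  /-- the underlying equivalence relation -/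
  rel : Setoid (Fin n ⊕ Fin n)

namespace Part

variable {n : ℕ}

/-- upper copy: upper row to row 0, lower row to row 1 of the stacked picture. -/
def up : Fin n ⊕ Fin n → Fin 3 × Fin n
  | Sum.inl i => (0, i)
  | Sum.inr i => (1, i)

/-- lower copy: upper row to row 1, lower row to row 2 of the stacked picture. -/
def dn : Fin n ⊕ Fin n → Fin 3 × Fin n
  | Sum.inl i => (1, i)
  | Sum.inr i => (2, i)

/-- outer rows. -/
def outer : Fin n ⊕ Fin n → Fin 3 × Fin n
  | Sum.inl i => (0, i)
  | Sum.inr i => (2, i)

/-- the edges of the combined graph of `α` (rows 0, 1) and `β` (rows 1, 2). -/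
inductive Edge (α β : Part n) : Fin 3 × Fin n → Fin 3 × Fin n → Prop
  | up (x y : Fin n ⊕ Fin n) (h : α.rel x y) : Edge α β (Part.up x) (Part.up y)
  | dn (x y : Fin n ⊕ Fin n) (h : β.rel x y) : Edge α β (Part.dn x) (Part.dn y)

/-- the product: connected components of the combined graph, traced on the outer rows. -/
instance : Mul (Part n) where
  mul α β := ⟨(Relation.EqvGen.setoid (Edge α β)).comap outer⟩

/-- the identity partition, blocks `{i, i'}`. -/
instance : One (Part n) where
  one := ⟨Setoid.ker (fun x : Fin n ⊕ Fin n => Sum.elim id id x)⟩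

theorem ext' {α β : Part n} (h : ∀ x y, α.rel x y ↔ β.rel x y) : α = β := by
  cases α; cases β
  congr 1
  exact Setoid.ext h

/-! #### the relations `B α` on `𝔽₂`-valued functions -/

/-- `B α f g`: the function `(f, g)` on the two rows is constant on the blocks of `α`. -/
def B (α : Part n) (f g : Fin n → ZMod 2) : Prop :=
  ∀ x y, α.rel x y → Sum.elim f g x = Sum.elim f g y

theorem B_mul (α β : Part n) (f h : Fin n → ZMod 2) :
    B (α * β) f h ↔ ∃ g, B α f g ∧ B β g h := by
  classical
  constructor
  · intro H
    -- value of a point of the stacked picture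
    let F : Fin 3 × Fin n → ZMod 2 := fun p =>
      if hp : ∃ x, Relation.EqvGen (Edge α β) p (outer x) then
        Sum.elim f h hp.choose else 0
    have hFspec : ∀ p x, Relation.EqvGen (Edge α β) p (outer x) → F p = Sum.elim f h x := by
      intro p x hx
      have hp : ∃ x, Relation.EqvGen (Edge α β) p (outer x) := ⟨x, hx⟩
      have h1 : F p = Sum.elim f h hp.choose := by simp only [F]; rw [dif_pos hp]
      rw [h1]
      apply H
      have h2 := hp.choose_spec
      exact Relation.EqvGen.trans _ _ _ (Relation.EqvGen.symm _ _ h2) hx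
    have hFconst : ∀ p q, Relation.EqvGen (Edge α β) p q → F p = F q := by
      intro p q hpq
      by_cases hp : ∃ x, Relation.EqvGen (Edge α β) p (outer x)
      · obtain ⟨x, hx⟩ := hp
        rw [hFspec p x hx, hFspec q x (Relation.EqvGen.trans _ _ _
          (Relation.EqvGen.symm _ _ hpq) hx)]
      · have hq : ¬ ∃ x, Relation.EqvGen (Edge α β) q (outer x) := by
          rintro ⟨x, hx⟩
          exact hp ⟨x, Relation.EqvGen.trans _ _ _ hpq hx⟩
        simp only [F]
        rw [dif_neg hp, dif_neg hq]
    refine ⟨fun i => F (1, i), ?_, ?_⟩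
    · intro x y hxy
      have key : ∀ z : Fin n ⊕ Fin n, Sum.elim f (fun i => F (1, i)) z = F (up z) := by
        intro z
        rcases z with i | i
        · simp only [Sum.elim_inl, up]
          exact (hFspec (0, i) (Sum.inl i) (Relation.EqvGen.refl _)).symm
        · rfl
      rw [key, key]
      exact hFconst _ _ (Relation.EqvGen.rel _ _ (Edge.up x y hxy))
    · intro x y hxy
      have key : ∀ z : Fin n ⊕ Fin n, Sum.elim (fun i => F (1, i)) h z = F (dn z) := by
        intro z
        rcases z with i | i
        · rfl
        · simp only [Sum.elim_inr, dn]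
          exact (hFspec (2, i) (Sum.inr i) (Relation.EqvGen.refl _)).symm
      rw [key, key]
      exact hFconst _ _ (Relation.EqvGen.rel _ _ (Edge.dn x y hxy))
  · rintro ⟨g, h1, h2⟩ x y hxy
    let F : Fin 3 × Fin n → ZMod 2 := fun p =>
      if p.1 = 0 then f p.2 else if p.1 = 1 then g p.2 else h p.2
    have hup : ∀ z, F (up z) = Sum.elim f g z := by
      intro z; rcases z with i | i <;> simp [F, up]
    have hdn : ∀ z, F (dn z) = Sum.elim g h z := by
      intro z; rcases z with i | i <;> simp [F, dn]
    have hout : ∀ z, F (outer z) = Sum.elim f h z := by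
      intro z; rcases z with i | i <;> simp [F, outer]
    have hconst : ∀ p q, Relation.EqvGen (Edge α β) p q → F p = F q := by
      intro p q hpq
      induction hpq with
      | rel p q hpq =>
        cases hpq with
        | up x y hxy => rw [hup, hup]; exact h1 x y hxy
        | dn x y hxy => rw [hdn, hdn]; exact h2 x y hxy
      | refl p => rfl
      | symm p q _ ih => exact ih.symm
      | trans p q r _ _ ih1 ih2 => exact ih1.trans ih2
    rw [← hout, ← hout]
    exact hconst _ _ hxy

theorem B_inj {α β : Part n} (h : ∀ f g, B α f g ↔ B β f g) : α = β := by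
  classical
  apply ext'
  have key : ∀ (α β : Part n), (∀ f g, B α f g ↔ B β f g) → ∀ x y, α.rel x y → β.rel x y := by
    intro α β h x y hxy
    let F : Fin n ⊕ Fin n → ZMod 2 := fun z => if β.rel x z then 1 else 0
    have hF : Sum.elim (fun i => F (Sum.inl i)) (fun i => F (Sum.inr i)) = F := by
      funext z; rcases z with i | i <;> rfl
    have hB : B β (fun i => F (Sum.inl i)) (fun i => F (Sum.inr i)) := by
      intro u v huv
      rw [hF]
      have : β.rel x u ↔ β.rel x v :=
        ⟨fun hu => β.rel.trans hu huv, fun hv => β.rel.trans hv (β.rel.symm huv)⟩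
      simp only [F, this]
    have hA := (h _ _).2 hB x y hxy
    rw [hF] at hA
    have hx : F x = 1 := by simp [F]
    rw [hx] at hA
    by_contra hne
    have : F y = 0 := by simp [F, hne]
    rw [this] at hA
    exact one_ne_zero hA
  intro x y
  exact ⟨key α β h x y, key β α (fun f g => (h f g).symm) x y⟩

theorem B_one (f g : Fin n → ZMod 2) : B (1 : Part n) f g ↔ f = g := by
  constructor
  · intro h
    funext i
    exact h (Sum.inl i) (Sum.inr i) rfl
  · rintro rfl x y hxy
    have hxy' : Sum.elim id id x = Sum.elim id id y := hxy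
    rcases x with i | i <;> rcases y with j | j <;>
      · simp only [Sum.elim_inl, Sum.elim_inr, id] at hxy' ⊢
        rw [hxy']

instance : Monoid (Part n) where
  mul_assoc a b c := by
    apply B_inj
    intro f g
    simp only [B_mul]
    constructor
    · rintro ⟨u, ⟨v, h1, h2⟩, h3⟩
      exact ⟨v, h1, u, h2, h3⟩
    · rintro ⟨v, h1, u, h2, h3⟩
      exact ⟨u, ⟨v, h1, h2⟩, h3⟩
  one_mul a := by
    apply B_inj
    intro f g
    simp only [B_mul, B_one]
    constructor
    · rintro ⟨u, rfl, h⟩; exact h
    · intro h; exact ⟨f, rfl, h⟩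
  mul_one a := by
    apply B_inj
    intro f g
    simp only [B_mul, B_one]
    constructor
    · rintro ⟨u, h, rfl⟩; exact h
    · intro h; exact ⟨g, h, rfl⟩

end Part

end Pool.Agent.IGP
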