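import Mathlib
import Pool.Agent.IGP.Defs

/-! Basic API for `IG S` when `S` is a monoid: generators `x`, total generator `X`,
monoid structure (identity `x 1`), words, projection `pi`, `lift`, and `Step`. -/

namespace Pool.Agent.IGP

section
variable {S : Type}

/-- generator -/
def IG.x [Semigroup S] (e : Idem S) : IG S := ((FreeSemigroup.of e : FreeSemigroup (Idem S)) :
  (conGen (IGRel S)).Quotient)

theorem IG.x_mul [Semigroup S] (e f g : Idem S) (h : IsBasic e.1 f.1) (hg : g.1 = e.1 * f.1) :
    IG.x e * IG.x f = IG.x g := by
  have h1 : (conGen (IGRel S)) (FreeSemigroup.of e * FreeSemigroup.of f) (FreeSemigroup.of g) :=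
    ConGen.Rel.of _ _ (IGRel.mk e f g h hg)
  exact (Con.eq _).2 h1

theorem IG.ind [Semigroup S] {p : IG S → Prop} (h1 : ∀ e, p (IG.x e))
    (h2 : ∀ e y, p y → p (IG.x e * y)) (y : IG S) : p y := by
  induction y using Con.induction_on with
  | H w =>
    induction w using FreeSemigroup.recOnMul with
    | ih1 e => exact h1 e
    | ih2 e y _ ih => exact h2 e _ ih

/-- the identity idempotent -/
def oneIdem (S : Type) [Monoid S] : Idem S := ⟨1, one_mul 1⟩

instance [Monoid S] : Monoid (IG S) where
  one := IG.x (oneIdem S)
  one_mul a := by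
    change IG.x (oneIdem S) * a = a
    induction a using IG.ind with
    | h1 e => exact IG.x_mul _ _ _ (Or.inr (Or.inl (one_mul _))) (one_mul _).symm
    | h2 e y _ =>
      rw [← mul_assoc]
      congr 1
      exact IG.x_mul _ _ _ (Or.inr (Or.inl (one_mul _))) (one_mul _).symm
  mul_one a := by
    change a * IG.x (oneIdem S) = a
    induction a using IG.ind with
    | h1 e => exact IG.x_mul _ _ _ (Or.inl (mul_one _)) (mul_one _).symm
    | h2 e y ih => rw [mul_assoc, ih]

theorem IG.x_one [Monoid S] : IG.x (oneIdem S) = 1 := rfl

end

variable {S : Type} [Monoid S]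

namespace IG

/-- lift to a monoid -/
def lift {M : Type*} [Monoid M] (f : Idem S → M) (h1 : f (oneIdem S) = 1)
    (hb : ∀ e f' g : Idem S, IsBasic e.1 f'.1 → g.1 = e.1 * f'.1 → f e * f f' = f g) :
    IG S →* M where
  toFun y := Con.liftOn (c := conGen (IGRel S)) y (FreeSemigroup.lift f) (by
    intro a b hab
    have hle : conGen (IGRel S) ≤ Con.ker (FreeSemigroup.lift f : FreeSemigroup (Idem S) →ₙ* M) := by
      refine Con.conGen_le.2 ?_
      intro a b hab
      cases hab with
      | mk e f' g h hg =>
        change FreeSemigroup.lift f _ = FreeSemigroup.lift f _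
        simp only [map_mul, FreeSemigroup.lift_of]
        exact hb e f' g h hg
    exact hle hab)
  map_one' := h1
  map_mul' a b := by
    induction a using Con.induction_on with
    | H a =>
      induction b using Con.induction_on with
      | H b => exact map_mul (FreeSemigroup.lift f) a b

@[simp] theorem lift_x {M : Type*} [Monoid M] (f : Idem S → M) (h1 : f (oneIdem S) = 1)
    (hb : ∀ e f' g : Idem S, IsBasic e.1 f'.1 → g.1 = e.1 * f'.1 → f e * f f' = f g)
    (e : Idem S) : lift f h1 hb (x e) = f e := rfl

theorem hom_ext {M : Type*} [Monoid M] {f g : IG S →* M} (h : ∀ e, f (x e) = g (x e)) :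
    f = g := by
  ext y
  induction y using IG.ind with
  | h1 e => exact h e
  | h2 e y ih => rw [map_mul, map_mul, h, ih]

/-- the projection `IG S → S` -/
def pi : IG S →* S := lift (fun e => e.1) rfl (fun _ _ _ _ hg => hg.symm)

@[simp] theorem pi_x (e : Idem S) : pi (x e) = e.1 := rfl

open Classical in
/-- total version of the generators: `X e = x_e` when `e` is idempotent -/
noncomputable def X (e : S) : IG S := if h : e * e = e then x ⟨e, h⟩ else 1

theorem X_of {e : S} (h : e * e = e) : X e = x ⟨e, h⟩ := by simp [X, h]

theorem X_idem (e : Idem S) : X e.1 = x e := X_of e.2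

theorem X_one : X (1 : S) = 1 := X_of (one_mul 1)

theorem pi_X {e : S} (h : e * e = e) : pi (X e) = e := by rw [X_of h]; rfl

/-- multiplication rule for basic pairs of idempotents (the product of a basic pair is
idempotent automatically) -/
theorem basic_mul_idem {e f : S} (he : e * e = e) (hf : f * f = f) (h : IsBasic e f) :
    (e * f) * (e * f) = e * f := by
  rcases h with h | h | h | h
  · rw [h, he]
  · rw [h, hf]
  · calc (e * f) * (e * f) = e * (f * e) * f := by simp only [mul_assoc]
      _ = e * f := by rw [h, he]
  · calc (e * f) * (e * f) = e * (f * e) * f := by simp only [mul_assoc]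
      _ = e * f := by rw [h, mul_assoc, hf]

theorem X_mul {e f : S} (he : e * e = e) (hf : f * f = f) (h : IsBasic e f) :
    X e * X f = X (e * f) := by
  rw [X_of he, X_of hf, X_of (basic_mul_idem he hf h)]
  exact x_mul _ _ _ h rfl

theorem X_mul_left {e f : S} (he : e * e = e) (hf : f * f = f) (h : e * f = e) :
    X e * X f = X e := by
  rw [X_mul he hf (Or.inl h), h]

theorem X_mul_right {e f : S} (he : e * e = e) (hf : f * f = f) (h : e * f = f) :
    X e * X f = X f := by
  rw [X_mul he hf (Or.inr (Or.inl h)), h]

theorem X_mul_left' {e f : S} (he : e * e = e) (hf : f * f = f) (h : f * e = e) :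
    X e * X f = X (e * f) := X_mul he hf (Or.inr (Or.inr (Or.inl h)))

theorem X_mul_right' {e f : S} (he : e * e = e) (hf : f * f = f) (h : f * e = f) :
    X e * X f = X (e * f) := X_mul he hf (Or.inr (Or.inr (Or.inr h)))

theorem X_sq {e : S} (he : e * e = e) : X e * X e = X e := X_mul_left he he he

/-- induction over `X` letters -/
theorem ind_X {p : IG S → Prop} (h1 : p 1)
    (h2 : ∀ e y, e * e = e → p y → p (X e * y)) (y : IG S) : p y := by
  induction y using IG.ind with
  | h1 e =>
    have := h2 e.1 1 e.2 h1
    rwa [mul_one, X_idem] at this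
  | h2 e y ih =>
    have := h2 e.1 y e.2 ih
    rwa [X_idem] at this

/-- value of a word -/
def word (w : List (Idem S)) : IG S := (w.map x).prod

@[simp] theorem word_nil : word ([] : List (Idem S)) = 1 := rfl
@[simp] theorem word_cons (e : Idem S) (w : List (Idem S)) : word (e :: w) = x e * word w := by
  simp [word]
@[simp] theorem word_append (u v : List (Idem S)) : word (u ++ v) = word u * word v := by
  simp [word]
theorem word_flatten (ws : List (List (Idem S))) : word ws.flatten = (ws.map word).prod := by
  induction ws with
  | nil => rfl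
  | cons w ws ih => simp [ih]

theorem exists_word (y : IG S) : ∃ w : List (Idem S), w ≠ [] ∧ word w = y := by
  induction y using IG.ind with
  | h1 e => exact ⟨[e], by simp, by simp⟩
  | h2 e y ih =>
    obtain ⟨w, _, hw⟩ := ih
    exact ⟨e :: w, by simp, by simp [hw]⟩

/-- product in `S` of a word -/
def prodW (w : List (Idem S)) : S := (w.map Subtype.val).prod

@[simp] theorem prodW_nil : prodW ([] : List (Idem S)) = 1 := rfl
@[simp] theorem prodW_cons (e : Idem S) (w : List (Idem S)) :
    prodW (e :: w) = e.1 * prodW w := by simp [prodW]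
@[simp] theorem prodW_append (u v : List (Idem S)) : prodW (u ++ v) = prodW u * prodW v := by
  simp [prodW]

theorem pi_word (w : List (Idem S)) : pi (word w) = prodW w := by
  induction w with
  | nil => simp
  | cons e w ih => simp [ih]

/-- one rewriting step `u e f v → u g v`, `g = ef`, `(e, f)` basic. -/
inductive Step : List (Idem S) → List (Idem S) → Prop
  | mk (u v : List (Idem S)) (e f g : Idem S) (h : IsBasic e.1 f.1) (hg : g.1 = e.1 * f.1) :
      Step (u ++ e :: f :: v) (u ++ g :: v)

theorem word_step {w w' : List (Idem S)} (h : Step w w') : word w = word w' := by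
  cases h with
  | mk u v e f g h hg =>
    simp only [word_append, word_cons]
    rw [← mul_assoc (x e), x_mul e f g h hg]

/-- Two nonempty words are equal in `IG S` only if they are related by steps: a set of words
closed under steps in both directions is closed under equality in `IG S`. -/
theorem word_eq_closed {K : List (Idem S) → Prop}
    (hK : ∀ w w', Step w w' → (K w ↔ K w')) {w w' : List (Idem S)}
    (hw : w ≠ []) (hw' : w' ≠ []) (h : word w = word w') : K w ↔ K w' := by
  -- the congruence on the free semigroup
  let L : FreeSemigroup (Idem S) → List (Idem S) := fun a => a.head :: a.tail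
  have hLmul : ∀ a b, L (a * b) = L a ++ L b := by intro a b; rfl
  have hLof : ∀ e, L (FreeSemigroup.of e) = [e] := by intro e; rfl
  let c : Con (FreeSemigroup (Idem S)) :=
    { r := fun a b => Relation.EqvGen Step (L a) (L b)
      iseqv := ⟨fun a => Relation.EqvGen.refl _, fun h => Relation.EqvGen.symm _ _ h,
        fun h1 h2 => Relation.EqvGen.trans _ _ _ h1 h2⟩
      mul' := by
        intro a b a' b' h1 h2
        have hright : ∀ (z : List (Idem S)) {p q : List (Idem S)},
            Relation.EqvGen Step p q → Relation.EqvGen Step (p ++ z) (q ++ z) := by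
          intro z p q hpq
          induction hpq with
          | rel p q hpq =>
            apply Relation.EqvGen.rel
            cases hpq with
            | mk u v e f g h hg =>
              have := Step.mk u (v ++ z) e f g h hg
              simpa [List.append_assoc] using this
          | refl p => exact Relation.EqvGen.refl _
          | symm p q _ ih => exact Relation.EqvGen.symm _ _ ih
          | trans p q r _ _ ih1 ih2 => exact Relation.EqvGen.trans _ _ _ ih1 ih2
        have hleft : ∀ (z : List (Idem S)) {p q : List (Idem S)},
            Relation.EqvGen Step p q → Relation.EqvGen Step (z ++ p) (z ++ q) := by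
          intro z p q hpq
          induction hpq with
          | rel p q hpq =>
            apply Relation.EqvGen.rel
            cases hpq with
            | mk u v e f g h hg =>
              have := Step.mk (z ++ u) v e f g h hg
              simpa [List.append_assoc] using this
          | refl p => exact Relation.EqvGen.refl _
          | symm p q _ ih => exact Relation.EqvGen.symm _ _ ih
          | trans p q r _ _ ih1 ih2 => exact Relation.EqvGen.trans _ _ _ ih1 ih2
        rw [hLmul, hLmul]
        exact Relation.EqvGen.trans _ _ _ (hright _ h1) (hleft _ h2) }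
  have hc : conGen (IGRel S) ≤ c := by
    refine Con.conGen_le.2 ?_
    intro a b hab
    cases hab with
    | mk e f g h hg =>
      change Relation.EqvGen Step _ _
      rw [hLmul, hLof, hLof, hLof]
      exact Relation.EqvGen.rel _ _ (Step.mk [] [] e f g h hg)
  -- represent nonempty words by elements of the free semigroup
  have hrep : ∀ w : List (Idem S), w ≠ [] → ∃ a : FreeSemigroup (Idem S), L a = w ∧
      ((a : (conGen (IGRel S)).Quotient) : IG S) = word w := by
    intro w
    induction w with
    | nil => intro h; exact absurd rfl h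
    | cons e w ih =>
      intro _
      by_cases hw : w = []
      · subst hw
        exact ⟨FreeSemigroup.of e, rfl, by rw [word_cons, word_nil, mul_one]; rfl⟩
      · obtain ⟨a, ha1, ha2⟩ := ih hw
        refine ⟨FreeSemigroup.of e * a, ?_, ?_⟩
        · rw [hLmul, hLof, ha1]; rfl
        · rw [word_cons, ← ha2]; rfl
  obtain ⟨a, ha1, ha2⟩ := hrep w hw
  obtain ⟨b, hb1, hb2⟩ := hrep w' hw'
  have hab : conGen (IGRel S) a b := by
    rw [← Con.eq]
    exact (ha2.trans h).trans hb2.symm
  have hstep : Relation.EqvGen Step w w' := by
    have := hc hab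
    rw [← ha1, ← hb1]
    exact this
  clear hab ha1 hb1 ha2 hb2
  clear h hw hw'
  induction hstep with
  | rel p q hpq => exact hK _ _ hpq
  | refl p => exact Iff.rfl
  | symm p q _ ih => exact ih.symm
  | trans p q r _ _ ih1 ih2 => exact ih1.trans ih2

end IG

/-! ### rank functions -/

/-- A rank function on a monoid: monotone, stable, and the monoid is regular. -/
structure IsRank (rk : S → ℕ) : Prop where
  mul_le_left : ∀ a b, rk (a * b) ≤ rk a
  mul_le_right : ∀ a b, rk (a * b) ≤ rk b
  stab_right : ∀ a b, rk (a * b) = rk a → ∃ c, a * b * c = a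
  stab_left : ∀ a b, rk (a * b) = rk b → ∃ c, c * (a * b) = b
  regular : ∀ a : S, ∃ b, a * b * a = a

/-- a regular word: it contains a letter whose rank is the rank of the product. -/
def IsRegW (rk : S → ℕ) (w : List (Idem S)) : Prop := ∃ e ∈ w, rk e.1 = rk (IG.prodW w)

/-- a regular element of `IG S`. -/
def IsReg (rk : S → ℕ) (y : IG S) : Prop := ∃ w, IG.word w = y ∧ IsRegW rk w

/-- rank `r` is high: the only idempotent of larger rank is `1`. -/
def High (rk : S → ℕ) (r : ℕ) : Prop := ∀ e : S, e * e = e → r < rk e → e = 1

/-- consecutive products drop in rank. -/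
def Drop (rk : S → ℕ) (a b : S) : Prop := rk (a * b) < rk a ∧ rk (a * b) < rk b

/-- the list of elements of `S` is valid: all consecutive products drop. -/
def Valid (rk : S → ℕ) (l : List S) : Prop := List.IsChain (Drop rk) l

/-- a move on tuples: `(…, t e, t', …) ~ (…, t, e t', …)`. -/
inductive Move (rk : S → ℕ) {T : Type} [Monoid T] (ρ : T →* S) (θ : IG S →* T) :
    List T → List T → Prop
  | mk (A B : List T) (t t' : T) (e : S) (he : e * e = e)
      (h1 : rk (ρ t * e) = rk (ρ t)) (h2 : rk (e * ρ t') = rk (ρ t'))
      (h3 : rk (ρ t * e * ρ t') < rk (ρ t)) (h4 : rk (ρ t * e * ρ t') < rk (ρ t')) :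
      Move rk ρ θ (A ++ (t * θ (IG.X e)) :: t' :: B) (A ++ t :: (θ (IG.X e) * t') :: B)

/-- the equivalence relation generated by moves -/
def MoveEq (rk : S → ℕ) {T : Type} [Monoid T] (ρ : T →* S) (θ : IG S →* T) :
    List T → List T → Prop := Relation.EqvGen (Move rk ρ θ)

/-! ### cocycles and the extension monoids -/

/-- an integer valued normalised cocycle on `S`. -/
structure Cocycle (S : Type) [Monoid S] where
  m : S → S → ℤ
  assoc : ∀ a b c, m a b + m (a * b) c = m b c + m a (b * c)
  one : m 1 1 = 0

theorem Cocycle.one_left (c : Cocycle S) (a : S) : c.m 1 a = 0 := by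
  have := c.assoc 1 1 a
  rw [one_mul, one_mul, c.one] at this
  linarith

theorem Cocycle.one_right (c : Cocycle S) (a : S) : c.m a 1 = 0 := by
  have := c.assoc a 1 1
  rw [mul_one, one_mul, c.one] at this
  linarith

/-- the extension of `S` by a commutative ring `A` (we use `A = ℤ` and `A = ZMod k`). -/
@[ext] structure Ext (c : Cocycle S) (A : Type) where
  fst : S
  snd : A

namespace Ext
variable {c : Cocycle S} {A : Type} [CommRing A]

instance : Mul (Ext c A) := ⟨fun a b => ⟨a.fst * b.fst, a.snd + b.snd + (c.m a.fst b.fst : A)⟩⟩
instance : One (Ext c A) := ⟨⟨1, 0⟩⟩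

@[simp] theorem mul_fst (a b : Ext c A) : (a * b).fst = a.fst * b.fst := rfl
@[simp] theorem mul_snd (a b : Ext c A) :
    (a * b).snd = a.snd + b.snd + (c.m a.fst b.fst : A) := rfl
@[simp] theorem one_fst : (1 : Ext c A).fst = 1 := rfl
@[simp] theorem one_snd : (1 : Ext c A).snd = 0 := rfl

instance : Monoid (Ext c A) where
  mul_assoc a b d := by
    ext
    · simp [mul_assoc]
    · have h := congrArg (fun z : ℤ => (z : A)) (c.assoc a.fst b.fst d.fst)
      push_cast at h
      simp only [mul_snd, mul_fst]
      linear_combination h
  one_mul a := by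
    ext
    · simp
    · simp [c.one_left]
  mul_one a := by
    ext
    · simp
    · simp [c.one_right]

/-- projection to `S` -/
def toS : Ext c A →* S where
  toFun a := a.fst
  map_one' := rfl
  map_mul' _ _ := rfl

@[simp] theorem toS_apply (a : Ext c A) : toS a = a.fst := rfl

/-- reduction of the integer extension mod `k` -/
def red (k : ℕ) : Ext c ℤ →* Ext c (ZMod k) where
  toFun a := ⟨a.fst, (a.snd : ZMod k)⟩
  map_one' := by ext <;> simp
  map_mul' a b := by ext <;> simp

@[simp] theorem red_fst (k : ℕ) (a : Ext c ℤ) : (red k a).fst = a.fst := rfl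
@[simp] theorem red_snd (k : ℕ) (a : Ext c ℤ) : (red k a).snd = (a.snd : ZMod k) := rfl

/-- the lift of an idempotent `e` to the extension. -/
def idem (c : Cocycle S) (A : Type) [CommRing A] (e : S) : Ext c A := ⟨e, -(c.m e e : A)⟩

@[simp] theorem idem_fst (e : S) : (idem c A e).fst = e := rfl
@[simp] theorem idem_snd (e : S) : (idem c A e).snd = -(c.m e e : A) := rfl

theorem idem_of_sq (a : Ext c A) (h : a * a = a) : a = idem c A a.fst := by
  have h2 : (a * a).snd = a.snd := by rw [h]
  rw [mul_snd] at h2
  ext
  · rfl
  · simp only [idem_snd]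
    linear_combination h2

theorem idem_sq {e : S} (he : e * e = e) : idem c A e * idem c A e = idem c A e := by
  ext
  · exact he
  · simp [idem]

theorem idem_left {e f : S} (hf : f * f = f) (h : e * f = e) :
    idem c A e * idem c A f = idem c A e := by
  have h1 := c.assoc e f f
  rw [h, hf] at h1
  have h2 : c.m e f = c.m f f := by linarith
  ext
  · exact h
  · simp only [mul_snd, idem]
    rw [h2]; ring

theorem idem_right {e f : S} (he : e * e = e) (h : e * f = f) :
    idem c A e * idem c A f = idem c A f := by
  have h1 := c.assoc e e f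
  rw [h, he] at h1
  have h2 : c.m e f = c.m e e := by linarith
  ext
  · exact h
  · simp only [mul_snd, idem]
    rw [h2]; ring

theorem idem_mul {e f : S} (he : e * e = e) (hf : f * f = f) (h : IsBasic e f) :
    idem c A e * idem c A f = idem c A (e * f) := by
  rcases h with h | h | h | h
  · rw [idem_left hf h, h]
  · rw [idem_right he h, h]
  · have h1 := idem_right (c := c) (A := A) hf h
    apply idem_of_sq
    calc idem c A e * idem c A f * (idem c A e * idem c A f)
        = idem c A e * (idem c A f * idem c A e) * idem c A f := by simp only [mul_assoc]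
      _ = idem c A e * idem c A f := by rw [h1, idem_sq he]
  · have h1 := idem_left (c := c) (A := A) he h
    apply idem_of_sq
    calc idem c A e * idem c A f * (idem c A e * idem c A f)
        = idem c A e * (idem c A f * idem c A e) * idem c A f := by simp only [mul_assoc]
      _ = idem c A e * idem c A f := by rw [h1, mul_assoc, idem_sq hf]

theorem red_idem (k : ℕ) (e : S) : red k (idem c ℤ e) = idem c (ZMod k) e := by
  ext <;> simp

instance [Finite S] (k : ℕ) [NeZero k] : Finite (Ext c (ZMod k)) := by
  have : Function.Injective (fun a : Ext c (ZMod k) => (a.fst, a.snd)) := by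
    intro a b h
    simp only [Prod.mk.injEq] at h
    exact Ext.ext h.1 h.2
  exact Finite.of_injective _ this

end Ext

/-- the homomorphism `IG S → Ext c ℤ`, `x_e ↦ (e, -m(e,e))`. -/
def zeta (c : Cocycle S) : IG S →* Ext c ℤ :=
  IG.lift (fun e => Ext.idem c ℤ e.1)
    (by ext
        · rfl
        · change -((c.m 1 1 : ℤ) : ℤ) = 0
          rw [c.one]; rfl)
    (fun e f g h hg => by rw [hg]; exact Ext.idem_mul e.2 f.2 h)

theorem zeta_X (c : Cocycle S) {e : S} (he : e * e = e) :
    zeta c (IG.X e) = Ext.idem c ℤ e := by
  rw [IG.X_of he]; rfl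

theorem toS_zeta (c : Cocycle S) : (Ext.toS).comp (zeta c) = IG.pi := by
  apply IG.hom_ext
  intro e
  rfl

theorem zeta_fst (c : Cocycle S) (y : IG S) : (zeta c y).fst = IG.pi y := by
  rw [← toS_zeta c]; rfl

end Pool.Agent.IGP
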