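import Mathlib
import Pool.Agent.IGP.Basic

/-! MODULE A (Reg).  Regular words and regular elements of `IG S`.

PAPER PROOFS.  Write `r = rk (prodW w)`.

`rk_left_of_stab`: if `rk (a*b) = rk a` then `a = a*b*c` so `u*a = u*a*b*c`, hence
`rk (u*(a*b)) = rk (u*a)` by monotonicity in both directions.  Dually `rk_right_of_stab`.

`regW_step_iff` (invariance of regularity under one step `p e f q -> p g q`, `g = ef`):
the products agree, call the rank `r`.  If a letter of `p` or `q` has rank `r`, fine both ways.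
If `rk e = r` then `rk g <= rk e = r` and `rk g >= rk (product) = r`.  Same if `rk f = r`.
Conversely let `rk g = r`.  Case `ef = e`: `rk e = r`.  Case `ef = f`: `rk f = r`.  Case `fe = e`:
then `g e = e f e = e e = e`, so `rk e <= rk g <= rk e`.  Case `fe = f`: `f g = f e f = f f = f`,
so `rk f <= rk g <= rk f`.

`isReg_word_iff`: if `IsReg rk (word w)` there is a regular word `w1` with `word w1 = word w`;
`w1 ≠ []`; use `IG.word_eq_closed` with `K = IsRegW rk` and `regW_step_iff`.

`IsReg.mul_right`: `x = word w` with `w` regular, `y = word v`; `w ++ v` contains a letter of rank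
`rk (pi x) = rk (pi (x*y))`.  Dually `IsReg.mul_left`.

LEMMA S (`lemmaS`).  `s, k` idempotents, `rk (s*k) = rk s`.  Stability gives `y` with `s k y = s`.
Put `l = k y s`.  Then `l l = k y (s k y) s = k y s s = l`, `s l = s k y s = s s = s`, `l s = l`,
`k l = l`, so `(l, k)` is basic (`k l = l`) and `x_l x_k = x_{lk}`; `(s, l)` is basic (`s l = s`),
`x_s x_l = x_s`.  Hence `x_s x_k = x_s x_l x_k = x_s x_{lk}`; `rk (lk) = rk s` since
`s (l k) = s k` has rank `rk s` and `rk (lk) <= rk l <= rk s` (`l = k y s`), and `s*(l*k) = s*k`.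
Dual `lemmaS'`: `rk (k*s) = rk s`: `y k s = s` for some `y`, `l = s y k`, `l l = l`, `l s = s`,
`s l = l`, `l k = l`, `x_k x_l = x_{kl}`, `x_l x_s = x_s`, so `x_k x_s = x_{kl} x_s`.

`exists_level_word`: let `w = u ++ e :: v` be a word of `x` with `rk e = r = rk (pi x)`.
By induction on `v`: if `rk e = r` and `rk (e * prodW v) = r` then `word (e :: v) = word (e :: v')`
with all letters of `v'` of rank `r`: write `v = k :: v2`; `rk (e k) = r` (between `r` and `rk e`);
lemma S gives `x_e x_k = x_e x_{s'}` with `s' = l k` of rank `r` and `e s' = e k`;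
`rk (s' * prodW v2) = r` since `e (s' prodW v2) = e prodW v`, of rank `r`, and `rk s' = r`; apply
the induction hypothesis to `s' :: v2`.  Dually for `u` (reverse induction).  Combine.

`reg_mul_X`: write `x = word (w1 ++ [s])` with all letters of rank `r` (`exists_level_word`).
`pi x = prodW w1 * s` has rank `r = rk s` so `c * pi x = s` for some `c` (stab_left), hence
`s f = c (pi x) f = c (pi x) = s` and `x_s x_f = x_s`.  Dually `X_mul_reg`.

`reg_div_right`: `pi x = α e`, `rk (α e) = rk α`.  `α α' α = α` for some `α'`; `f := α' α` is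
idempotent, `α f = α`.  `rk (f e) >= rk (α f e) = rk (α e) = rk α >= rk f` (as `f = α' α`), so
`rk (f e) = rk f` and `f e y f`... : choose `y` with `f e y = f`, `l := e y f`.  Then `l l = l`,
`f l = f`, `l f = l`, `e l = l`.  Put `x' := x * X l`.  `pi x' = α e l = α l = α f l = α f = α`.
`x'` is regular by `IsReg.mul_right` (the rank is unchanged: `rk (pi x) = rk (α e) = rk α`).
`x' * X e = x * (X l * X e) = x * X (l e)` (`e l = l`: basic), and
`pi x * (l e) = α e l e = α e` so `x * X (l e) = x` by `reg_mul_X`.  Dually `reg_div_left`.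
-/

namespace Pool.Agent.IGP

variable {S : Type} [Monoid S] {rk : S → ℕ}

theorem IsRank.rk_left_of_stab (h : IsRank rk) {a b : S} (hab : rk (a * b) = rk a) (u : S) :
    rk (u * (a * b)) = rk (u * a) := by
  obtain ⟨c, hc⟩ := h.stab_right a b hab
  apply le_antisymm
  · rw [← mul_assoc]; exact h.mul_le_left _ _
  · calc rk (u * a) = rk (u * (a * b) * c) := by rw [mul_assoc, hc]
      _ ≤ rk (u * (a * b)) := h.mul_le_left _ _

theorem IsRank.rk_right_of_stab (h : IsRank rk) {a b : S} (hab : rk (a * b) = rk b) (u : S) :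
    rk ((a * b) * u) = rk (b * u) := by
  obtain ⟨c, hc⟩ := h.stab_left a b hab
  apply le_antisymm
  · rw [mul_assoc]; exact h.mul_le_right _ _
  · calc rk (b * u) = rk (c * ((a * b) * u)) := by rw [← mul_assoc, hc]
      _ ≤ rk ((a * b) * u) := h.mul_le_right _ _

theorem regW_step_iff (h : IsRank rk) {w w' : List (Idem S)} (hs : IG.Step w w') :
    IsRegW rk w ↔ IsRegW rk w' := by
  cases hs with
  | mk u v e f g hb hg =>
    have hprod : IG.prodW (u ++ e :: f :: v) = IG.prodW (u ++ g :: v) := by
      simp only [IG.prodW_append, IG.prodW_cons, hg, mul_assoc]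
    have hge : rk g.1 ≤ rk e.1 := by rw [hg]; exact h.mul_le_left _ _
    have hgf : rk g.1 ≤ rk f.1 := by rw [hg]; exact h.mul_le_right _ _
    have hpg : rk (IG.prodW (u ++ g :: v)) ≤ rk g.1 := by
      rw [IG.prodW_append, IG.prodW_cons]
      exact (h.mul_le_right _ _).trans (h.mul_le_left _ _)
    constructor
    · rintro ⟨d, hd, hdr⟩
      rw [hprod] at hdr
      simp only [List.mem_append, List.mem_cons] at hd
      rcases hd with hd | rfl | rfl | hd
      · exact ⟨d, by simp [hd], hdr⟩
      · exact ⟨g, by simp, by omega⟩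
      · exact ⟨g, by simp, by omega⟩
      · exact ⟨d, by simp [hd], hdr⟩
    · rintro ⟨d, hd, hdr⟩
      rw [← hprod] at hdr
      simp only [List.mem_append, List.mem_cons] at hd
      rcases hd with hd | rfl | hd
      · exact ⟨d, by simp [hd], hdr⟩
      · -- the letter is g
        rcases hb with hb | hb | hb | hb
        · refine ⟨e, by simp, ?_⟩
          rw [← hdr, hg, hb]
        · refine ⟨f, by simp, ?_⟩
          rw [← hdr, hg, hb]
        · refine ⟨e, by simp, ?_⟩
          rw [← hdr]
          apply le_antisymm _ hge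
          have : d.1 * e.1 = e.1 := by rw [hg, mul_assoc, hb, e.2]
          calc rk e.1 = rk (d.1 * e.1) := by rw [this]
            _ ≤ rk d.1 := h.mul_le_left _ _
        · refine ⟨f, by simp, ?_⟩
          rw [← hdr]
          apply le_antisymm _ hgf
          have : f.1 * d.1 = f.1 := by rw [hg, ← mul_assoc, hb, f.2]
          calc rk f.1 = rk (f.1 * d.1) := by rw [this]
            _ ≤ rk d.1 := h.mul_le_right _ _
      · exact ⟨d, by simp [hd], hdr⟩

theorem isReg_word_iff (h : IsRank rk) {w : List (Idem S)} (hw : w ≠ []) :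
    IsReg rk (IG.word w) ↔ IsRegW rk w := by
  constructor
  · rintro ⟨w', hw', hr⟩
    have hne : w' ≠ [] := by
      obtain ⟨e, he, _⟩ := hr
      exact List.ne_nil_of_mem he
    exact (IG.word_eq_closed (K := IsRegW rk) (fun w w' hs => regW_step_iff h hs) hne hw hw').1 hr
  · intro hr
    exact ⟨w, rfl, hr⟩

theorem IsReg.mul_right (_h : IsRank rk) {x y : IG S} (hx : IsReg rk x)
    (hr : rk (IG.pi (x * y)) = rk (IG.pi x)) : IsReg rk (x * y) := by
  obtain ⟨w, rfl, e, he, her⟩ := hx
  obtain ⟨v, _, rfl⟩ := IG.exists_word y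
  refine ⟨w ++ v, by simp, e, by simp [he], ?_⟩
  rw [her, ← IG.pi_word, ← IG.pi_word, IG.word_append, hr]

theorem IsReg.mul_left (_h : IsRank rk) {x y : IG S} (hy : IsReg rk y)
    (hr : rk (IG.pi (x * y)) = rk (IG.pi y)) : IsReg rk (x * y) := by
  obtain ⟨w, rfl, e, he, her⟩ := hy
  obtain ⟨v, _, rfl⟩ := IG.exists_word x
  refine ⟨v ++ w, by simp, e, by simp [he], ?_⟩
  rw [her, ← IG.pi_word, ← IG.pi_word, IG.word_append, hr]

theorem isReg_X (_h : IsRank rk) {e : S} (he : e * e = e) : IsReg rk (IG.X e) := by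
  refine ⟨[⟨e, he⟩], ?_, ⟨e, he⟩, by simp, ?_⟩
  · rw [IG.X_of he]; simp
  · simp

/-- lemma S -/
theorem lemmaS (h : IsRank rk) {s k : S} (hs : s * s = s) (hk : k * k = k)
    (hr : rk (s * k) = rk s) : ∃ s', s' * s' = s' ∧ rk s' = rk s ∧ s * s' = s * k ∧
      IG.X s * IG.X k = IG.X s * IG.X s' := by
  obtain ⟨y, hy⟩ := h.stab_right s k hr
  have hl : (k * y * s) * (k * y * s) = k * y * s := by
    calc (k * y * s) * (k * y * s) = k * y * (s * k * y) * s := by simp only [mul_assoc]
      _ = k * y * s := by rw [hy, mul_assoc (k * y), hs]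
  set l := k * y * s with hldef
  have hsl : s * l = s := by
    calc s * l = (s * k * y) * s := by rw [hldef]; simp only [mul_assoc]
      _ = s := by rw [hy, hs]
  have hls : l * s = l := by rw [hldef, mul_assoc, hs]
  have hkl : k * l = l := by
    calc k * l = (k * k) * y * s := by rw [hldef]; simp only [mul_assoc]
      _ = l := by rw [hk]
  have hlk : (l * k) * (l * k) = l * k := by
    calc (l * k) * (l * k) = l * (k * l) * k := by simp only [mul_assoc]
      _ = l * k := by rw [hkl, hl]
  have hslk : s * (l * k) = s * k := by rw [← mul_assoc, hsl]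
  refine ⟨l * k, hlk, ?_, hslk, ?_⟩
  · apply le_antisymm
    · calc rk (l * k) ≤ rk l := h.mul_le_left _ _
        _ = rk (k * y * s) := rfl
        _ ≤ rk s := h.mul_le_right _ _
    · calc rk s = rk (s * (l * k)) := by rw [hslk, hr]
        _ ≤ rk (l * k) := h.mul_le_right _ _
  · have e1 : IG.X s * IG.X l = IG.X s := IG.X_mul_left hs hl hsl
    have e2 : IG.X l * IG.X k = IG.X (l * k) := IG.X_mul_left' hl hk hkl
    rw [← e2, ← mul_assoc, e1]

/-- dual of lemma S -/
theorem lemmaS' (h : IsRank rk) {s k : S} (hs : s * s = s) (hk : k * k = k)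
    (hr : rk (k * s) = rk s) : ∃ s', s' * s' = s' ∧ rk s' = rk s ∧ s' * s = k * s ∧
      IG.X k * IG.X s = IG.X s' * IG.X s := by
  obtain ⟨y, hy⟩ := h.stab_left k s hr
  have hl : (s * y * k) * (s * y * k) = s * y * k := by
    calc (s * y * k) * (s * y * k) = s * (y * (k * s)) * y * k := by simp only [mul_assoc]
      _ = s * y * k := by rw [hy, hs]
  set l := s * y * k with hldef
  have hls : l * s = s := by
    calc l * s = s * (y * (k * s)) := by rw [hldef]; simp only [mul_assoc]
      _ = s := by rw [hy, hs]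
  have hlk : l * k = l := by rw [hldef, mul_assoc, hk]
  have hkl : (k * l) * (k * l) = k * l := by
    calc (k * l) * (k * l) = k * (l * k) * l := by simp only [mul_assoc]
      _ = k * l := by rw [hlk, mul_assoc, hl]
  have hslk : (k * l) * s = k * s := by rw [mul_assoc, hls]
  refine ⟨k * l, hkl, ?_, hslk, ?_⟩
  · apply le_antisymm
    · calc rk (k * l) ≤ rk l := h.mul_le_right _ _
        _ = rk (s * (y * k)) := by rw [hldef, mul_assoc]
        _ ≤ rk s := h.mul_le_left _ _
    · calc rk s = rk ((k * l) * s) := by rw [hslk, hr]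
        _ ≤ rk (k * l) := h.mul_le_left _ _
  · have e1 : IG.X l * IG.X s = IG.X s := IG.X_mul_right hl hs hls
    have e2 : IG.X k * IG.X l = IG.X (k * l) := IG.X_mul_right' hk hl hlk
    rw [← e2, mul_assoc, e1]

/-- pushing to the right -/
theorem level_right (h : IsRank rk) : ∀ (v : List (Idem S)) (s : Idem S),
    rk (s.1 * IG.prodW v) = rk s.1 →
    ∃ v' : List (Idem S), (∀ e ∈ v', rk e.1 = rk s.1) ∧
      IG.word (s :: v) = IG.word (s :: v') := by
  intro v
  induction v with
  | nil => intro s _; exact ⟨[], by simp, rfl⟩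
  | cons k v ih =>
    intro s hr
    have hsk : rk (s.1 * k.1) = rk s.1 := by
      apply le_antisymm (h.mul_le_left _ _)
      calc rk s.1 = rk (s.1 * k.1 * IG.prodW v) := by rw [← hr, IG.prodW_cons, mul_assoc]
        _ ≤ rk (s.1 * k.1) := h.mul_le_left _ _
    obtain ⟨s', hs', hsr, hss, hX⟩ := lemmaS h s.2 k.2 hsk
    have hr2 : rk (s' * IG.prodW v) = rk s' := by
      apply le_antisymm (h.mul_le_left _ _)
      calc rk s' = rk (s.1 * (s' * IG.prodW v)) := by
            rw [hsr, ← hr, IG.prodW_cons, ← mul_assoc, ← mul_assoc, hss]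
        _ ≤ rk (s' * IG.prodW v) := h.mul_le_right _ _
    obtain ⟨v', hv', hword⟩ := ih ⟨s', hs'⟩ hr2
    refine ⟨⟨s', hs'⟩ :: v', ?_, ?_⟩
    · intro e he
      rw [List.mem_cons] at he
      rcases he with rfl | he
      · exact hsr
      · rw [hv' e he]; exact hsr
    · rw [IG.word_cons, IG.word_cons, ← mul_assoc]
      rw [IG.X_idem, IG.X_idem] at hX
      rw [hX, IG.X_of hs', mul_assoc, ← IG.word_cons, hword]
      simp

/-- pushing to the left -/
theorem level_left (h : IsRank rk) : ∀ (u : List (Idem S)) (s : Idem S),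
    rk (IG.prodW u * s.1) = rk s.1 →
    ∃ u' : List (Idem S), (∀ e ∈ u', rk e.1 = rk s.1) ∧
      IG.word (u ++ [s]) = IG.word (u' ++ [s]) := by
  intro u
  induction u using List.reverseRecOn with
  | nil => intro s _; exact ⟨[], by simp, rfl⟩
  | append_singleton u k ih =>
    intro s hr
    have hpu : IG.prodW (u ++ [k]) = IG.prodW u * k.1 := by simp
    rw [hpu] at hr
    have hsk : rk (k.1 * s.1) = rk s.1 := by
      apply le_antisymm (h.mul_le_right _ _)
      calc rk s.1 = rk (IG.prodW u * (k.1 * s.1)) := by rw [← hr, mul_assoc]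
        _ ≤ rk (k.1 * s.1) := h.mul_le_right _ _
    obtain ⟨s', hs', hsr, hss, hX⟩ := lemmaS' h s.2 k.2 hsk
    have hr2 : rk (IG.prodW u * s') = rk s' := by
      apply le_antisymm (h.mul_le_right _ _)
      calc rk s' = rk (IG.prodW u * s' * s.1) := by
            rw [hsr, ← hr, mul_assoc, mul_assoc, hss]
        _ ≤ rk (IG.prodW u * s') := h.mul_le_left _ _
    obtain ⟨u', hu', hword⟩ := ih ⟨s', hs'⟩ hr2
    refine ⟨u' ++ [⟨s', hs'⟩], ?_, ?_⟩
    · intro e he
      rw [List.mem_append, List.mem_singleton] at he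
      rcases he with he | rfl
      · rw [hu' e he]; exact hsr
      · exact hsr
    · simp only [IG.word_append, IG.word_cons, IG.word_nil, mul_one] at hword ⊢
      rw [IG.X_idem, IG.X_idem] at hX
      rw [mul_assoc, hX, IG.X_of hs', ← mul_assoc, hword]

theorem exists_level_word (h : IsRank rk) {x : IG S} (hx : IsReg rk x) :
    ∃ w : List (Idem S), w ≠ [] ∧ IG.word w = x ∧ ∀ e ∈ w, rk e.1 = rk (IG.pi x) := by
  obtain ⟨w, rfl, s, hs, hsr⟩ := hx
  obtain ⟨u, v, rfl⟩ := List.append_of_mem hs
  have hp : IG.prodW (u ++ s :: v) = IG.prodW u * (s.1 * IG.prodW v) := by simp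
  rw [hp] at hsr
  have h1 : rk (s.1 * IG.prodW v) = rk s.1 := by
    apply le_antisymm (h.mul_le_left _ _)
    rw [hsr]; exact h.mul_le_right _ _
  have h2 : rk (IG.prodW u * s.1) = rk s.1 := by
    apply le_antisymm (h.mul_le_right _ _)
    rw [hsr, ← mul_assoc]; exact h.mul_le_left _ _
  obtain ⟨v', hv', hwv⟩ := level_right h v s h1
  obtain ⟨u', hu', hwu⟩ := level_left h u s h2
  have hw : IG.word (u' ++ s :: v') = IG.word (u ++ s :: v) := by
    have e1 : IG.word (u' ++ s :: v') = IG.word (u' ++ [s]) * IG.word v' := by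
      simp [mul_assoc]
    have e2 : IG.word (u ++ s :: v) = IG.word u * IG.word (s :: v) := by simp
    rw [e1, ← hwu, e2, hwv]
    simp [mul_assoc]
  have hr : rk (IG.pi (IG.word (u ++ s :: v))) = rk s.1 := by
    rw [IG.pi_word, hp, ← hsr]
  refine ⟨u' ++ s :: v', by simp, hw, ?_⟩
  intro e he
  rw [hr]
  simp only [List.mem_append, List.mem_cons] at he
  rcases he with he | rfl | he
  · exact hu' e he
  · rfl
  · exact hv' e he

theorem reg_mul_X (h : IsRank rk) {x : IG S} (hx : IsReg rk x) {f : S} (hf : f * f = f)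
    (hpi : IG.pi x * f = IG.pi x) : x * IG.X f = x := by
  obtain ⟨w, hw0, hw, hwr⟩ := exists_level_word h hx
  obtain ⟨w1, s, rfl⟩ : ∃ w1 s, w = w1 ++ [s] :=
    ⟨w.dropLast, w.getLast hw0, (List.dropLast_append_getLast hw0).symm⟩
  have hp : IG.pi x = IG.prodW w1 * s.1 := by rw [← hw, IG.pi_word]; simp
  have hsr : rk s.1 = rk (IG.pi x) := hwr s (by simp)
  obtain ⟨c, hc⟩ := h.stab_left (IG.prodW w1) s.1 (by rw [← hp, hsr])
  rw [← hp] at hc
  have hsf : s.1 * f = s.1 := by rw [← hc, mul_assoc, hpi]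
  have hXs : IG.X s.1 * IG.X f = IG.X s.1 := IG.X_mul_left s.2 hf hsf
  rw [IG.X_idem] at hXs
  rw [← hw]
  simp only [IG.word_append, IG.word_cons, IG.word_nil, mul_one]
  rw [mul_assoc, hXs]

theorem X_mul_reg (h : IsRank rk) {x : IG S} (hx : IsReg rk x) {f : S} (hf : f * f = f)
    (hpi : f * IG.pi x = IG.pi x) : IG.X f * x = x := by
  obtain ⟨w, hw0, hw, hwr⟩ := exists_level_word h hx
  rcases w with _ | ⟨s, w1⟩
  · exact absurd rfl hw0
  have hp : IG.pi x = s.1 * IG.prodW w1 := by rw [← hw, IG.pi_word]; simp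
  have hsr : rk s.1 = rk (IG.pi x) := hwr s (by simp)
  obtain ⟨c, hc⟩ := h.stab_right s.1 (IG.prodW w1) (by rw [← hp, hsr])
  rw [← hp] at hc
  have hsf : f * s.1 = s.1 := by rw [← hc, ← mul_assoc, hpi]
  have hXs : IG.X f * IG.X s.1 = IG.X s.1 := IG.X_mul_right hf s.2 hsf
  rw [IG.X_idem] at hXs
  rw [← hw, IG.word_cons, ← mul_assoc, hXs]

theorem reg_div_right (h : IsRank rk) {x : IG S} (hx : IsReg rk x) {α e : S} (he : e * e = e)
    (hpi : IG.pi x = α * e) (hr : rk (α * e) = rk α) :
    ∃ x', IsReg rk x' ∧ IG.pi x' = α ∧ x' * IG.X e = x := by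
  obtain ⟨α', hα'⟩ := h.regular α
  set f := α' * α with hfdef
  have hf : f * f = f := by
    calc f * f = α' * (α * α' * α) := by rw [hfdef]; simp only [mul_assoc]
      _ = f := by rw [hα']
  have hαf : α * f = α := by rw [hfdef, ← mul_assoc, hα']
  have hfe : rk (f * e) = rk f := by
    apply le_antisymm (h.mul_le_left _ _)
    calc rk f ≤ rk α := by rw [hfdef]; exact h.mul_le_right _ _
      _ = rk (α * (f * e)) := by rw [← mul_assoc, hαf, hr]
      _ ≤ rk (f * e) := h.mul_le_right _ _
  obtain ⟨y, hy⟩ := h.stab_right f e hfe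
  set l := e * y * f with hldef
  have hfl : f * l = f := by
    calc f * l = (f * e * y) * f := by rw [hldef]; simp only [mul_assoc]
      _ = f := by rw [hy, hf]
  have hl : l * l = l := by
    calc l * l = e * y * (f * l) := by rw [hldef]; simp only [mul_assoc]
      _ = l := by rw [hfl]
  have hel : e * l = l := by
    calc e * l = (e * e) * y * f := by rw [hldef]; simp only [mul_assoc]
      _ = l := by rw [he]
  have hαl : α * l = α := by
    calc α * l = α * f * l := by rw [hαf]
      _ = α := by rw [mul_assoc, hfl, hαf]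
  have hpi' : IG.pi (x * IG.X l) = α := by
    rw [map_mul, hpi, IG.pi_X hl, mul_assoc, hel, hαl]
  have hle : (l * e) * (l * e) = l * e := by
    calc (l * e) * (l * e) = l * (e * l) * e := by simp only [mul_assoc]
      _ = l * e := by rw [hel, hl]
  refine ⟨x * IG.X l, IsReg.mul_right h hx (by rw [hpi', hpi, hr]), hpi', ?_⟩
  rw [mul_assoc, IG.X_mul_left' hl he hel]
  apply reg_mul_X h hx hle
  rw [hpi]
  calc α * e * (l * e) = α * (e * l) * e := by simp only [mul_assoc]
    _ = α * e := by rw [hel, hαl]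

theorem reg_div_left (h : IsRank rk) {x : IG S} (hx : IsReg rk x) {α e : S} (he : e * e = e)
    (hpi : IG.pi x = e * α) (hr : rk (e * α) = rk α) :
    ∃ x', IsReg rk x' ∧ IG.pi x' = α ∧ IG.X e * x' = x := by
  obtain ⟨α', hα'⟩ := h.regular α
  set f := α * α' with hfdef
  have hf : f * f = f := by
    calc f * f = (α * α' * α) * α' := by rw [hfdef]; simp only [mul_assoc]
      _ = f := by rw [hα']
  have hfα : f * α = α := hα'
  have hef : rk (e * f) = rk f := by
    apply le_antisymm (h.mul_le_right _ _)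
    calc rk f ≤ rk α := by rw [hfdef]; exact h.mul_le_left _ _
      _ = rk ((e * f) * α) := by rw [mul_assoc, hfα, hr]
      _ ≤ rk (e * f) := h.mul_le_left _ _
  obtain ⟨y, hy⟩ := h.stab_left e f hef
  set l := f * y * e with hldef
  have hlf : l * f = f := by
    calc l * f = f * (y * (e * f)) := by rw [hldef]; simp only [mul_assoc]
      _ = f := by rw [hy, hf]
  have hl : l * l = l := by
    calc l * l = (l * f) * y * e := by
          conv_lhs => rw [hldef]
          simp only [hldef, mul_assoc]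
      _ = l := by rw [hlf]
  have hle : l * e = l := by
    calc l * e = f * y * (e * e) := by rw [hldef]; simp only [mul_assoc]
      _ = l := by rw [he]
  have hlα : l * α = α := by
    have e1 : l * α = (l * f) * α := by rw [mul_assoc l f α, hfα]
    rw [e1, hlf, hfα]
  have hpi' : IG.pi (IG.X l * x) = α := by
    rw [map_mul, hpi, IG.pi_X hl, ← mul_assoc, hle, hlα]
  have hel : (e * l) * (e * l) = e * l := by
    calc (e * l) * (e * l) = e * (l * e) * l := by simp only [mul_assoc]
      _ = e * l := by rw [hle, mul_assoc, hl]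
  refine ⟨IG.X l * x, IsReg.mul_left h hx (by rw [hpi', hpi, hr]), hpi', ?_⟩
  rw [← mul_assoc, IG.X_mul_right' he hl hle]
  apply X_mul_reg h hx hel
  rw [hpi]
  calc e * l * (e * α) = e * (l * e) * α := by simp only [mul_assoc]
    _ = e * α := by rw [hle, mul_assoc, hlα]

end Pool.Agent.IGP
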