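import Mathlib
import Pool.Agent.IGP.Basic
import Pool.Agent.IGP.Reg

/-! MODULE C (MoveLemmas).  General lemmas on moves.

PAPER PROOFS.
`MoveEq.map`: apply `h` to each list; a move goes to a move because
`h (t * θ (X e)) = h t * θ' (X e)` and `ρ' (h t) = ρ t`.

`move_rank`: in a move the idempotent `e` satisfies `rk (ρ t) < rk e` and `rk (ρ t') < rk e`.
Indeed `rk (ρ t) = rk (ρ t * e) <= rk e`; if equality, then `rk (ρ t * e) = rk e`, so by stab_left
there is `c` with `c * (ρ t * e) = e`, hence `rk (ρ t') = rk (e * ρ t') = rk (c * (ρ t * e * ρ t'))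
<= rk (ρ t * e * ρ t') < rk (ρ t')` (h4), contradiction.  Similarly for `t'` with stab_right:
`e * ρ t' * c = e`, `rk (ρ t) = rk (ρ t * e) = rk (ρ t * e * ρ t' * c) <= rk (ρ t * e * ρ t')
< rk (ρ t)` (h3).

`moveEq_rigid`: for a single move, the entries of `A`, `B` agree.  The entry `t * θ (X e)` versus
`t`: the ranks agree by h1 (`ρ (θ (X e)) = pi (X e) = e`); if the rank `rk (ρ t)` is high then
`e = 1` by `move_rank`, `X 1 = 1`, so both entries of the move are unchanged.  Same for `t'`.  The
relation `Forall₂ (...)` is an equivalence relation on lists (symmetry: the rank equality lets one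
rewrite the High hypothesis), so it passes to `EqvGen`.

`moveEq_valid`: for a move, compare `A ++ (t θe) :: t' :: B` and `A ++ t :: (θe t') :: B`.  The
consecutive products: (last of A, tθe) vs (last of A, t): the ranks of `ρ t * e` and `ρ t` agree
by h1 and the ranks of `u * (ρ t * e)` and `u * ρ t` agree by `rk_left_of_stab`; the middle
product is `ρ t * e * ρ t'` in both cases and the ranks of the two entries agree by h1, h2;
(t', head of B) by `rk_right_of_stab`.  Use `List.isChain_append`, `List.isChain_cons_cons` etc.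
-/

namespace Pool.Agent.IGP

variable {S : Type} [Monoid S] {rk : S → ℕ} {T : Type} [Monoid T] {ρ : T →* S} {θ : IG S →* T}

theorem MoveEq.map {T' : Type} [Monoid T'] {ρ' : T' →* S} {θ' : IG S →* T'} (h : T →* T')
    (hρ : ρ'.comp h = ρ) (hθ : h.comp θ = θ') {L L' : List T} (hL : MoveEq rk ρ θ L L') :
    MoveEq rk ρ' θ' (L.map h) (L'.map h) := by
  have hρ' : ∀ x, ρ' (h x) = ρ x := fun x => by rw [← hρ]; rfl
  have hθ' : ∀ y, h (θ y) = θ' y := fun y => by rw [← hθ]; rfl
  induction hL with
  | rel L L' hm =>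
    apply Relation.EqvGen.rel
    cases hm with
    | mk A B t t' e he h1 h2 h3 h4 =>
      simp only [List.map_append, List.map_cons, map_mul, hθ']
      exact Move.mk (A.map h) (B.map h) (h t) (h t') e he (by rw [hρ']; exact h1)
        (by rw [hρ']; exact h2) (by rw [hρ', hρ']; exact h3) (by rw [hρ', hρ']; exact h4)
  | refl L => exact Relation.EqvGen.refl _
  | symm L L' _ ih => exact Relation.EqvGen.symm _ _ ih
  | trans L L' L'' _ _ ih1 ih2 => exact Relation.EqvGen.trans _ _ _ ih1 ih2

/-- in a move the moving idempotent has rank larger than both entries. -/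
theorem move_rank (h : IsRank rk) {a b e : S}
    (h1 : rk (a * e) = rk a) (h2 : rk (e * b) = rk b)
    (h3 : rk (a * e * b) < rk a) (h4 : rk (a * e * b) < rk b) : rk a < rk e ∧ rk b < rk e := by
  constructor
  · by_contra hcon
    have h5 : rk (a * e) ≤ rk e := h.mul_le_right _ _
    have h6 : rk (a * e) = rk e := by omega
    obtain ⟨c, hc⟩ := h.stab_left a e h6
    have h7 : rk (e * b) ≤ rk (a * e * b) := by
      calc rk (e * b) = rk (c * (a * e * b)) := by rw [← mul_assoc c, hc]
        _ ≤ rk (a * e * b) := h.mul_le_right _ _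
    omega
  · by_contra hcon
    have h5 : rk (e * b) ≤ rk e := h.mul_le_left _ _
    have h6 : rk (e * b) = rk e := by omega
    obtain ⟨c, hc⟩ := h.stab_right e b h6
    have h7 : rk (a * e) ≤ rk (a * e * b) := by
      calc rk (a * e) = rk (a * e * b * c) := by
            rw [mul_assoc (a * e) b c, mul_assoc a e (b * c), ← mul_assoc e b c, hc]
        _ ≤ rk (a * e * b) := h.mul_le_left _ _
    omega

theorem pi_comp (hρ : ρ.comp θ = IG.pi) {e : S} (he : e * e = e) : ρ (θ (IG.X e)) = e := by
  have : ρ (θ (IG.X e)) = IG.pi (IG.X e) := by rw [← hρ]; rfl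
  rw [this, IG.pi_X he]

theorem moveEq_rigid (h : IsRank rk) (hρ : ρ.comp θ = IG.pi) {L L' : List T}
    (hL : MoveEq rk ρ θ L L') :
    List.Forall₂ (fun x y => rk (ρ x) = rk (ρ y) ∧ (High rk (rk (ρ x)) → x = y)) L L' := by
  induction hL with
  | rel L L' hm =>
    cases hm with
    | mk A B t t' e he h1 h2 h3 h4 =>
      have hrefl : ∀ l : List T, List.Forall₂
          (fun x y => rk (ρ x) = rk (ρ y) ∧ (High rk (rk (ρ x)) → x = y)) l l := by
        intro l
        induction l with
        | nil => exact List.Forall₂.nil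
        | cons x l ih => exact List.Forall₂.cons ⟨rfl, fun _ => rfl⟩ ih
      obtain ⟨k1, k2⟩ := move_rank h h1 h2 h3 h4
      have hρe := pi_comp (T := T) hρ he
      apply List.rel_append (hrefl A)
      refine List.Forall₂.cons ?_ (List.Forall₂.cons ?_ (hrefl B))
      · rw [map_mul, hρe]
        refine ⟨h1, ?_⟩
        intro hH
        rw [h1] at hH
        have he1 := hH e he k1
        rw [he1, IG.X_one, map_one, mul_one]
      · rw [map_mul, hρe]
        refine ⟨h2.symm, ?_⟩
        intro hH
        have he1 := hH e he k2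
        rw [he1, IG.X_one, map_one, one_mul]
  | refl L =>
    rw [List.forall₂_iff_get]
    exact ⟨rfl, fun i _ _ => ⟨rfl, fun _ => rfl⟩⟩
  | symm L L' _ ih =>
    rw [List.forall₂_iff_get] at ih ⊢
    refine ⟨ih.1.symm, ?_⟩
    intro i h1 h2
    have h3 := ih.2 i h2 h1
    refine ⟨h3.1.symm, ?_⟩
    intro hH
    rw [← h3.1] at hH
    exact (h3.2 hH).symm
  | trans L L' L'' _ _ ih1 ih2 =>
    rw [List.forall₂_iff_get] at ih1 ih2 ⊢
    refine ⟨ih1.1.trans ih2.1, ?_⟩
    intro i h1 h2
    have h0 : i < L'.length := by rw [← ih1.1]; exact h1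
    have h3 := ih1.2 i h1 h0
    have h4 := ih2.2 i h0 h2
    refine ⟨h3.1.trans h4.1, ?_⟩
    intro hH
    have h5 := h3.2 hH
    rw [h3.1] at hH
    exact h5.trans (h4.2 hH)

theorem valid_move (h : IsRank rk) (P Q : List S) (a b e : S) (h1 : rk (a * e) = rk a)
    (h2 : rk (e * b) = rk b) :
    Valid rk (P ++ (a * e) :: b :: Q) ↔ Valid rk (P ++ a :: (e * b) :: Q) := by
  unfold Valid
  rw [List.isChain_append, List.isChain_append, List.isChain_cons_cons, List.isChain_cons_cons,
    List.isChain_cons, List.isChain_cons]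
  have e1 : Drop rk (a * e) b ↔ Drop rk a (e * b) := by
    unfold Drop
    rw [mul_assoc, h1, h2]
  have e2 : ∀ x, Drop rk x (a * e) ↔ Drop rk x a := by
    intro x
    unfold Drop
    rw [h.rk_left_of_stab h1 x, h1]
  have e3 : ∀ x, Drop rk b x ↔ Drop rk (e * b) x := by
    intro x
    unfold Drop
    rw [h.rk_right_of_stab h2 x, h2]
  simp only [List.head?_cons, Option.mem_def, Option.some.injEq, forall_eq', e1, e2, e3]

theorem moveEq_valid (h : IsRank rk) (hρ : ρ.comp θ = IG.pi) {L L' : List T}
    (hL : MoveEq rk ρ θ L L') : Valid rk (L.map ρ) ↔ Valid rk (L'.map ρ) := by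
  induction hL with
  | rel L L' hm =>
    cases hm with
    | mk A B t t' e he h1 h2 h3 h4 =>
      have hρe := pi_comp (T := T) hρ he
      simp only [List.map_append, List.map_cons, map_mul, hρe]
      exact valid_move h (A.map ρ) (B.map ρ) (ρ t) (ρ t') e h1 h2
  | refl L => exact Iff.rfl
  | symm L L' _ ih => exact ih.symm
  | trans L L' L'' _ _ ih1 ih2 => exact ih1.trans ih2

end Pool.Agent.IGP
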