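import Mathlib
import Pool.Agent.IGP.Basic

/-! MODULE B (Recog).  Recognisable languages and syntactic congruences.

PAPER PROOF of `recog`.  Use a nondeterministic automaton with states `Q = {L : List T // L.length
<= m}` (finite as `T` is finite).  Transition from `q` to `q'` reading `e`: either `q'.1 = q.1 ++ [θ [e]]` (a new
factor is started), or `q.1 = L ++ [t]` and `q'.1 = L ++ [t * θ [e]]` (the last factor is
extended).  `run : List E → Q → Q → Prop`, `run [] q q' := q = q'`,
`run (e :: w) q q' := ∃ q'', step q e q'' ∧ run w q'' q'`; `run (u ++ v) q q' ↔ ∃ q'', run u q q''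
∧ run v q'' q'`.  By reverse induction on `w`:
`run w [] L ↔ ∃ ws, (∀ u ∈ ws, u ≠ []) ∧ ws.flatten = w ∧ ws.map θ = L`  (for `L` of length `<= m`;
all initial runs have length `<= m` since lengths do not decrease along a run).
So `K w ↔ ∃ L : Q, L.1.length = m ∧ L.1 ∈ C ∧ run w [] L`.  Take `X = (Q → Q → Prop)` (finite),
`Φ w = run w`.  If `run w = run w'` then `run (a ++ w ++ b) = run (a ++ w' ++ b)` as both are
compositions of relations.

PAPER PROOF of `syntactic`.  Let `Kbar x := ∃ w, w ≠ [] ∧ K w ∧ word w = x` for `x : IG S`.  By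
`IG.word_eq_closed`, for `w ≠ []`: `Kbar (word w) ↔ K w`.  Let `x ~ y` iff for all `a b : IG S`,
`Kbar (a * x * b) ↔ Kbar (a * y * b)`.  This is a congruence (`Con (IG S)`); `F :=` its quotient, a
monoid, `φ` the quotient map (`Con.mk'`).  `F` is finite: choose for every `x : IG S` a nonempty
word `w_x` with `word w_x = x` (`IG.exists_word`); if `Φ w_x = Φ w_y` then `x ~ y`
(write `a = word wa`, `b = word wb`, `wa, wb ≠ []`, and use `hΦ`), so `F` is a quotient
of the range of `x ↦ Φ w_x` which is finite (e.g. `Finite.of_surjective` from the subtype of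
`X` of values, or an injection `F → X` through `Quotient.out`).  Taking `a = b = 1`,
`φ (word s) = φ (word t)` implies `K s ↔ K t`.
-/

namespace Pool.Agent.IGP

/-- states: lists of values of length at most `m` -/
abbrev Recog.Q (T : Type) (m : ℕ) : Type := {L : List T // L.length ≤ m}

/-- transitions: a new factor is started or the last factor is extended -/
def Recog.stepR {E T : Type} [Monoid T] (θ : List E → T) (m : ℕ) (e : E) (q q' : Recog.Q T m) :
    Prop :=
  q'.1 = q.1 ++ [θ [e]] ∨ ∃ L t, q.1 = L ++ [t] ∧ q'.1 = L ++ [t * θ [e]]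

/-- the runs of the automaton -/
def Recog.run {E T : Type} [Monoid T] (θ : List E → T) (m : ℕ) :
    List E → Recog.Q T m → Recog.Q T m → Prop
  | [], q, q' => q = q'
  | e :: w, q, q' => ∃ q'', Recog.stepR θ m e q q'' ∧ Recog.run θ m w q'' q'

theorem Recog.run_append {E T : Type} [Monoid T] (θ : List E → T) (m : ℕ) (u v : List E)
    (q q' : Recog.Q T m) :
    Recog.run θ m (u ++ v) q q' ↔ ∃ q'', Recog.run θ m u q q'' ∧ Recog.run θ m v q'' q' := by
  induction u generalizing q with
  | nil =>
    simp only [List.nil_append, Recog.run]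
    constructor
    · intro h; exact ⟨q, rfl, h⟩
    · rintro ⟨_, rfl, h⟩; exact h
  | cons e u ih =>
    simp only [List.cons_append, Recog.run]
    constructor
    · rintro ⟨q1, h1, h2⟩
      obtain ⟨q2, h3, h4⟩ := (ih q1).1 h2
      exact ⟨q2, ⟨q1, h1, h3⟩, h4⟩
    · rintro ⟨q2, ⟨q1, h1, h3⟩, h4⟩
      exact ⟨q1, h1, (ih q1).2 ⟨q2, h3, h4⟩⟩

theorem Recog.run_iff {E T : Type} [Monoid T] (θ : List E → T)
    (hθ : ∀ u v, θ (u ++ v) = θ u * θ v) (m : ℕ) (w : List E) :
    ∀ L : Recog.Q T m, Recog.run θ m w ⟨[], Nat.zero_le _⟩ L ↔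
      ∃ ws : List (List E), (∀ u ∈ ws, u ≠ []) ∧ ws.flatten = w ∧ ws.map θ = L.1 := by
  induction w using List.reverseRecOn with
  | nil =>
    intro L
    simp only [Recog.run]
    constructor
    · rintro rfl
      exact ⟨[], by simp, rfl, rfl⟩
    · rintro ⟨ws, h1, h2, h3⟩
      have h4 : ws = [] := by
        rcases ws with _ | ⟨u, ws⟩
        · rfl
        · exfalso
          rw [List.flatten_cons, List.append_eq_nil_iff] at h2
          exact h1 u (by simp) h2.1
      rw [h4] at h3
      apply Subtype.ext
      exact h3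
  | append_singleton v e ih =>
    intro L
    rw [Recog.run_append]
    constructor
    · rintro ⟨q, h1, q', h2, h3⟩
      have h3' : q' = L := h3
      subst h3'
      obtain ⟨ws, k1, k2, k3⟩ := (ih q).1 h1
      rcases h2 with h2 | ⟨L0, t, h2, h4⟩
      · refine ⟨ws ++ [[e]], ?_, ?_, ?_⟩
        · intro u hu
          rw [List.mem_append, List.mem_singleton] at hu
          rcases hu with hu | rfl
          · exact k1 u hu
          · simp
        · rw [List.flatten_append, k2]; simp
        · rw [List.map_append, k3, h2]; rfl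
      · rw [h2] at k3
        rw [List.map_eq_append_iff] at k3
        obtain ⟨ws0, us, rfl, k4, k5⟩ := k3
        rw [List.map_eq_singleton_iff] at k5
        obtain ⟨u, rfl, k6⟩ := k5
        refine ⟨ws0 ++ [u ++ [e]], ?_, ?_, ?_⟩
        · intro x hx
          rw [List.mem_append, List.mem_singleton] at hx
          rcases hx with hx | rfl
          · exact k1 x (by simp [hx])
          · simp
        · rw [← k2]; simp
        · rw [h4, List.map_append, k4]
          simp only [List.map_cons, List.map_nil]
          rw [hθ, k6]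
    · rintro ⟨ws, k1, k2, k3⟩
      rcases List.eq_nil_or_concat ws with rfl | ⟨ws0, u, rfl⟩
      · simp at k2
      · have hu : u ≠ [] := k1 u (by simp)
        rcases List.eq_nil_or_concat u with rfl | ⟨u', e', rfl⟩
        · exact absurd rfl hu
        · simp only [List.concat_eq_append] at k1 k2 k3 hu
          rw [List.flatten_append] at k2
          simp only [List.flatten_cons, List.flatten_nil, List.append_nil] at k2
          rw [← List.append_assoc] at k2
          have k4 := List.append_inj' k2 rfl
          have he : e' = e := by simpa using k4.2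
          subst he
          have hlen : (ws0.map θ).length + 1 ≤ m := by
            have := L.2
            rw [← k3] at this
            simpa using this
          by_cases hu' : u' = []
          · subst hu'
            refine ⟨⟨ws0.map θ, by omega⟩, (ih _).2 ⟨ws0, ?_, ?_, rfl⟩, L, Or.inl ?_, rfl⟩
            · intro x hx
              exact k1 x (by simp [hx])
            · simpa using k4.1
            · rw [← k3]; simp
          · refine ⟨⟨(ws0 ++ [u']).map θ, by simpa using hlen⟩,
              (ih _).2 ⟨ws0 ++ [u'], ?_, ?_, rfl⟩, L, Or.inr ⟨ws0.map θ, θ u', ?_, ?_⟩, rfl⟩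
            · intro x hx
              rw [List.mem_append, List.mem_singleton] at hx
              rcases hx with hx | rfl
              · exact k1 x (by simp [hx])
              · exact hu'
            · rw [← k4.1]; simp
            · simp
            · rw [← k3, ← hθ]; simp

theorem recog {E T : Type} [Monoid T] [Finite T] (θ : List E → T)
    (hθ : ∀ u v, θ (u ++ v) = θ u * θ v) (m : ℕ) (C : Set (List T)) (K : List E → Prop)
    (hK : ∀ w, K w ↔ ∃ ws : List (List E), (∀ u ∈ ws, u ≠ []) ∧ ws.flatten = w ∧
      ws.length = m ∧ ws.map θ ∈ C) :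
    ∃ (X : Type) (_ : Finite X) (Φ : List E → X), ∀ w w', Φ w = Φ w' →
      ∀ a b, (K (a ++ w ++ b) ↔ K (a ++ w' ++ b)) := by
  have hfin : Finite (Recog.Q T m) := (List.finite_length_le T m).to_subtype
  refine ⟨Recog.Q T m → Recog.Q T m → Prop, inferInstance, Recog.run θ m, ?_⟩
  intro w w' hw a b
  have key : ∀ w, K w ↔ ∃ L : Recog.Q T m, L.1.length = m ∧ L.1 ∈ C ∧
      Recog.run θ m w ⟨[], Nat.zero_le _⟩ L := by
    intro w
    rw [hK]
    constructor
    · rintro ⟨ws, h1, h2, h3, h4⟩
      have hl : (ws.map θ).length = m := by simpa using h3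
      exact ⟨⟨ws.map θ, hl.le⟩, hl, h4, (Recog.run_iff θ hθ m w _).2 ⟨ws, h1, h2, rfl⟩⟩
    · rintro ⟨L, h1, h2, h3⟩
      obtain ⟨ws, k1, k2, k3⟩ := (Recog.run_iff θ hθ m w _).1 h3
      refine ⟨ws, k1, k2, ?_, ?_⟩
      · rw [← k3] at h1
        simpa using h1
      · rw [k3]; exact h2
  rw [key, key]
  have h5 : ∀ q q', Recog.run θ m (a ++ w ++ b) q q' ↔ Recog.run θ m (a ++ w' ++ b) q q' := by
    intro q q'
    simp only [Recog.run_append]
    rw [hw]
  simp only [h5]

variable {S : Type} [Monoid S]

theorem syntactic (K : List (Idem S) → Prop)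
    (hK : ∀ w w', IG.Step w w' → (K w ↔ K w')) (X : Type) [Finite X]
    (Φ : List (Idem S) → X)
    (hΦ : ∀ w w', Φ w = Φ w' → ∀ a b, (K (a ++ w ++ b) ↔ K (a ++ w' ++ b))) :
    ∃ (F : Type) (_ : Monoid F) (_ : Finite F) (φ : IG S →* F),
      ∀ s t : List (Idem S), s ≠ [] → t ≠ [] → K s → ¬ K t →
        φ (IG.word s) ≠ φ (IG.word t) := by
  classical
  let Kbar : IG S → Prop := fun x => ∃ w, w ≠ [] ∧ K w ∧ IG.word w = x
  have hKbar : ∀ w, w ≠ [] → (Kbar (IG.word w) ↔ K w) := by
    intro w hw
    constructor
    · rintro ⟨w', h1, h2, h3⟩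
      exact (IG.word_eq_closed hK h1 hw h3).1 h2
    · intro h
      exact ⟨w, hw, h, rfl⟩
  let c : Con (IG S) :=
    { r := fun x y => ∀ a b, Kbar (a * x * b) ↔ Kbar (a * y * b)
      iseqv := ⟨fun x a b => Iff.rfl, fun h a b => (h a b).symm,
        fun h1 h2 a b => (h1 a b).trans (h2 a b)⟩
      mul' := by
        intro w x y z h1 h2 a b
        have e1 : a * (w * y) * b = a * w * (y * b) := by simp only [mul_assoc]
        have e2 : a * x * (y * b) = (a * x) * y * b := by simp only [mul_assoc]
        have e3 : (a * x) * z * b = a * (x * z) * b := by simp only [mul_assoc]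
        rw [e1, h1 a (y * b), e2, h2 (a * x) b, e3] }
  have hc : ∀ x y : IG S, c x y ↔ ∀ a b, Kbar (a * x * b) ↔ Kbar (a * y * b) :=
    fun x y => Iff.rfl
  choose W hW1 hW2 using fun x : IG S => IG.exists_word x
  have hrel : ∀ x y : IG S, Φ (W x) = Φ (W y) → c x y := by
    intro x y hxy
    rw [hc]
    intro a b
    have h1 : ∀ z : IG S, a * z * b = IG.word (W a ++ W z ++ W b) := by
      intro z
      rw [IG.word_append, IG.word_append, hW2, hW2, hW2]
    have h2 : ∀ z : IG S, W a ++ W z ++ W b ≠ [] := by
      intro z h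
      rw [List.append_eq_nil_iff] at h
      exact hW1 b h.2
    rw [h1, h1, hKbar _ (h2 x), hKbar _ (h2 y)]
    exact hΦ _ _ hxy _ _
  have hfin : Finite c.Quotient := by
    have hsurj : ∀ q : c.Quotient, ∃ x : IG S, (x : c.Quotient) = q := by
      intro q
      induction q using Con.induction_on with
      | H x => exact ⟨x, rfl⟩
    choose r hr using hsurj
    refine Finite.of_injective (fun q : c.Quotient => Φ (W (r q))) ?_
    intro q q' h
    rw [← hr q, ← hr q']
    exact (Con.eq c).2 (hrel _ _ h)
  refine ⟨c.Quotient, inferInstance, hfin, c.mk', ?_⟩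
  intro s t hs ht hKs hKt h
  have h1 : c (IG.word s) (IG.word t) := (Con.eq c).1 h
  have h2 := (hc _ _).1 h1 1 1
  rw [one_mul, one_mul, mul_one, mul_one, hKbar s hs, hKbar t ht] at h2
  exact hKt (h2.1 hKs)

end Pool.Agent.IGP
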