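import Mathlib
import Pool.Agent.IGP.Basic
import Pool.Agent.IGP.Reg
import Pool.Agent.IGP.Recog
import Pool.Agent.IGP.MoveLemmas

/-! MODULE D (Lang).  The language `LangK` of words having a factorisation into regular words,
valid, whose tuple of values is move-equivalent to a given tuple.  It is closed under steps in both
directions and recognisable.

PAPER PROOF of `langK_step`.  Let `w = p ++ e :: f :: q`, `w' = p ++ g :: q`, `g = ef`, `(e,f)`
basic.

(<-) `w'` has a factorisation `ws'`; the letter `g` lies in one factor `a ++ g :: b`; replace this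
factor by `a ++ e :: f :: b`: regular by `regW_step_iff`, same product, same `word`.

(->) `w` has a factorisation `ws` (all factors nonempty as they are regular).  Either `e, f` lie in
the same factor: replace it (regW_step_iff, word_step).  Or `ws = A ++ (a ++ [e]) :: (f :: b) :: B`.
Write `u1 = a ++ [e]`, `u2 = f :: b`; `rk (prodW u1 * prodW u2)` is smaller than both ranks.

 Case I: there is `c` with `e f c = e` (cases `ef = e`: `c = 1`; `fe = e`: `c = e`).
 New factors: `a ++ [g]` and `b`.  `rk (prodW (a ++ [g])) = rk (prodW u1)` (`prodW a * e * f * c =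
 prodW a * e`).  `a ++ [g]` is regular: `u1 ++ [f]` is regular (the rank does not drop) and steps
 to `a ++ [g]`.  The letter of rank `rk (prodW u2)` in `f :: b` is not `f`: if `rk f = rk (f *
 prodW b)` then `f * prodW b * c' = f` for some `c'`, so `rk (prodW u1 * prodW u2) >= rk (prodW a *
 e * f * prodW b * c') = rk (prodW a * e * f) = rk (prodW u1)`, contradiction.  So it is a letter
 `d` of `b`, and `rk (prodW u2) <= rk (prodW b) <= rk d = rk (prodW u2)`.  So `b` is regular and
 `rk (f * prodW b) = rk (prodW b)`.  The tuple of the new factorisation is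
 `(.., θ(u1) θ(x_f), θ(b), ..)` which is one move away from `(.., θ(u1), θ(x_f) θ(b), ..)`:
 `Move.mk` with `t = θ (word u1)`, `t' = θ (word b)`, `e := f`.
 (`θ (word (a ++ [g])) = θ (word a * x_e * x_f)`.)
 Validity of the new factorisation follows from `moveEq_valid` (note
 `(ws.map (θ ∘ word)).map ρ = ws.map prodW`).
 Case II: there is `c` with `c e f = f` (cases `ef = f`: `c = 1`; `fe = f`: `c = f`).  Dual: the
 new factors are `a` and `g :: b`.
Splitting lemma (induction on ws): if `ws.flatten = p ++ e :: f :: q`, all factors nonempty, then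
`∃ A a b B, ws = A ++ (a ++ e :: f :: b) :: B ∧ p = A.flatten ++ a ∧ q = b ++ B.flatten`, or
`∃ A a b B, ws = A ++ (a ++ [e]) :: (f :: b) :: B ∧ p = A.flatten ++ a ∧ q = b ++ B.flatten`.

PAPER PROOF of `langK_sep`.  `IsRegW rk u` is determined by `prodW u` and the set of letters of
`u`.  Let `T' = T × Set (Idem S)` with product `(t, A) (t', A') = (t t', A ∪ A')` (finite), `θ' u =
(θ (word u), letters of u)`.  With `m = L.length`, `C = {L' : List T' | every entry (t, A) satisfies
∃ e ∈ A, rk e = rk (ρ t); Valid rk (L'.map (ρ ∘ fst)); MoveEq rk ρ θ (L'.map fst) L}`; moves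
preserve the length (`moveEq_rigid`), so `recog` applies to `K = LangK ..`.  Then `syntactic`.
-/

namespace Pool.Agent.IGP

variable {S : Type} [Monoid S] {rk : S → ℕ} {T : Type} [Monoid T]

/-- words having a factorisation into regular factors, valid, with tuple move-equivalent to `L`. -/
def LangK (rk : S → ℕ) (ρ : T →* S) (θ : IG S →* T) (L : List T) (w : List (Idem S)) : Prop :=
  ∃ ws : List (List (Idem S)), ws.flatten = w ∧ (∀ u ∈ ws, IsRegW rk u) ∧
    Valid rk (ws.map IG.prodW) ∧ MoveEq rk ρ θ (ws.map (fun u => θ (IG.word u))) L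

variable {ρ : T →* S} {θ : IG S →* T}

/-- locating two consecutive letters in a factorisation. -/
theorem split_two {E : Type} (e f : E) : ∀ (ws : List (List E)), (∀ u ∈ ws, u ≠ []) →
    ∀ (p q : List E), ws.flatten = p ++ e :: f :: q →
    (∃ A a b B, ws = A ++ (a ++ e :: f :: b) :: B ∧ p = A.flatten ++ a ∧ q = b ++ B.flatten) ∨
    (∃ A a b B, ws = A ++ (a ++ [e]) :: (f :: b) :: B ∧ p = A.flatten ++ a ∧
      q = b ++ B.flatten) := by
  intro ws
  induction ws with
  | nil => intro _ p q h; simp at h
  | cons u ws ih =>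
    intro hne p q h
    rw [List.flatten_cons] at h
    rw [List.append_eq_append_iff] at h
    rcases h with ⟨p', hp, hws⟩ | ⟨q', hu, hq⟩
    · -- p = u ++ p'
      rcases ih (fun v hv => hne v (List.mem_cons_of_mem _ hv)) p' q hws with
        ⟨A, a, b, B, h1, h2, h3⟩ | ⟨A, a, b, B, h1, h2, h3⟩
      · left
        exact ⟨u :: A, a, b, B, by rw [h1]; rfl, by rw [hp, h2]; simp, h3⟩
      · right
        exact ⟨u :: A, a, b, B, by rw [h1]; rfl, by rw [hp, h2]; simp, h3⟩
    · -- u = p ++ q', e :: f :: q = q' ++ ws.flatten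
      rcases q' with _ | ⟨e', _ | ⟨f', q''⟩⟩
      · -- q' = []: u = p
        have h1 : ws.flatten = [] ++ e :: f :: q := by simpa using hq.symm
        rcases ih (fun v hv => hne v (List.mem_cons_of_mem _ hv)) [] q h1 with
          ⟨A, a, b, B, h1, h2, h3⟩ | ⟨A, a, b, B, h1, h2, h3⟩
        · left
          refine ⟨u :: A, a, b, B, by rw [h1]; rfl, ?_, h3⟩
          rw [List.append_nil] at hu
          rw [List.flatten_cons, List.append_assoc, ← h2, hu, List.append_nil]
        · right
          refine ⟨u :: A, a, b, B, by rw [h1]; rfl, ?_, h3⟩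
          rw [List.append_nil] at hu
          rw [List.flatten_cons, List.append_assoc, ← h2, hu, List.append_nil]
      · -- q' = [e']
        simp only [List.cons_append, List.nil_append, List.cons.injEq] at hq
        obtain ⟨rfl, hq⟩ := hq
        rcases ws with _ | ⟨v, ws⟩
        · simp at hq
        · have hv := hne v (by simp)
          rcases v with _ | ⟨f', v⟩
          · exact absurd rfl hv
          · simp only [List.flatten_cons, List.cons_append, List.cons.injEq] at hq
            obtain ⟨rfl, hq⟩ := hq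
            right
            exact ⟨[], p, v, ws, by rw [hu]; rfl, by simp, hq⟩
      · simp only [List.cons_append, List.cons.injEq] at hq
        obtain ⟨rfl, rfl, hq⟩ := hq
        left
        exact ⟨[], p, q'', ws, by rw [hu]; rfl, by simp, hq⟩

/-- locating one letter in a factorisation. -/
theorem split_one {E : Type} (e : E) : ∀ (ws : List (List E)),
    ∀ (p q : List E), ws.flatten = p ++ e :: q →
    (∃ A a b B, ws = A ++ (a ++ e :: b) :: B ∧ p = A.flatten ++ a ∧ q = b ++ B.flatten) := by
  intro ws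
  induction ws with
  | nil => intro p q h; simp at h
  | cons u ws ih =>
    intro p q h
    rw [List.flatten_cons] at h
    rw [List.append_eq_append_iff] at h
    rcases h with ⟨p', hp, hws⟩ | ⟨q', hu, hq⟩
    · obtain ⟨A, a, b, B, h1, h2, h3⟩ := ih p' q hws
      exact ⟨u :: A, a, b, B, by rw [h1]; rfl, by rw [hp, h2]; simp, h3⟩
    · rcases q' with _ | ⟨e', q''⟩
      · have h1 : ws.flatten = [] ++ e :: q := by simpa using hq.symm
        obtain ⟨A, a, b, B, h1, h2, h3⟩ := ih [] q h1
        refine ⟨u :: A, a, b, B, by rw [h1]; rfl, ?_, h3⟩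
        rw [List.append_nil] at hu
        rw [List.flatten_cons, List.append_assoc, ← h2, hu, List.append_nil]
      · simp only [List.cons_append, List.cons.injEq] at hq
        obtain ⟨rfl, hq⟩ := hq
        exact ⟨[], p, q'', ws, by rw [hu]; rfl, by simp, hq⟩

theorem IsRegW.ne_nil {w : List (Idem S)} (h : IsRegW rk w) : w ≠ [] := by
  obtain ⟨e, he, _⟩ := h
  exact List.ne_nil_of_mem he

theorem map_rho (hρ : ρ.comp θ = IG.pi) (ws : List (List (Idem S))) :
    (ws.map (fun u => θ (IG.word u))).map ρ = ws.map IG.prodW := by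
  rw [List.map_map]
  apply List.map_congr_left
  intro u _
  have : ρ (θ (IG.word u)) = IG.pi (IG.word u) := by rw [← hρ]; rfl
  simp only [Function.comp, this, IG.pi_word]

/-- replacing one factor by another one with the same value. -/
theorem langK_replace (L : List T) {A B : List (List (Idem S))} {u v : List (Idem S)}
    (huv : IG.word u = IG.word v) (hreg : IsRegW rk v)
    (h2 : ∀ x ∈ A ++ u :: B, IsRegW rk x) (h3 : Valid rk ((A ++ u :: B).map IG.prodW))
    (h4 : MoveEq rk ρ θ ((A ++ u :: B).map (fun u => θ (IG.word u))) L) :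
    LangK rk ρ θ L (A ++ v :: B).flatten := by
  refine ⟨A ++ v :: B, rfl, ?_, ?_, ?_⟩
  · intro x hx
    rw [List.mem_append, List.mem_cons] at hx
    rcases hx with hx | rfl | hx
    · exact h2 x (by simp [hx])
    · exact hreg
    · exact h2 x (by simp [hx])
  · have : (A ++ v :: B).map IG.prodW = (A ++ u :: B).map IG.prodW := by
      simp only [List.map_append, List.map_cons]
      rw [← IG.pi_word u, ← IG.pi_word v, huv]
    rw [this]; exact h3
  · have : (A ++ v :: B).map (fun u => θ (IG.word u)) =
        (A ++ u :: B).map (fun u => θ (IG.word u)) := by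
      simp only [List.map_append, List.map_cons, huv]
    rw [this]; exact h4

/-- pushing a letter from the right factor to the left factor. -/
theorem caseI_aux (h : IsRank rk) {a b : List (Idem S)} {e f g : Idem S}
    (hb : IsBasic e.1 f.1) (hg : g.1 = e.1 * f.1) (c : S) (hc : e.1 * f.1 * c = e.1)
    (h1 : IsRegW rk (a ++ [e])) (h2 : IsRegW rk (f :: b))
    (hd : Drop rk (IG.prodW (a ++ [e])) (IG.prodW (f :: b))) :
    IsRegW rk (a ++ [g]) ∧ IsRegW rk b ∧
      rk (IG.prodW (a ++ [e]) * f.1) = rk (IG.prodW (a ++ [e])) ∧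
      rk (f.1 * IG.prodW b) = rk (IG.prodW b) := by
  obtain ⟨hd1, hd2⟩ := hd
  have hr1 : rk (IG.prodW (a ++ [e]) * f.1) = rk (IG.prodW (a ++ [e])) := by
    apply le_antisymm (h.mul_le_left _ _)
    have : IG.prodW (a ++ [e]) * f.1 * c = IG.prodW (a ++ [e]) := by
      simp only [IG.prodW_append, IG.prodW_cons, IG.prodW_nil, mul_one]
      calc IG.prodW a * e.1 * f.1 * c = IG.prodW a * (e.1 * f.1 * c) := by
            simp only [mul_assoc]
        _ = IG.prodW a * e.1 := by rw [hc]
    calc rk (IG.prodW (a ++ [e])) = rk (IG.prodW (a ++ [e]) * f.1 * c) := by rw [this]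
      _ ≤ rk (IG.prodW (a ++ [e]) * f.1) := h.mul_le_left _ _
  have hreg1 : IsRegW rk (a ++ [e] ++ [f]) := by
    obtain ⟨d, hd, hdr⟩ := h1
    refine ⟨d, by simp only [List.mem_append] at hd ⊢; exact Or.inl hd, ?_⟩
    rw [hdr, IG.prodW_append (a ++ [e]) [f]]
    simp only [IG.prodW_cons, IG.prodW_nil, mul_one]
    rw [hr1]
  have hstep : IG.Step (a ++ e :: f :: []) (a ++ g :: []) := IG.Step.mk a [] e f g hb hg
  have hregg : IsRegW rk (a ++ [g]) := by
    have := (regW_step_iff h hstep).1 (by simpa using hreg1)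
    exact this
  -- the special letter of `f :: b` is in `b`
  obtain ⟨d, hd, hdr⟩ := h2
  have hdb : d ∈ b := by
    rw [List.mem_cons] at hd
    rcases hd with rfl | hd
    · exfalso
      rw [IG.prodW_cons] at hdr
      obtain ⟨c', hc'⟩ := h.stab_right d.1 (IG.prodW b) hdr.symm
      have h5 : rk (IG.prodW (a ++ [e])) ≤ rk (IG.prodW (a ++ [e]) * IG.prodW (d :: b)) := by
        calc rk (IG.prodW (a ++ [e])) = rk (IG.prodW (a ++ [e]) * d.1) := hr1.symm
          _ = rk (IG.prodW (a ++ [e]) * IG.prodW (d :: b) * c') := by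
              rw [IG.prodW_cons]
              congr 1
              rw [mul_assoc, hc']
          _ ≤ _ := h.mul_le_left _ _
      omega
    · exact hd
  have hr2 : rk (IG.prodW (f :: b)) ≤ rk (IG.prodW b) := by
    rw [IG.prodW_cons]; exact h.mul_le_right _ _
  have hr3 : rk (IG.prodW b) ≤ rk d.1 := by
    obtain ⟨s, t, rfl⟩ := List.append_of_mem hdb
    rw [IG.prodW_append, IG.prodW_cons]
    exact (h.mul_le_right _ _).trans (h.mul_le_left _ _)
  have hr4 : rk d.1 = rk (IG.prodW b) := by omega
  refine ⟨hregg, ⟨d, hdb, hr4⟩, hr1, ?_⟩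
  rw [← IG.prodW_cons, ← hdr, hr4]

/-- pushing a letter from the left factor to the right factor. -/
theorem caseII_aux (h : IsRank rk) {a b : List (Idem S)} {e f g : Idem S}
    (hb : IsBasic e.1 f.1) (hg : g.1 = e.1 * f.1) (c : S) (hc : c * (e.1 * f.1) = f.1)
    (h1 : IsRegW rk (a ++ [e])) (h2 : IsRegW rk (f :: b))
    (hd : Drop rk (IG.prodW (a ++ [e])) (IG.prodW (f :: b))) :
    IsRegW rk a ∧ IsRegW rk (g :: b) ∧
      rk (IG.prodW a * e.1) = rk (IG.prodW a) ∧
      rk (e.1 * IG.prodW (f :: b)) = rk (IG.prodW (f :: b)) := by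
  obtain ⟨hd1, hd2⟩ := hd
  have hr1 : rk (e.1 * IG.prodW (f :: b)) = rk (IG.prodW (f :: b)) := by
    apply le_antisymm (h.mul_le_right _ _)
    have : c * (e.1 * IG.prodW (f :: b)) = IG.prodW (f :: b) := by
      simp only [IG.prodW_cons]
      calc c * (e.1 * (f.1 * IG.prodW b)) = c * (e.1 * f.1) * IG.prodW b := by
            simp only [mul_assoc]
        _ = f.1 * IG.prodW b := by rw [hc]
    calc rk (IG.prodW (f :: b)) = rk (c * (e.1 * IG.prodW (f :: b))) := by rw [this]
      _ ≤ rk (e.1 * IG.prodW (f :: b)) := h.mul_le_right _ _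
  have hreg1 : IsRegW rk (e :: f :: b) := by
    obtain ⟨d, hd, hdr⟩ := h2
    refine ⟨d, List.mem_cons_of_mem _ hd, ?_⟩
    rw [hdr, IG.prodW_cons e, hr1]
  have hstep : IG.Step ([] ++ e :: f :: b) ([] ++ g :: b) := IG.Step.mk [] b e f g hb hg
  have hregg : IsRegW rk (g :: b) := (regW_step_iff h hstep).1 hreg1
  obtain ⟨d, hd, hdr⟩ := h1
  have hda : d ∈ a := by
    rw [List.mem_append, List.mem_singleton] at hd
    rcases hd with hd | rfl
    · exact hd
    · exfalso
      have hpa : IG.prodW (a ++ [d]) = IG.prodW a * d.1 := by simp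
      rw [hpa] at hdr
      obtain ⟨c', hc'⟩ := h.stab_left (IG.prodW a) d.1 hdr.symm
      have h5 : rk (IG.prodW (f :: b)) ≤ rk (IG.prodW (a ++ [d]) * IG.prodW (f :: b)) := by
        calc rk (IG.prodW (f :: b)) = rk (d.1 * IG.prodW (f :: b)) := hr1.symm
          _ = rk (c' * (IG.prodW (a ++ [d]) * IG.prodW (f :: b))) := by
              rw [hpa]
              congr 1
              rw [← mul_assoc, hc']
          _ ≤ _ := h.mul_le_right _ _
      omega
  have hpa : IG.prodW (a ++ [e]) = IG.prodW a * e.1 := by simp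
  have hr2 : rk (IG.prodW (a ++ [e])) ≤ rk (IG.prodW a) := by
    rw [hpa]; exact h.mul_le_left _ _
  have hr3 : rk (IG.prodW a) ≤ rk d.1 := by
    obtain ⟨s, t, rfl⟩ := List.append_of_mem hda
    rw [IG.prodW_append, IG.prodW_cons]
    exact (h.mul_le_right _ _).trans (h.mul_le_left _ _)
  have hr4 : rk d.1 = rk (IG.prodW a) := by omega
  refine ⟨⟨d, hda, hr4⟩, hregg, ?_, hr1⟩
  rw [← hpa, ← hdr, hr4]

theorem langK_step_forward (h : IsRank rk) (hρ : ρ.comp θ = IG.pi) (L : List T)
    (p q : List (Idem S)) (e f g : Idem S) (hb : IsBasic e.1 f.1) (hg : g.1 = e.1 * f.1)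
    (hK : LangK rk ρ θ L (p ++ e :: f :: q)) : LangK rk ρ θ L (p ++ g :: q) := by
  obtain ⟨ws, h1, h2, h3, h4⟩ := hK
  have hstepw : ∀ a b : List (Idem S), IG.word (a ++ e :: f :: b) = IG.word (a ++ g :: b) :=
    fun a b => IG.word_step (IG.Step.mk a b e f g hb hg)
  rcases split_two e f ws (fun u hu => (h2 u hu).ne_nil) p q h1 with
    ⟨A, a, b, B, hws, hp, hq⟩ | ⟨A, a, b, B, hws, hp, hq⟩
  · subst hws
    have hfl : p ++ g :: q = (A ++ (a ++ g :: b) :: B).flatten := by
      rw [hp, hq]; simp
    rw [hfl]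
    exact langK_replace L (hstepw a b)
      ((regW_step_iff h (IG.Step.mk a b e f g hb hg)).1 (h2 _ (by simp))) h2 h3 h4
  · subst hws
    have hr1 : IsRegW rk (a ++ [e]) := h2 _ (by simp)
    have hr2 : IsRegW rk (f :: b) := h2 _ (by simp)
    have hdrop : Drop rk (IG.prodW (a ++ [e])) (IG.prodW (f :: b)) := by
      have h5 : Valid rk (A.map IG.prodW ++ IG.prodW (a ++ [e]) :: IG.prodW (f :: b) ::
        B.map IG.prodW) := by simpa using h3
      unfold Valid at h5
      rw [List.isChain_append] at h5
      have h6 := h5.2.1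
      rw [List.isChain_cons_cons] at h6
      exact h6.1
    have hxf : θ (IG.X f.1) = θ (IG.x f) := by rw [IG.X_idem]
    have hxe : θ (IG.X e.1) = θ (IG.x e) := by rw [IG.X_idem]
    have hword_g : IG.word (a ++ [g]) = IG.word (a ++ [e]) * IG.x f := by
      rw [← hstepw a []]; simp [mul_assoc]
    have hword_g' : IG.word (g :: b) = IG.x e * IG.word (f :: b) := by
      have := hstepw [] b
      simp only [List.nil_append] at this
      rw [← this]; simp
    have hpiθ : ∀ u, ρ (θ (IG.word u)) = IG.prodW u := by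
      intro u
      rw [← IG.pi_word, ← hρ]; rfl
    -- common finish
    have finish : ∀ (u v : List (Idem S)), IsRegW rk u → IsRegW rk v →
        p ++ g :: q = (A ++ u :: v :: B).flatten →
        MoveEq rk ρ θ ((A ++ u :: v :: B).map (fun u => θ (IG.word u)))
          ((A ++ (a ++ [e]) :: (f :: b) :: B).map (fun u => θ (IG.word u))) →
        LangK rk ρ θ L (p ++ g :: q) := by
      intro u v hu hv hfl hmove
      refine ⟨A ++ u :: v :: B, hfl.symm, ?_, ?_, Relation.EqvGen.trans _ _ _ hmove h4⟩
      · intro x hx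
        simp only [List.mem_append, List.mem_cons] at hx
        rcases hx with hx | rfl | rfl | hx
        · exact h2 x (by simp [hx])
        · exact hu
        · exact hv
        · exact h2 x (by simp [hx])
      · have := moveEq_valid h hρ hmove
        rw [map_rho hρ, map_rho hρ] at this
        exact this.2 h3
    by_cases hcase : ∃ c, e.1 * f.1 * c = e.1
    · obtain ⟨c, hc⟩ := hcase
      obtain ⟨k1, k2, k3, k4⟩ := caseI_aux h hb hg c hc hr1 hr2 hdrop
      apply finish (a ++ [g]) b k1 k2
      · rw [hp, hq]; simp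
      · apply Relation.EqvGen.rel
        have hm := Move.mk (rk := rk) (ρ := ρ) (θ := θ) (A.map (fun u => θ (IG.word u)))
          (B.map (fun u => θ (IG.word u))) (θ (IG.word (a ++ [e]))) (θ (IG.word b)) f.1 f.2
          (by rw [hpiθ]; exact k3) (by rw [hpiθ]; exact k4)
          (by
            rw [hpiθ, hpiθ, mul_assoc, ← IG.prodW_cons]
            exact hdrop.1)
          (by
            rw [hpiθ, hpiθ, mul_assoc, ← IG.prodW_cons, ← k4, ← IG.prodW_cons]
            exact hdrop.2)
        have e1 : θ (IG.word (a ++ [g])) = θ (IG.word (a ++ [e])) * θ (IG.X f.1) := by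
          rw [hword_g, map_mul, hxf]
        have e2 : θ (IG.word (f :: b)) = θ (IG.X f.1) * θ (IG.word b) := by
          rw [IG.word_cons, map_mul, hxf]
        simp only [List.map_append, List.map_cons]
        rw [e1, e2]
        exact hm
    · have hcase2 : ∃ c, c * (e.1 * f.1) = f.1 := by
        rcases hb with hb | hb | hb | hb
        · exact absurd ⟨1, by rw [mul_one, hb]⟩ hcase
        · exact ⟨1, by rw [one_mul, hb]⟩
        · exact absurd ⟨e.1, by rw [mul_assoc, hb, e.2]⟩ hcase
        · exact ⟨f.1, by rw [← mul_assoc, hb, f.2]⟩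
      obtain ⟨c, hc⟩ := hcase2
      obtain ⟨k1, k2, k3, k4⟩ := caseII_aux h hb hg c hc hr1 hr2 hdrop
      apply finish a (g :: b) k1 k2
      · rw [hp, hq]; simp
      · apply Relation.EqvGen.symm
        apply Relation.EqvGen.rel
        have hpa : IG.prodW (a ++ [e]) = IG.prodW a * e.1 := by simp
        have hm := Move.mk (rk := rk) (ρ := ρ) (θ := θ) (A.map (fun u => θ (IG.word u)))
          (B.map (fun u => θ (IG.word u))) (θ (IG.word a)) (θ (IG.word (f :: b))) e.1 e.2
          (by rw [hpiθ]; exact k3) (by rw [hpiθ]; exact k4)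
          (by
            rw [hpiθ, hpiθ, ← k3, ← hpa]
            exact hdrop.1)
          (by
            rw [hpiθ, hpiθ, ← hpa]
            exact hdrop.2)
        have e1 : θ (IG.word (g :: b)) = θ (IG.X e.1) * θ (IG.word (f :: b)) := by
          rw [hword_g', map_mul, hxe]
        have e2 : θ (IG.word (a ++ [e])) = θ (IG.word a) * θ (IG.X e.1) := by
          rw [IG.word_append, map_mul, hxe]; simp
        simp only [List.map_append, List.map_cons]
        rw [e1, e2]
        exact hm

theorem langK_step_backward (h : IsRank rk) (L : List T)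
    (p q : List (Idem S)) (e f g : Idem S) (hb : IsBasic e.1 f.1) (hg : g.1 = e.1 * f.1)
    (hK : LangK rk ρ θ L (p ++ g :: q)) : LangK rk ρ θ L (p ++ e :: f :: q) := by
  obtain ⟨ws, h1, h2, h3, h4⟩ := hK
  obtain ⟨A, a, b, B, hws, hp, hq⟩ := split_one g ws p q h1
  subst hws
  have hfl : p ++ e :: f :: q = (A ++ (a ++ e :: f :: b) :: B).flatten := by
    rw [hp, hq]; simp
  rw [hfl]
  exact langK_replace L (IG.word_step (IG.Step.mk a b e f g hb hg)).symm
    ((regW_step_iff h (IG.Step.mk a b e f g hb hg)).2 (h2 _ (by simp))) h2 h3 h4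

theorem langK_step (h : IsRank rk) (hρ : ρ.comp θ = IG.pi) (L : List T)
    {w w' : List (Idem S)} (hs : IG.Step w w') :
    LangK rk ρ θ L w ↔ LangK rk ρ θ L w' := by
  cases hs with
  | mk u v e f g hb hg =>
    exact ⟨langK_step_forward h hρ L u v e f g hb hg, langK_step_backward h L u v e f g hb hg⟩

/-- sets of letters, with union as multiplication -/
structure LSet (E : Type) where
  s : Set E

instance (E : Type) : Monoid (LSet E) where
  mul a b := ⟨a.s ∪ b.s⟩
  mul_assoc a b c := by
    change LSet.mk _ = LSet.mk _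
    congr 1
    exact Set.union_assoc _ _ _
  one := ⟨∅⟩
  one_mul a := by
    change LSet.mk (∅ ∪ a.s) = a
    rw [Set.empty_union]
  mul_one a := by
    change LSet.mk (a.s ∪ ∅) = a
    rw [Set.union_empty]

instance (E : Type) [Finite E] : Finite (LSet E) :=
  Finite.of_injective (fun a : LSet E => a.s) (by
    intro a b h
    cases a; cases b
    simp only at h
    rw [h])

theorem LSet.mul_s {E : Type} (a b : LSet E) : (a * b).s = a.s ∪ b.s := rfl

theorem forall₂_length {L L' : List T} (hL : MoveEq rk ρ θ L L') : L.length = L'.length := by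
  induction hL with
  | rel L L' h => cases h; simp
  | refl L => rfl
  | symm L L' _ ih => exact ih.symm
  | trans L L' L'' _ _ ih1 ih2 => exact ih1.trans ih2

theorem langK_sep [Finite S] [Finite T] (h : IsRank rk) (hρ : ρ.comp θ = IG.pi) (L : List T)
    {s t : List (Idem S)} (hs : s ≠ []) (ht : t ≠ []) (hsK : LangK rk ρ θ L s)
    (htK : ¬ LangK rk ρ θ L t) :
    ∃ (F : Type) (_ : Monoid F) (_ : Finite F) (φ : IG S →* F),
      φ (IG.word s) ≠ φ (IG.word t) := by
  let θ' : List (Idem S) → T × LSet (Idem S) := fun u => (θ (IG.word u), ⟨{e | e ∈ u}⟩)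
  have hθ' : ∀ u v, θ' (u ++ v) = θ' u * θ' v := by
    intro u v
    apply Prod.ext
    · simp [θ']
    · change LSet.mk _ = LSet.mk _
      congr 1
      ext e
      simp only [Set.mem_ofPred_eq, List.mem_append]
      exact Iff.rfl
  let C : Set (List (T × LSet (Idem S))) := {L' | (∀ x ∈ L', ∃ e ∈ x.2.s, rk e.1 = rk (ρ x.1)) ∧
    Valid rk (L'.map (fun x => ρ x.1)) ∧ MoveEq rk ρ θ (L'.map Prod.fst) L}
  have hpiθ : ∀ u, ρ (θ (IG.word u)) = IG.prodW u := by
    intro u
    rw [← IG.pi_word, ← hρ]; rfl
  have hK : ∀ w, LangK rk ρ θ L w ↔ ∃ ws : List (List (Idem S)), (∀ u ∈ ws, u ≠ []) ∧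
      ws.flatten = w ∧ ws.length = L.length ∧ ws.map θ' ∈ C := by
    intro w
    have e2 : ∀ ws : List (List (Idem S)), (ws.map θ').map (fun x => ρ x.1) =
        ws.map IG.prodW := by
      intro ws
      rw [List.map_map]
      apply List.map_congr_left
      intro u _
      exact hpiθ u
    have e3 : ∀ ws : List (List (Idem S)), (ws.map θ').map Prod.fst =
        ws.map (fun u => θ (IG.word u)) := by
      intro ws
      rw [List.map_map]
      rfl
    constructor
    · rintro ⟨ws, h1, h2, h3, h4⟩
      refine ⟨ws, fun u hu => (h2 u hu).ne_nil, h1, ?_, ?_, ?_, ?_⟩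
      · have := forall₂_length h4
        simpa using this
      · intro x hx
        rw [List.mem_map] at hx
        obtain ⟨u, hu, rfl⟩ := hx
        obtain ⟨e, he, her⟩ := h2 u hu
        exact ⟨e, he, by rw [her]; exact congrArg rk (hpiθ u).symm⟩
      · rw [e2]; exact h3
      · rw [e3]; exact h4
    · rintro ⟨ws, h1, h2, _, h4, h5, h6⟩
      refine ⟨ws, h2, ?_, by rw [← e2]; exact h5, by rw [← e3]; exact h6⟩
      intro u hu
      obtain ⟨e, he, her⟩ := h4 (θ' u) (List.mem_map_of_mem hu)
      exact ⟨e, he, by rw [her]; exact congrArg rk (hpiθ u)⟩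
  obtain ⟨X, hX, Φ, hΦ⟩ := recog θ' hθ' L.length C (LangK rk ρ θ L) hK
  obtain ⟨F, hF, hFf, φ, hφ⟩ := syntactic (LangK rk ρ θ L)
    (fun w w' hs => langK_step h hρ L hs) X Φ hΦ
  exact ⟨F, hF, hFf, φ, hφ s t hs ht hsK htK⟩

end Pool.Agent.IGP
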