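import Mathlib
import Pool.Agent.IGP.Basic
import Pool.Agent.IGP.MoveLemmas
import Pool.Agent.IGP.Lang

/-! MODULE E (Factor).  Existence of valid factorisations and the pigeonhole argument.

PAPER PROOFS.
`exists_factor`: take a factorisation of `w` into regular words with the minimal number of factors
(single letters are regular: `w = (w.map (fun e => [e])).flatten`).  If two consecutive factors
`u, v` fail to drop, then `rk (prodW u * prodW v)` equals `rk (prodW u)` or `rk (prodW v)` (it is at
most both), so `u ++ v` is regular (it contains a letter of that rank) and merging gives fewer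
factors, contradiction.  (Or: strong induction / induction on the number of factors: statement
`∀ ws regular, ∃ ws' regular, ws'.flatten = ws.flatten ∧ Valid`.)

`finite_factor`: a list has finitely many factorisations into nonempty lists (induction on `w`, or:
the number of factors is at most the length of `w` and every factor is a sublist/infix of `w`, and
the set of lists of length `<= N` over a finite set is finite; e.g. `List.finite_length_le`).

`exists_uniform`: fix a valid regular factorisation `ss` of `s`.  For all finite `(T, ρ, θ)` with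
`ρ ∘ θ = pi`: `LangK rk ρ θ (ss.map (θ ∘ word)) s` holds, so by `langK_sep` and the assumption that
no finite monoid separates, `LangK .. t` holds: there is a regular valid factorisation `ws` of `t`
with `MoveEq rk ρ θ (ws.map (θ ∘ word)) (ss.map (θ ∘ word))`.  Suppose that for every
factorisation `ws` of `t` into regular factors there is a finite `(T_ws, ρ_ws, θ_ws)` for
which this MoveEq fails.  Let `J` be the finite type of factorisations `ws` of `t` into regular
words (`finite_factor`).  Let `Θ : IG S →* (Π j : J, T_j) × S` be `Θ = ((θ_j)_j, pi)`, `T :=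
MonoidHom.mrange Θ` (finite), `θ = Θ` corestricted (`MonoidHom.mrangeRestrict`), `ρ = snd`
restricted to `T`.  There is `ws = j` with `MoveEq rk ρ θ (ws.map ..) (ss.map ..)`; apply
`MoveEq.map` with the projection `h : T →* T_j`; `ρ_j ∘ h = ρ` on `T` because every element of `T`
is `Θ x` and `ρ_j (θ_j x) = pi x`.  So MoveEq holds for `(T_j, ρ_j, θ_j)`, contradiction.
-/

namespace Pool.Agent.IGP

variable {S : Type} [Monoid S] {rk : S → ℕ}

theorem Factor.not_chain {α : Type*} {R : α → α → Prop} :
    ∀ l : List α, ¬ l.IsChain R → ∃ l1 a b l2, l = l1 ++ a :: b :: l2 ∧ ¬ R a b := by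
  intro l
  induction l with
  | nil => intro h; exact absurd List.IsChain.nil h
  | cons x l ih =>
    intro h
    rcases l with _ | ⟨y, l⟩
    · exact absurd (List.IsChain.singleton x) h
    · rw [List.isChain_cons_cons] at h
      by_cases hxy : R x y
      · obtain ⟨l1, a, b, l2, h1, h2⟩ := ih (fun hc => h ⟨hxy, hc⟩)
        exact ⟨x :: l1, a, b, l2, by rw [h1]; rfl, h2⟩
      · exact ⟨[], x, y, l, rfl, hxy⟩

theorem Factor.merge (h : IsRank rk) {u v : List (Idem S)} (hu : IsRegW rk u)
    (hv : IsRegW rk v) (hd : ¬ Drop rk (IG.prodW u) (IG.prodW v)) : IsRegW rk (u ++ v) := by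
  have h1 := h.mul_le_left (IG.prodW u) (IG.prodW v)
  have h2 := h.mul_le_right (IG.prodW u) (IG.prodW v)
  unfold Drop at hd
  by_cases h3 : rk (IG.prodW u * IG.prodW v) < rk (IG.prodW u)
  · have h4 : ¬ rk (IG.prodW u * IG.prodW v) < rk (IG.prodW v) := fun h4 => hd ⟨h3, h4⟩
    obtain ⟨e, he, her⟩ := hv
    refine ⟨e, List.mem_append.2 (Or.inr he), ?_⟩
    rw [IG.prodW_append, her]
    omega
  · obtain ⟨e, he, her⟩ := hu
    refine ⟨e, List.mem_append.2 (Or.inl he), ?_⟩
    rw [IG.prodW_append, her]
    omega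

theorem Factor.reduce (h : IsRank rk) (N : ℕ) :
    ∀ ws : List (List (Idem S)), ws.length ≤ N → (∀ u ∈ ws, IsRegW rk u) →
    ∃ ws' : List (List (Idem S)), ws'.flatten = ws.flatten ∧ (∀ u ∈ ws', IsRegW rk u) ∧
      Valid rk (ws'.map IG.prodW) := by
  induction N with
  | zero =>
    intro ws hlen hreg
    have : ws = [] := List.eq_nil_of_length_eq_zero (by omega)
    subst this
    exact ⟨[], rfl, by simp, List.IsChain.nil⟩
  | succ N ih =>
    intro ws hlen hreg
    by_cases hv : Valid rk (ws.map IG.prodW)
    · exact ⟨ws, rfl, hreg, hv⟩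
    · unfold Valid at hv
      rw [List.isChain_map] at hv
      obtain ⟨l1, u, v, l2, rfl, h2⟩ := Factor.not_chain ws hv
      obtain ⟨ws', k1, k2, k3⟩ := ih (l1 ++ (u ++ v) :: l2)
        (by
          simp only [List.length_append, List.length_cons] at hlen ⊢
          omega)
        (by
          intro x hx
          rw [List.mem_append, List.mem_cons] at hx
          rcases hx with hx | rfl | hx
          · exact hreg x (by simp [hx])
          · exact Factor.merge h (hreg u (by simp)) (hreg v (by simp)) h2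
          · exact hreg x (by simp [hx]))
      refine ⟨ws', ?_, k2, k3⟩
      rw [k1]
      simp

theorem exists_factor (h : IsRank rk) (w : List (Idem S)) :
    ∃ ws : List (List (Idem S)), ws.flatten = w ∧ (∀ u ∈ ws, IsRegW rk u) ∧
      Valid rk (ws.map IG.prodW) := by
  obtain ⟨ws, h1, h2, h3⟩ := Factor.reduce h (w.map fun e => [e]).length
    (w.map fun e => [e]) le_rfl (by
      intro u hu
      rw [List.mem_map] at hu
      obtain ⟨e, _, rfl⟩ := hu
      exact ⟨e, by simp, by simp⟩)
  refine ⟨ws, ?_, h2, h3⟩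
  rw [h1]
  clear h1 h2 h3
  induction w with
  | nil => rfl
  | cons e w ih =>
    rw [List.map_cons, List.flatten_cons, ih]
    rfl

theorem finite_factor {E : Type} (w : List E) :
    {ws : List (List E) | ws.flatten = w ∧ ∀ u ∈ ws, u ≠ []}.Finite := by
  induction w with
  | nil =>
    apply Set.Finite.subset (Set.finite_singleton ([] : List (List E)))
    rintro ws ⟨h1, h2⟩
    rw [Set.mem_singleton_iff]
    rcases ws with _ | ⟨u, ws⟩
    · rfl
    · exfalso
      rw [List.flatten_cons, List.append_eq_nil_iff] at h1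
      exact h2 u (by simp) h1.1
  | cons e w ih =>
    apply Set.Finite.subset ((ih.image (fun ws => [e] :: ws)).union
      (ih.image (fun ws => match ws with
        | [] => []
        | u :: r => (e :: u) :: r)))
    rintro ws ⟨h1, h2⟩
    rcases ws with _ | ⟨u, ws⟩
    · simp at h1
    · rcases u with _ | ⟨e', u⟩
      · exact absurd rfl (h2 [] (by simp))
      · rw [List.flatten_cons, List.cons_append, List.cons.injEq] at h1
        obtain ⟨rfl, h1⟩ := h1
        by_cases hu : u = []
        · subst hu
          left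
          exact ⟨ws, ⟨by simpa using h1, fun v hv => h2 v (by simp [hv])⟩, rfl⟩
        · right
          refine ⟨u :: ws, ⟨by simpa using h1, ?_⟩, rfl⟩
          intro v hv
          rw [List.mem_cons] at hv
          rcases hv with rfl | hv
          · exact hu
          · exact h2 v (by simp [hv])

theorem exists_uniform [Finite S] (h : IsRank rk) {s t : List (Idem S)} (hs : s ≠ [])
    (ht : t ≠ [])
    (hns : ∀ (F : Type) (_ : Monoid F) (_ : Finite F) (φ : IG S →* F),
      φ (IG.word s) = φ (IG.word t)) :
    ∃ ss ts : List (List (Idem S)), ss.flatten = s ∧ ts.flatten = t ∧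
      (∀ u ∈ ss, IsRegW rk u) ∧ (∀ u ∈ ts, IsRegW rk u) ∧
      ∀ (T : Type) (_ : Monoid T) (_ : Finite T) (ρ : T →* S) (θ : IG S →* T),
        ρ.comp θ = IG.pi →
        MoveEq rk ρ θ (ts.map (fun u => θ (IG.word u))) (ss.map (fun u => θ (IG.word u))) := by
  classical
  obtain ⟨ss, h1, h2, h3⟩ := exists_factor h s
  by_contra hcon
  have hall : ∀ j : {ts : List (List (Idem S)) // ts.flatten = t ∧ ∀ u ∈ ts, IsRegW rk u},
      ∃ (T : Type) (_ : Monoid T) (_ : Finite T) (ρ : T →* S) (θ : IG S →* T),
        ρ.comp θ = IG.pi ∧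
        ¬ MoveEq rk ρ θ (j.1.map (fun u => θ (IG.word u))) (ss.map (fun u => θ (IG.word u))) := by
    intro j
    by_contra hj
    apply hcon
    refine ⟨ss, j.1, h1, j.2.1, h2, j.2.2, ?_⟩
    intro T iT fT ρ θ hρ
    by_contra hm
    exact hj ⟨T, iT, fT, ρ, θ, hρ, hm⟩
  choose T iT fT ρ θ hρ hm using hall
  have hJ : Finite {ts : List (List (Idem S)) // ts.flatten = t ∧ ∀ u ∈ ts, IsRegW rk u} := by
    apply Set.Finite.to_subtype
    apply Set.Finite.subset (finite_factor t)
    rintro ts ⟨k1, k2⟩
    exact ⟨k1, fun u hu => (k2 u hu).ne_nil⟩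
  let Θ : IG S →* ((j : {ts : List (List (Idem S)) // ts.flatten = t ∧
      ∀ u ∈ ts, IsRegW rk u}) → T j) × S := MonoidHom.prod (MonoidHom.pi θ) IG.pi
  have hTfin : Finite (MonoidHom.mrange Θ) := inferInstance
  let ρ0 : MonoidHom.mrange Θ →* S := (MonoidHom.snd _ _).comp (Submonoid.subtype _)
  let θ0 : IG S →* MonoidHom.mrange Θ := Θ.mrangeRestrict
  have hρ0 : ρ0.comp θ0 = IG.pi := by
    ext y
    rfl
  have hsK : LangK rk ρ0 θ0 (ss.map (fun u => θ0 (IG.word u))) s :=
    ⟨ss, h1, h2, h3, Relation.EqvGen.refl _⟩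
  have htK : LangK rk ρ0 θ0 (ss.map (fun u => θ0 (IG.word u))) t := by
    by_contra htK
    obtain ⟨F, iF, fF, φ, hφ⟩ := langK_sep h hρ0 (ss.map (fun u => θ0 (IG.word u))) hs ht hsK htK
    exact hφ (hns F iF fF φ)
  obtain ⟨ts, k1, k2, _, k4⟩ := htK
  apply hm ⟨ts, k1, k2⟩
  let hh : MonoidHom.mrange Θ →* T ⟨ts, k1, k2⟩ :=
    (Pi.evalMonoidHom T ⟨ts, k1, k2⟩).comp ((MonoidHom.fst _ _).comp (Submonoid.subtype _))
  have hρh : (ρ ⟨ts, k1, k2⟩).comp hh = ρ0 := by
    ext ⟨x, y, rfl⟩
    exact DFunLike.congr_fun (hρ ⟨ts, k1, k2⟩) y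
  have hθh : hh.comp θ0 = θ ⟨ts, k1, k2⟩ := by
    ext y
    rfl
  have k5 := MoveEq.map hh hρh hθh k4
  rw [List.map_map, List.map_map] at k5
  exact k5

end Pool.Agent.IGP
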