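import Mathlib
import Pool.Agent.IGP.Basic
import Pool.Agent.IGP.Reg

/-! MODULE I (Enc).  Encoding of level words in the free group on the idempotents.

`IsMid e f g`: `g` is the idempotent in the H-class `R_f ∩ L_e`.
`Enc w L`: `w = [e_1, ..., e_l]` (nonempty), `L = [(e_1,true),(g_1,false),(e_2,true),...,(e_l,true)]`
with `IsMid e_i e_{i+1} g_i`.

PAPER PROOFS.
`isMid_unique`: if `g, g'` are both mid of `(e,f)`: `g g' = g'`?: `g f = f` so `g g' = g (f g') =
(g f) g' = f g' = g'` and `g g' = (g e) g' = g (e g') = g e = g`; so `g = g'`.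
`exists_mid`: `e f` has rank `r = rk e = rk f`; by stab_left there is `y` with `y e f = f`.
`g := f y e`: `g f = f (y e f) = f f = f`; `g g = f y e f y e = f (y e f) y e = f f y e = g`; `f g =
g`; `g e = g`.  `e g = e f y e`: by stab_right there is `y'` with `e f y' = e`; so
`e f y e = e f y (e f y') = e f (y e f) y' = e f f y' = e f y' = e`.
`exists_enc`: induction on `w`, using `exists_mid` for consecutive letters (`rk (e f) = r` because
`rk (prodW w) = r` and the product is below `e f`, which is below `e`, of rank `r`).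
`enc_word_eq` (Claim 1): Suppose `Enc w L`, `Enc w' L'` and `FreeGroup.mk L = FreeGroup.mk L'`.  By
Church–Rosser (`FreeGroup.Red.exact`) there is `N` with `Red L N` and `Red L' N`.  Lemma: if
`Enc w L` and `FreeGroup.Red.Step L N` then there is `w1` with `Enc w1 N` and `word w1 = word w`.
Proof: the step deletes two consecutive letters `(a, b), (a, !b)` of `L`.
Either `(e_i, true), (g_i, false)` with `e_i = g_i`: then `f g_i = g_i` gives `e_{i+1} e_i = e_i`
and `g_i f = f` gives `e_i e_{i+1} = e_{i+1}` so `x_{e_i} x_{e_{i+1}} = x_{e_{i+1}}`; `w1` is `w`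
with `e_i` removed; if `i > 1`, `g_{i-1}` is mid of `(e_{i-1}, e_{i+1})`: `e_{i+1} g_{i-1} =
e_{i+1} e_i g_{i-1} = e_i g_{i-1} = g_{i-1}`, and `g_{i-1} e_{i+1} = g_{i-1} e_i e_{i+1} =
e_i e_{i+1} = e_{i+1}`.
Or `(g_i, false), (e_{i+1}, true)` with `g_i = e_{i+1}`: then `e_i g_i = e_i`, so `x_{e_i}
x_{e_{i+1}} = x_{e_i}`; `w1` is `w` with `e_{i+1}` removed; if there is a next `g_{i+1}`, it is mid
of `(e_i, e_{i+2})`: `e_i g_{i+1} = e_i e_{i+1} g_{i+1} = e_i e_{i+1} = e_i`,
`g_{i+1} e_i = g_{i+1} e_{i+1} e_i = g_{i+1} g_i e_i = g_{i+1} g_i = g_{i+1} e_{i+1} = g_{i+1}`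
(`e_{i+1} = g_i`, `g_i e_i = g_i`).
(Do it by induction on the `Enc` derivation.)
So `N = enc of w1 = enc of w1'` with `word w1 = word w`, `word w1' = word w'`; `Enc` determines the
word from the list (`Enc w L`, `Enc w' L` imply `w = w'`), so `w1 = w1'`.
-/

namespace Pool.Agent.IGP

variable {S : Type} [Monoid S] {rk : S → ℕ}

/-- `g` lies in `R_f ∩ L_e`. -/
def IsMid (e f g : S) : Prop := f * g = g ∧ g * f = f ∧ e * g = e ∧ g * e = g

/-- encoding of words -/
inductive Enc : List (Idem S) → List (Idem S × Bool) → Prop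
  | single (e : Idem S) : Enc [e] [(e, true)]
  | cons (e f g : Idem S) (w : List (Idem S)) (L : List (Idem S × Bool))
      (hg : IsMid e.1 f.1 g.1) (h : Enc (f :: w) L) : Enc (e :: f :: w) ((e, true) :: (g, false) :: L)

theorem isMid_unique {e f g g' : S} (h : IsMid e f g) (h' : IsMid e f g') : g = g' := by
  obtain ⟨h1, h2, h3, h4⟩ := h
  obtain ⟨h1', h2', h3', h4'⟩ := h'
  have e1 : g * g' = g' := by
    calc g * g' = g * (f * g') := by rw [h1']
      _ = (g * f) * g' := (mul_assoc _ _ _).symm
      _ = g' := by rw [h2, h1']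
  have e2 : g * g' = g := by
    calc g * g' = (g * e) * g' := by rw [h4]
      _ = g * (e * g') := mul_assoc _ _ _
      _ = g := by rw [h3', h4]
  rw [← e2, e1]

theorem exists_mid (h : IsRank rk) {e f : S} (he : e * e = e) (hf : f * f = f)
    (h1 : rk (e * f) = rk e) (h2 : rk (e * f) = rk f) : ∃ g, g * g = g ∧ IsMid e f g := by
  obtain ⟨y, hy⟩ := h.stab_left e f h2
  obtain ⟨y', hy'⟩ := h.stab_right e f h1
  have a1 : f * y * e * f = f := by
    calc f * y * e * f = f * (y * (e * f)) := by simp only [mul_assoc]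
      _ = f := by rw [hy, hf]
  refine ⟨f * y * e, ?_, ?_, a1, ?_, ?_⟩
  · calc f * y * e * (f * y * e) = (f * y * e * f) * (y * e) := by simp only [mul_assoc]
      _ = f * y * e := by rw [a1, mul_assoc]
  · calc f * (f * y * e) = (f * f) * y * e := by simp only [mul_assoc]
      _ = f * y * e := by rw [hf]
  · calc e * (f * y * e) = e * f * y * (e * f * y') := by rw [hy']; simp only [mul_assoc]
      _ = e * f * (y * (e * f)) * y' := by simp only [mul_assoc]
      _ = e * (f * f) * y' := by rw [hy]; simp only [mul_assoc]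
      _ = e := by rw [hf, hy']
  · calc f * y * e * e = f * y * (e * e) := mul_assoc _ _ _
      _ = f * y * e := by rw [he]

theorem exists_enc (h : IsRank rk) {w : List (Idem S)} (hw : w ≠ [])
    (hr : ∀ e ∈ w, rk e.1 = rk (IG.prodW w)) : ∃ L, Enc w L := by
  induction w with
  | nil => exact absurd rfl hw
  | cons e w ih =>
    cases w with
    | nil => exact ⟨_, Enc.single e⟩
    | cons f w =>
      have he := hr e (by simp)
      have hf := hr f (by simp)
      have e1 : IG.prodW (e :: f :: w) = e.1 * IG.prodW (f :: w) := IG.prodW_cons _ _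
      have e2 : IG.prodW (e :: f :: w) = (e.1 * f.1) * IG.prodW w := by
        rw [IG.prodW_cons, IG.prodW_cons, mul_assoc]
      have r1 : rk (IG.prodW (f :: w)) = rk (IG.prodW (e :: f :: w)) := by
        apply le_antisymm
        · rw [← hf, IG.prodW_cons f w]
          exact h.mul_le_left _ _
        · rw [e1]
          exact h.mul_le_right _ _
      have r2 : rk (e.1 * f.1) = rk (IG.prodW (e :: f :: w)) := by
        apply le_antisymm
        · rw [← he]
          exact h.mul_le_left _ _
        · rw [e2]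
          exact h.mul_le_left _ _
      obtain ⟨L, hL⟩ := ih (by simp) (by
        intro a ha
        rw [r1]
        exact hr a (List.mem_cons_of_mem _ ha))
      obtain ⟨g, hg, hmid⟩ := exists_mid h e.2 f.2 (r2.trans he.symm) (r2.trans hf.symm)
      exact ⟨_, Enc.cons e f ⟨g, hg⟩ w L hmid hL⟩

theorem Enc.unique {w w' : List (Idem S)} {L : List (Idem S × Bool)} (h : Enc w L)
    (h' : Enc w' L) : w = w' := by
  induction h generalizing w' with
  | single e =>
    cases h' with
    | single e' => rfl
  | cons e f g w L hg h ih =>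
    cases h' with
    | cons e' f' g' w' L' hg' h' =>
      rw [ih h']

theorem enc_step {w : List (Idem S)} {L N : List (Idem S × Bool)} (h : Enc w L)
    (hs : FreeGroup.Red.Step L N) : ∃ (f : Idem S) (v : List (Idem S)) (f1 : Idem S)
      (v1 : List (Idem S)), w = f :: v ∧ Enc (f1 :: v1) N ∧ IG.word (f1 :: v1) = IG.word w ∧
      f1.1 * f.1 = f.1 ∧ f.1 * f1.1 = f1.1 := by
  induction h generalizing N with
  | single e =>
    exfalso
    have hlen := hs.length
    generalize hL : [(e, true)] = L at hs
    cases hs with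
    | @not L1 L2 x b =>
      have := congrArg List.length hL
      simp at this
      omega
  | cons e f g w L hg h ih =>
    generalize hL : ((e, true) :: (g, false) :: L) = L0 at hs
    cases hs with
    | @not L1 L2 x b =>
      rcases L1 with _ | ⟨y, _ | ⟨y', L1'⟩⟩
      · simp only [List.nil_append, List.cons.injEq, Prod.mk.injEq] at hL
        obtain ⟨⟨hx, hb⟩, ⟨hx', hb'⟩, hL⟩ := hL
        subst hx
        subst hL
        have hge : g = e := hx'
        subst hge
        obtain ⟨h1, h2, h3, h4⟩ := hg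
        refine ⟨g, f :: w, f, w, rfl, h, ?_, h1, h2⟩
        rw [IG.word_cons g, IG.word_cons f, ← mul_assoc,
          IG.x_mul g f f (Or.inr (Or.inl h2)) h2.symm]
      · simp only [List.cons_append, List.nil_append, List.cons.injEq, Prod.mk.injEq] at hL
        obtain ⟨hy, ⟨hx, hb⟩, hL⟩ := hL
        subst hy
        subst hx
        subst hb
        cases h with
        | single f =>
          simp only [List.cons.injEq, Prod.mk.injEq] at hL
          obtain ⟨⟨hx', -⟩, hL2⟩ := hL
          subst hL2
          subst hx'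
          obtain ⟨h1, h2, h3, h4⟩ := hg
          refine ⟨e, [f], e, [], rfl, Enc.single e, ?_, e.2, e.2⟩
          rw [IG.word_cons e, IG.word_cons e, IG.word_cons f, ← mul_assoc,
            IG.x_mul e f e (Or.inl h3) h3.symm]
        | cons f f2 g2 w2 L3 hg2 h2' =>
          simp only [List.cons.injEq, Prod.mk.injEq] at hL
          obtain ⟨⟨hx', -⟩, hL2⟩ := hL
          subst hL2
          subst hx'
          obtain ⟨h1, h2, h3, h4⟩ := hg
          obtain ⟨k1, k2, k3, k4⟩ := hg2
          refine ⟨e, f :: f2 :: w2, e, f2 :: w2, rfl, ?_, ?_, e.2, e.2⟩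
          · refine Enc.cons e f2 g2 w2 L3 ⟨k1, k2, ?_, ?_⟩ h2'
            · calc e.1 * g2.1 = (e.1 * f.1) * g2.1 := by rw [h3]
                _ = e.1 * (f.1 * g2.1) := mul_assoc _ _ _
                _ = e.1 := by rw [k3, h3]
            · calc g2.1 * e.1 = (g2.1 * f.1) * e.1 := by rw [k4]
                _ = g2.1 * (f.1 * e.1) := mul_assoc _ _ _
                _ = g2.1 := by rw [h4, k4]
          · rw [IG.word_cons e, IG.word_cons e, IG.word_cons f, ← mul_assoc,
              IG.x_mul e f e (Or.inl h3) h3.symm]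
      · simp only [List.cons_append, List.cons.injEq] at hL
        obtain ⟨hy, hy', hL⟩ := hL
        subst hy
        subst hy'
        subst hL
        obtain ⟨f', v, f1, v1, hw, hE, hword, h1, h2⟩ := ih FreeGroup.Red.Step.not
        simp only [List.cons.injEq] at hw
        obtain ⟨hf, hv⟩ := hw
        subst hf
        subst hv
        obtain ⟨m1, m2, m3, m4⟩ := hg
        refine ⟨e, f :: w, e, f1 :: v1, rfl, ?_, ?_, e.2, e.2⟩
        · refine Enc.cons e f1 g v1 _ ⟨?_, ?_, m3, m4⟩ hE
          · calc f1.1 * g.1 = f1.1 * (f.1 * g.1) := by rw [m1]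
              _ = (f1.1 * f.1) * g.1 := (mul_assoc _ _ _).symm
              _ = g.1 := by rw [h1, m1]
          · calc g.1 * f1.1 = g.1 * (f.1 * f1.1) := by rw [h2]
              _ = (g.1 * f.1) * f1.1 := (mul_assoc _ _ _).symm
              _ = f1.1 := by rw [m2, h2]
        · rw [IG.word_cons e, hword, ← IG.word_cons e]

theorem enc_red {w : List (Idem S)} {L N : List (Idem S × Bool)} (h : Enc w L)
    (hs : FreeGroup.Red L N) : ∃ w1, Enc w1 N ∧ IG.word w1 = IG.word w := by
  induction hs with
  | refl => exact ⟨w, h, rfl⟩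
  | tail _ hs ih =>
    obtain ⟨w1, h1, h2⟩ := ih
    obtain ⟨f, v, f1, v1, -, h3, h4, -, -⟩ := enc_step h1 hs
    exact ⟨f1 :: v1, h3, h4.trans h2⟩

theorem enc_word_eq {w w' : List (Idem S)} {L L' : List (Idem S × Bool)} (h : Enc w L)
    (h' : Enc w' L') (hL : FreeGroup.mk L = FreeGroup.mk L') : IG.word w = IG.word w' := by
  obtain ⟨N, h1, h2⟩ := FreeGroup.Red.exact.mp hL
  obtain ⟨w1, h3, h4⟩ := enc_red h h1
  obtain ⟨w2, h5, h6⟩ := enc_red h' h2
  rw [← h4, ← h6, h3.unique h5]

end Pool.Agent.IGP
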