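import Mathlib
import Pool.Agent.IGP.Basic
import Pool.Agent.IGP.Reg
import Pool.Agent.IGP.Enc

/-! MODULE J (Act).  The finite action separating level words of high rank.

PAPER PROOF of `act_sep`.  Let `r = rk (prodW w)`, `High rk r`, `φ : FreeGroup (Idem S) → G`, `G`
finite.  Let `Ω = Option (S × G)`.  For an idempotent `f` define `act f : Ω → Ω`: `act f none =
none`; for `(b, ξ)`:
 * if `rk b = r`, `rk f = r`, `rk (b f) = r`: there is an idempotent `g` with `f g = g`, `g f = f`,
   `b g = b`, `g ∈ S b` (Miller-Clifford: by stab_left `y b f = f`, by stab_right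
   `b f y' = b`; `g := f y b`; computations as in `exists_mid`), unique;  `act f (b, ξ) =
   (b f, ξ * (φ g)⁻¹ * φ f)`;
 * if `rk b = r` and `f = 1`: `act f (b,ξ) = (b, ξ)` (consistent with the first case if
   `rk 1 = r`, because then `f = 1`, `g = 1`: `g = f g`, `g f = f` gives `g = 1`);
 * otherwise `none`.
RELATIONS: for a basic pair `(e, f)`: `act f (act e ω) = act (ef) ω` (right action).  Let
`ω = (b, ξ)`, `rk b = r`.  If `e = 1` or `f = 1` clear.  Otherwise (High) `rk e <= r`, `rk f <= r`.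
If `rk (b e f) ≠ r` then (as `rk (b e f) <= r`) both sides are `none`.  If `rk (b e f) = r` then
`rk e = rk f = rk (ef) = rk (be) = r`.  By stability a basic pair of idempotents of rank
`r` with product of rank `r` satisfies [`ef = f`, `fe = e`] (R-related) or [`ef = e`, `fe = f`]
(L-related): e.g. if `ef = e`: `rk (ef) = rk f` so `c e f = f`, so `f e = c e f e = c e e = c e`,
and `c e = c (e f) = f`: so `fe = f`.  If `ef = f`: `e f c = e`, `f c = e`, `f e = f (f c) = f c =
e`.  If `fe = e`: it is the previous case with roles exchanged: `rk (fe) = rk f`, `f e c = f`,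
`e c = f`, `e f = e e c = e c = f`.  If `fe = f`: `c f e = e`, `c f = e`, `e f = c f f = c f = e`.
 L-related (`ef = e`, `fe = f`): `act e (b, ξ) = (b e, ξ (φ g)⁻¹ φ e)`, `g` the mid of `(b, e)`;
 then `act f`: the mid of `(b e, f)` is `f` itself: `f f = f`, `f f = f`, `b e f = b e`, and
 `f ∈ S b e` (as `rk (be) = rk e`: `c b e = e`, `f = f e = f c b e`).  So the result is `(b e f,
 ξ (φ g)⁻¹ φ e (φ f)⁻¹ φ f) = (b e, ξ (φ g)⁻¹ φ e) = act e (b, ξ) = act (e f) (b, ξ)`.
 R-related (`ef = f`, `fe = e`): the mid of `(b e, f)` is `e`: `f e = e`, `e f = f`, `b e e = b e`,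
 `e ∈ S b e`.  So the result is `(b e f, ξ (φ g)⁻¹ φ e (φ e)⁻¹ φ f)`, and the mid of
 `(b, f)` is `g` as well (`f g = f e g = e g = g`, `g f = g e f = e f = f`).  Equal to `act f`.
So `IG.lift` gives a homomorphism `Φ` from `IG S` to the finite monoid `(Function.End Ω)ᵐᵒᵖ`
(right action; or use `fun` composition in the right order).  It maps `x_1` to the identity?
(On pairs `(b, ξ)` with `rk b ≠ r`, `act 1` should be the identity too: so define `act 1 := id`
separately; and for `rk b ≠ r`, `f ≠ 1`: `none`.)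
VALUES: let `w = e_1 ... e_l` with `Enc w L`, all letters of rank `r = rk (prodW w)`; let `b0` be an
idempotent with `b0 (prodW w) = prodW w`, `(prodW w) z = b0` for some `z` (exists: `p = prodW w`,
`p p' p = p`, `b0 = p p'`).  `b0` is R-related to `e_1`: `e_1 b0 = b0`, `b0 e_1 = e_1` (the latter
since `prodW w` has rank `rk e_1`, `prodW w * c = e_1`).  Then applying `w` to
`(b0, 1)` gives `(b0 * prodW w, (φ b0)⁻¹ * φ (mk L)) = (prodW w, ..)`: the mid of `(b0, e_1)` is
`b0`; the mid of `(b0 e_1 ... e_i, e_{i+1})` is the mid `g_i` of `(e_i, e_{i+1})`, as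
`b0 e_1 ... e_i` and `e_i` are L-related.  For `w'` with `prodW w' = prodW w` the same `b0` works.
If `Φ (word w) = Φ (word w')` then `φ (mk L) = φ (mk L')`.
-/

namespace Pool.Agent.IGP

variable {S : Type} [Monoid S] {rk : S → ℕ}

/-- `g` lies in `R_f ∩ L_b` -/
def IsMid2 (b f g : S) : Prop := f * g = g ∧ g * f = f ∧ b * g = b ∧ ∃ y, g = y * b

theorem isMid2_unique {b f g g' : S} (h : IsMid2 b f g) (h' : IsMid2 b f g') : g = g' := by
  obtain ⟨h1, h2, h3, y, h4⟩ := h
  obtain ⟨h1', h2', h3', y', h4'⟩ := h'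
  have e1 : g * g' = g' := by
    calc g * g' = g * (f * g') := by rw [h1']
      _ = (g * f) * g' := by rw [mul_assoc]
      _ = g' := by rw [h2, h1']
  have e2 : g * g' = g := by
    calc g * g' = y * (b * g') := by rw [h4, mul_assoc]
      _ = g := by rw [h3', ← h4]
  rw [← e2, e1]

theorem exists_mid2 (h : IsRank rk) {b f : S} (hf : f * f = f)
    (h1 : rk (b * f) = rk b) (h2 : rk (b * f) = rk f) : ∃ g, g * g = g ∧ IsMid2 b f g := by
  obtain ⟨y, hy⟩ := h.stab_left b f h2
  obtain ⟨y', hy'⟩ := h.stab_right b f h1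
  have hg : f * y * b * f = f := by
    calc f * y * b * f = f * (y * (b * f)) := by simp only [mul_assoc]
      _ = f := by rw [hy, hf]
  refine ⟨f * y * b, ?_, ?_, hg, ?_, f * y, rfl⟩
  · calc f * y * b * (f * y * b) = (f * y * b * f) * (y * b) := by simp only [mul_assoc]
      _ = f * y * b := by rw [hg, mul_assoc]
  · calc f * (f * y * b) = (f * f) * (y * b) := by simp only [mul_assoc]
      _ = f * y * b := by rw [hf, mul_assoc]
  · calc b * (f * y * b) = b * (f * y * (b * f * y')) := by rw [hy']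
      _ = b * (f * (y * (b * f)) * y') := by simp only [mul_assoc]
      _ = b * (f * y') := by rw [hy, hf]
      _ = b := by rw [← mul_assoc, hy']

section
variable {G : Type} [Group G] (φ' : Idem S → G) (r : ℕ)

open Classical in
/-- the multiplier -/
noncomputable def mult (b : S) (f : Idem S) : G :=
  if hg : ∃ g : Idem S, IsMid2 b f.1 g.1 then (φ' hg.choose)⁻¹ * φ' f else 1

theorem mult_eq {b : S} {f g : Idem S} (hg : IsMid2 b f.1 g.1) :
    mult φ' b f = (φ' g)⁻¹ * φ' f := by
  have hex : ∃ g : Idem S, IsMid2 b f.1 g.1 := ⟨g, hg⟩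
  unfold mult
  rw [dif_pos hex]
  have : hex.choose = g := Subtype.ext (isMid2_unique hex.choose_spec hg)
  rw [this]

open Classical in
/-- the action of a letter -/
noncomputable def act (rk : S → ℕ) (f : Idem S) : Option (S × G) → Option (S × G)
  | none => none
  | some (b, ξ) =>
    if f.1 = 1 then some (b, ξ)
    else if rk b = r ∧ rk f.1 = r ∧ rk (b * f.1) = r then some (b * f.1, ξ * mult φ' b f)
    else none

theorem act_none (f : Idem S) : act φ' r rk f none = none := rfl

theorem act_one (f : Idem S) (hf : f.1 = 1) (ω : Option (S × G)) : act φ' r rk f ω = ω := by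
  rcases ω with _ | ⟨b, ξ⟩
  · rfl
  · simp [act, hf]

theorem act_some (h : IsRank rk) {b : S} {f : Idem S} (ξ : G) (hb : rk b = r) (hf : rk f.1 = r)
    (hbf : rk (b * f.1) = r) : act φ' r rk f (some (b, ξ)) =
      some (b * f.1, ξ * mult φ' b f) := by
  by_cases h1 : f.1 = 1
  · obtain ⟨g, hg, hm⟩ := exists_mid2 h f.2 (hbf.trans hb.symm) (hbf.trans hf.symm)
    have hg1 : g = 1 := by
      have := hm.2.1
      rw [h1, mul_one] at this
      exact this
    have hfg : (⟨g, hg⟩ : Idem S) = f := Subtype.ext (by rw [h1]; exact hg1)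
    have hmult := mult_eq φ' (b := b) (f := f) (g := ⟨g, hg⟩) hm
    rw [act_one _ _ _ h1, hmult, hfg, inv_mul_cancel, mul_one, h1, mul_one]
  · simp only [act]
    rw [if_neg h1, if_pos ⟨hb, hf, hbf⟩]

theorem act_none_of {b : S} {f : Idem S} (ξ : G) (hf1 : f.1 ≠ 1)
    (hn : ¬ (rk b = r ∧ rk f.1 = r ∧ rk (b * f.1) = r)) :
    act φ' r rk f (some (b, ξ)) = none := by
  simp only [act]
  rw [if_neg hf1, if_neg hn]

/-- basic pairs of the same rank as their product are R- or L-related -/
theorem basic_related (h : IsRank rk) {e f : S} (he : e * e = e) (hf : f * f = f)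
    (hb : IsBasic e f) (h1 : rk e = rk f) (h2 : rk (e * f) = rk e) :
    (e * f = f ∧ f * e = e) ∨ (e * f = e ∧ f * e = f) := by
  rcases hb with hb | hb | hb | hb
  · right
    refine ⟨hb, ?_⟩
    obtain ⟨c, hc⟩ := h.stab_left e f (by rw [h2, h1])
    rw [hb] at hc
    rw [← hc, mul_assoc, he]
  · left
    refine ⟨hb, ?_⟩
    obtain ⟨c, hc⟩ := h.stab_right e f h2
    rw [hb] at hc
    rw [← hc, ← mul_assoc, hf]
  · left
    refine ⟨?_, hb⟩
    obtain ⟨c, hc⟩ := h.stab_right f e (by rw [hb, h1])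
    rw [hb] at hc
    rw [← hc, ← mul_assoc, he]
  · right
    refine ⟨?_, hb⟩
    obtain ⟨c, hc⟩ := h.stab_left f e (by rw [hb, h1])
    rw [hb] at hc
    rw [← hc, mul_assoc, hf]

theorem act_basic (h : IsRank rk) (hH : High rk r) {e f g : Idem S} (hb : IsBasic e.1 f.1)
    (hg : g.1 = e.1 * f.1) (ω : Option (S × G)) :
    act φ' r rk f (act φ' r rk e ω) = act φ' r rk g ω := by
  by_cases he1 : e.1 = 1
  · have : g = f := Subtype.ext (by rw [hg, he1, one_mul])
    rw [act_one _ _ _ he1, this]
  by_cases hf1 : f.1 = 1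
  · have : g = e := Subtype.ext (by rw [hg, hf1, mul_one])
    rw [act_one _ _ _ hf1, this]
  have hg1 : g.1 ≠ 1 := by
    intro hg1
    rw [hg] at hg1
    apply he1
    calc e.1 = e.1 * (e.1 * f.1) := by rw [hg1, mul_one]
      _ = e.1 * e.1 * f.1 := by rw [mul_assoc]
      _ = 1 := by rw [e.2, hg1]
  rcases ω with _ | ⟨b, ξ⟩
  · rfl
  have hler : rk e.1 ≤ r := by
    by_contra hcon
    exact he1 (hH e.1 e.2 (not_le.1 hcon))
  have hlfr : rk f.1 ≤ r := by
    by_contra hcon
    exact hf1 (hH f.1 f.2 (not_le.1 hcon))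
  by_cases hgood : rk b = r ∧ rk (b * e.1 * f.1) = r
  · obtain ⟨hbr, hbef⟩ := hgood
    have h1 : rk (b * e.1 * f.1) ≤ rk (b * e.1) := h.mul_le_left _ _
    have h2 : rk (b * e.1) ≤ rk e.1 := h.mul_le_right _ _
    have h3 : rk (b * e.1 * f.1) ≤ rk f.1 := h.mul_le_right _ _
    have h4 : rk (b * e.1 * f.1) ≤ rk (e.1 * f.1) := by
      rw [mul_assoc]; exact h.mul_le_right _ _
    have h5 : rk (e.1 * f.1) ≤ rk e.1 := h.mul_le_left _ _
    have her : rk e.1 = r := by omega
    have hfr : rk f.1 = r := by omega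
    have hber : rk (b * e.1) = r := by omega
    have hefr : rk (e.1 * f.1) = r := by omega
    have hgr : rk g.1 = r := by rw [hg]; exact hefr
    have hbgr : rk (b * g.1) = r := by rw [hg, ← mul_assoc]; exact hbef
    rw [act_some φ' r h ξ hbr her hber, act_some φ' r h _ hber hfr hbef,
      act_some φ' r h ξ hbr hgr hbgr]
    obtain ⟨g1, hg1i, hg1m⟩ := exists_mid2 h e.2 (hber.trans hbr.symm) (hber.trans her.symm)
    have hm1 := mult_eq φ' (b := b) (f := e) (g := ⟨g1, hg1i⟩) hg1m
    obtain ⟨c, hc⟩ := h.stab_left b e.1 (hber.trans her.symm)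
    rcases basic_related h e.2 f.2 hb (her.trans hfr.symm) (hefr.trans her.symm) with
      ⟨k1, k2⟩ | ⟨k1, k2⟩
    · -- R related
      have hge : g = f := Subtype.ext (by rw [hg, k1])
      have hm2 := mult_eq φ' (b := b * e.1) (f := f) (g := e)
        ⟨k2, k1, by rw [mul_assoc, e.2], c, hc.symm⟩
      have hm3 := mult_eq φ' (b := b) (f := f) (g := ⟨g1, hg1i⟩)
        ⟨by
          calc f.1 * g1 = f.1 * (e.1 * g1) := by rw [hg1m.1]
            _ = f.1 * e.1 * g1 := by rw [mul_assoc]
            _ = g1 := by rw [k2, hg1m.1], by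
          calc g1 * f.1 = g1 * (e.1 * f.1) := by rw [k1]
            _ = g1 * e.1 * f.1 := by rw [mul_assoc]
            _ = f.1 := by rw [hg1m.2.1, k1], hg1m.2.2.1, hg1m.2.2.2⟩
      rw [hge, hm1, hm2, hm3]
      congr 2
      · rw [mul_assoc, k1]
      · group
    · -- L related
      have hge : g = e := Subtype.ext (by rw [hg, k1])
      have hm2 := mult_eq φ' (b := b * e.1) (f := f) (g := f)
        ⟨f.2, f.2, by rw [mul_assoc, k1], f.1 * c, by rw [mul_assoc, hc, k2]⟩
      rw [hge, hm1, hm2]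
      congr 2
      · rw [mul_assoc, k1]
      · group
  · -- both sides are none
    have hR : act φ' r rk g (some (b, ξ)) = none := by
      apply act_none_of _ _ _ hg1
      rintro ⟨k1, _, k3⟩
      apply hgood
      refine ⟨k1, ?_⟩
      rw [hg, ← mul_assoc] at k3
      exact k3
    rw [hR]
    by_cases hgood2 : rk b = r ∧ rk e.1 = r ∧ rk (b * e.1) = r
    · rw [act_some φ' r h ξ hgood2.1 hgood2.2.1 hgood2.2.2]
      apply act_none_of _ _ _ hf1
      rintro ⟨_, _, k3⟩
      exact hgood ⟨hgood2.1, k3⟩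
    · rw [act_none_of _ _ _ he1 hgood2]
      rfl

theorem act_word (h : IsRank rk) (φ : FreeGroup (Idem S) →* G)
    {w : List (Idem S)} {L : List (Idem S × Bool)} (hL : Enc w L) :
    ∀ (b : S) (ξ : G) (e g : Idem S), w.head? = some e → IsMid2 b e.1 g.1 →
      (∀ e ∈ w, rk e.1 = r) → rk b = r → rk (b * IG.prodW w) = r →
      w.foldl (fun ω f => act (fun e => φ (FreeGroup.of e)) r rk f ω) (some (b, ξ)) =
        some (b * IG.prodW w, ξ * (φ (FreeGroup.of g))⁻¹ * φ (FreeGroup.mk L)) := by
  induction hL with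
  | single e =>
    intro b ξ e' g he' hg hw hb hbw
    simp only [List.head?_cons, Option.some.injEq] at he'
    subst he'
    simp only [IG.prodW_cons, IG.prodW_nil, mul_one] at hbw ⊢
    simp only [List.foldl_cons, List.foldl_nil]
    rw [act_some _ r h ξ hb (hw e (by simp)) hbw, mult_eq _ hg]
    congr 2
    rw [mul_assoc]
    rfl
  | cons e f g1 w L hg1 hE ih =>
    intro b ξ e' g he' hg hw hb hbw
    simp only [List.head?_cons, Option.some.injEq] at he'
    subst he'
    have her : rk e.1 = r := hw e (by simp)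
    have hbe : rk (b * e.1) = r := by
      have h1 : rk (b * IG.prodW (e :: f :: w)) ≤ rk (b * e.1) := by
        rw [IG.prodW_cons, ← mul_assoc]
        exact h.mul_le_left _ _
      have h2 : rk (b * e.1) ≤ rk e.1 := h.mul_le_right _ _
      omega
    obtain ⟨c, hc⟩ := h.stab_left b e.1 (hbe.trans her.symm)
    have hmid : IsMid2 (b * e.1) f.1 g1.1 := by
      obtain ⟨k1, k2, k3, k4⟩ := hg1
      refine ⟨k1, k2, by rw [mul_assoc, k3], g1.1 * c, ?_⟩
      rw [mul_assoc, hc, k4]
    rw [List.foldl_cons, act_some _ r h ξ hb her hbe, mult_eq _ hg]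
    rw [ih (b * e.1) _ f g1 rfl hmid (fun x hx => hw x (List.mem_cons_of_mem _ hx)) hbe
      (by rw [IG.prodW_cons, ← mul_assoc] at hbw; exact hbw)]
    congr 2
    · rw [IG.prodW_cons e, mul_assoc]
    · have hsplit : FreeGroup.mk ((e, true) :: (g1, false) :: L) =
          FreeGroup.of e * (FreeGroup.of g1)⁻¹ * FreeGroup.mk L := by
        rw [FreeGroup.of, FreeGroup.of, FreeGroup.inv_mk, FreeGroup.mul_mk, FreeGroup.mul_mk]
        rfl
      rw [hsplit, map_mul, map_mul, map_inv]
      group

end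

theorem act_sep [Finite S] (h : IsRank rk) {w w' : List (Idem S)}
    {L L' : List (Idem S × Bool)} (hL : Enc w L) (hL' : Enc w' L')
    (hr : ∀ e ∈ w, rk e.1 = rk (IG.prodW w)) (hr' : ∀ e ∈ w', rk e.1 = rk (IG.prodW w'))
    (hprod : IG.prodW w = IG.prodW w') (hH : High rk (rk (IG.prodW w)))
    {G : Type} [Group G] [Finite G] (φ : FreeGroup (Idem S) →* G)
    (hφ : φ (FreeGroup.mk L) ≠ φ (FreeGroup.mk L')) :
    ∃ (F : Type) (_ : Monoid F) (_ : Finite F) (Φ : IG S →* F),
      Φ (IG.word w) ≠ Φ (IG.word w') := by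
  set r := rk (IG.prodW w) with hrdef
  let φ' : Idem S → G := fun e => φ (FreeGroup.of e)
  let Ω := Option (S × G)
  let F := (Function.End Ω)ᵐᵒᵖ
  have hfin : Finite F := by
    have : Finite (Function.End Ω) := inferInstanceAs (Finite (Ω → Ω))
    exact Finite.of_injective (MulOpposite.unop : F → Function.End Ω)
      MulOpposite.unop_injective
  let A : Idem S → F := fun e => MulOpposite.op (act φ' r rk e : Function.End Ω)
  let Φ : IG S →* F := IG.lift A
    (by
      apply MulOpposite.unop_injective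
      funext ω
      exact act_one φ' r (oneIdem S) rfl ω)
    (by
      intro e f g hb hg
      apply MulOpposite.unop_injective
      funext ω
      exact act_basic φ' r h hH hb hg ω)
  have hword : ∀ (w : List (Idem S)) (ω : Ω), (MulOpposite.unop (Φ (IG.word w))) ω =
      w.foldl (fun ω f => act φ' r rk f ω) ω := by
    intro w
    induction w with
    | nil => intro ω; simp; rfl
    | cons e w ih =>
      intro ω
      rw [IG.word_cons, map_mul, MulOpposite.unop_mul, List.foldl_cons]
      change (MulOpposite.unop (Φ (IG.word w))) ((MulOpposite.unop (Φ (IG.x e))) ω) = _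
      rw [ih]
      rfl
  refine ⟨F, inferInstance, hfin, Φ, ?_⟩
  intro heq
  -- the base point
  set p := IG.prodW w with hp
  obtain ⟨p', hp'⟩ := h.regular p
  have hb0p : (p * p') * p = p := hp'
  have hb0 : (p * p') * (p * p') = p * p' := by
    calc (p * p') * (p * p') = (p * p' * p) * p' := by simp only [mul_assoc]
      _ = p * p' := by rw [hp']
  have hb0r : rk (p * p') = r := by
    apply le_antisymm (h.mul_le_left _ _)
    calc rk p = rk ((p * p') * p) := by rw [hb0p]
      _ ≤ rk (p * p') := h.mul_le_left _ _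
  have key : ∀ (w : List (Idem S)) (L : List (Idem S × Bool)), Enc w L → IG.prodW w = p →
      (∀ e ∈ w, rk e.1 = r) → (MulOpposite.unop (Φ (IG.word w))) (some (p * p', 1)) =
        some (p, (1 : G) * (φ (FreeGroup.of ⟨p * p', hb0⟩))⁻¹ * φ (FreeGroup.mk L)) := by
    intro w L hL hw hwr
    have hhead : ∃ e w', w = e :: w' := by
      cases hL with
      | single e => exact ⟨e, [], rfl⟩
      | cons e f g w L hg h => exact ⟨e, _, rfl⟩
    obtain ⟨e, w', hew⟩ := hhead
    have hpe : p = e.1 * IG.prodW w' := by rw [← hw, hew, IG.prodW_cons]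
    have he1 : e.1 * (p * p') = p * p' := by
      rw [← mul_assoc]
      congr 1
      rw [hpe, ← mul_assoc, e.2]
    have her : rk e.1 = r := hwr e (by rw [hew]; simp)
    obtain ⟨c, hc⟩ := h.stab_right e.1 (IG.prodW w') (by rw [← hpe, her])
    rw [← hpe] at hc
    have he2 : (p * p') * e.1 = e.1 := by
      rw [← hc, ← mul_assoc, hb0p]
    rw [hword, act_word r h φ hL (p * p') 1 e ⟨p * p', hb0⟩ (by rw [hew]; rfl)
      ⟨he1, he2, hb0, 1, by rw [one_mul]⟩ hwr hb0r (by rw [hw, hb0p]), hw, hb0p]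
  have k1 := key w L hL rfl hr
  have k2 := key w' L' hL' hprod.symm (by
    intro e he
    rw [hr' e he, ← hprod])
  rw [heq, k2] at k1
  have k3 := (Prod.mk.injEq _ _ _ _).mp (Option.some.inj k1)
  exact hφ (mul_left_cancel k3.2).symm

end Pool.Agent.IGP
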