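import Mathlib

/-! MODULE H (FreeRF).  Free groups are residually finite.

PAPER PROOF.  Let `x ≠ 1` and let `L = x.toWord` (reduced, nonempty), `L = [(a_0,b_0), ...,
(a_{l-1}, b_{l-1})]`, `l >= 1`.  On the finite set `Fin (l+1)` define for every generator `a` a
partial injection `f_a`: for each position `j` with `a_j = a`: if `b_j = true` then `j ↦ j+1`
and if `b_j = false` then `j+1 ↦ j` (use the order convention adapted to the action: with
permutations composed as functions the last letter of the word acts first; so one may rather let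
letter `j` move `j+1` to `j` if `b_j = true` and `j` to `j+1` if `b_j = false`; then the word
maps `l` to `0`).  Since the word is reduced (no `(a,b)` followed by `(a, !b)`), `f_a` is well
defined and injective: the only possible clashes are between consecutive positions, which would
need `a_j = a_{j+1} = a` and `b_j ≠ b_{j+1}`.  Extend every `f_a` to a permutation of `Fin (l+1)`
(a bijection between two subsets of a finite set extends, e.g. `Equiv.extendSubtype`,
`Function.Embedding`/`Set.BijOn` cardinality arguments).
The homomorphism `φ : FreeGroup α → Perm (Fin (l+1))` maps `x` to a permutation moving `l` to `0`,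
so `φ x ≠ 1`.
-/

namespace Pool.Agent.IGP

namespace FreeRF

/-- A partial injection of a finite set extends to a permutation. -/
theorem exists_perm {V : Type} [Fintype V] (R : V → V → Prop)
    (hf : ∀ v w w', R v w → R v w' → w = w') (hi : ∀ v v' w, R v w → R v' w → v = v') :
    ∃ π : Equiv.Perm V, ∀ v w, R v w → π v = w := by
  classical
  let p : V → Prop := fun v => ∃ w, R v w
  let q : V → Prop := fun w => ∃ v, R v w
  let f : {v // p v} → {w // q w} := fun v => ⟨v.2.choose, ⟨v.1, v.2.choose_spec⟩⟩
  have hfR : ∀ v : {v // p v}, R v.1 (f v).1 := fun v => v.2.choose_spec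
  have hb : Function.Bijective f := by
    constructor
    · intro v v' h
      apply Subtype.ext
      apply hi v.1 v'.1 (f v).1 (hfR v)
      rw [h]
      exact hfR v'
    · rintro ⟨w, v, hv⟩
      refine ⟨⟨v, w, hv⟩, ?_⟩
      apply Subtype.ext
      exact hf v _ _ (hfR ⟨v, w, hv⟩) hv
  let e := Equiv.ofBijective f hb
  refine ⟨e.extendSubtype, fun v w h => ?_⟩
  rw [Equiv.extendSubtype_apply_of_mem e v ⟨w, h⟩]
  exact hf v _ _ (hfR ⟨v, w, h⟩) h

/-- the letters as a relation on positions -/
def Rel {α : Type} (L : List (α × Bool)) (a : α) (v w : Fin (L.length + 1)) : Prop :=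
  ∃ (j : ℕ) (hj : j < L.length), L[j].1 = a ∧
    ((L[j].2 = true ∧ (v : ℕ) = j + 1 ∧ (w : ℕ) = j) ∨
      (L[j].2 = false ∧ (v : ℕ) = j ∧ (w : ℕ) = j + 1))

end FreeRF

open FreeRF in
theorem freeGroup_rf {α : Type} (x : FreeGroup α) (hx : x ≠ 1) :
    ∃ (G : Type) (_ : Group G) (_ : Finite G) (φ : FreeGroup α →* G), φ x ≠ 1 := by
  classical
  set L := x.toWord with hL
  have hred : ∀ (i : ℕ) (h : i + 1 < L.length), L[i].1 = L[i + 1].1 → L[i].2 = L[i + 1].2 := by
    have h1 : FreeGroup.IsReduced L := FreeGroup.isReduced_toWord
    unfold FreeGroup.IsReduced at h1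
    rw [List.isChain_iff_getElem] at h1
    exact fun i h => h1 i h
  have hπ : ∀ a : α, ∃ π : Equiv.Perm (Fin (L.length + 1)), ∀ v w, Rel L a v w → π v = w := by
    intro a
    apply exists_perm
    · rintro v w w' ⟨j, hj, ha, h⟩ ⟨j', hj', ha', h'⟩
      apply Fin.ext
      rcases h with ⟨hb, hv, hw⟩ | ⟨hb, hv, hw⟩ <;> rcases h' with ⟨hb', hv', hw'⟩ | ⟨hb', hv', hw'⟩
      · omega
      · exfalso
        have e : j' = j + 1 := by omega
        subst e
        have := hred j hj' (ha.trans ha'.symm)
        rw [hb, hb'] at this
        exact absurd this (by simp)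
      · exfalso
        have e : j = j' + 1 := by omega
        subst e
        have := hred j' hj (ha'.trans ha.symm)
        rw [hb, hb'] at this
        exact absurd this (by simp)
      · omega
    · rintro v v' w ⟨j, hj, ha, h⟩ ⟨j', hj', ha', h'⟩
      apply Fin.ext
      rcases h with ⟨hb, hv, hw⟩ | ⟨hb, hv, hw⟩ <;> rcases h' with ⟨hb', hv', hw'⟩ | ⟨hb', hv', hw'⟩
      · omega
      · exfalso
        have e : j = j' + 1 := by omega
        subst e
        have := hred j' hj (ha'.trans ha.symm)
        rw [hb, hb'] at this
        exact absurd this (by simp)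
      · exfalso
        have e : j' = j + 1 := by omega
        subst e
        have := hred j hj' (ha.trans ha'.symm)
        rw [hb, hb'] at this
        exact absurd this (by simp)
      · omega
  choose π hπ using hπ
  refine ⟨Equiv.Perm (Fin (L.length + 1)), inferInstance, inferInstance, FreeGroup.lift π, ?_⟩
  -- the suffix words move `l` to their starting position
  have key : ∀ (n : ℕ) (hn : n ≤ L.length),
      (((L.drop n).map (fun s => cond s.2 (π s.1) (π s.1)⁻¹)).prod)
        (Fin.last L.length) = ⟨n, Nat.lt_succ_of_le hn⟩ := by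
    intro n hn
    induction hm : L.length - n generalizing n with
    | zero =>
      have e : n = L.length := by omega
      subst e
      simp [Fin.last]
    | succ m ih =>
      have hlt : n < L.length := by omega
      rw [List.drop_eq_getElem_cons hlt, List.map_cons, List.prod_cons, Equiv.Perm.mul_apply,
        ih (n + 1) hlt (by omega)]
      cases hb : L[n].2
      · simp only [cond_false]
        rw [Equiv.Perm.inv_eq_iff_eq]
        exact (hπ _ _ _ ⟨n, hlt, rfl, Or.inr ⟨hb, rfl, rfl⟩⟩).symm
      · simp only [cond_true]
        exact hπ _ _ _ ⟨n, hlt, rfl, Or.inl ⟨hb, rfl, rfl⟩⟩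
  have hx1 : FreeGroup.lift π x = (L.map (fun s => cond s.2 (π s.1) (π s.1)⁻¹)).prod := by
    conv_lhs => rw [← FreeGroup.mk_toWord (x := x)]
    exact FreeGroup.lift_mk
  rw [hx1]
  intro h
  have h0 := key 0 (Nat.zero_le _)
  rw [List.drop_zero, h, Equiv.Perm.one_apply] at h0
  have h2 : L.length = 0 := congrArg Fin.val h0
  apply hx
  rw [← FreeGroup.toWord_eq_nil_iff]
  exact List.length_eq_zero_iff.mp h2

end Pool.Agent.IGP
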