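import Mathlib
import Pool.Agent.IGP.Basic
import Pool.Agent.IGP.Reg
import Pool.Agent.IGP.FreeRF
import Pool.Agent.IGP.Enc
import Pool.Agent.IGP.Act

/-! Assembly of modules H, I, J: regular elements of high rank are separated by finite quotients. -/

namespace Pool.Agent.IGP

variable {S : Type} [Monoid S] {rk : S → ℕ}

theorem high_sep [Finite S] (h : IsRank rk) {x y : IG S} (hx : IsReg rk x) (hy : IsReg rk y)
    (hH : High rk (rk (IG.pi x))) (hxy : x ≠ y) :
    ∃ (F : Type) (_ : Monoid F) (_ : Finite F) (Φ : IG S →* F), Φ x ≠ Φ y := by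
  by_cases hpi : IG.pi x = IG.pi y
  · obtain ⟨w, hw0, hw, hwr⟩ := exists_level_word h hx
    obtain ⟨w', hw0', hw', hwr'⟩ := exists_level_word h hy
    have hpw : IG.prodW w = IG.pi x := by rw [← IG.pi_word, hw]
    have hpw' : IG.prodW w' = IG.pi y := by rw [← IG.pi_word, hw']
    rw [← hpw] at hwr
    rw [← hpw'] at hwr'
    obtain ⟨L, hL⟩ := exists_enc h hw0 hwr
    obtain ⟨L', hL'⟩ := exists_enc h hw0' hwr'
    have hne : FreeGroup.mk L ≠ FreeGroup.mk L' := by
      intro heq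
      apply hxy
      rw [← hw, ← hw']
      exact enc_word_eq hL hL' heq
    have hne' : FreeGroup.mk L * (FreeGroup.mk L')⁻¹ ≠ 1 := by
      intro heq
      exact hne (mul_inv_eq_one.1 heq)
    obtain ⟨G, hG, hGf, φ, hφ⟩ := freeGroup_rf _ hne'
    have hφ' : φ (FreeGroup.mk L) ≠ φ (FreeGroup.mk L') := by
      intro heq
      apply hφ
      rw [map_mul, map_inv, heq, mul_inv_cancel]
    obtain ⟨F, hF, hFf, Φ, hΦ⟩ := act_sep h hL hL' hwr hwr' (by rw [hpw, hpw', hpi])
      (by rw [hpw]; exact hH) φ hφ'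
    exact ⟨F, hF, hFf, Φ, by rw [← hw, ← hw']; exact hΦ⟩
  · exact ⟨S, inferInstance, inferInstance, IG.pi, hpi⟩

end Pool.Agent.IGP
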