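import Mathlib
import Pool.Agent.IGP.Basic
import Pool.Agent.IGP.Reg
import Pool.Agent.IGP.MoveLemmas

/-! MODULE F (Lift).  Lifting of moves from the extension `Ext c ℤ` to `IG S`.

PAPER PROOF of `lift_moveEq`.  By induction on `EqvGen` it suffices to treat one move, in both
directions: given a list `xs` of regular elements of `IG S` such that `xs.map (zeta c)` and `L'` are
related by one move (in either direction), find `xs'` regular with `xs'.map (zeta c) = L'`,
`xs'.prod = xs.prod` and `MoveEq rk pi id xs xs'`.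

Direction 1: `xs.map (zeta c) = A ++ (t * zeta (X e)) :: t' :: B`.  So `xs = xA ++ x :: y :: xB`
with `zeta x = t * zeta (X e)`, `zeta y = t'`.  Then `pi x = t.fst * e` and `rk (t.fst * e) = rk
t.fst`, so `reg_div_right` gives a regular `x'` with `pi x' = t.fst`, `x' * X e = x`.  `zeta x' = t`:
first components agree; second: `zeta x' * zeta (X e) = zeta x = t * zeta (X e)`, i.e.
`z(x') + z(e) + m(t.fst, e) = t.snd + z(e) + m(t.fst, e)`; cancel.  `y' := X e * y` is regular by
`IsReg.mul_left` (h2) and `zeta y' = zeta (X e) * t'`.  `xs' := xA ++ x' :: y' :: xB`; the product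
is the same; `xs` and `xs'` are related by the move of `IG S` itself (`ρ = pi`, `θ = id`) with
`t := x'`, `t' := y`.
Direction 2: `xs.map (zeta c) = A ++ t :: (zeta (X e) * t') :: B`, symmetric, with `reg_div_left`.
-/

namespace Pool.Agent.IGP

variable {S : Type} [Monoid S] {rk : S → ℕ}

theorem lift_move1 (h : IsRank rk) (c : Cocycle S) {xs : List (IG S)}
    (hx : ∀ x ∈ xs, IsReg rk x) {L' : List (Ext c ℤ)}
    (hL : Move rk Ext.toS (zeta c) (xs.map (zeta c)) L') :
    ∃ xs' : List (IG S), (∀ x ∈ xs', IsReg rk x) ∧ xs'.map (zeta c) = L' ∧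
      xs'.prod = xs.prod ∧ MoveEq rk IG.pi (MonoidHom.id (IG S)) xs xs' := by
  generalize hK : xs.map (zeta c) = K at hL
  cases hL with
  | mk A B t t' e he h1 h2 h3 h4 =>
    rw [List.map_eq_append_iff] at hK
    obtain ⟨xA, xR, rfl, rfl, hR⟩ := hK
    rw [List.map_eq_cons_iff] at hR
    obtain ⟨x, xR', rfl, hxt, hR'⟩ := hR
    rw [List.map_eq_cons_iff] at hR'
    obtain ⟨y, xB, rfl, rfl, rfl⟩ := hR'
    have hxr : IsReg rk x := hx x (by simp)
    have hyr : IsReg rk y := hx y (by simp)
    simp only [Ext.toS_apply, zeta_fst] at h1 h2 h3 h4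
    have hpi : IG.pi x = t.fst * e := by
      rw [← zeta_fst c x, hxt, Ext.mul_fst, zeta_X c he]
      rfl
    obtain ⟨x', hx'r, hx'pi, hx'⟩ := reg_div_right h hxr he hpi h1
    have hzx' : zeta c x' = t := by
      ext
      · rw [zeta_fst, hx'pi]
      · have e1 : (zeta c (x' * IG.X e)).snd = (t * zeta c (IG.X e)).snd := by
          rw [hx', hxt]
        rw [map_mul, Ext.mul_snd, Ext.mul_snd, zeta_fst c x', hx'pi] at e1
        linarith
    have hy' : IsReg rk (IG.X e * y) := IsReg.mul_left h hyr (by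
      rw [map_mul, IG.pi_X he, h2])
    refine ⟨xA ++ x' :: (IG.X e * y) :: xB, ?_, ?_, ?_, ?_⟩
    · intro z hz
      simp only [List.mem_append, List.mem_cons] at hz
      rcases hz with hz | rfl | rfl | hz
      · exact hx z (by simp [hz])
      · exact hx'r
      · exact hy'
      · exact hx z (by simp [hz])
    · simp only [List.map_append, List.map_cons, map_mul, hzx']
    · simp only [List.prod_append, List.prod_cons, mul_assoc]
      rw [← hx']
      simp only [mul_assoc]
    · apply Relation.EqvGen.rel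
      have hm := Move.mk (rk := rk) (ρ := IG.pi) (θ := MonoidHom.id (IG S)) xA xB x' y e he
        (by rw [hx'pi]; exact h1) h2 (by rw [hx'pi]; exact h3) (by rw [hx'pi]; exact h4)
      simp only [MonoidHom.id_apply, hx'] at hm
      exact hm

theorem lift_move2 (h : IsRank rk) (c : Cocycle S) {xs : List (IG S)}
    (hx : ∀ x ∈ xs, IsReg rk x) {L' : List (Ext c ℤ)}
    (hL : Move rk Ext.toS (zeta c) L' (xs.map (zeta c))) :
    ∃ xs' : List (IG S), (∀ x ∈ xs', IsReg rk x) ∧ xs'.map (zeta c) = L' ∧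
      xs'.prod = xs.prod ∧ MoveEq rk IG.pi (MonoidHom.id (IG S)) xs xs' := by
  generalize hK : xs.map (zeta c) = K at hL
  cases hL with
  | mk A B t t' e he h1 h2 h3 h4 =>
    rw [List.map_eq_append_iff] at hK
    obtain ⟨xA, xR, rfl, rfl, hR⟩ := hK
    rw [List.map_eq_cons_iff] at hR
    obtain ⟨x, xR', rfl, rfl, hR'⟩ := hR
    rw [List.map_eq_cons_iff] at hR'
    obtain ⟨y, xB, rfl, hyt, rfl⟩ := hR'
    have hxr : IsReg rk x := hx x (by simp)
    have hyr : IsReg rk y := hx y (by simp)
    simp only [Ext.toS_apply, zeta_fst] at h1 h2 h3 h4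
    have hpi : IG.pi y = e * t'.fst := by
      rw [← zeta_fst c y, hyt, Ext.mul_fst, zeta_X c he]
      rfl
    obtain ⟨y', hy'r, hy'pi, hy'⟩ := reg_div_left h hyr he hpi h2
    have hzy' : zeta c y' = t' := by
      ext
      · rw [zeta_fst, hy'pi]
      · have e1 : (zeta c (IG.X e * y')).snd = (zeta c (IG.X e) * t').snd := by
          rw [hy', hyt]
        rw [map_mul, Ext.mul_snd, Ext.mul_snd, zeta_fst c y', hy'pi] at e1
        linarith
    have hx' : IsReg rk (x * IG.X e) := IsReg.mul_right h hxr (by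
      rw [map_mul, IG.pi_X he, h1])
    refine ⟨xA ++ (x * IG.X e) :: y' :: xB, ?_, ?_, ?_, ?_⟩
    · intro z hz
      simp only [List.mem_append, List.mem_cons] at hz
      rcases hz with hz | rfl | rfl | hz
      · exact hx z (by simp [hz])
      · exact hx'
      · exact hy'r
      · exact hx z (by simp [hz])
    · simp only [List.map_append, List.map_cons, map_mul, hzy']
    · simp only [List.prod_append, List.prod_cons, mul_assoc]
      rw [← hy']
      simp only [mul_assoc]
    · apply Relation.EqvGen.symm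
      apply Relation.EqvGen.rel
      have hm := Move.mk (rk := rk) (ρ := IG.pi) (θ := MonoidHom.id (IG S)) xA xB x y' e he
        h1 (by rw [hy'pi]; exact h2) (by rw [hy'pi]; exact h3) (by rw [hy'pi]; exact h4)
      simp only [MonoidHom.id_apply, hy'] at hm
      exact hm

theorem lift_moveEq_aux (h : IsRank rk) (c : Cocycle S) {K L' : List (Ext c ℤ)}
    (hL : MoveEq rk Ext.toS (zeta c) K L') :
    (∀ xs : List (IG S), (∀ x ∈ xs, IsReg rk x) → xs.map (zeta c) = K →
      ∃ xs' : List (IG S), (∀ x ∈ xs', IsReg rk x) ∧ xs'.map (zeta c) = L' ∧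
      xs'.prod = xs.prod ∧ MoveEq rk IG.pi (MonoidHom.id (IG S)) xs xs') ∧
    (∀ xs : List (IG S), (∀ x ∈ xs, IsReg rk x) → xs.map (zeta c) = L' →
      ∃ xs' : List (IG S), (∀ x ∈ xs', IsReg rk x) ∧ xs'.map (zeta c) = K ∧
      xs'.prod = xs.prod ∧ MoveEq rk IG.pi (MonoidHom.id (IG S)) xs xs') := by
  induction hL with
  | rel K L' hm =>
    constructor
    · rintro xs hx rfl
      exact lift_move1 h c hx hm
    · rintro xs hx rfl
      exact lift_move2 h c hx hm
  | refl K =>
    constructor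
    · rintro xs hx rfl
      exact ⟨xs, hx, rfl, rfl, Relation.EqvGen.refl _⟩
    · rintro xs hx rfl
      exact ⟨xs, hx, rfl, rfl, Relation.EqvGen.refl _⟩
  | symm K L' _ ih => exact ⟨ih.2, ih.1⟩
  | trans K L' L'' _ _ ih1 ih2 =>
    constructor
    · intro xs hx hK
      obtain ⟨xs1, h1, h2, h3, h4⟩ := ih1.1 xs hx hK
      obtain ⟨xs2, k1, k2, k3, k4⟩ := ih2.1 xs1 h1 h2
      exact ⟨xs2, k1, k2, k3.trans h3, Relation.EqvGen.trans _ _ _ h4 k4⟩
    · intro xs hx hK
      obtain ⟨xs1, h1, h2, h3, h4⟩ := ih2.2 xs hx hK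
      obtain ⟨xs2, k1, k2, k3, k4⟩ := ih1.2 xs1 h1 h2
      exact ⟨xs2, k1, k2, k3.trans h3, Relation.EqvGen.trans _ _ _ h4 k4⟩

theorem lift_moveEq (h : IsRank rk) (c : Cocycle S) {xs : List (IG S)}
    (hx : ∀ x ∈ xs, IsReg rk x) {L' : List (Ext c ℤ)}
    (hL : MoveEq rk Ext.toS (zeta c) (xs.map (zeta c)) L') :
    ∃ xs' : List (IG S), (∀ x ∈ xs', IsReg rk x) ∧ xs'.map (zeta c) = L' ∧
      xs'.prod = xs.prod ∧ MoveEq rk IG.pi (MonoidHom.id (IG S)) xs xs' :=
  (lift_moveEq_aux h c hL).1 xs hx rfl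

end Pool.Agent.IGP
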