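import Mathlib
import Pool.Agent.IGP.Basic
import Pool.Agent.IGP.MoveLemmas

/-! MODULE G (Profinite).  Subgroups of `ℤ^m` are closed in the profinite topology, and its
consequence for moves.

PAPER PROOFS.
`subgroup_closed`: the quotient `Q = ℤ^m / Λ` is a finitely generated abelian group, and the class
of `v` is divisible by every `k > 0` (`v = -(k • c)` mod Λ).  Finitely generated abelian groups
have no nonzero element divisible by all `k`: by the structure theorem
(`AddCommGroup.equiv_free_prod_directSum_zmod`) `Q ≅ ℤ^a × ⨁ ZMod (p_i^{e_i})`; take `k = N * K`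
etc.  (Alternatively Smith normal form: `Submodule.smithNormalForm`; or: choose `k` = product of the
nonzero invariant factors times a large number.)

`moveEq_of_mod`: all lists here have the same length `m` (take `k = 1` and `moveEq_rigid`-like
length preservation; if the lengths differ the hypothesis is void).  For integer vectors
`x : Fin m → ℤ` and a list `L` of length `m` in `Ext c ℤ` let `tr x L` be `L` with `x_i` added to
the second component of the i-th entry.  A move of `Ext c ℤ` is invariant under translation: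
`Move L K → Move (tr x L) (tr x K)` (as `(t * zeta (X e))` shifted by `x_i` is `(t shifted) * zeta
(X e)`; ranks only depend on first components).  So is MoveEq.  Every list with the same first
components as `L` is `tr x L` for a unique x.
Lifting of moves mod k: if `Move_k (K1) (K2)` (moves over `Ext c (ZMod k)`), and `K1' `
is a list in `Ext c ℤ` with `K1'.map (red k) = K1` then there is `K2'` with `K2'.map (red k) = K2`
and `Move K1' K2'`; same in the other direction: (`K1 = A ++ (t * θ e) :: t' :: B`, `K1' = A' ++ u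
:: u' :: B'`; put `t0 = (t.fst, u.snd + m(e,e) - m(t.fst, e))` so that `t0 * zeta (X e) = u` and
`red k t0 = t`; `K2' = A' ++ t0 :: (zeta (X e) * u') :: B'`.)  Hence for every `k > 0` there is
a list `K` in `Ext c ℤ` with `K.map (red k) = L'.map (red k)` and `MoveEq L K`; so
`K = tr (k • c_k) L'` for an integer vector `c_k`.
Now let `Λ = {x | MoveEq L' (tr x L')}`, a subgroup of `Fin m → ℤ` by translation invariance.
`k = 1`: `MoveEq L (tr v L')`, `v = c_1`.  For all `k`: `MoveEq (tr (k • c_k) L') L`, `MoveEq L (tr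
v L')`, so `MoveEq (tr (k • c_k) L') (tr v L')`, so `v - k • c_k ∈ Λ`.  By `subgroup_closed`,
`v ∈ Λ`: `MoveEq L' (tr v L')`.  So `MoveEq L L'`.
-/

namespace Pool.Agent.IGP

theorem fg_divisible {Q : Type*} [AddCommGroup Q] [AddGroup.FG Q] (q : Q)
    (hq : ∀ k : ℕ, 0 < k → ∃ c : Q, q = k • c) : q = 0 := by
  obtain ⟨n, ι, hι, p, hp, e, ⟨f⟩⟩ := AddCommGroup.equiv_free_prod_directSum_zmod Q
  apply f.injective
  rw [map_zero]
  apply Prod.ext
  · ext i
    by_contra hne
    have hne' : (f q).1 i ≠ 0 := hne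
    obtain ⟨c, hc⟩ := hq (((f q).1 i).natAbs + 1) (Nat.succ_pos _)
    have h1 : (f q).1 i = ((((f q).1 i).natAbs + 1 : ℕ) : ℤ) * (f c).1 i := by
      conv_lhs => rw [hc, map_nsmul]
      simp
    have h2 : ((((f q).1 i).natAbs + 1 : ℕ) : ℤ) ∣ (f q).1 i := ⟨_, h1⟩
    have h3 := Int.natAbs_dvd_natAbs.mpr h2
    rw [Int.natAbs_natCast] at h3
    have h4 := Nat.le_of_dvd (Int.natAbs_pos.mpr hne') h3
    omega
  · ext i
    obtain ⟨c, hc⟩ := hq (p i ^ e i) (pow_pos (hp i).pos _)
    have h1 : (f q).2 i = (p i ^ e i) • (f c).2 i := by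
      conv_lhs => rw [hc, map_nsmul]
      rfl
    rw [h1, nsmul_eq_mul, ZMod.natCast_self, zero_mul]
    rfl

theorem subgroup_closed {m : ℕ} (Λ : AddSubgroup (Fin m → ℤ)) (v : Fin m → ℤ)
    (hv : ∀ k : ℕ, 0 < k → ∃ c : Fin m → ℤ, v + k • c ∈ Λ) : v ∈ Λ := by
  have h := fg_divisible (Q := (Fin m → ℤ) ⧸ Λ) (v : (Fin m → ℤ) ⧸ Λ) (by
    intro k hk
    obtain ⟨c, hc⟩ := hv k hk
    refine ⟨((-c : Fin m → ℤ) : (Fin m → ℤ) ⧸ Λ), ?_⟩
    have h1 : ((v + k • c : Fin m → ℤ) : (Fin m → ℤ) ⧸ Λ) = 0 :=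
      (QuotientAddGroup.eq_zero_iff _).mpr hc
    have h2 : (v : (Fin m → ℤ) ⧸ Λ) + k • (c : (Fin m → ℤ) ⧸ Λ) = 0 := h1
    have h3 : ((-c : Fin m → ℤ) : (Fin m → ℤ) ⧸ Λ) = -(c : (Fin m → ℤ) ⧸ Λ) := rfl
    rw [h3, neg_nsmul]
    exact eq_neg_of_add_eq_zero_left h2)
  exact (QuotientAddGroup.eq_zero_iff _).mp h

variable {S : Type} [Monoid S] {rk : S → ℕ}

namespace Prof

variable {c : Cocycle S}

/-- shift of the second component -/
def sh (x : ℤ) (a : Ext c ℤ) : Ext c ℤ := ⟨a.fst, a.snd + x⟩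

@[simp] theorem sh_fst (x : ℤ) (a : Ext c ℤ) : (sh x a).fst = a.fst := rfl
@[simp] theorem sh_snd (x : ℤ) (a : Ext c ℤ) : (sh x a).snd = a.snd + x := rfl

theorem sh_mul_left (x : ℤ) (a b : Ext c ℤ) : sh x (a * b) = sh x a * b := by
  ext
  · rfl
  · simp only [sh_snd, Ext.mul_snd, sh_fst]
    ring

theorem sh_mul_right (x : ℤ) (a b : Ext c ℤ) : sh x (a * b) = a * sh x b := by
  ext
  · rfl
  · simp only [sh_snd, Ext.mul_snd, sh_fst]
    ring

/-- translation of a list -/
def tr : (ℕ → ℤ) → List (Ext c ℤ) → List (Ext c ℤ)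
  | _, [] => []
  | x, a :: L => sh (x 0) a :: tr (fun i => x (i + 1)) L

theorem tr_append (x : ℕ → ℤ) (A B : List (Ext c ℤ)) :
    tr x (A ++ B) = tr x A ++ tr (fun i => x (i + A.length)) B := by
  induction A generalizing x with
  | nil => simp [tr]
  | cons a A ih =>
    simp only [List.cons_append, tr, ih, List.length_cons]
    congr 3

theorem tr_add (x y : ℕ → ℤ) (L : List (Ext c ℤ)) :
    tr x (tr y L) = tr (fun i => x i + y i) L := by
  induction L generalizing x y with
  | nil => rfl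
  | cons a L ih =>
    simp only [tr, ih]
    congr 1
    ext
    · rfl
    · simp only [sh_snd]; ring

theorem tr_zero (L : List (Ext c ℤ)) : tr (fun _ => 0) L = L := by
  induction L with
  | nil => rfl
  | cons a L ih =>
    simp only [tr, ih]
    congr 1
    ext
    · rfl
    · simp

theorem tr_congr {x y : ℕ → ℤ} (L : List (Ext c ℤ)) (h : ∀ i < L.length, x i = y i) :
    tr x L = tr y L := by
  induction L generalizing x y with
  | nil => rfl
  | cons a L ih =>
    simp only [tr]
    rw [h 0 (by simp), ih (x := fun i => x (i + 1)) (y := fun i => y (i + 1))]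
    intro i hi
    exact h (i + 1) (by simpa using hi)

theorem move_tr {L K : List (Ext c ℤ)} (x : ℕ → ℤ) (h : Move rk Ext.toS (zeta c) L K) :
    Move rk Ext.toS (zeta c) (tr x L) (tr x K) := by
  cases h with
  | mk A B t t' e he h1 h2 h3 h4 =>
    simp only [tr_append, tr]
    rw [sh_mul_left, sh_mul_right]
    exact Move.mk _ _ _ _ e he h1 h2 h3 h4

theorem moveEq_tr {L K : List (Ext c ℤ)} (x : ℕ → ℤ) (h : MoveEq rk Ext.toS (zeta c) L K) :
    MoveEq rk Ext.toS (zeta c) (tr x L) (tr x K) := by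
  unfold MoveEq at *
  induction h with
  | rel a b h => exact Relation.EqvGen.rel _ _ (move_tr x h)
  | refl a => exact Relation.EqvGen.refl _
  | symm a b _ ih => exact Relation.EqvGen.symm _ _ ih
  | trans a b d _ _ ih1 ih2 => exact Relation.EqvGen.trans _ _ _ ih1 ih2

/-- lifting a move modulo `k`, forwards -/
theorem lift_fwd {k : ℕ} {K1 K2 : List (Ext c (ZMod k))}
    (h : Move rk Ext.toS ((Ext.red k).comp (zeta c)) K1 K2) (K1' : List (Ext c ℤ))
    (h1 : K1'.map (Ext.red k) = K1) :
    ∃ K2' : List (Ext c ℤ), K2'.map (Ext.red k) = K2 ∧ Move rk Ext.toS (zeta c) K1' K2' := by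
  cases h with
  | mk A B t t' e he r1 r2 r3 r4 =>
    obtain ⟨A', R, rfl, hA, hR⟩ := List.map_eq_append_iff.mp h1
    obtain ⟨u, R', rfl, hu, hR'⟩ := List.map_eq_cons_iff.mp hR
    obtain ⟨u', B', rfl, hu', hB⟩ := List.map_eq_cons_iff.mp hR'
    subst hu'
    have hz : ((Ext.red k).comp (zeta c)) (IG.X e) = Ext.idem c (ZMod k) e := by
      rw [MonoidHom.comp_apply, zeta_X c he, Ext.red_idem]
    rw [hz] at hu
    have huf : u.fst = t.fst * e := by
      have := congrArg Ext.fst hu
      exact this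
    have hus : ((u.snd : ℤ) : ZMod k) = t.snd + -((c.m e e : ℤ) : ZMod k) +
        ((c.m t.fst e : ℤ) : ZMod k) := by
      have := congrArg Ext.snd hu
      exact this
    let t0 : Ext c ℤ := ⟨t.fst, u.snd + c.m e e - c.m t.fst e⟩
    have ht0 : Ext.red k t0 = t := by
      ext
      · rfl
      · simp only [Ext.red_snd, t0]
        push_cast
        rw [hus]
        ring
    have hmul : t0 * zeta c (IG.X e) = u := by
      rw [zeta_X c he]
      ext
      · exact huf.symm
      · simp only [Ext.mul_snd, Ext.idem_snd, Ext.idem_fst, t0]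
        push_cast
        ring
    refine ⟨A' ++ t0 :: (zeta c (IG.X e) * u') :: B', ?_, ?_⟩
    · rw [List.map_append, List.map_cons, List.map_cons, hA, ht0, hB, map_mul]
      rfl
    · rw [← hmul]
      exact Move.mk A' B' t0 u' e he r1 r2 r3 r4

/-- lifting a move modulo `k`, backwards -/
theorem lift_bwd {k : ℕ} {K1 K2 : List (Ext c (ZMod k))}
    (h : Move rk Ext.toS ((Ext.red k).comp (zeta c)) K1 K2) (K2' : List (Ext c ℤ))
    (h2 : K2'.map (Ext.red k) = K2) :
    ∃ K1' : List (Ext c ℤ), K1'.map (Ext.red k) = K1 ∧ Move rk Ext.toS (zeta c) K1' K2' := by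
  cases h with
  | mk A B t t' e he r1 r2 r3 r4 =>
    obtain ⟨A', R, rfl, hA, hR⟩ := List.map_eq_append_iff.mp h2
    obtain ⟨u, R', rfl, hu, hR'⟩ := List.map_eq_cons_iff.mp hR
    obtain ⟨u', B', rfl, hu', hB⟩ := List.map_eq_cons_iff.mp hR'
    subst hu
    have hz : ((Ext.red k).comp (zeta c)) (IG.X e) = Ext.idem c (ZMod k) e := by
      rw [MonoidHom.comp_apply, zeta_X c he, Ext.red_idem]
    rw [hz] at hu'
    have huf : u'.fst = e * t'.fst := by
      have := congrArg Ext.fst hu'
      exact this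
    have hus : ((u'.snd : ℤ) : ZMod k) = -((c.m e e : ℤ) : ZMod k) + t'.snd +
        ((c.m e t'.fst : ℤ) : ZMod k) := by
      have := congrArg Ext.snd hu'
      exact this
    let t0 : Ext c ℤ := ⟨t'.fst, u'.snd + c.m e e - c.m e t'.fst⟩
    have ht0 : Ext.red k t0 = t' := by
      ext
      · rfl
      · simp only [Ext.red_snd, t0]
        push_cast
        rw [hus]
        ring
    have hmul : zeta c (IG.X e) * t0 = u' := by
      rw [zeta_X c he]
      ext
      · exact huf.symm
      · simp only [Ext.mul_snd, Ext.idem_snd, Ext.idem_fst, t0]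
        push_cast
        ring
    refine ⟨A' ++ (u * zeta c (IG.X e)) :: t0 :: B', ?_, ?_⟩
    · rw [List.map_append, List.map_cons, List.map_cons, hA, ht0, hB, map_mul]
      rfl
    · rw [← hmul]
      exact Move.mk A' B' u t0 e he r1 r2 r3 r4

theorem lift_eqv {k : ℕ} {K1 K2 : List (Ext c (ZMod k))}
    (h : MoveEq rk Ext.toS ((Ext.red k).comp (zeta c)) K1 K2) :
    (∀ K1' : List (Ext c ℤ), K1'.map (Ext.red k) = K1 → ∃ K2' : List (Ext c ℤ),
      K2'.map (Ext.red k) = K2 ∧ MoveEq rk Ext.toS (zeta c) K1' K2') ∧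
    (∀ K2' : List (Ext c ℤ), K2'.map (Ext.red k) = K2 → ∃ K1' : List (Ext c ℤ),
      K1'.map (Ext.red k) = K1 ∧ MoveEq rk Ext.toS (zeta c) K1' K2') := by
  unfold MoveEq at *
  induction h with
  | rel a b h =>
    constructor
    · intro K1' h1
      obtain ⟨K2', h2, h3⟩ := lift_fwd h K1' h1
      exact ⟨K2', h2, Relation.EqvGen.rel _ _ h3⟩
    · intro K2' h1
      obtain ⟨K1', h2, h3⟩ := lift_bwd h K2' h1
      exact ⟨K1', h2, Relation.EqvGen.rel _ _ h3⟩
  | refl a => exact ⟨fun K h => ⟨K, h, Relation.EqvGen.refl _⟩, fun K h => ⟨K, h, Relation.EqvGen.refl _⟩⟩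
  | symm a b _ ih =>
    constructor
    · intro K h
      obtain ⟨K', h1, h2⟩ := ih.2 K h
      exact ⟨K', h1, Relation.EqvGen.symm _ _ h2⟩
    · intro K h
      obtain ⟨K', h1, h2⟩ := ih.1 K h
      exact ⟨K', h1, Relation.EqvGen.symm _ _ h2⟩
  | trans a b d _ _ ih1 ih2 =>
    constructor
    · intro K h
      obtain ⟨K', h1, h2⟩ := ih1.1 K h
      obtain ⟨K'', h3, h4⟩ := ih2.1 K' h1
      exact ⟨K'', h3, Relation.EqvGen.trans _ _ _ h2 h4⟩
    · intro K h
      obtain ⟨K', h1, h2⟩ := ih2.2 K h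
      obtain ⟨K'', h3, h4⟩ := ih1.2 K' h1
      exact ⟨K'', h3, Relation.EqvGen.trans _ _ _ h4 h2⟩

/-- two lists with the same reduction differ by a translation by multiples of `k` -/
theorem exists_tr {k : ℕ} (K L : List (Ext c ℤ)) (h : K.map (Ext.red k) = L.map (Ext.red k)) :
    ∃ x : ℕ → ℤ, K = tr (fun i => k * x i) L := by
  induction L generalizing K with
  | nil =>
    refine ⟨fun _ => 0, ?_⟩
    simpa [tr] using h
  | cons a L ih =>
    obtain ⟨b, K', rfl, hb, hK'⟩ := List.map_eq_cons_iff.mp h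
    obtain ⟨x, hx⟩ := ih K' hK'
    have h1 : b.fst = a.fst := by
      have := congrArg Ext.fst hb
      exact this
    have h2 : ((b.snd : ℤ) : ZMod k) = ((a.snd : ℤ) : ZMod k) := by
      have := congrArg Ext.snd hb
      exact this
    have h3 : ((k : ℕ) : ℤ) ∣ b.snd - a.snd := by
      rw [← ZMod.intCast_zmod_eq_zero_iff_dvd (b.snd - a.snd) k]
      push_cast
      rw [h2, sub_self]
    obtain ⟨y, hy⟩ := h3
    refine ⟨fun i => Nat.casesOn i y x, ?_⟩
    simp only [tr]
    rw [← hx]
    congr 1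
    ext
    · exact h1
    · change b.snd = a.snd + k * y
      linarith

end Prof

open Prof in
theorem moveEq_of_mod (c : Cocycle S) {L L' : List (Ext c ℤ)}
    (h : ∀ k : ℕ, 0 < k →
      MoveEq rk Ext.toS ((Ext.red k).comp (zeta c)) (L.map (Ext.red k)) (L'.map (Ext.red k))) :
    MoveEq rk Ext.toS (zeta c) L L' := by
  have hk : ∀ k : ℕ, 0 < k → ∃ x : ℕ → ℤ,
      MoveEq rk Ext.toS (zeta c) L (tr (fun i => k * x i) L') := by
    intro k hk
    obtain ⟨K, hK, hLK⟩ := (lift_eqv (h k hk)).1 L rfl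
    obtain ⟨x, rfl⟩ := exists_tr K L' hK
    exact ⟨x, hLK⟩
  -- the extension by zero
  let ex : (Fin L'.length → ℤ) → ℕ → ℤ := fun x i => if h : i < L'.length then x ⟨i, h⟩ else 0
  have hex : ∀ x : ℕ → ℤ, tr (ex (fun i => x i)) L' = tr x L' := by
    intro x
    apply tr_congr
    intro i hi
    simp [ex, hi]
  let Λ : AddSubgroup (Fin L'.length → ℤ) :=
    { carrier := {x | MoveEq rk Ext.toS (zeta c) L' (tr (ex x) L')}
      zero_mem' := by
        have h1 : tr (ex 0) L' = L' := by
          rw [tr_congr (y := fun _ => 0) L' (by intro i hi; simp [ex]), tr_zero]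
        change MoveEq rk Ext.toS (zeta c) L' (tr (ex 0) L')
        rw [h1]
        exact Relation.EqvGen.refl _
      add_mem' := by
        intro x y hx hy
        have h1 := moveEq_tr (ex x) hy
        rw [tr_add] at h1
        have h2 : tr (fun i => ex x i + ex y i) L' = tr (ex (x + y)) L' := by
          apply tr_congr
          intro i hi
          simp [ex, hi]
        rw [h2] at h1
        exact Relation.EqvGen.trans _ _ _ hx h1
      neg_mem' := by
        intro x hx
        have h1 := moveEq_tr (ex (-x)) hx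
        rw [tr_add] at h1
        have h2 : tr (fun i => ex (-x) i + ex x i) L' = L' := by
          rw [tr_congr (y := fun _ => 0) L' (by intro i hi; simp [ex, hi]), tr_zero]
        rw [h2] at h1
        exact Relation.EqvGen.symm _ _ h1 }
  obtain ⟨v, hv⟩ := hk 1 one_pos
  have hv' : MoveEq rk Ext.toS (zeta c) L (tr v L') := by
    have : (fun i => ((1 : ℕ) : ℤ) * v i) = v := by
      funext i
      simp
    rwa [this] at hv
  have hvΛ : (fun i : Fin L'.length => v i) ∈ Λ := by
    apply subgroup_closed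
    intro k hkpos
    obtain ⟨x, hx⟩ := hk k hkpos
    refine ⟨fun i => -x i, ?_⟩
    change MoveEq rk Ext.toS (zeta c) L' _
    have h1 : MoveEq rk Ext.toS (zeta c) (tr (fun i => k * x i) L') (tr v L') :=
      Relation.EqvGen.trans _ _ _ (Relation.EqvGen.symm _ _ hx) hv'
    have h2 := moveEq_tr (fun i => -(k * x i)) h1
    rw [tr_add, tr_add] at h2
    have h3 : tr (fun i => -(k * x i) + k * x i) L' = L' := by
      rw [tr_congr (y := fun _ => 0) L' (by intro i hi; simp), tr_zero]
    rw [h3] at h2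
    have h4 : tr (fun i => -(k * x i) + v i) L' =
        tr (ex ((fun i : Fin L'.length => v i) + k • fun i : Fin L'.length => -x i)) L' := by
      apply tr_congr
      intro i hi
      simp [ex, hi]
      ring
    rw [h4] at h2
    exact h2
  have hfin : MoveEq rk Ext.toS (zeta c) L' (tr (ex (fun i : Fin L'.length => v i)) L') := hvΛ
  rw [hex] at hfin
  exact Relation.EqvGen.trans _ _ _ hv' (Relation.EqvGen.symm _ _ hfin)

end Pool.Agent.IGP
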