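import Mathlib
import Pool.Agent.IGP.Basic
import Pool.Agent.IGP.Reg
import Pool.Agent.IGP.MoveLemmas
import Pool.Agent.IGP.Lang
import Pool.Agent.IGP.Factor
import Pool.Agent.IGP.Lift
import Pool.Agent.IGP.Profinite
import Pool.Agent.IGP.High

/-! The abstract theorem: residual finiteness of `IG S` from the low rank hypothesis. -/

namespace Pool.Agent.IGP

variable {S : Type} [Monoid S] {rk : S → ℕ}

theorem forall₂_eq_of {α : Type} {l l' : List α} (h : List.Forall₂ (fun a b => a = b) l l') :
    l = l' := by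
  induction h with
  | nil => rfl
  | cons h _ ih => rw [h, ih]

theorem word_eq_of_no_sep [Finite S] (h : IsRank rk) (c : Cocycle S)
    (low : ∀ x y : IG S, IsReg rk x → IsReg rk y → ¬ High rk (rk (IG.pi x)) →
      zeta c x = zeta c y → x = y)
    {s t : List (Idem S)} (hs : s ≠ []) (ht : t ≠ [])
    (hns : ∀ (F : Type) (_ : Monoid F) (_ : Finite F) (φ : IG S →* F),
      φ (IG.word s) = φ (IG.word t)) : IG.word s = IG.word t := by
  obtain ⟨ss, ts, hss, hts, hsr, htr, hall⟩ := exists_uniform h hs ht hns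
  set xs : List (IG S) := ts.map IG.word with hxs
  set ys : List (IG S) := ss.map IG.word with hys
  have hxprod : xs.prod = IG.word t := by rw [hxs, ← IG.word_flatten, hts]
  have hyprod : ys.prod = IG.word s := by rw [hys, ← IG.word_flatten, hss]
  have hxreg : ∀ x ∈ xs, IsReg rk x := by
    intro x hx
    rw [hxs, List.mem_map] at hx
    obtain ⟨u, hu, rfl⟩ := hx
    exact ⟨u, rfl, htr u hu⟩
  have hyreg : ∀ x ∈ ys, IsReg rk x := by
    intro x hx
    rw [hys, List.mem_map] at hx
    obtain ⟨u, hu, rfl⟩ := hx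
    exact ⟨u, rfl, hsr u hu⟩
  have hall' : ∀ (T : Type) (_ : Monoid T) (_ : Finite T) (ρ : T →* S) (θ : IG S →* T),
      ρ.comp θ = IG.pi → MoveEq rk ρ θ (xs.map θ) (ys.map θ) := by
    intro T hT hTf ρ θ hρ
    have := hall T hT hTf ρ θ hρ
    rw [hxs, hys, List.map_map, List.map_map]
    exact this
  -- high coordinates agree
  have hhigh : List.Forall₂ (fun x y => rk (IG.pi x) = rk (IG.pi y) ∧
      (High rk (rk (IG.pi x)) → x = y)) xs ys := by
    rw [List.forall₂_iff_get]
    have h0 := moveEq_rigid h (MonoidHom.ext fun _ => rfl)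
      (hall' S inferInstance inferInstance (MonoidHom.id S) IG.pi (MonoidHom.ext fun _ => rfl))
    rw [List.forall₂_iff_get] at h0
    obtain ⟨hlen, h0⟩ := h0
    simp only [List.length_map] at hlen h0
    refine ⟨hlen, ?_⟩
    intro i h1 h2
    have h3 := h0 i h1 h2
    simp only [List.get_eq_getElem, List.getElem_map, MonoidHom.id_apply] at h3 ⊢
    refine ⟨h3.1, ?_⟩
    intro hH
    by_contra hne
    obtain ⟨F, hF, hFf, Φ, hΦ⟩ := high_sep h (hxreg _ (List.getElem_mem h1))
      (hyreg _ (List.getElem_mem h2)) hH hne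
    have h4 := moveEq_rigid h (ρ := MonoidHom.snd F S) (θ := Φ.prod IG.pi)
      (MonoidHom.ext fun _ => rfl)
      (hall' (F × S) inferInstance inferInstance (MonoidHom.snd F S) (Φ.prod IG.pi)
        (MonoidHom.ext fun _ => rfl))
    rw [List.forall₂_iff_get] at h4
    have h5 := (h4.2 i (by simpa using h1) (by simpa using h2)).2
    simp only [List.get_eq_getElem, List.getElem_map] at h5
    have h6 := h5 hH
    have h7 := congrArg Prod.fst h6
    exact hΦ h7
  -- moves over the integer extension
  have hmove : MoveEq rk Ext.toS (zeta c) (xs.map (zeta c)) (ys.map (zeta c)) := by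
    apply moveEq_of_mod
    intro k hk
    have : NeZero k := ⟨by omega⟩
    have := hall' (Ext c (ZMod k)) inferInstance inferInstance Ext.toS
      ((Ext.red k).comp (zeta c)) (by
        apply IG.hom_ext
        intro e
        rfl)
    have e1 : ∀ l : List (IG S), (l.map (zeta c)).map (Ext.red k) =
        l.map ((Ext.red k).comp (zeta c)) := by
      intro l; rw [List.map_map]; rfl
    rw [e1, e1]
    exact this
  obtain ⟨xs', hx'reg, hx'map, hx'prod, hx'move⟩ := lift_moveEq h c hxreg hmove
  have hrig := moveEq_rigid h (MonoidHom.ext fun _ => rfl) hx'move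
  have hfin : xs' = ys := by
    apply forall₂_eq_of
    rw [List.forall₂_iff_get] at hrig hhigh ⊢
    obtain ⟨hl1, h1⟩ := hrig
    obtain ⟨hl2, h2⟩ := hhigh
    refine ⟨hl1.symm.trans hl2, ?_⟩
    intro i hi1 hi2
    have hi0 : i < xs.length := by omega
    have h3 := h1 i hi0 hi1
    have h4 := h2 i hi0 hi2
    simp only [List.get_eq_getElem] at h3 h4 ⊢
    by_cases hH : High rk (rk (IG.pi xs[i]))
    · exact ((h3.2 hH).symm.trans (h4.2 hH))
    · have hH' : ¬ High rk (rk (IG.pi xs'[i])) := by rw [← h3.1]; exact hH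
      apply low _ _ (hx'reg _ (List.getElem_mem hi1)) (hyreg _ (List.getElem_mem hi2)) hH'
      have h5 : (xs'.map (zeta c))[i]'(by simpa using hi1) =
          (ys.map (zeta c))[i]'(by simpa using hi2) := by
        simp only [hx'map]
      simpa using h5
  rw [← hyprod, ← hxprod, ← hx'prod, hfin]

theorem residuallyFinite_of [Finite S] (h : IsRank rk) (c : Cocycle S)
    (low : ∀ x y : IG S, IsReg rk x → IsReg rk y → ¬ High rk (rk (IG.pi x)) →
      zeta c x = zeta c y → x = y) : ResiduallyFinite (IG S) := by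
  intro a b hab
  by_contra hcon
  apply hab
  obtain ⟨s, hs, rfl⟩ := IG.exists_word a
  obtain ⟨t, ht, rfl⟩ := IG.exists_word b
  apply word_eq_of_no_sep h c low hs ht
  intro F hF hFf φ
  by_contra hne
  apply hcon
  exact ⟨F, inferInstance, hFf, (φ : IG S →ₙ* F), hne⟩

end Pool.Agent.IGP
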