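import Mathlib
import Pool.Agent.IGP.Basic

/-! Calculus in `IG S` for pairs of idempotents `p, q` with `pqp = p`, `qpq = q`. -/

namespace Pool.Agent.IGP

variable {S : Type} [Monoid S]

/-- `p, q` are friendly idempotents -/
structure Fr (p q : S) : Prop where
  hp : p * p = p
  hq : q * q = q
  pqp : p * q * p = p
  qpq : q * p * q = q

namespace Fr
variable {p q : S}

theorem symm (h : Fr p q) : Fr q p := ⟨h.hq, h.hp, h.qpq, h.pqp⟩

theorem idem (h : Fr p q) : (p * q) * (p * q) = p * q := by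
  calc (p * q) * (p * q) = (p * q * p) * q := by simp only [mul_assoc]
    _ = p * q := by rw [h.pqp]

/-- `x_{pq} x_q = x_{pq}` -/
theorem X_mul_q (h : Fr p q) : IG.X (p * q) * IG.X q = IG.X (p * q) :=
  IG.X_mul_left h.idem h.hq (by rw [mul_assoc, h.hq])

/-- `x_p x_{pq} = x_{pq}` -/
theorem p_mul_X (h : Fr p q) : IG.X p * IG.X (p * q) = IG.X (p * q) :=
  IG.X_mul_right h.hp h.idem (by rw [← mul_assoc, h.hp])

/-- `x_{pq} x_p = x_p` -/
theorem X_mul_p (h : Fr p q) : IG.X (p * q) * IG.X p = IG.X p :=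
  IG.X_mul_right h.idem h.hp h.pqp

/-- `x_q x_{pq} = x_q` -/
theorem q_mul_X (h : Fr p q) : IG.X q * IG.X (p * q) = IG.X q :=
  IG.X_mul_left h.hq h.idem (by rw [← mul_assoc, h.qpq])

/-- the inverse of `x_{pq}` is `x_q x_p` -/
theorem X_mul_inv (h : Fr p q) : IG.X (p * q) * (IG.X q * IG.X p) = IG.X p := by
  rw [← mul_assoc, h.X_mul_q, h.X_mul_p]

theorem inv_mul_X (h : Fr p q) : (IG.X q * IG.X p) * IG.X (p * q) = IG.X q := by
  rw [mul_assoc, h.p_mul_X, h.q_mul_X]

/-- (LR): factorisation of `x_{pq}` through a projection `k` with `kq = q = qk`. -/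
theorem X_LR (h : Fr p q) {k : S} (hk : k * k = k) (hkq : k * q = q) (hqk : q * k = q)
    (hpkp : p * k * p = p) : IG.X (p * q) = IG.X (p * k) * IG.X (k * p * q) := by
  have hpk : (p * k) * (p * k) = p * k := by
    calc (p * k) * (p * k) = (p * k * p) * k := by simp only [mul_assoc]
      _ = p * k := by rw [hpkp]
  have h1 : IG.X k * IG.X (p * q) = IG.X (k * p * q) := by
    rw [IG.X_mul hk h.idem (Or.inr (Or.inr (Or.inr (by rw [mul_assoc, hqk])))), mul_assoc]
  have h2 : IG.X (p * k) * IG.X k = IG.X (p * k) :=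
    IG.X_mul_left hpk hk (by rw [mul_assoc, hk])
  have h3 : IG.X (p * k) * IG.X (p * q) = IG.X (p * q) :=
    IG.X_mul_right hpk h.idem (by
      calc (p * k) * (p * q) = (p * k * p) * q := by simp only [mul_assoc]
        _ = p * q := by rw [hpkp])
  rw [← h1, ← mul_assoc, h2, h3]

/-- (LR'), the dual: `x_{qp} = x_{qpk} x_{kp}`. -/
theorem X_LR' (h : Fr p q) {k : S} (hk : k * k = k) (hkq : k * q = q) (hqk : q * k = q)
    (hpkp : p * k * p = p) : IG.X (q * p) = IG.X (q * p * k) * IG.X (k * p) := by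
  have hkp : (k * p) * (k * p) = k * p := by
    calc (k * p) * (k * p) = k * (p * k * p) := by simp only [mul_assoc]
      _ = k * p := by rw [hpkp]
  have h1 : IG.X (q * p) * IG.X k = IG.X (q * p * k) :=
    IG.X_mul h.symm.idem hk (Or.inr (Or.inr (Or.inl (by rw [← mul_assoc, hkq]))))
  have h2 : IG.X k * IG.X (k * p) = IG.X (k * p) :=
    IG.X_mul_right hk hkp (by rw [← mul_assoc, hk])
  have h3 : IG.X (q * p) * IG.X (k * p) = IG.X (q * p) :=
    IG.X_mul_left h.symm.idem hkp (by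
      calc (q * p) * (k * p) = q * (p * k * p) := by simp only [mul_assoc]
        _ = q * p := by rw [hpkp])
  rw [← h1, mul_assoc, h2, h3]

end Fr

end Pool.Agent.IGP
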