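import Mathlib

/-! MODULE P (InjLemma).  Transport on the complex of injections `Fin r → Fin n`, `n ≥ r + 2`.

PAPER PROOF of `inj_connected` (`r + 1 <= n`; induction on `r`, generalised to injections into an
arbitrary finite type / into the complement of a finite set of forbidden points, with at least `r + 1`
allowed points).  Goal: from `a` reach `b` by changing one coordinate at a time, through injections.
First make the last coordinate equal to `w = b last`: if `w` is not a value of `a`, change `a last` to
`w`.  If `w = a i` with `i ≠ last`: there is a free point `f` (not a value of `a`; there are `r`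
values and at least `r + 1` points): change `a i` to `f`, then change `a last` to `w`.  Then use the
induction hypothesis for the first `r - 1` coordinates, injections into the complement of `w` (`r`
points left at least, `r - 1` coordinates).

PAPER PROOF of `inj_transport`.  Induction on `r`, for injections into an arbitrary finite type `X`
(or into `Fin n` minus a finite set of forbidden points) with at least `r + 2` allowed points.
`r = 0`: there is one injection, `T = s`.
Step `r → r + 1` (last coordinate singled out, write `a = (a', v)`): for every `v`, the function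
`s_v (a', b') = s ((a',v), (b',v))` on injections of `r` points into `X \ {v}` (at least `r + 2`
points) satisfies the hypotheses, so there is `T_v`.
For `a = (a', v)`, `b = (b', v)`: `T a b = T_v a' b'`.
For `a = (a', v)`, `b = (b', w)`, `v ≠ w`: choose an injection `c` of `r` points into `X \ {v, w}`
(at least `r + 1` points) and put
  `T a b = T_v(a', c) * s((c,v),(c,w)) * T_w(c, b')`.
Independence of `c`: by connectedness (`inj_connected` for `X \ {v,w}`) it suffices to compare `c`
and `c'` differing in one coordinate.  `T_v(a', c) = T_v(a', c') s((c',v),(c,v))` and `T_w(c, b') =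
s((c,w),(c',w)) T_w(c', b')`; and by the square relation (h2)
`s((c',v),(c,v)) s((c,v),(c,w)) = s((c',v),(c',w)) s((c',w),(c,w))`, and
`s((c',w),(c,w)) s((c,w),(c',w)) = s((c',w),(c',w))` (h1), and `s((c',v),(c',w)) s((c',w),(c',w)) =
s((c',v),(c',w))` (h1).
Composition `T a b * T b d = T a d` with last coordinates `v, w, u`: choose a common `c` in
`X \ {u, v, w}` (at least `r` points): `T_v(a',c) s(cv,cw) T_w(c,b') T_w(b',c) s(cw,cu) T_u(c,d')
= T_v(a',c) s(cv,cw) s(cw,cu) T_u(c,d') = T_v(a',c) s(cv,cu) T_u(c,d')` (triangle (h1)); if some of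
`u, v, w` coincide the same computation works, using `s(cv,cv) = T_v(c,c)` and (h1).
(Convenient: define `T a b` by the formula with any `c` avoiding `v, w` also if `v = w`; then
`T_v(a',c) s(cv,cv) T_v(c,b') = T_v(a',b')`.)
Adjacent `a, b`: if they differ in the last coordinate only, take `c = a' = b'`:
`T_v(a',a') s(a,b) T_w(b',b') = s(a,a) s(a,b) s(b,b) = s(a,b)` by (h1) (needs `T_v(a',a') = s(a,a)`, the third
property).  If they differ in another coordinate, `v = w` and `T a b = T_v(a',b') = s(a,b)`.
`T a a = T_v(a',a') = s(a,a)`.
-/

namespace Pool.Agent.IGP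

namespace InjL

variable {α : Type*} [DecidableEq α] {M : Type*} [Monoid M]

/-- prepend a point -/
def cn {r : ℕ} (v : α) (c : Fin r → α) : Fin (r + 1) → α := Fin.cons v c

omit [DecidableEq α] in
@[simp] theorem cn_zero {r : ℕ} (v : α) (c : Fin r → α) : cn v c 0 = v := rfl

omit [DecidableEq α] in
@[simp] theorem cn_succ {r : ℕ} (v : α) (c : Fin r → α) (k : Fin r) : cn v c k.succ = c k := rfl

omit [DecidableEq α] in
theorem cn_eta {r : ℕ} (a : Fin (r + 1) → α) : cn (a 0) (fun k => a k.succ) = a := by
  funext k
  refine Fin.cases ?_ (fun i => ?_) k <;> simp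

/-- injective tuples with values in `S` -/
def Adm (S : Finset α) {r : ℕ} (a : Fin r → α) : Prop := Function.Injective a ∧ ∀ k, a k ∈ S

omit [DecidableEq α] in
theorem Adm.mono {S T : Finset α} (h : S ⊆ T) {r : ℕ} {a : Fin r → α} (ha : Adm S a) : Adm T a :=
  ⟨ha.1, fun k => h (ha.2 k)⟩

theorem Adm.cn {S : Finset α} {r : ℕ} {v : α} {c : Fin r → α} (hv : v ∈ S)
    (hc : Adm (S.erase v) c) : Adm S (cn v c) := by
  refine ⟨?_, fun k => ?_⟩
  · intro i j hij
    revert hij
    refine Fin.cases ?_ (fun i' => ?_) i <;> refine Fin.cases ?_ (fun j' => ?_) j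
    · intro _; rfl
    · intro hij
      simp only [cn_zero, cn_succ] at hij
      exact absurd hij.symm (Finset.ne_of_mem_erase (hc.2 j'))
    · intro hij
      simp only [cn_zero, cn_succ] at hij
      exact absurd hij (Finset.ne_of_mem_erase (hc.2 i'))
    · intro hij
      simp only [cn_succ] at hij
      rw [hc.1 hij]
  · refine Fin.cases ?_ (fun i' => ?_) k
    · exact hv
    · exact Finset.mem_of_mem_erase (hc.2 i')

theorem Adm.tail {S : Finset α} {r : ℕ} {a : Fin (r + 1) → α} (ha : Adm S a) :
    Adm (S.erase (a 0)) (fun k => a k.succ) := by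
  refine ⟨fun i j hij => Fin.succ_injective _ (ha.1 hij), fun k => ?_⟩
  rw [Finset.mem_erase]
  exact ⟨fun h => Fin.succ_ne_zero k (ha.1 h), ha.2 _⟩

omit [DecidableEq α] in
theorem exists_adm (S : Finset α) (r : ℕ) (h : r ≤ S.card) : ∃ a : Fin r → α, Adm S a := by
  obtain ⟨f⟩ := Function.Embedding.nonempty_of_card_le (α := Fin r) (β := S) (by simpa using h)
  exact ⟨fun k => (f k : α), fun i j hij => f.injective (Subtype.ext hij), fun k => (f k).2⟩

theorem conn : ∀ (r : ℕ) (S : Finset α), r + 1 ≤ S.card → ∀ (P : (Fin r → α) → Prop)
    (a0 : Fin r → α), Adm S a0 → P a0 →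
    (∀ (a b : Fin r → α) (i : Fin r), Adm S a → Adm S b → (∀ j, j ≠ i → a j = b j) → P a → P b) →
    ∀ b, Adm S b → P b := by
  intro r
  induction r with
  | zero =>
    intro S _ P a0 _ h0 _ b _
    rwa [Subsingleton.elim b a0]
  | succ r ih =>
    intro S hS P a0 ha0 h0 hstep b hb
    -- step 1
    have step1 : ∃ a1 : Fin (r + 1) → α, Adm S a1 ∧ P a1 ∧ a1 0 = b 0 := by
      by_cases hw : ∃ i, a0 i = b 0
      · obtain ⟨i, hi⟩ := hw
        by_cases hi0 : i = 0
        · exact ⟨a0, ha0, h0, by rw [hi0] at hi; exact hi⟩
        · -- a free point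
          obtain ⟨f, hfS, hf⟩ : ∃ f ∈ S, ∀ k, a0 k ≠ f := by
            have hc : (Finset.univ.image a0).card < S.card := by
              have := Finset.card_image_le (s := (Finset.univ : Finset (Fin (r + 1)))) (f := a0)
              rw [Finset.card_univ, Fintype.card_fin] at this
              omega
            obtain ⟨f, hf1, hf2⟩ := Finset.exists_mem_notMem_of_card_lt_card hc
            refine ⟨f, hf1, fun k hk => hf2 ?_⟩
            rw [Finset.mem_image]
            exact ⟨k, Finset.mem_univ _, hk⟩
          have hb1 : Adm S (Function.update a0 i f) := by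
            refine ⟨?_, fun k => ?_⟩
            · intro p q hpq
              by_cases hp : p = i <;> by_cases hq : q = i
              · rw [hp, hq]
              · rw [hp, Function.update_self, Function.update_of_ne hq] at hpq
                exact absurd hpq.symm (hf q)
              · rw [hq, Function.update_self, Function.update_of_ne hp] at hpq
                exact absurd hpq (hf p)
              · rw [Function.update_of_ne hp, Function.update_of_ne hq] at hpq
                exact ha0.1 hpq
            · by_cases hk : k = i
              · rw [hk, Function.update_self]; exact hfS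
              · rw [Function.update_of_ne hk]; exact ha0.2 k
          have hP1 : P (Function.update a0 i f) :=
            hstep a0 _ i ha0 hb1 (fun j hj => (Function.update_of_ne hj _ _).symm) h0
          have hne : ∀ k, k ≠ 0 → Function.update a0 i f k ≠ b 0 := by
            intro k _ hk
            by_cases hki : k = i
            · rw [hki, Function.update_self] at hk
              exact hf i (by rw [hi, hk])
            · rw [Function.update_of_ne hki] at hk
              exact hki (ha0.1 (by rw [hk, hi]))
          have hb2 : Adm S (Function.update (Function.update a0 i f) 0 (b 0)) := by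
            refine ⟨?_, fun k => ?_⟩
            · intro p q hpq
              by_cases hp : p = 0 <;> by_cases hq : q = 0
              · rw [hp, hq]
              · rw [hp, Function.update_self, Function.update_of_ne hq] at hpq
                exact absurd hpq.symm (hne q hq)
              · rw [hq, Function.update_self, Function.update_of_ne hp] at hpq
                exact absurd hpq (hne p hp)
              · rw [Function.update_of_ne hp, Function.update_of_ne hq] at hpq
                exact hb1.1 hpq
            · by_cases hk : k = 0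
              · rw [hk, Function.update_self]; exact hb.2 0
              · rw [Function.update_of_ne hk]; exact hb1.2 k
          exact ⟨_, hb2, hstep _ _ 0 hb1 hb2
            (fun j hj => (Function.update_of_ne hj _ _).symm) hP1, Function.update_self _ _ _⟩
      · push Not at hw
        have hb2 : Adm S (Function.update a0 0 (b 0)) := by
          refine ⟨?_, fun k => ?_⟩
          · intro p q hpq
            by_cases hp : p = 0 <;> by_cases hq : q = 0
            · rw [hp, hq]
            · rw [hp, Function.update_self, Function.update_of_ne hq] at hpq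
              exact absurd hpq.symm (hw q)
            · rw [hq, Function.update_self, Function.update_of_ne hp] at hpq
              exact absurd hpq (hw p)
            · rw [Function.update_of_ne hp, Function.update_of_ne hq] at hpq
              exact ha0.1 hpq
          · by_cases hk : k = 0
            · rw [hk, Function.update_self]; exact hb.2 0
            · rw [Function.update_of_ne hk]; exact ha0.2 k
        exact ⟨_, hb2, hstep _ _ 0 ha0 hb2
            (fun j hj => (Function.update_of_ne hj _ _).symm) h0, Function.update_self _ _ _⟩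
    obtain ⟨a1, ha1, hP1, h10⟩ := step1
    have hw : b 0 ∈ S := hb.2 0
    have key := ih (S.erase (b 0)) (by rw [Finset.card_erase_of_mem hw]; omega)
      (fun c => P (cn (b 0) c)) (fun k => a1 k.succ) (by rw [← h10]; exact ha1.tail)
      (by show P (cn (b 0) fun k => a1 k.succ); rw [← h10, cn_eta]; exact hP1)
      (by
        intro c d i hc hd hcd hPc
        refine hstep _ _ i.succ (hc.cn hw) (hd.cn hw) (fun j => ?_) hPc
        refine Fin.cases ?_ (fun j' => ?_) j
        · intro _; rfl
        · intro hj
          rw [cn_succ, cn_succ]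
          exact hcd j' (fun h => hj (by rw [h])))
      (fun k => b k.succ) hb.tail
    have : P (cn (b 0) fun k => b k.succ) := key
    rwa [cn_eta] at this

/-- adjacent tuples -/
def Adj {r : ℕ} (i : Fin r) (a b : Fin r → α) : Prop := ∀ j, j ≠ i → a j = b j

omit [DecidableEq α] in
theorem Adj.cn {r : ℕ} {i : Fin r} {c d : Fin r → α} (h : Adj i c d) (v : α) :
    Adj i.succ (cn v c) (cn v d) := by
  intro j
  refine Fin.cases ?_ (fun j' => ?_) j
  · intro _; rfl
  · intro hj
    rw [cn_succ, cn_succ]
    exact h j' (fun h => hj (by rw [h]))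

omit [DecidableEq α] in
theorem adj_zero {r : ℕ} (v w : α) (c : Fin r → α) : Adj 0 (cn v c) (cn w c) := by
  intro j
  refine Fin.cases ?_ (fun j' => ?_) j
  · intro h; exact absurd rfl h
  · intro _; rfl

theorem transp : ∀ (r : ℕ) (S : Finset α), r + 2 ≤ S.card →
    ∀ s : (Fin r → α) → (Fin r → α) → M,
    (∀ a, Adm S a → s a a * s a a = s a a) →
    (∀ (a b c : Fin r → α) (i : Fin r), Adm S a → Adm S b → Adm S c → Adj i a b → Adj i b c →
      s a b * s b c = s a c) →
    (∀ (a b c d : Fin r → α) (i j : Fin r), i ≠ j → Adm S a → Adm S b → Adm S c → Adm S d →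
      Adj i a b → Adj i c d → Adj j a c → Adj j b d → s a b * s b d = s a c * s c d) →
    ∃ T : (Fin r → α) → (Fin r → α) → M,
      (∀ a b c, Adm S a → Adm S b → Adm S c → T a b * T b c = T a c) ∧
      (∀ (a b : Fin r → α) (i : Fin r), Adm S a → Adm S b → Adj i a b → T a b = s a b) ∧
      (∀ a, Adm S a → T a a = s a a) := by
  intro r
  induction r with
  | zero =>
    intro S _ s h0 _ _
    refine ⟨s, fun a b c ha _ _ => ?_, fun _ _ i => i.elim0, fun _ _ => rfl⟩
    rw [Subsingleton.elim b a, Subsingleton.elim c a]
    exact h0 a ha
  | succ r ih =>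
    intro S hS s h0 h1 h2
    have hTv : ∀ v, ∃ T : (Fin r → α) → (Fin r → α) → M, v ∈ S →
        (∀ a b c, Adm (S.erase v) a → Adm (S.erase v) b → Adm (S.erase v) c →
          T a b * T b c = T a c) ∧
        (∀ (a b : Fin r → α) (i : Fin r), Adm (S.erase v) a → Adm (S.erase v) b → Adj i a b →
          T a b = s (cn v a) (cn v b)) ∧
        (∀ a, Adm (S.erase v) a → T a a = s (cn v a) (cn v a)) := by
      intro v
      by_cases hv : v ∈ S
      · obtain ⟨T, hT⟩ := ih (S.erase v) (by rw [Finset.card_erase_of_mem hv]; omega)
          (fun a b => s (cn v a) (cn v b)) (fun a ha => h0 _ (ha.cn hv))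
          (fun a b c i ha hb hc hab hbc =>
            h1 _ _ _ i.succ (ha.cn hv) (hb.cn hv) (hc.cn hv) (hab.cn v) (hbc.cn v))
          (fun a b c d i j hij ha hb hc hd e1 e2 e3 e4 =>
            h2 _ _ _ _ i.succ j.succ (fun h => hij (Fin.succ_injective _ h)) (ha.cn hv)
              (hb.cn hv) (hc.cn hv) (hd.cn hv) (e1.cn v) (e2.cn v) (e3.cn v) (e4.cn v))
        exact ⟨T, fun _ => hT⟩
      · exact ⟨fun _ _ => 1, fun h => absurd h hv⟩
    choose T' hT' using hTv
    -- the expression
    let E : α → α → (Fin r → α) → (Fin r → α) → (Fin r → α) → M := fun v w a' b' c =>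
      T' v a' c * s (cn v c) (cn w c) * T' w c b'
    have hindep : ∀ (v w : α) (a' b' : Fin r → α), v ∈ S → w ∈ S → Adm (S.erase v) a' →
        Adm (S.erase w) b' → ∀ c d, Adm ((S.erase v).erase w) c → Adm ((S.erase v).erase w) d →
        E v w a' b' c = E v w a' b' d := by
      intro v w a' b' hv hw ha' hb' c d hc hd
      have e1 : (S.erase v).erase w ⊆ S.erase v := Finset.erase_subset _ _
      have e2 : (S.erase v).erase w ⊆ S.erase w := by
        rw [Finset.erase_right_comm]; exact Finset.erase_subset _ _
      have hcard : r + 1 ≤ ((S.erase v).erase w).card := by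
        have := Finset.pred_card_le_card_erase (s := S.erase v) (a := w)
        rw [Finset.card_erase_of_mem hv] at this
        omega
      refine (conn r ((S.erase v).erase w) hcard (fun x => E v w a' b' x = E v w a' b' d) d hd rfl
        ?_ c hc)
      intro x y i hx hy hxy hP
      rw [← hP]
      show E v w a' b' y = E v w a' b' x
      -- from y to x
      have hyx : Adj i y x := fun j hj => (hxy j hj).symm
      have c1 : T' v a' x = T' v a' y * T' v y x :=
        ((hT' v hv).1 a' y x ha' (hy.mono e1) (hx.mono e1)).symm
      have c2 : T' v y x = s (cn v y) (cn v x) :=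
        (hT' v hv).2.1 y x i (hy.mono e1) (hx.mono e1) hyx
      have c3 : T' w y x * T' w x b' = T' w y b' :=
        (hT' w hw).1 y x b' (hy.mono e2) (hx.mono e2) hb'
      have c4 : T' w y x = s (cn w y) (cn w x) :=
        (hT' w hw).2.1 y x i (hy.mono e2) (hx.mono e2) hyx
      have c5 : s (cn v y) (cn v x) * s (cn v x) (cn w x) =
          s (cn v y) (cn w y) * s (cn w y) (cn w x) :=
        h2 _ _ _ _ i.succ 0 (Fin.succ_ne_zero i) ((hy.mono e1).cn hv) ((hx.mono e1).cn hv)
          ((hy.mono e2).cn hw) ((hx.mono e2).cn hw) (hyx.cn v) (hyx.cn w) (adj_zero v w y)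
          (adj_zero v w x)
      show T' v a' y * s (cn v y) (cn w y) * T' w y b' =
        T' v a' x * s (cn v x) (cn w x) * T' w x b'
      calc T' v a' y * s (cn v y) (cn w y) * T' w y b'
          = T' v a' y * s (cn v y) (cn w y) * (T' w y x * T' w x b') := by rw [c3]
        _ = T' v a' y * (s (cn v y) (cn w y) * s (cn w y) (cn w x)) * T' w x b' := by
              rw [c4]; simp only [mul_assoc]
        _ = T' v a' y * (s (cn v y) (cn v x) * s (cn v x) (cn w x)) * T' w x b' := by rw [c5]
        _ = T' v a' x * s (cn v x) (cn w x) * T' w x b' := by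
              rw [c1, c2]; simp only [mul_assoc]
    -- choice of the auxiliary tuple
    have hex : ∀ v w, ∃ c : Fin r → α, v ∈ S → Adm ((S.erase v).erase w) c := by
      intro v w
      by_cases hv : v ∈ S
      · have hcard : r ≤ ((S.erase v).erase w).card := by
          have := Finset.pred_card_le_card_erase (s := S.erase v) (a := w)
          rw [Finset.card_erase_of_mem hv] at this
          omega
        obtain ⟨c, hc⟩ := exists_adm _ r hcard
        exact ⟨c, fun _ => hc⟩
      · exact ⟨fun _ => v, fun h => absurd h hv⟩
    choose C hC using hex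
    let T : (Fin (r + 1) → α) → (Fin (r + 1) → α) → M := fun a b =>
      E (a 0) (b 0) (fun k => a k.succ) (fun k => b k.succ) (C (a 0) (b 0))
    have hT : ∀ a b c, Adm S a → Adm S b → Adm ((S.erase (a 0)).erase (b 0)) c →
        T a b = T' (a 0) (fun k => a k.succ) c * s (cn (a 0) c) (cn (b 0) c) *
          T' (b 0) c (fun k => b k.succ) := by
      intro a b c ha hb hc
      exact hindep (a 0) (b 0) _ _ (ha.2 0) (hb.2 0) ha.tail hb.tail _ _
        (hC _ _ (ha.2 0)) hc
    refine ⟨T, ?_, ?_, ?_⟩
    · intro a b d ha hb hd
      have hcard : r ≤ (((S.erase (a 0)).erase (b 0)).erase (d 0)).card := by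
        have q1 := Finset.pred_card_le_card_erase (s := S.erase (a 0)) (a := b 0)
        have q2 := Finset.pred_card_le_card_erase (s := (S.erase (a 0)).erase (b 0)) (a := d 0)
        rw [Finset.card_erase_of_mem (ha.2 0)] at q1
        omega
      obtain ⟨c, hc⟩ := exists_adm _ r hcard
      have hc1 : Adm ((S.erase (a 0)).erase (b 0)) c := hc.mono (Finset.erase_subset _ _)
      have hc2 : Adm ((S.erase (b 0)).erase (d 0)) c := by
        refine ⟨hc.1, fun k => ?_⟩
        have := hc.2 k
        simp only [Finset.mem_erase] at this ⊢
        tauto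
      have hc3 : Adm ((S.erase (a 0)).erase (d 0)) c := by
        refine ⟨hc.1, fun k => ?_⟩
        have := hc.2 k
        simp only [Finset.mem_erase] at this ⊢
        tauto
      have hcb : Adm (S.erase (b 0)) c := hc2.mono (Finset.erase_subset _ _)
      have hca : Adm (S.erase (a 0)) c := hc3.mono (Finset.erase_subset _ _)
      have hcd : Adm (S.erase (d 0)) c := by
        refine ⟨hc.1, fun k => ?_⟩
        have := hc.2 k
        simp only [Finset.mem_erase] at this ⊢
        tauto
      have ba := ha.2 0
      have bb := hb.2 0
      have bd := hd.2 0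
      rw [hT a b c ha hb hc1, hT b d c hb hd hc2, hT a d c ha hd hc3]
      set v := a 0
      set w := b 0
      set u := d 0
      have c1 : T' w c (fun k => b k.succ) * T' w (fun k => b k.succ) c = T' w c c :=
        (hT' w bb).1 _ _ _ hcb hb.tail hcb
      have c2 : T' w c c = s (cn w c) (cn w c) := (hT' w bb).2.2 c hcb
      have c3 : s (cn v c) (cn w c) * s (cn w c) (cn w c) = s (cn v c) (cn w c) :=
        h1 _ _ _ 0 (hca.cn ba) (hcb.cn bb) (hcb.cn bb) (adj_zero _ _ _) (adj_zero _ _ _)
      have c4 : s (cn v c) (cn w c) * s (cn w c) (cn u c) = s (cn v c) (cn u c) :=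
        h1 _ _ _ 0 (hca.cn ba) (hcb.cn bb) (hcd.cn bd) (adj_zero _ _ _) (adj_zero _ _ _)
      calc T' v (fun k => a k.succ) c * s (cn v c) (cn w c) * T' w c (fun k => b k.succ) *
            (T' w (fun k => b k.succ) c * s (cn w c) (cn u c) * T' u c fun k => d k.succ)
          = T' v (fun k => a k.succ) c * (s (cn v c) (cn w c) * (T' w c (fun k => b k.succ) *
            T' w (fun k => b k.succ) c)) * s (cn w c) (cn u c) * T' u c fun k => d k.succ := by
              simp only [mul_assoc]
        _ = T' v (fun k => a k.succ) c * (s (cn v c) (cn w c) * s (cn w c) (cn u c)) *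
            T' u c fun k => d k.succ := by rw [c1, c2, c3]; simp only [mul_assoc]
        _ = _ := by rw [c4]
    · intro a b i ha hb hab
      revert hab
      refine Fin.cases ?_ (fun i' => ?_) i
      · intro hab
        have htail : (fun k : Fin r => a k.succ) = fun k : Fin r => b k.succ := by
          funext k
          exact hab k.succ (Fin.succ_ne_zero k)
        have hc : Adm ((S.erase (a 0)).erase (b 0)) (fun k : Fin r => a k.succ) := by
          refine ⟨ha.tail.1, fun k => ?_⟩
          rw [Finset.mem_erase]
          refine ⟨?_, ha.tail.2 k⟩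
          have := hb.tail.2 k
          rw [Finset.mem_erase] at this
          show a k.succ ≠ b 0
          rw [show a k.succ = b k.succ from congrFun htail k]
          exact this.1
        have hta := ha.tail
        have htb := hb.tail
        have ba := ha.2 0
        have bb := hb.2 0
        rw [hT a b _ ha hb hc, ← htail]
        rw [← htail] at htb
        rw [(hT' _ ba).2.2 _ hta, (hT' _ bb).2.2 _ htb]
        have ea : cn (a 0) (fun k : Fin r => a k.succ) = a := cn_eta a
        have eb : cn (b 0) (fun k : Fin r => a k.succ) = b := by rw [htail]; exact cn_eta b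
        rw [ea, eb]
        have hba : Adj 0 b b := fun _ _ => rfl
        have haa : Adj 0 a a := fun _ _ => rfl
        rw [h1 a a b 0 ha ha hb haa hab, h1 a b b 0 ha hb hb hab hba]
      · intro hab
        have hv : a 0 = b 0 := hab 0 (Fin.succ_ne_zero i').symm
        have hab' : Adj i' (fun k : Fin r => a k.succ) (fun k : Fin r => b k.succ) :=
          fun j hj => hab j.succ (fun h => hj (Fin.succ_injective _ h))
        have hc : Adm ((S.erase (a 0)).erase (b 0)) (fun k : Fin r => a k.succ) := by
          rw [← hv, Finset.erase_idem]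
          exact ha.tail
        have hta := ha.tail
        have htb := hb.tail
        have ba := ha.2 0
        rw [hT a b _ ha hb hc]
        rw [← hv] at htb ⊢
        rw [← (hT' _ ba).2.2 _ hta, (hT' _ ba).1 _ _ _ hta hta hta, (hT' _ ba).1 _ _ _ hta hta htb,
          (hT' _ ba).2.1 _ _ i' hta htb hab', cn_eta]
        congr 1
        rw [hv]
        exact cn_eta b
    · intro a ha
      have hc : Adm ((S.erase (a 0)).erase (a 0)) (fun k : Fin r => a k.succ) := by
        rw [Finset.erase_idem]
        exact ha.tail
      rw [hT a a _ ha ha hc, (hT' _ (ha.2 0)).2.2 _ ha.tail, cn_eta, h0 a ha, h0 a ha]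

end InjL

open InjL in
theorem inj_connected {r n : ℕ} (h : r + 1 ≤ n) (P : (Fin r → Fin n) → Prop)
    (a0 : Fin r → Fin n) (ha0 : Function.Injective a0) (h0 : P a0)
    (hstep : ∀ (a b : Fin r → Fin n) (i : Fin r), Function.Injective a → Function.Injective b →
      (∀ j, j ≠ i → a j = b j) → P a → P b) :
    ∀ a, Function.Injective a → P a := by
  intro a ha
  refine conn r Finset.univ (by simpa using h) P a0 ⟨ha0, fun _ => Finset.mem_univ _⟩ h0 ?_ a
    ⟨ha, fun _ => Finset.mem_univ _⟩
  intro a b i h1 h2 h3 h4
  exact hstep a b i h1.1 h2.1 h3 h4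

open InjL in
theorem inj_transport {M : Type*} [Monoid M] {r n : ℕ} (h : r + 2 ≤ n)
    (s : (Fin r → Fin n) → (Fin r → Fin n) → M)
    (h0 : ∀ a, Function.Injective a → s a a * s a a = s a a)
    (h1 : ∀ (a b c : Fin r → Fin n) (i : Fin r), Function.Injective a → Function.Injective b →
      Function.Injective c → (∀ j, j ≠ i → a j = b j) → (∀ j, j ≠ i → b j = c j) →
      s a b * s b c = s a c)
    (h2 : ∀ (a b c d : Fin r → Fin n) (i j : Fin r), i ≠ j → Function.Injective a →
      Function.Injective b → Function.Injective c → Function.Injective d →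
      (∀ k, k ≠ i → a k = b k) → (∀ k, k ≠ i → c k = d k) →
      (∀ k, k ≠ j → a k = c k) → (∀ k, k ≠ j → b k = d k) →
      s a b * s b d = s a c * s c d) :
    ∃ T : (Fin r → Fin n) → (Fin r → Fin n) → M,
      (∀ a b c, Function.Injective a → Function.Injective b → Function.Injective c →
        T a b * T b c = T a c) ∧
      (∀ (a b : Fin r → Fin n) (i : Fin r), Function.Injective a → Function.Injective b →
        (∀ j, j ≠ i → a j = b j) → T a b = s a b) ∧
      (∀ a, Function.Injective a → T a a = s a a) := by
  have hu : ∀ a : Fin r → Fin n, Function.Injective a → Adm Finset.univ a :=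
    fun a ha => ⟨ha, fun _ => Finset.mem_univ _⟩
  obtain ⟨T, t1, t2, t3⟩ := transp r (Finset.univ : Finset (Fin n)) (by simpa using h) s
    (fun a ha => h0 a ha.1)
    (fun a b c i ha hb hc hab hbc => h1 a b c i ha.1 hb.1 hc.1 hab hbc)
    (fun a b c d i j hij ha hb hc hd e1 e2 e3 e4 =>
      h2 a b c d i j hij ha.1 hb.1 hc.1 hd.1 e1 e2 e3 e4)
  exact ⟨T, fun a b c ha hb hc => t1 a b c (hu a ha) (hu b hb) (hu c hc),
    fun a b i ha hb hab => t2 a b i (hu a ha) (hu b hb) hab, fun a ha => t3 a (hu a ha)⟩

end Pool.Agent.IGP
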