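import Mathlib
import Pool.Agent.IGP.Basic

/-! MODULE K (PRank).  The partition monoid: finiteness, involution, rank, cocycle.

Everything is done with the relations `B α f g` on `V = (Fin n → ZMod 2)`; `B` is multiplicative
(`B_mul`), injective (`B_inj`), and `B α` is a linear subspace of `V × V`.

PAPER PROOFS.
`mul_star_mul`: `B (α α* α) f g'` iff there are `g, f'` with `B α f g`, `B α f' g`, `B α f' g'`; then
`B α (f + f' + f') (g + g + g')`, i.e. `B α f g'` (char 2).  Conversely take `g = g'`, `f' = f`.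
`isRank_prk`:
 * `mul_le_left`: `dom (αβ) ≤ dom α`, `ker α ≤ ker (αβ)` (`B α f 0`, `B β 0 0`), `ker α ≤ dom α`.  So
   `finrank dom (αβ) - finrank ker (αβ) <= finrank dom α - finrank ker α`.
 * `prk (star α) = prk α`: let `W ≤ V × V` be the subspace `{(f,g) | B α f g}`.  The projection to the
   first factor has range `dom α` and kernel isomorphic to `{g | B α 0 g} = ker (star α)`; the
   projection to the second factor has range `dom (star α)` and kernel isomorphic to `ker α`.
   Rank-nullity twice: `finrank dom α + finrank ker (star α) = finrank W = finrank dom (star α) +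
   finrank ker α`.
 * `mul_le_right`: apply star: `prk (αβ) = prk (star β * star α) <= prk (star β) = prk β`.
 * `stab_right`: if `prk (αβ) = prk α`, put `γ = αβ`.  `dom γ ≤ dom α`, `ker α ≤ ker γ`; the equality of
   the differences forces `finrank dom γ = finrank dom α` and `finrank ker γ = finrank ker α`, so
   `dom γ = dom α`, `ker γ = ker α` (`Submodule.eq_of_le_of_finrank_eq`).  Claim `γ γ* α = α`, so `c :=
   star γ * α`.  `B (γ γ* α) f h` iff there are `g, f'` with `B γ f g`, `B γ f' g`, `B α f' h`; then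
   `B γ (f + f') 0`, so `B α (f + f') 0`, so `B α f h`.  Conversely, if `B α f h` then `f ∈ dom α = dom γ`
   so `B γ f g` for some `g`; take `f' = f`.
 * `stab_left`: by star.
 * `regular`: `b = star a`.
`prk_one`: `dom 1 = ⊤`, `ker 1 = ⊥`.
`coc_assoc`: let `W = {(g, g') | B α 0 g, B β g g', B γ g' 0} ≤ V × V`.  The projection `(g, g') ↦ g'`
has range `fl (αβ) γ` (`B (αβ) 0 g'` iff there is g) and kernel isomorphic to `fl α β`.
The projection `(g, g') ↦ g` has range `fl α (βγ)` and kernel isomorphic to `fl β γ`.  Rank-nullity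
twice.  `coc_one`: `fl 1 1 = ⊥`.
-/

namespace Pool.Agent.IGP

namespace Part

variable {n : ℕ}

instance : Finite (Part n) := by
  refine Finite.of_injective (fun (α : Part n) (x y : Fin n ⊕ Fin n) => (α.rel x y : Prop)) ?_
  intro α β h
  apply ext'
  intro x y
  have h1 := congrFun (congrFun h x) y
  exact iff_of_eq h1

/-- the involution: turn the picture upside down. -/
def star (α : Part n) : Part n := ⟨α.rel.comap Sum.swap⟩

private theorem elim_swap (f g : Fin n → ZMod 2) (x : Fin n ⊕ Fin n) :
    Sum.elim f g x.swap = Sum.elim g f x := by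
  rcases x with i | i <;> rfl

theorem B_star (α : Part n) (f g : Fin n → ZMod 2) : B (star α) f g ↔ B α g f := by
  constructor
  · intro h x y hxy
    have h1 := h x.swap y.swap (by
      change α.rel x.swap.swap y.swap.swap
      rwa [Sum.swap_swap, Sum.swap_swap])
    rwa [elim_swap, elim_swap] at h1
  · intro h x y hxy
    have h1 := h x.swap y.swap hxy
    rwa [elim_swap, elim_swap] at h1

theorem star_star (α : Part n) : star (star α) = α := by
  apply B_inj
  intro f g
  rw [B_star, B_star]

theorem star_mul (α β : Part n) : star (α * β) = star β * star α := by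
  apply B_inj
  intro f g
  simp only [B_star, B_mul]
  exact exists_congr fun u => and_comm

theorem star_one : star (1 : Part n) = 1 := by
  apply B_inj
  intro f g
  simp only [B_star, B_one]
  exact eq_comm

theorem B_zero (α : Part n) : B α 0 0 := by
  intro x y _
  rcases x with i | i <;> rcases y with j | j <;> rfl

private theorem elim_add (f g f' g' : Fin n → ZMod 2) (x : Fin n ⊕ Fin n) :
    Sum.elim (f + f') (g + g') x = Sum.elim f g x + Sum.elim f' g' x := by
  rcases x with i | i <;> rfl

private theorem elim_smul (c : ZMod 2) (f g : Fin n → ZMod 2) (x : Fin n ⊕ Fin n) :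
    Sum.elim (c • f) (c • g) x = c • Sum.elim f g x := by
  rcases x with i | i <;> rfl

theorem B_add {α : Part n} {f g f' g' : Fin n → ZMod 2} (h : B α f g) (h' : B α f' g') :
    B α (f + f') (g + g') := by
  intro x y hxy
  rw [elim_add, elim_add, h x y hxy, h' x y hxy]

theorem B_smul {α : Part n} {f g : Fin n → ZMod 2} (c : ZMod 2) (h : B α f g) :
    B α (c • f) (c • g) := by
  intro x y hxy
  rw [elim_smul, elim_smul, h x y hxy]

private theorem self_add (f : Fin n → ZMod 2) : f + f = 0 := by
  funext i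
  exact CharTwo.add_self_eq_zero (f i)

private theorem add_add_self' (f g : Fin n → ZMod 2) : f + g + g = f := by
  rw [add_assoc, self_add, add_zero]

theorem mul_star_mul (α : Part n) : α * star α * α = α := by
  apply B_inj
  intro f h
  constructor
  · intro H
    rw [B_mul] at H
    obtain ⟨f', H1, H2⟩ := H
    rw [B_mul] at H1
    obtain ⟨g, H3, H4⟩ := H1
    rw [B_star] at H4
    have h1 := B_add (B_add H3 H4) H2
    have h2 : g + g + h = h := by rw [self_add, zero_add]
    rwa [add_add_self', h2] at h1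
  · intro H
    rw [B_mul]
    refine ⟨f, ?_, H⟩
    rw [B_mul]
    exact ⟨h, H, (B_star α h f).2 H⟩

/-- domain of `B α` -/
def dom (α : Part n) : Submodule (ZMod 2) (Fin n → ZMod 2) where
  carrier := {f | ∃ g, B α f g}
  zero_mem' := ⟨0, B_zero α⟩
  add_mem' := fun ⟨g, h⟩ ⟨g', h'⟩ => ⟨g + g', B_add h h'⟩
  smul_mem' := fun c _ ⟨g, h⟩ => ⟨c • g, B_smul c h⟩

/-- kernel of `B α` -/
def ker (α : Part n) : Submodule (ZMod 2) (Fin n → ZMod 2) where
  carrier := {f | B α f 0}
  zero_mem' := B_zero α
  add_mem' := fun {f f'} h h' => by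
    have := B_add (show B α f 0 from h) (show B α f' 0 from h')
    rwa [add_zero] at this
  smul_mem' := fun c f h => by
    have := B_smul c (show B α f 0 from h)
    rwa [smul_zero] at this

/-- the rank (number of blocks meeting both rows). -/
noncomputable def prk (α : Part n) : ℕ :=
  Module.finrank (ZMod 2) (dom α) - Module.finrank (ZMod 2) (ker α)

/-- functions on the middle row supported on the floating components of the product graph. -/
def fl (α β : Part n) : Submodule (ZMod 2) (Fin n → ZMod 2) where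
  carrier := {g | B α 0 g ∧ B β g 0}
  zero_mem' := ⟨B_zero α, B_zero β⟩
  add_mem' := fun {f f'} h h' => by
    have h1 := B_add h.1 h'.1
    have h2 := B_add h.2 h'.2
    rw [add_zero] at h1 h2
    exact ⟨h1, h2⟩
  smul_mem' := fun c f h => by
    have h1 := B_smul c h.1
    have h2 := B_smul c h.2
    rw [smul_zero] at h1 h2
    exact ⟨h1, h2⟩

/-! ### rank-nullity for subspaces of a product -/

private theorem finrank_fst (P : Submodule (ZMod 2) ((Fin n → ZMod 2) × (Fin n → ZMod 2))) :
    Module.finrank (ZMod 2) (P.map (LinearMap.fst (ZMod 2) _ _)) +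
      Module.finrank (ZMod 2) (P.comap (LinearMap.inr (ZMod 2) _ _)) =
      Module.finrank (ZMod 2) P := by
  set φ : P →ₗ[ZMod 2] (Fin n → ZMod 2) := (LinearMap.fst (ZMod 2) _ _).domRestrict P with hφ
  have h1 := LinearMap.finrank_range_add_finrank_ker φ
  have h2 : LinearMap.range φ = P.map (LinearMap.fst (ZMod 2) _ _) := by
    rw [hφ, LinearMap.range_domRestrict]
  set ψ : P.comap (LinearMap.inr (ZMod 2) (Fin n → ZMod 2) (Fin n → ZMod 2)) →ₗ[ZMod 2] P :=
    LinearMap.restrict (LinearMap.inr (ZMod 2) _ _) (fun x hx => hx) with hψ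
  have h3 : LinearMap.range ψ = LinearMap.ker φ := by
    ext x
    rw [LinearMap.mem_range, LinearMap.mem_ker]
    constructor
    · rintro ⟨g, rfl⟩
      rfl
    · intro h
      have h' : x.1.1 = 0 := h
      refine ⟨⟨x.1.2, ?_⟩, ?_⟩
      · rw [Submodule.mem_comap]
        have : LinearMap.inr (ZMod 2) (Fin n → ZMod 2) (Fin n → ZMod 2) x.1.2 = x.1 :=
          Prod.ext h'.symm rfl
        rw [this]
        exact x.2
      · apply Subtype.ext
        exact Prod.ext h'.symm rfl
  have h4 : Function.Injective ψ := by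
    intro a b h
    apply Subtype.ext
    exact congrArg (fun z : P => z.1.2) h
  rw [← h1, h2, ← h3, LinearMap.finrank_range_of_inj h4]

private theorem finrank_snd (P : Submodule (ZMod 2) ((Fin n → ZMod 2) × (Fin n → ZMod 2))) :
    Module.finrank (ZMod 2) (P.map (LinearMap.snd (ZMod 2) _ _)) +
      Module.finrank (ZMod 2) (P.comap (LinearMap.inl (ZMod 2) _ _)) =
      Module.finrank (ZMod 2) P := by
  set φ : P →ₗ[ZMod 2] (Fin n → ZMod 2) := (LinearMap.snd (ZMod 2) _ _).domRestrict P with hφ
  have h1 := LinearMap.finrank_range_add_finrank_ker φ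
  have h2 : LinearMap.range φ = P.map (LinearMap.snd (ZMod 2) _ _) := by
    rw [hφ, LinearMap.range_domRestrict]
  set ψ : P.comap (LinearMap.inl (ZMod 2) (Fin n → ZMod 2) (Fin n → ZMod 2)) →ₗ[ZMod 2] P :=
    LinearMap.restrict (LinearMap.inl (ZMod 2) _ _) (fun x hx => hx) with hψ
  have h3 : LinearMap.range ψ = LinearMap.ker φ := by
    ext x
    rw [LinearMap.mem_range, LinearMap.mem_ker]
    constructor
    · rintro ⟨g, rfl⟩
      rfl
    · intro h
      have h' : x.1.2 = 0 := h
      refine ⟨⟨x.1.1, ?_⟩, ?_⟩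
      · rw [Submodule.mem_comap]
        have : LinearMap.inl (ZMod 2) (Fin n → ZMod 2) (Fin n → ZMod 2) x.1.1 = x.1 :=
          Prod.ext rfl h'.symm
        rw [this]
        exact x.2
      · apply Subtype.ext
        exact Prod.ext rfl h'.symm
  have h4 : Function.Injective ψ := by
    intro a b h
    apply Subtype.ext
    exact congrArg (fun z : P => z.1.1) h
  rw [← h1, h2, ← h3, LinearMap.finrank_range_of_inj h4]

/-- the relation as a subspace of `V × V` -/
private def gr (α : Part n) : Submodule (ZMod 2) ((Fin n → ZMod 2) × (Fin n → ZMod 2)) where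
  carrier := {p | B α p.1 p.2}
  zero_mem' := B_zero α
  add_mem' := fun h h' => B_add h h'
  smul_mem' := fun c _ h => B_smul c h

private theorem gr_fst (α : Part n) : (gr α).map (LinearMap.fst (ZMod 2) _ _) = dom α := by
  ext f
  rw [Submodule.mem_map]
  constructor
  · rintro ⟨p, hp, rfl⟩
    exact ⟨p.2, hp⟩
  · rintro ⟨g, hg⟩
    exact ⟨(f, g), hg, rfl⟩

private theorem gr_snd (α : Part n) :
    (gr α).map (LinearMap.snd (ZMod 2) _ _) = dom (star α) := by
  ext f
  rw [Submodule.mem_map]
  constructor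
  · rintro ⟨p, hp, rfl⟩
    exact ⟨p.1, (B_star α _ _).2 hp⟩
  · rintro ⟨g, hg⟩
    exact ⟨(g, f), (B_star α _ _).1 hg, rfl⟩

private theorem gr_inl (α : Part n) : (gr α).comap (LinearMap.inl (ZMod 2) _ _) = ker α := by
  ext f
  rfl

private theorem gr_inr (α : Part n) :
    (gr α).comap (LinearMap.inr (ZMod 2) _ _) = ker (star α) := by
  ext f
  exact (B_star α f 0).symm

theorem ker_le_dom (α : Part n) : ker α ≤ dom α := fun _ h => ⟨0, h⟩

theorem prk_star (α : Part n) : prk (star α) = prk α := by
  have h1 := finrank_fst (gr α)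
  have h2 := finrank_snd (gr α)
  rw [gr_fst, gr_inr] at h1
  rw [gr_snd, gr_inl] at h2
  have h3 := Submodule.finrank_mono (ker_le_dom α)
  have h4 := Submodule.finrank_mono (ker_le_dom (star α))
  unfold prk
  omega

theorem dom_mul_le (α β : Part n) : dom (α * β) ≤ dom α := by
  rintro f ⟨h, H⟩
  rw [B_mul] at H
  obtain ⟨g, H1, -⟩ := H
  exact ⟨g, H1⟩

theorem ker_le_mul (α β : Part n) : ker α ≤ ker (α * β) := by
  intro f H
  exact (B_mul α β f 0).2 ⟨0, H, B_zero β⟩

theorem prk_mul_le_left (α β : Part n) : prk (α * β) ≤ prk α := by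
  have h1 := Submodule.finrank_mono (dom_mul_le α β)
  have h2 := Submodule.finrank_mono (ker_le_mul α β)
  unfold prk
  omega

theorem prk_mul_le_right (α β : Part n) : prk (α * β) ≤ prk β := by
  rw [← prk_star, star_mul, ← prk_star β]
  exact prk_mul_le_left _ _

private theorem stab (α β : Part n) (h : prk (α * β) = prk α) :
    (α * β) * star (α * β) * α = α := by
  have h1 := Submodule.finrank_mono (dom_mul_le α β)
  have h2 := Submodule.finrank_mono (ker_le_mul α β)
  have h3 := Submodule.finrank_mono (ker_le_dom (α * β))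
  have h4 := Submodule.finrank_mono (ker_le_dom α)
  unfold prk at h
  have h5 : dom (α * β) = dom α :=
    Submodule.eq_of_le_of_finrank_eq (dom_mul_le α β) (by omega)
  have h6 : ker α = ker (α * β) :=
    Submodule.eq_of_le_of_finrank_eq (ker_le_mul α β) (by omega)
  set γ := α * β with hγ
  apply B_inj
  intro f h
  constructor
  · intro H
    rw [B_mul] at H
    obtain ⟨f', H1, H2⟩ := H
    rw [B_mul] at H1
    obtain ⟨g, H3, H4⟩ := H1
    rw [B_star] at H4
    have h7 : B γ (f + f') 0 := by
      have := B_add H3 H4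
      rwa [self_add] at this
    have h8 : B α (f + f') 0 := by
      have h9 : f + f' ∈ ker γ := h7
      rw [← h6] at h9
      exact h9
    have h10 := B_add h8 H2
    rwa [add_add_self', zero_add] at h10
  · intro H
    have h7 : f ∈ dom γ := by
      rw [h5]
      exact ⟨h, H⟩
    obtain ⟨g, hg⟩ := h7
    rw [B_mul]
    refine ⟨f, ?_, H⟩
    rw [B_mul]
    exact ⟨g, hg, (B_star γ g f).2 hg⟩

theorem isRank_prk : IsRank (prk : Part n → ℕ) where
  mul_le_left := prk_mul_le_left
  mul_le_right := prk_mul_le_right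
  stab_right a b h := ⟨star (a * b) * a, by rw [← mul_assoc]; exact stab a b h⟩
  stab_left a b h := by
    have h1 : prk (star b * star a) = prk (star b) := by
      rw [← star_mul, prk_star, prk_star, h]
    have h2 := stab (star b) (star a) h1
    refine ⟨b * star (a * b), ?_⟩
    have h3 := congrArg star h2
    simp only [star_mul, star_star] at h3
    rw [star_mul]
    simp only [mul_assoc] at h3 ⊢
    exact h3
  regular a := ⟨star a, mul_star_mul a⟩

theorem prk_one : prk (1 : Part n) = n := by
  have h1 : dom (1 : Part n) = ⊤ := by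
    rw [eq_top_iff]
    intro f _
    exact ⟨f, (B_one f f).2 rfl⟩
  have h2 : ker (1 : Part n) = ⊥ := by
    rw [eq_bot_iff]
    intro f hf
    rw [Submodule.mem_bot]
    exact (B_one f 0).1 hf
  unfold prk
  rw [h1, h2, finrank_top, finrank_bot]
  simp

/-- the subspace of pairs of functions on the two middle rows -/
private def mid (a b c : Part n) :
    Submodule (ZMod 2) ((Fin n → ZMod 2) × (Fin n → ZMod 2)) where
  carrier := {p | B a 0 p.1 ∧ B b p.1 p.2 ∧ B c p.2 0}
  zero_mem' := ⟨B_zero a, B_zero b, B_zero c⟩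
  add_mem' := fun {p q} h h' => by
    have h1 := B_add h.1 h'.1
    have h2 := B_add h.2.1 h'.2.1
    have h3 := B_add h.2.2 h'.2.2
    rw [add_zero] at h1 h3
    exact ⟨h1, h2, h3⟩
  smul_mem' := fun t p h => by
    have h1 := B_smul t h.1
    have h2 := B_smul t h.2.1
    have h3 := B_smul t h.2.2
    rw [smul_zero] at h1 h3
    exact ⟨h1, h2, h3⟩

theorem coc_assoc (a b c : Part n) :
    (Module.finrank (ZMod 2) (fl a b) : ℤ) + (Module.finrank (ZMod 2) (fl (a * b) c) : ℤ) =
      (Module.finrank (ZMod 2) (fl b c) : ℤ) + (Module.finrank (ZMod 2) (fl a (b * c)) : ℤ) := by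
  have h1 := finrank_fst (mid a b c)
  have h2 := finrank_snd (mid a b c)
  have e1 : (mid a b c).map (LinearMap.fst (ZMod 2) _ _) = fl a (b * c) := by
    ext g
    rw [Submodule.mem_map]
    constructor
    · rintro ⟨p, ⟨h1, h2, h3⟩, rfl⟩
      exact ⟨h1, (B_mul _ _ _ _).2 ⟨p.2, h2, h3⟩⟩
    · rintro ⟨h1, h2⟩
      obtain ⟨g', h3, h4⟩ := (B_mul _ _ _ _).1 h2
      exact ⟨(g, g'), ⟨h1, h3, h4⟩, rfl⟩
  have e2 : (mid a b c).comap (LinearMap.inr (ZMod 2) _ _) = fl b c := by
    ext g
    constructor
    · rintro ⟨_, h2, h3⟩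
      exact ⟨h2, h3⟩
    · rintro ⟨h2, h3⟩
      exact ⟨B_zero a, h2, h3⟩
  have e3 : (mid a b c).map (LinearMap.snd (ZMod 2) _ _) = fl (a * b) c := by
    ext g
    rw [Submodule.mem_map]
    constructor
    · rintro ⟨p, ⟨h1, h2, h3⟩, rfl⟩
      exact ⟨(B_mul _ _ _ _).2 ⟨p.1, h1, h2⟩, h3⟩
    · rintro ⟨h1, h2⟩
      obtain ⟨g', h3, h4⟩ := (B_mul _ _ _ _).1 h1
      exact ⟨(g', g), ⟨h3, h4, h2⟩, rfl⟩
  have e4 : (mid a b c).comap (LinearMap.inl (ZMod 2) _ _) = fl a b := by
    ext g
    constructor
    · rintro ⟨h1, h2, _⟩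
      exact ⟨h1, h2⟩
    · rintro ⟨h1, h2⟩
      exact ⟨h1, h2, B_zero c⟩
  rw [e1, e2] at h1
  rw [e3, e4] at h2
  omega

theorem coc_one : (Module.finrank (ZMod 2) (fl (1 : Part n) 1) : ℤ) = 0 := by
  have h : fl (1 : Part n) 1 = ⊥ := by
    rw [eq_bot_iff]
    rintro g ⟨h1, -⟩
    rw [Submodule.mem_bot]
    exact ((B_one 0 g).1 h1).symm
  rw [h, finrank_bot]
  rfl

/-- the cocycle counting floating components. -/
noncomputable def coc (n : ℕ) : Cocycle (Part n) where
  m a b := (Module.finrank (ZMod 2) (fl a b) : ℤ)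
  assoc := coc_assoc
  one := coc_one

end Part

end Pool.Agent.IGP
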