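import Mathlib
import Pool.Agent.IGP.Basic
import Pool.Agent.IGP.PRank

/-! MODULE L (Pat).  Special partitions: bridges `br b a`, full projections `tau R`, cuts `eps i`,
patterns `pat R a = tau R * pr a * tau R`.  ALL identities are proved by `B_inj` and the explicit
descriptions of `B` (with explicit witnesses for the existential middle functions).

`B (br b a) f g`  iff  `f ∘ b = g ∘ a`;
`B (tau R) f g`   iff  `f = g` and `f` is constant on `R`-classes;
`B (eps i) f g`   iff  `f = g` off `i`;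
`B (pat R a) f g` iff  `f`, `g` are constant on `R`-classes and `f ∘ a = g ∘ a`.

WITNESSES.
`pr_tau_pr`, `pr_tau_br`: given `f ∘ a = g ∘ b`, define `h x = f (a i)` if `R x (a i)` for some `i`
(unique by Indep), `0` otherwise; `h` is constant on `R`-classes, `h ∘ a = f ∘ a`, `h ∘ b = g ∘ b`.
`pr_tau_eps`: `B (pr a * tau R * eps i) f g` iff there is an `R`-constant `h` with `f ∘ a = h ∘ a`,
`h = g` off `i`.  Since `i` is not in the range of `a`: then `f ∘ a = g ∘ a` and `g` is constant on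
the classes of `cut R i`.  Conversely, given `g` constant on the classes of `cut R i`,
modify it at `i`: `h i = g c` if there is `c ≠ i` with `R i c`, else `h i = g i`.
`lab_inj`: the second components of `B (br b a * tau R)` are exactly the `R`-constant functions
(`b` injective gives the first component), and a setoid is determined by its constant functions
(indicator functions of classes).  For `R (a i) (c i)`: take `g` = indicator of the `R`-class of
`a i`; it is in both; some `f` with `f ∘ b = g ∘ a`; uniqueness on `b`: `f ∘ b = g ∘ c`, so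
`g (c i) = g (a i) = 1`.
`br_mul_br`: `B (br b a * br a c) f g` iff exists `h`, `f ∘ b = h ∘ a`, `h ∘ a = g ∘ c`; if
`f ∘ b = g ∘ c` then such an `h` exists as `a` is injective.
-/

namespace Pool.Agent.IGP

namespace Part

variable {n r : ℕ}

/-- partition generated by a relation -/
def gen (ρ : Fin n ⊕ Fin n → Fin n ⊕ Fin n → Prop) : Part n := ⟨Relation.EqvGen.setoid ρ⟩

theorem B_gen (ρ : Fin n ⊕ Fin n → Fin n ⊕ Fin n → Prop) (f g : Fin n → ZMod 2) :
    B (gen ρ) f g ↔ ∀ x y, ρ x y → Sum.elim f g x = Sum.elim f g y := by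
  constructor
  · intro h x y hxy
    exact h x y (Relation.EqvGen.rel _ _ hxy)
  · intro h x y hxy
    change Relation.EqvGen ρ x y at hxy
    induction hxy with
    | rel x y hxy => exact h x y hxy
    | refl x => rfl
    | symm x y _ ih => exact ih.symm
    | trans x y z _ _ ih1 ih2 => exact ih1.trans ih2

/-- bridge: upper point `b i` joined to lower point `a i`. -/
def br (b a : Fin r → Fin n) : Part n :=
  gen (fun x y => ∃ i, x = Sum.inl (b i) ∧ y = Sum.inr (a i))

theorem B_br (b a : Fin r → Fin n) (f g : Fin n → ZMod 2) :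
    B (br b a) f g ↔ ∀ i, f (b i) = g (a i) := by
  unfold br
  rw [B_gen]
  constructor
  · intro h i
    exact h _ _ ⟨i, rfl, rfl⟩
  · rintro h x y ⟨i, rfl, rfl⟩
    exact h i

/-- projection marking the points `a i` -/
def pr (a : Fin r → Fin n) : Part n := br a a

theorem B_pr (a : Fin r → Fin n) (f g : Fin n → ZMod 2) :
    B (pr a) f g ↔ ∀ i, f (a i) = g (a i) := B_br a a f g

/-- full projection with partition `R` -/
def tau (R : Setoid (Fin n)) : Part n :=
  gen (fun x y => (∃ i, x = Sum.inl i ∧ y = Sum.inr i) ∨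
    ∃ i j, R i j ∧ x = Sum.inl i ∧ y = Sum.inl j)

theorem B_tau (R : Setoid (Fin n)) (f g : Fin n → ZMod 2) :
    B (tau R) f g ↔ f = g ∧ ∀ i j, R i j → f i = f j := by
  unfold tau
  rw [B_gen]
  constructor
  · intro h
    refine ⟨funext fun i => h _ _ (Or.inl ⟨i, rfl, rfl⟩), fun i j hij => ?_⟩
    exact h _ _ (Or.inr ⟨i, j, hij, rfl, rfl⟩)
  · rintro ⟨rfl, h⟩ x y (⟨i, rfl, rfl⟩ | ⟨i, j, hij, rfl, rfl⟩)
    · rfl
    · exact h i j hij

/-- cut at the point `i` -/
def eps (i : Fin n) : Part n :=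
  gen (fun x y => ∃ j, j ≠ i ∧ x = Sum.inl j ∧ y = Sum.inr j)

theorem B_eps (i : Fin n) (f g : Fin n → ZMod 2) :
    B (eps i) f g ↔ ∀ j, j ≠ i → f j = g j := by
  unfold eps
  rw [B_gen]
  constructor
  · intro h j hj
    exact h _ _ ⟨j, hj, rfl, rfl⟩
  · rintro h x y ⟨j, hj, rfl, rfl⟩
    exact h j hj

/-- the points `a i` lie in different `R`-classes -/
def Indep (R : Setoid (Fin n)) (a : Fin r → Fin n) : Prop := ∀ i j, R (a i) (a j) → i = j

/-- projection with partition `R` and marked classes those of the `a i` -/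
def pat (R : Setoid (Fin n)) (a : Fin r → Fin n) : Part n := tau R * pr a * tau R

/-- cut the point `i` off its class -/
def cut (R : Setoid (Fin n)) (i : Fin n) : Setoid (Fin n) where
  r x y := x = y ∨ (R x y ∧ x ≠ i ∧ y ≠ i)
  iseqv :=
    { refl := fun _ => Or.inl rfl
      symm := by
        rintro x y (h | ⟨h, h1, h2⟩)
        · exact Or.inl h.symm
        · exact Or.inr ⟨R.symm h, h2, h1⟩
      trans := by
        rintro x y z (rfl | ⟨h, h1, h2⟩) (rfl | ⟨h', h1', h2'⟩)
        · exact Or.inl rfl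
        · exact Or.inr ⟨h', h1', h2'⟩
        · exact Or.inr ⟨h, h1, h2⟩
        · exact Or.inr ⟨R.trans h h', h1, h2'⟩ }

/-- the partition whose only possibly nontrivial block is `{i, c}` -/
def pair (i c : Fin n) : Setoid (Fin n) where
  r x y := x = y ∨ ((x = i ∨ x = c) ∧ (y = i ∨ y = c))
  iseqv :=
    { refl := fun _ => Or.inl rfl
      symm := by
        rintro x y (h | ⟨h1, h2⟩)
        · exact Or.inl h.symm
        · exact Or.inr ⟨h2, h1⟩
      trans := by
        rintro x y z (rfl | ⟨h1, h2⟩) (rfl | ⟨h1', h2'⟩)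
        · exact Or.inl rfl
        · exact Or.inr ⟨h1', h2'⟩
        · exact Or.inr ⟨h1, h2⟩
        · exact Or.inr ⟨h1, h2'⟩ }

theorem cut_iff (R : Setoid (Fin n)) (i x y : Fin n) :
    cut R i x y ↔ (x = y ∨ (R x y ∧ x ≠ i ∧ y ≠ i)) := Iff.rfl

theorem pair_iff (i c x y : Fin n) :
    pair i c x y ↔ (x = y ∨ ((x = i ∨ x = c) ∧ (y = i ∨ y = c))) := Iff.rfl

theorem pair_comm (i c : Fin n) : pair i c = pair c i := by
  apply Setoid.ext
  intro x y
  rw [pair_iff, pair_iff, or_comm (a := x = i), or_comm (a := y = i)]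

theorem pair_le {R : Setoid (Fin n)} {i c : Fin n} (h : R i c) : pair i c ≤ R := by
  intro x y hxy
  rcases (pair_iff i c x y).1 hxy with rfl | ⟨rfl | rfl, rfl | rfl⟩
  · exact R.refl _
  · exact R.refl _
  · exact h
  · exact R.symm h
  · exact R.refl _

theorem cut_le (R : Setoid (Fin n)) (i : Fin n) : cut R i ≤ R := by
  intro x y hxy
  rcases (cut_iff R i x y).1 hxy with rfl | ⟨h, -, -⟩
  · exact R.refl _
  · exact h

theorem cut_mono {R Q : Setoid (Fin n)} (h : R ≤ Q) (i : Fin n) : cut R i ≤ cut Q i := by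
  intro x y hxy
  rcases (cut_iff R i x y).1 hxy with rfl | ⟨h1, h2, h3⟩
  · exact (cut Q i).refl _
  · exact (cut_iff Q i x y).2 (Or.inr ⟨h h1, h2, h3⟩)

theorem cut_pair {i c : Fin n} (_h : i ≠ c) : cut (pair i c) i = ⊥ := by
  apply Setoid.ext
  intro x y
  rw [cut_iff, pair_iff, Setoid.bot_def]
  constructor
  · rintro (h | ⟨h | ⟨h1 | h1, h2 | h2⟩, h3, h4⟩)
    · exact h
    · exact h
    · exact absurd h1 h3
    · exact absurd h1 h3
    · exact absurd h2 h4
    · rw [h1, h2]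
  · exact Or.inl

theorem sup_cut {R Q : Setoid (Fin n)} (h : R ≤ Q) {i c : Fin n} (hic : i ≠ c) (hR : R i c) :
    R ⊔ cut Q i = Q := by
  apply le_antisymm (sup_le h (cut_le Q i))
  have key : ∀ x : Fin n, ∃ x', x' ≠ i ∧ (R ⊔ cut Q i) x x' ∧ Q x x' := by
    intro x
    by_cases hx : x = i
    · subst hx
      exact ⟨c, hic.symm, (le_sup_left : R ≤ R ⊔ cut Q x) hR, h hR⟩
    · exact ⟨x, hx, (R ⊔ cut Q i).refl _, Q.refl _⟩
  intro x y hxy
  obtain ⟨x', hx1, hx2, hx3⟩ := key x
  obtain ⟨y', hy1, hy2, hy3⟩ := key y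
  have h1 : Q x' y' := Q.trans (Q.symm hx3) (Q.trans hxy hy3)
  have h2 : cut Q i x' y' := (cut_iff Q i x' y').2 (Or.inr ⟨h1, hx1, hy1⟩)
  have h3 : (R ⊔ cut Q i) x' y' := (le_sup_right : cut Q i ≤ R ⊔ cut Q i) h2
  exact (R ⊔ cut Q i).trans hx2 ((R ⊔ cut Q i).trans h3 ((R ⊔ cut Q i).symm hy2))

theorem Indep.mono {R Q : Setoid (Fin n)} {a : Fin r → Fin n} (h : R ≤ Q) (hQ : Indep Q a) :
    Indep R a := fun i j hij => hQ i j (h hij)

theorem Indep.congr {R : Setoid (Fin n)} {a b : Fin r → Fin n} (hR : Indep R a)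
    (hab : ∀ i, R (a i) (b i)) : Indep R b := fun i j hij =>
  hR i j (R.trans (hab i) (R.trans hij (R.symm (hab j))))

theorem Indep.inj {R : Setoid (Fin n)} {a : Fin r → Fin n} (hR : Indep R a) :
    Function.Injective a := by
  intro i j hij
  refine hR i j ?_
  rw [hij]

theorem indep_bot {a : Fin r → Fin n} (ha : Function.Injective a) : Indep ⊥ a := by
  intro i j hij
  rw [Setoid.bot_def] at hij
  exact ha hij

theorem indep_pair {a : Fin r → Fin n} (ha : Function.Injective a) {i : Fin n}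
    (hi : ∀ j, a j ≠ i) (c : Fin n) : Indep (pair i c) a := by
  intro j k hjk
  rcases (pair_iff i c _ _).1 hjk with h | ⟨h1 | h1, h2 | h2⟩
  · exact ha h
  · exact absurd h1 (hi j)
  · exact absurd h1 (hi j)
  · exact absurd h2 (hi k)
  · exact ha (h1.trans h2.symm)

/-- constancy on the classes of a supremum -/
theorem const_sup {R Q : Setoid (Fin n)} (f : Fin n → ZMod 2) :
    (∀ i j, (R ⊔ Q : Setoid (Fin n)) i j → f i = f j) ↔
      (∀ i j, R i j → f i = f j) ∧ (∀ i j, Q i j → f i = f j) := by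
  constructor
  · intro h
    exact ⟨fun i j hij => h i j ((le_sup_left : R ≤ R ⊔ Q) hij),
      fun i j hij => h i j ((le_sup_right : Q ≤ R ⊔ Q) hij)⟩
  · rintro ⟨h1, h2⟩ i j hij
    have h3 : R ⊔ Q ≤ Setoid.ker f :=
      sup_le (fun x y hxy => h1 x y hxy) (fun x y hxy => h2 x y hxy)
    exact h3 hij

theorem tau_mul_tau (R Q : Setoid (Fin n)) : tau R * tau Q = tau (R ⊔ Q) := by
  apply B_inj
  intro f g
  simp only [B_mul, B_tau]
  constructor
  · rintro ⟨h, ⟨rfl, h1⟩, ⟨rfl, h2⟩⟩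
    exact ⟨rfl, (const_sup f).2 ⟨h1, h2⟩⟩
  · rintro ⟨rfl, h⟩
    have h3 := (const_sup f).1 h
    exact ⟨f, ⟨rfl, h3.1⟩, rfl, h3.2⟩

theorem tau_idem (R : Setoid (Fin n)) : tau R * tau R = tau R := by
  rw [tau_mul_tau, sup_idem]

theorem tau_bot : tau (⊥ : Setoid (Fin n)) = 1 := by
  apply B_inj
  intro f g
  rw [B_tau, B_one]
  constructor
  · exact fun h => h.1
  · intro h
    refine ⟨h, fun i j hij => ?_⟩
    rw [Setoid.bot_def] at hij
    rw [hij]

theorem tau_mul_of_le {R Q : Setoid (Fin n)} (h : R ≤ Q) : tau R * tau Q = tau Q := by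
  rw [tau_mul_tau, sup_eq_right.2 h]

theorem tau_mul_of_le' {R Q : Setoid (Fin n)} (h : R ≤ Q) : tau Q * tau R = tau Q := by
  rw [tau_mul_tau, sup_eq_left.2 h]

theorem eps_idem (i : Fin n) : eps i * eps i = eps i := by
  apply B_inj
  intro f g
  simp only [B_mul, B_eps]
  constructor
  · rintro ⟨h, h1, h2⟩ j hj
    exact (h1 j hj).trans (h2 j hj)
  · intro h
    exact ⟨g, h, fun _ _ => rfl⟩

theorem pr_idem (a : Fin r → Fin n) : pr a * pr a = pr a := by
  apply B_inj
  intro f g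
  simp only [B_mul, B_pr]
  constructor
  · rintro ⟨h, h1, h2⟩ i
    exact (h1 i).trans (h2 i)
  · intro h
    exact ⟨g, h, fun _ => rfl⟩

theorem br_mul_pr (b a : Fin r → Fin n) : br b a * pr a = br b a := by
  apply B_inj
  intro f g
  simp only [B_mul, B_pr, B_br]
  constructor
  · rintro ⟨h, h1, h2⟩ i
    exact (h1 i).trans (h2 i)
  · intro h
    exact ⟨g, h, fun _ => rfl⟩

theorem pr_mul_br (b a : Fin r → Fin n) : pr b * br b a = br b a := by
  apply B_inj
  intro f g
  simp only [B_mul, B_pr, B_br]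
  constructor
  · rintro ⟨h, h1, h2⟩ i
    exact (h1 i).trans (h2 i)
  · intro h
    exact ⟨f, fun _ => rfl, h⟩

theorem br_mul_br {a : Fin r → Fin n} (ha : Function.Injective a) (b c : Fin r → Fin n) :
    br b a * br a c = br b c := by
  apply B_inj
  intro f g
  simp only [B_mul, B_br]
  constructor
  · rintro ⟨h, h1, h2⟩ i
    exact (h1 i).trans (h2 i)
  · intro h
    refine ⟨Function.extend a (fun i => f (b i)) 0, fun i => ?_, fun i => ?_⟩
    · rw [ha.extend_apply]
    · rw [ha.extend_apply, h i]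

/-- extension of values prescribed at independent points to a function constant on classes -/
theorem exists_ext {R : Setoid (Fin n)} {a : Fin r → Fin n} (h : Indep R a)
    (v : Fin r → ZMod 2) :
    ∃ g : Fin n → ZMod 2, (∀ i j, R i j → g i = g j) ∧ ∀ i, g (a i) = v i := by
  classical
  refine ⟨fun x => if hx : ∃ i, R x (a i) then v hx.choose else 0, ?_, ?_⟩
  · intro x y hxy
    by_cases hx : ∃ i, R x (a i)
    · have hy : ∃ i, R y (a i) := ⟨hx.choose, R.trans (R.symm hxy) hx.choose_spec⟩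
      have h1 : hx.choose = hy.choose :=
        h _ _ (R.trans (R.symm hx.choose_spec) (R.trans hxy hy.choose_spec))
      simp only [dif_pos hx, dif_pos hy, h1]
    · have hy : ¬ ∃ i, R y (a i) := fun ⟨i, hi⟩ => hx ⟨i, R.trans hxy hi⟩
      simp only [dif_neg hx, dif_neg hy]
  · intro i
    have hx : ∃ j, R (a i) (a j) := ⟨i, R.refl _⟩
    have h1 : i = hx.choose := h _ _ hx.choose_spec
    simp only [dif_pos hx]
    rw [← h1]

theorem pr_tau_br {R : Setoid (Fin n)} {a b : Fin r → Fin n} (h : Indep R a)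
    (hab : ∀ i, R (a i) (b i)) : pr a * tau R * pr b = br a b := by
  apply B_inj
  intro f g
  simp only [B_mul, B_pr, B_br, B_tau]
  constructor
  · rintro ⟨u, ⟨v, h1, rfl, h2⟩, h3⟩ i
    rw [h1 i, h2 _ _ (hab i), h3 i]
  · intro hfg
    obtain ⟨u, hu1, hu2⟩ := exists_ext h (fun i => f (a i))
    refine ⟨u, ⟨u, fun i => (hu2 i).symm, rfl, hu1⟩, fun i => ?_⟩
    rw [← hu1 _ _ (hab i), hu2 i, hfg i]

theorem pr_tau_pr {R : Setoid (Fin n)} {a : Fin r → Fin n} (h : Indep R a) :
    pr a * tau R * pr a = pr a :=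
  pr_tau_br h fun _ => R.refl _

theorem eps_pr {a : Fin r → Fin n} {i : Fin n} (hi : ∀ j, a j ≠ i) : eps i * pr a = pr a := by
  apply B_inj
  intro f g
  simp only [B_mul, B_pr, B_eps]
  constructor
  · rintro ⟨h, h1, h2⟩ j
    exact (h1 _ (hi j)).trans (h2 j)
  · intro h
    exact ⟨f, fun _ _ => rfl, h⟩

theorem pr_eps {a : Fin r → Fin n} {i : Fin n} (hi : ∀ j, a j ≠ i) : pr a * eps i = pr a := by
  apply B_inj
  intro f g
  simp only [B_mul, B_pr, B_eps]
  constructor
  · rintro ⟨h, h1, h2⟩ j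
    exact (h1 j).trans (h2 _ (hi j))
  · intro h
    exact ⟨g, h, fun _ _ => rfl⟩

theorem pr_tau_eps {R : Setoid (Fin n)} {a : Fin r → Fin n} {i : Fin n} (hi : ∀ j, a j ≠ i) :
    pr a * tau R * eps i = pr a * tau (cut R i) := by
  classical
  apply B_inj
  intro f g
  simp only [B_mul, B_pr, B_eps, B_tau]
  constructor
  · rintro ⟨u, ⟨v, h1, rfl, h2⟩, h3⟩
    refine ⟨g, fun j => ?_, rfl, fun x y hxy => ?_⟩
    · rw [h1 j, h3 _ (hi j)]
    · rcases (cut_iff R i x y).1 hxy with rfl | ⟨h4, h5, h6⟩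
      · rfl
      · rw [← h3 x h5, ← h3 y h6, h2 x y h4]
  · rintro ⟨u, h1, rfl, h2⟩
    -- modify `u` at `i`
    have key : ∃ v : Fin n → ZMod 2, (∀ x y, R x y → v x = v y) ∧ ∀ j, j ≠ i → v j = u j := by
      by_cases hc : ∃ c, c ≠ i ∧ R i c
      · obtain ⟨c, hc1, hc2⟩ := hc
        refine ⟨Function.update u i (u c), ?_, fun j hj => Function.update_of_ne hj _ _⟩
        have hval : ∀ x, R x x → ∃ x', x' ≠ i ∧ R x x' ∧ Function.update u i (u c) x = u x' := by
          intro x _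
          by_cases hx : x = i
          · subst hx
            exact ⟨c, hc1, hc2, Function.update_self _ _ _⟩
          · exact ⟨x, hx, R.refl _, Function.update_of_ne hx _ _⟩
        intro x y hxy
        obtain ⟨x', hx1, hx2, hx3⟩ := hval x (R.refl _)
        obtain ⟨y', hy1, hy2, hy3⟩ := hval y (R.refl _)
        rw [hx3, hy3]
        refine h2 _ _ ((cut_iff R i x' y').2 (Or.inr ⟨?_, hx1, hy1⟩))
        exact R.trans (R.symm hx2) (R.trans hxy hy2)
      · refine ⟨u, fun x y hxy => ?_, fun _ _ => rfl⟩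
        by_cases hx : x = i
        · by_cases hy : y = i
          · rw [hx, hy]
          · exact absurd ⟨y, hy, hx ▸ hxy⟩ hc
        · by_cases hy : y = i
          · exact absurd ⟨x, hx, hy ▸ R.symm hxy⟩ hc
          · exact h2 _ _ ((cut_iff R i x y).2 (Or.inr ⟨hxy, hx, hy⟩))
    obtain ⟨v, hv1, hv2⟩ := key
    refine ⟨v, ⟨v, fun j => ?_, rfl, hv1⟩, hv2⟩
    rw [h1 j, hv2 _ (hi j)]

theorem star_br (b a : Fin r → Fin n) : star (br b a) = br a b := by
  apply B_inj
  intro f g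
  rw [B_star, B_br, B_br]
  exact ⟨fun h i => (h i).symm, fun h i => (h i).symm⟩

theorem star_pr (a : Fin r → Fin n) : star (pr a) = pr a := star_br a a

theorem star_tau (R : Setoid (Fin n)) : star (tau R) = tau R := by
  apply B_inj
  intro f g
  rw [B_star, B_tau, B_tau]
  constructor
  · rintro ⟨rfl, h⟩
    exact ⟨rfl, h⟩
  · rintro ⟨rfl, h⟩
    exact ⟨rfl, h⟩

theorem star_eps (i : Fin n) : star (eps i) = eps i := by
  apply B_inj
  intro f g
  rw [B_star, B_eps, B_eps]
  exact ⟨fun h j hj => (h j hj).symm, fun h j hj => (h j hj).symm⟩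

theorem star_pat (R : Setoid (Fin n)) (a : Fin r → Fin n) : star (pat R a) = pat R a := by
  unfold pat
  rw [star_mul, star_mul, star_tau, star_pr, mul_assoc]

theorem eps_tau_pr {R : Setoid (Fin n)} {a : Fin r → Fin n} {i : Fin n} (hi : ∀ j, a j ≠ i) :
    eps i * tau R * pr a = tau (cut R i) * pr a := by
  have h := congrArg star (pr_tau_eps (R := R) hi)
  rw [star_mul, star_mul, star_mul, star_tau, star_pr, star_eps, star_tau, ← mul_assoc] at h
  exact h

theorem cut_cut (R : Setoid (Fin n)) (i : Fin n) : cut (cut R i) i = cut R i := by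
  apply le_antisymm (cut_le _ _)
  intro x y hxy
  rcases (cut_iff R i x y).1 hxy with rfl | ⟨h1, h2, h3⟩
  · exact (cut (cut R i) i).refl _
  · exact (cut_iff _ i x y).2 (Or.inr ⟨hxy, h2, h3⟩)

theorem eps_pat_cut {R : Setoid (Fin n)} {a : Fin r → Fin n} {i : Fin n} (hi : ∀ j, a j ≠ i) :
    eps i * pat (cut R i) a = pat (cut R i) a := by
  unfold pat
  rw [← mul_assoc, ← mul_assoc, eps_tau_pr hi, cut_cut]

theorem pat_cut_eps {R : Setoid (Fin n)} {a : Fin r → Fin n} {i : Fin n} (hi : ∀ j, a j ≠ i) :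
    pat (cut R i) a * eps i = pat (cut R i) a := by
  unfold pat
  rw [mul_assoc, mul_assoc, ← mul_assoc (pr a), pr_tau_eps hi, cut_cut, mul_assoc]

theorem B_pat (R : Setoid (Fin n)) (a : Fin r → Fin n) (f g : Fin n → ZMod 2) :
    B (pat R a) f g ↔ (∀ i j, R i j → f i = f j) ∧ (∀ i j, R i j → g i = g j) ∧
      ∀ i, f (a i) = g (a i) := by
  unfold pat
  simp only [B_mul, B_pr, B_tau]
  constructor
  · rintro ⟨u, ⟨v, ⟨rfl, h1⟩, h2⟩, rfl, h3⟩
    exact ⟨h1, h3, h2⟩
  · rintro ⟨h1, h2, h3⟩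
    exact ⟨g, ⟨f, ⟨rfl, h1⟩, h3⟩, rfl, h2⟩

theorem pat_congr {R : Setoid (Fin n)} {a b : Fin r → Fin n} (h : ∀ i, R (a i) (b i)) :
    pat R a = pat R b := by
  apply B_inj
  intro f g
  rw [B_pat, B_pat]
  constructor
  · rintro ⟨h1, h2, h3⟩
    refine ⟨h1, h2, fun i => ?_⟩
    rw [← h1 _ _ (h i), ← h2 _ _ (h i), h3 i]
  · rintro ⟨h1, h2, h3⟩
    refine ⟨h1, h2, fun i => ?_⟩
    rw [h1 _ _ (h i), h2 _ _ (h i), h3 i]

theorem pr_perm (a : Fin r → Fin n) (σ : Equiv.Perm (Fin r)) : pr (a ∘ σ) = pr a := by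
  apply B_inj
  intro f g
  rw [B_pr, B_pr]
  constructor
  · intro h i
    have := h (σ.symm i)
    simpa using this
  · intro h i
    exact h (σ i)

theorem pat_perm (R : Setoid (Fin n)) (a : Fin r → Fin n) (σ : Equiv.Perm (Fin r)) :
    pat R (a ∘ σ) = pat R a := by
  unfold pat
  rw [pr_perm]

theorem pat_idem {R : Setoid (Fin n)} {a : Fin r → Fin n} (_h : Indep R a) :
    pat R a * pat R a = pat R a := by
  apply B_inj
  intro f g
  simp only [B_mul, B_pat]
  constructor
  · rintro ⟨u, ⟨h1, h2, h3⟩, h4, h5, h6⟩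
    exact ⟨h1, h5, fun i => (h3 i).trans (h6 i)⟩
  · rintro ⟨h1, h2, h3⟩
    exact ⟨f, ⟨h1, h1, fun _ => rfl⟩, h1, h2, h3⟩

theorem star_lab_mul_lab {b : Fin r → Fin n} (hb : Function.Injective b) (R : Setoid (Fin n))
    (a : Fin r → Fin n) : star (br b a * tau R) * (br b a * tau R) = pat R a := by
  unfold pat
  rw [star_mul, star_tau, star_br, mul_assoc, ← mul_assoc (br a b), br_mul_br hb, ← mul_assoc]
  rfl

theorem B_lab (R : Setoid (Fin n)) (b a : Fin r → Fin n) (f g : Fin n → ZMod 2) :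
    B (br b a * tau R) f g ↔ (∀ i, f (b i) = g (a i)) ∧ ∀ i j, R i j → g i = g j := by
  simp only [B_mul, B_br, B_tau]
  constructor
  · rintro ⟨u, h1, rfl, h2⟩
    exact ⟨h1, h2⟩
  · rintro ⟨h1, h2⟩
    exact ⟨g, h1, rfl, h2⟩

/-- the indicator function of a class -/
theorem exists_indicator (R : Setoid (Fin n)) (x : Fin n) :
    ∃ g : Fin n → ZMod 2, (∀ i j, R i j → g i = g j) ∧ g x = 1 ∧ ∀ y, g y = 1 → R x y := by
  classical
  refine ⟨fun y => if R x y then 1 else 0, ?_, ?_, ?_⟩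
  · intro i j hij
    have : R x i ↔ R x j := ⟨fun h => R.trans h hij, fun h => R.trans h (R.symm hij)⟩
    simp only [this]
  · simp only [if_pos (R.refl x)]
  · intro y hy
    by_contra hne
    simp only [if_neg hne] at hy
    exact zero_ne_one hy

theorem lab_inj {b : Fin r → Fin n} (hb : Function.Injective b) {R Q : Setoid (Fin n)}
    {a c : Fin r → Fin n} (h : br b a * tau R = br b c * tau Q) :
    R = Q ∧ ∀ i, R (a i) (c i) := by
  have key : ∀ f g : Fin n → ZMod 2, ((∀ i, f (b i) = g (a i)) ∧ ∀ i j, R i j → g i = g j) ↔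
      ((∀ i, f (b i) = g (c i)) ∧ ∀ i j, Q i j → g i = g j) := by
    intro f g
    rw [← B_lab, ← B_lab, h]
  have hf : ∀ v : Fin r → ZMod 2, ∃ f : Fin n → ZMod 2, ∀ i, f (b i) = v i := fun v =>
    ⟨Function.extend b v 0, fun i => hb.extend_apply _ _ _⟩
  have hRQ : ∀ g : Fin n → ZMod 2, (∀ i j, R i j → g i = g j) ↔ ∀ i j, Q i j → g i = g j := by
    intro g
    constructor
    · intro hg
      obtain ⟨f, hf'⟩ := hf fun i => g (a i)
      exact ((key f g).1 ⟨hf', hg⟩).2
    · intro hg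
      obtain ⟨f, hf'⟩ := hf fun i => g (c i)
      exact ((key f g).2 ⟨hf', hg⟩).2
  constructor
  · apply le_antisymm
    · intro x y hxy
      obtain ⟨g, hg1, hg2, hg3⟩ := exists_indicator Q x
      exact hg3 y (((hRQ g).2 hg1 x y hxy).symm.trans hg2)
    · intro x y hxy
      obtain ⟨g, hg1, hg2, hg3⟩ := exists_indicator R x
      exact hg3 y (((hRQ g).1 hg1 x y hxy).symm.trans hg2)
  · intro i
    obtain ⟨g, hg1, hg2, hg3⟩ := exists_indicator R (a i)
    obtain ⟨f, hf'⟩ := hf fun i => g (a i)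
    have h1 := ((key f g).1 ⟨hf', hg1⟩).1 i
    exact hg3 _ (by rw [← h1, hf' i, hg2])

end Part

end Pool.Agent.IGP
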