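import Mathlib
import Pool.Agent.IGP.Basic
import Pool.Agent.IGP.PRank
import Pool.Agent.IGP.Pat

/-! MODULE M (PatRank).  Ranks of patterns and classification of projections.

PAPER PROOFS.
`prk_pr` (`a` injective): `dom (pr a) = ⊤`, `ker (pr a) = {f | f ∘ a = 0}`, of dimension `n - r`
(kernel of the surjection `f ↦ f ∘ a`).  So the rank is `n - (n - r) = r`.
`prk_pat`: by `pr_tau_pr`, `pr a * pat R a * pr a = pr a * tau R * pr a * tau R * pr a = pr a`, so
`r = prk (pr a) <= prk (pat R a) <= prk (pr a) = r` (monotonicity, `isRank_prk`).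
`prk_lab`: similar.
`proj_eq_pat`: let `p` be a projection of rank `r`: `star p = p`, `p p = p`.  Let
`R i j := p.rel (inl i) (inl j)` and call `i` marked if `p.rel (inl i) (inr j)` for some `j`.
 (1) `B p f g` iff `f ∈ dom p`, `g ∈ dom p`, `f - g ∈ ker p`: (=>) `B p g f` by `star p = p`
 (`B_star`), so `g ∈ dom p`; `B p f g`; `p = p p`: hmm, use `p = p * star p`... : `B p g h` and
 `B p h ...`; simplest: `p = p * star p` gives from `B p f g` an `h` with `B p f h`, `B p g h`, so
 `B p (f - g) 0`.  (<=) `B p g h` for some `h`; then `B (p * star p) g g`, i.e. `B p g g`; and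
 `B p (f - g) 0`, sum: `B p f g`.
 (2) `dom p = {f | f constant on R-classes}`: (⊂) clear.  (⊃) `f` `R`-constant; define `g j = f i` if
 `p.rel (inl i) (inr j)` for some `i` (well defined as `f` is `R`-constant), `0` otherwise;
 `B p f g`: check the four cases of `x, y`.
 (3) `ker p = {f | f R-constant and f i = 0 for all marked i}`.
 (4) The marked classes form a finite set `A` of classes; `dom p → (A → ZMod 2)` (restriction to the
 marked classes) is surjective with kernel `ker p`, so `card A = finrank dom p - finrank ker p = r`.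
 Choose a bijection `Fin r ≃ A` and representatives `a i`.  `Indep R a` holds, and
 `B p f g` iff (`f, g` `R`-constant, `f = g` on marked points) iff (`f, g` `R`-constant, `f ∘ a = g ∘ a`) iff
 `B (pat R a) f g`.  Conclude by `B_inj`.
`exists_perm`: let `K = R ⊔ Q`.  `pat R a * pat Q c = tau R * (pr a * tau K * pr c) * tau Q`.
Since this has rank `r` and `prk (pr a) <= r` ... : `prk (pr a * tau K * pr c) = r = prk (pr a)`
(`a` injective).  By stability there is `z` with `pr a * tau K * pr c * z = pr a`.
 Indep K a: if `K (a i) (a j)`, `i ≠ j`: take `f` = indicator of the point `a i`;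
 `B (pr a) f f`; so there are `h` `K`-constant with `f ∘ a = h ∘ a`: `1 = h (a i) = h (a j) = 0`,
 contradiction.
 For every `i` there is `j` with `K (a i) (c j)`: otherwise let `h` = indicator of the `K`-class of
 `a i`, `f` with `f ∘ a = h ∘ a` (e.g. `f = h`); `B (pr a * tau K * pr c) f 0` holds via `h` (`h ∘ c = 0`).
 Then `B (pr a) f 0`?: from `pr a = (pr a * tau K * pr c) * z` and `B z 0 0`.  So `f (a i) = 0`,
 contradiction with `f (a i) = 1`.
 Choose `σ i` with `K (a i) (c (σ i))`; `σ` is injective by Indep K a (`σ i = σ j` gives `K (a i) (a j)`),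
 hence a permutation of `Fin r`.
`idem_eq`: `e = (e e*) (e* e)` for an idempotent `e`: `e e* e* e = e (e e)* e = e e* e = e`.
`prk_mul_star`: `prk (e e*) <= prk e = prk (e e* e) <= prk (e e*)`.
-/

namespace Pool.Agent.IGP

namespace Part

variable {n r : ℕ}

theorem prk_pr {a : Fin r → Fin n} (ha : Function.Injective a) : prk (pr a) = r := by
  have hdom : dom (pr a) = ⊤ := by
    rw [eq_top_iff]
    intro f _
    exact ⟨f, (B_pr a f f).2 (fun _ => rfl)⟩
  let L : (Fin n → ZMod 2) →ₗ[ZMod 2] (Fin r → ZMod 2) := LinearMap.funLeft (ZMod 2) (ZMod 2) a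
  have hker : ker (pr a) = LinearMap.ker L := by
    ext f
    rw [LinearMap.mem_ker]
    change B (pr a) f 0 ↔ _
    rw [B_pr]
    constructor
    · intro h
      funext i
      exact h i
    · intro h i
      exact congrFun h i
  have hsurj : Function.Surjective L := LinearMap.funLeft_surjective_of_injective _ _ _ ha
  have h1 := LinearMap.finrank_range_add_finrank_ker L
  rw [LinearMap.range_eq_top.2 hsurj, finrank_top] at h1
  unfold prk
  rw [hdom, hker, finrank_top]
  simp only [Module.finrank_fintype_fun_eq_card, Fintype.card_fin] at h1 ⊢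
  omega

theorem prk_pat {R : Setoid (Fin n)} {a : Fin r → Fin n} (h : Indep R a) : prk (pat R a) = r := by
  have hr := isRank_prk (n := n)
  have h1 : pr a * pat R a * pr a = pr a := by
    unfold pat
    calc pr a * (tau R * pr a * tau R) * pr a = (pr a * tau R * pr a) * tau R * pr a := by
          simp only [mul_assoc]
      _ = pr a := by rw [pr_tau_pr h, pr_tau_pr h]
  have h2 := prk_pr h.inj
  apply le_antisymm
  · calc prk (pat R a) ≤ prk (tau R * pr a) := hr.mul_le_left _ _
      _ ≤ prk (pr a) := hr.mul_le_right _ _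
      _ = r := h2
  · calc r = prk (pr a) := h2.symm
      _ = prk (pr a * pat R a * pr a) := by rw [h1]
      _ ≤ prk (pr a * pat R a) := hr.mul_le_left _ _
      _ ≤ prk (pat R a) := hr.mul_le_right _ _

/-- explicit form of `B (pat R a)`. -/
theorem B_pat' (R : Setoid (Fin n)) (a : Fin r → Fin n) (f g : Fin n → ZMod 2) :
    B (pat R a) f g ↔ (∀ i j, R i j → f i = f j) ∧ (∀ i j, R i j → g i = g j) ∧
      ∀ i, f (a i) = g (a i) := by
  unfold pat
  constructor
  · intro h
    obtain ⟨u, h1, h2⟩ := (B_mul _ _ _ _).1 h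
    obtain ⟨v, h3, h4⟩ := (B_mul _ _ _ _).1 h1
    rw [B_tau] at h2 h3
    rw [B_pr] at h4
    obtain ⟨rfl, h2⟩ := h2
    obtain ⟨rfl, h3⟩ := h3
    exact ⟨h3, h2, h4⟩
  · rintro ⟨h1, h2, h3⟩
    refine (B_mul _ _ _ _).2 ⟨g, (B_mul _ _ _ _).2 ⟨f, ?_, ?_⟩, ?_⟩
    · exact (B_tau _ _ _).2 ⟨rfl, h1⟩
    · exact (B_pr _ _ _).2 h3
    · exact (B_tau _ _ _).2 ⟨rfl, h2⟩

theorem proj_B_self {p : Part n} (hs : star p = p) (hp : p * p = p) {f g : Fin n → ZMod 2}
    (h : B p f g) : B p f f := by
  have h1 : B p g f := by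
    rw [← hs, B_star]
    exact h
  have h2 : B (p * p) f f := (B_mul _ _ _ _).2 ⟨g, h, h1⟩
  rwa [hp] at h2

theorem proj_rel_star {p : Part n} (hs : star p = p) (x y : Fin n ⊕ Fin n) :
    p.rel x y ↔ p.rel x.swap y.swap := by
  constructor
  · intro h
    have h1 : (star p).rel x y := by rw [hs]; exact h
    exact h1
  · intro h
    have h1 : (star p).rel x y := h
    rwa [hs] at h1

theorem proj_rel_cross {p : Part n} (hs : star p = p) (hp : p * p = p) {i j : Fin n}
    (h : p.rel (Sum.inl i) (Sum.inr j)) : p.rel (Sum.inl i) (Sum.inl j) := by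
  classical
  let F : Fin n ⊕ Fin n → ZMod 2 := fun z => if p.rel (Sum.inl i) z then 1 else 0
  have hF : Sum.elim (fun k => F (Sum.inl k)) (fun k => F (Sum.inr k)) = F := by
    funext z; rcases z with k | k <;> rfl
  have hB : B p (fun k => F (Sum.inl k)) (fun k => F (Sum.inr k)) := by
    intro u v huv
    rw [hF]
    have : p.rel (Sum.inl i) u ↔ p.rel (Sum.inl i) v :=
      ⟨fun hu => p.rel.trans hu huv, fun hv => p.rel.trans hv (p.rel.symm huv)⟩
    simp only [F, this]
  have hB2 := proj_B_self hs hp hB (Sum.inl i) (Sum.inr j) h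
  simp only [Sum.elim_inl, Sum.elim_inr] at hB2
  have hi : F (Sum.inl i) = 1 := by
    simp only [F]
    rw [if_pos (p.rel.refl _)]
  rw [hi] at hB2
  by_contra hne
  have hj : F (Sum.inl j) = 0 := by
    simp only [F]
    rw [if_neg hne]
  rw [hj] at hB2
  exact one_ne_zero hB2

theorem proj_B_iff {p : Part n} (hs : star p = p) (hp : p * p = p) (f g : Fin n → ZMod 2) :
    B p f g ↔ (∀ i j, p.rel (Sum.inl i) (Sum.inl j) → f i = f j) ∧
      (∀ i j, p.rel (Sum.inl i) (Sum.inl j) → g i = g j) ∧
      ∀ i, (∃ j, p.rel (Sum.inl i) (Sum.inr j)) → f i = g i := by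
  constructor
  · intro h
    have hgf : B p g f := by
      rw [← hs, B_star]
      exact h
    have hgg : B p g g := proj_B_self hs hp hgf
    refine ⟨fun i j hij => h _ _ hij, fun i j hij => hgf _ _ hij, ?_⟩
    rintro i ⟨j, hij⟩
    have h1 : f i = g j := h _ _ hij
    have h2 : g i = g j := hgg _ _ hij
    rw [h1, h2]
  · rintro ⟨h1, h2, h3⟩
    have key : ∀ i j, p.rel (Sum.inl i) (Sum.inr j) → f i = g j := by
      intro i j hij
      rw [h3 i ⟨j, hij⟩]
      exact h2 i j (proj_rel_cross hs hp hij)
    intro x y hxy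
    rcases x with i | i <;> rcases y with j | j
    · exact h1 i j hxy
    · exact key i j hxy
    · exact (key j i (p.rel.symm hxy)).symm
    · exact h2 i j ((proj_rel_star hs _ _).1 hxy)

theorem proj_eq_pat {p : Part n} (hs : star p = p) (hp : p * p = p) (hr : prk p = r) :
    ∃ (R : Setoid (Fin n)) (a : Fin r → Fin n), Indep R a ∧ p = pat R a := by
  classical
  let R : Setoid (Fin n) := p.rel.comap Sum.inl
  have hR : ∀ i j, R i j ↔ p.rel (Sum.inl i) (Sum.inl j) := fun _ _ => Iff.rfl
  let M : Type := {i : Fin n // ∃ j, p.rel (Sum.inl i) (Sum.inr j)}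
  let s : Setoid M := R.comap Subtype.val
  let e : Quotient s ≃ Fin (Fintype.card (Quotient s)) := Fintype.equivFin _
  let a : Fin (Fintype.card (Quotient s)) → Fin n := fun k => (Quotient.out (e.symm k)).1
  have hind : Indep R a := by
    intro i j hij
    have h1 : s (Quotient.out (e.symm i)) (Quotient.out (e.symm j)) := hij
    have h2 : e.symm i = e.symm j := by
      rw [← Quotient.out_eq (e.symm i), ← Quotient.out_eq (e.symm j)]
      exact Quotient.sound h1
    exact e.symm.injective h2
  have hpa : p = pat R a := by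
    apply B_inj
    intro f g
    rw [proj_B_iff hs hp, B_pat']
    constructor
    · rintro ⟨h1, h2, h3⟩
      exact ⟨h1, h2, fun i => h3 _ (Quotient.out (e.symm i)).2⟩
    · rintro ⟨h1, h2, h3⟩
      refine ⟨h1, h2, ?_⟩
      intro i hi
      let q : Quotient s := Quotient.mk s ⟨i, hi⟩
      have h4 : s (Quotient.out q) ⟨i, hi⟩ := Quotient.exact (Quotient.out_eq q)
      have h5 : R (a (e q)) i := by
        have : a (e q) = (Quotient.out q).1 := by simp [a]
        rw [this]
        exact h4
      rw [← h1 _ _ h5, ← h2 _ _ h5]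
      exact h3 _
  have hcard : Fintype.card (Quotient s) = r := by
    exact (prk_pat hind).symm.trans ((congrArg prk hpa).symm.trans hr)
  subst hcard
  exact ⟨R, a, hind, hpa⟩

theorem exists_perm {R Q : Setoid (Fin n)} {a c : Fin r → Fin n} (hR : Indep R a)
    (hQ : Indep Q c) (hr : prk (pat R a * pat Q c) = r) :
    ∃ σ : Equiv.Perm (Fin r), Indep (R ⊔ Q) a ∧ ∀ i, (R ⊔ Q) (a i) (c (σ i)) := by
  classical
  have hrk := isRank_prk (n := n)
  have h1 : pat R a * pat Q c = tau R * (pr a * (tau (R ⊔ Q) * pr c)) * tau Q := by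
    unfold pat
    rw [← tau_mul_tau]
    simp only [mul_assoc]
  have h2 : prk (pr a * (tau (R ⊔ Q) * pr c)) = prk (pr a) := by
    apply le_antisymm (hrk.mul_le_left _ _)
    rw [prk_pr hR.inj]
    calc r = prk (pat R a * pat Q c) := hr.symm
      _ = prk (tau R * (pr a * (tau (R ⊔ Q) * pr c)) * tau Q) := by rw [h1]
      _ ≤ prk (tau R * (pr a * (tau (R ⊔ Q) * pr c))) := hrk.mul_le_left _ _
      _ ≤ prk (pr a * (tau (R ⊔ Q) * pr c)) := hrk.mul_le_right _ _
  obtain ⟨z, hz⟩ := hrk.stab_right _ _ h2
  set K := R ⊔ Q with hK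
  have hKa : Indep K a := by
    intro i j hij
    by_contra hne
    let f : Fin n → ZMod 2 := Pi.single (a i) 1
    have hf : B (pr a) f f := (B_pr a f f).2 (fun _ => rfl)
    rw [← hz] at hf
    obtain ⟨u, hu, _⟩ := (B_mul _ _ _ _).1 hf
    obtain ⟨h, hh, hh2⟩ := (B_mul _ _ _ _).1 hu
    obtain ⟨v, hv, _⟩ := (B_mul _ _ _ _).1 hh2
    rw [B_tau] at hv
    rw [B_pr] at hh
    have e1 : f (a i) = 1 := by simp [f]
    have e2 : f (a j) = 0 := by
      have : a j ≠ a i := fun h => hne (hR.inj h).symm
      simp [f, this]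
    have e3 : h (a i) = h (a j) := hv.2 _ _ hij
    rw [← hh i, ← hh j, e1, e2] at e3
    exact one_ne_zero e3
  have hex : ∀ i, ∃ j, K (a i) (c j) := by
    intro i
    by_contra hne
    push Not at hne
    let h : Fin n → ZMod 2 := fun x => if K (a i) x then 1 else 0
    have hB1 : B (pr a) h h := (B_pr _ _ _).2 (fun _ => rfl)
    have hB2 : B (tau K) h h := by
      refine (B_tau _ _ _).2 ⟨rfl, ?_⟩
      intro x y hxy
      have : K (a i) x ↔ K (a i) y :=
        ⟨fun hu => K.trans hu hxy, fun hv => K.trans hv (K.symm hxy)⟩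
      simp only [h, this]
    have hB3 : B (pr c) h 0 := by
      refine (B_pr _ _ _).2 ?_
      intro j
      simp only [h, if_neg (hne j), Pi.zero_apply]
    have hB4 : B (pr a * (tau K * pr c) * z) h 0 :=
      (B_mul _ _ _ _).2 ⟨0, (B_mul _ _ _ _).2 ⟨h, hB1, (B_mul _ _ _ _).2 ⟨h, hB2, hB3⟩⟩,
        B_zero z⟩
    rw [hz, B_pr] at hB4
    have e1 : h (a i) = 1 := by
      simp only [h]
      rw [if_pos (K.refl _)]
    have e2 := hB4 i
    rw [e1] at e2
    exact one_ne_zero e2
  choose σ hσ using hex
  have hinj : Function.Injective σ := by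
    intro i j hij
    apply hKa
    refine K.trans (hσ i) ?_
    rw [hij]
    exact K.symm (hσ j)
  exact ⟨Equiv.ofBijective σ (Finite.injective_iff_bijective.1 hinj), hKa, fun i => hσ i⟩

theorem star_mul_star_self (e : Part n) : star (e * star e) = e * star e := by
  rw [star_mul, star_star]

theorem star_star_mul_self (e : Part n) : star (star e * e) = star e * e := by
  rw [star_mul, star_star]

theorem mul_star_idem (e : Part n) : (e * star e) * (e * star e) = e * star e := by
  rw [← mul_assoc, mul_star_mul]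

theorem star_mul_idem (e : Part n) : (star e * e) * (star e * e) = star e * e := by
  rw [mul_assoc, ← mul_assoc e, mul_star_mul]

theorem idem_eq {e : Part n} (he : e * e = e) : (e * star e) * (star e * e) = e := by
  have h1 : star e * star e = star e := by
    rw [← star_mul, he]
  calc (e * star e) * (star e * e) = e * (star e * star e) * e := by simp only [mul_assoc]
    _ = e * star e * e := by rw [h1]
    _ = e := mul_star_mul e

theorem prk_mul_star (e : Part n) : prk (e * star e) = prk e := by
  have hrk := isRank_prk (n := n)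
  apply le_antisymm (hrk.mul_le_left _ _)
  calc prk e = prk (e * star e * e) := by rw [mul_star_mul]
    _ ≤ prk (e * star e) := hrk.mul_le_left _ _

theorem prk_star_mul (e : Part n) : prk (star e * e) = prk e := by
  have hrk := isRank_prk (n := n)
  apply le_antisymm (hrk.mul_le_right _ _)
  calc prk e = prk (e * (star e * e)) := by rw [← mul_assoc, mul_star_mul]
    _ ≤ prk (star e * e) := hrk.mul_le_right _ _

end Part

end Pool.Agent.IGP
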