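import Mathlib
import Pool.Agent.IGP.Basic
import Pool.Agent.IGP.Calc
import Pool.Agent.IGP.PRank
import Pool.Agent.IGP.Pat

/-! MODULE N (UD).  The elements `U, V, D, D', UU, DD, W` of `IG (Part n)`.

Write `τ_R = tau R`, `p_a = pr a`, `q(R,a) = pat R a = τ_R p_a τ_R`.
Facts used all the time (for `Indep R a`, and `R ≤ Q`): `p_a τ_R p_a = p_a` (`pr_tau_pr`),
`τ_R τ_Q = τ_{R ⊔ Q}`.  So
`p_a q(R,a) = p_a τ_R`, `q(R,a) p_a = τ_R p_a`, `q(R,a) τ_Q = τ_R p_a τ_Q` (`R ≤ Q`),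
`q(R,a) q(Q,a) = τ_R p_a τ_Q = q(R,a) τ_Q` and `q(Q,a) q(R,a) = τ_Q p_a τ_R = τ_Q q(R,a)`
(`R ≤ Q`, Indep Q a), `τ_Q q(R,a) τ_Q = q(R ⊔ Q, a)`.

PAPER PROOFS.
`fr_pr_pat`: `p q p = p_a τ_R p_a τ_R p_a = p_a`, `q p q = τ_R p_a τ_R p_a τ_R p_a τ_R = q`.
`fr_pat_pat`: put `K = R ⊔ Q`; `q(K,a) = q(K,c)` (`pat_congr`), i.e. `τ_K p_a τ_K = τ_K p_c τ_K`.
`q(R,a) q(Q,c) q(R,a) = τ_R p_a τ_K p_c τ_K p_a τ_R = τ_R p_a τ_K p_a τ_K p_a τ_R = τ_R p_a τ_R`; similarly the
other one (Indep K c by `Indep.congr`).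
`U_mul_V` etc.: from `Fr` lemmas with `p = p_a`, `q = q(R,a)`: `U R a = X (p*q)`, `V R a = X q * X p`,
`D R a = X (q*p)`, `D' R a = X p * X q`.
`U_mul_UU`: (LR) `Fr.X_LR` with `p = p_a`, `q = q(Q,a)`, `k = τ_R`: `p q = p_a τ_Q`, `p k = p_a τ_R`,
`k p q = τ_R p_a τ_Q = q(R,a) τ_Q`.  `k q = q = q k` as `R ≤ Q`; `p k p = p_a`.
`DD_mul_D`: (LR') with the same data: `q p = τ_Q p_a`, `q p k = τ_Q p_a τ_R = τ_Q q(R,a)`, `k p = τ_R p_a`.
`X_pat_pat`: (LR) with `p = q(R,a)`, `q = q(Q,c)`, `k = τ_Q`, `K = R ⊔ Q`: `k q = q = q k`, `p k p =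
τ_R p_a τ_K p_a τ_R = q(R,a)`; `p k = τ_R p_a τ_R τ_Q = τ_R p_a τ_K = q(R,a) τ_K`; `k p q = τ_K p_a τ_K p_c τ_Q
= τ_K p_c τ_K p_c τ_Q = τ_K p_c τ_Q = τ_K q(Q,c)`.
`U_mul_DD_cut` (Z0).  General square: for `P ≤ R`, Indep R a, `i` not in the range of `a`, `c ≠ i`, `P i c`:
  (Sq)  `UU P R a * DD R (cut R i) a = DD P (cut P i) a * UU (cut P i) (cut R i) a`.
 Both sides equal `X (q(P,a) q(cut R i, a))`.
 Left: `X_pat_pat` with `R := P`, `Q := cut R i`, `c := a`, using `sup_cut` (`P ⊔ cut R i = R`).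
 Right: (LR) with `p = q(P,a)`, `q = q(cut R i, a)`, `k = eps i`: `k q = q = q k` (`eps_pat_cut`,
 `pat_cut_eps`); `p k = τ_P (p_a τ_P eps_i) = τ_P p_a τ_{cut P i} = τ_P q(cut P i, a)` (`pr_tau_eps`,
 `cut_le`), `p k p = τ_P p_a τ_{cut P i} τ_P p_a τ_P = τ_P p_a τ_P p_a τ_P = p`; `k p q = (eps_i τ_P p_a) τ_P
 τ_{cut R i} p_a τ_{cut R i} = τ_{cut P i} p_a τ_R p_a τ_{cut R i} = τ_{cut P i} p_a τ_{cut R i} =
 q(cut P i, a) τ_{cut R i}` (`cut_mono`).
 For (Z0) take `P = pair i c`, `cut P i = ⊥`, `DD P ⊥ a = X (τ_P p_a) = D P a`, `UU ⊥ Q a = X (p_a τ_Q) =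
 U Q a`, multiply (Sq) on the left by `U P a` and use `U_mul_UU`.
`W_inv`: `D' V U D = D' X(q) D = D' D = X (p_a)`.
-/

namespace Pool.Agent.IGP

open Part

variable {n r : ℕ}

noncomputable def U (R : Setoid (Fin n)) (a : Fin r → Fin n) : IG (Part n) :=
  IG.X (pr a * tau R)
noncomputable def V (R : Setoid (Fin n)) (a : Fin r → Fin n) : IG (Part n) :=
  IG.X (pat R a) * IG.X (pr a)
noncomputable def D (R : Setoid (Fin n)) (a : Fin r → Fin n) : IG (Part n) :=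
  IG.X (tau R * pr a)
noncomputable def D' (R : Setoid (Fin n)) (a : Fin r → Fin n) : IG (Part n) :=
  IG.X (pr a) * IG.X (pat R a)
noncomputable def UU (R Q : Setoid (Fin n)) (a : Fin r → Fin n) : IG (Part n) :=
  IG.X (pat R a * tau Q)
noncomputable def DD (Q R : Setoid (Fin n)) (a : Fin r → Fin n) : IG (Part n) :=
  IG.X (tau Q * pat R a)
noncomputable def W (a : Fin r → Fin n) (i c : Fin n) : IG (Part n) :=
  U (pair i c) a * D (pair i c) a

section aux

variable {M : Type*} [Monoid M]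

private theorem ra2 {A B D : M} (h : A * B = D) (x : M) : A * (B * x) = D * x := by
  rw [← mul_assoc, h]

private theorem ra3 {A B C D : M} (h : A * B * C = D) (x : M) : A * (B * (C * x)) = D * x := by
  rw [← h, mul_assoc, mul_assoc]

end aux

/-- `p_a q(R, a) = p_a τ_R` -/
theorem pr_mul_pat {R : Setoid (Fin n)} {a : Fin r → Fin n} (h : Indep R a) :
    pr a * pat R a = pr a * tau R := by
  have h1 := pr_tau_pr h
  simp only [pat, mul_assoc, ra3 h1]

/-- `q(R, a) p_a = τ_R p_a` -/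
theorem pat_mul_pr {R : Setoid (Fin n)} {a : Fin r → Fin n} (h : Indep R a) :
    pat R a * pr a = tau R * pr a := by
  have h1 := pr_tau_pr h
  rw [mul_assoc] at h1
  simp only [pat, mul_assoc, h1]

theorem pat_mul_tau {R Q : Setoid (Fin n)} (hRQ : R ≤ Q) (a : Fin r → Fin n) :
    pat R a * tau Q = tau R * (pr a * tau Q) := by
  simp only [pat, mul_assoc, tau_mul_of_le hRQ]

theorem tau_mul_pat {R Q : Setoid (Fin n)} (hRQ : R ≤ Q) (a : Fin r → Fin n) :
    tau Q * pat R a = tau Q * (pr a * tau R) := by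
  simp only [pat, mul_assoc, ra2 (tau_mul_of_le' hRQ)]

theorem fr_pr_pat {R : Setoid (Fin n)} {a : Fin r → Fin n} (h : Indep R a) :
    Fr (pr a) (pat R a) := by
  have h1 := pr_tau_pr h
  refine ⟨pr_idem a, pat_idem h, ?_, ?_⟩
  · rw [pr_mul_pat h, h1]
  · rw [pat_mul_pr h, mul_assoc, pr_mul_pat h, pat, mul_assoc]

theorem fr_pat_pat {R Q : Setoid (Fin n)} {a c : Fin r → Fin n} (h : Indep (R ⊔ Q) a)
    (hac : ∀ i, (R ⊔ Q) (a i) (c i)) : Fr (pat R a) (pat Q c) := by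
  have h1 : pr a * (tau (R ⊔ Q) * pr a) = pr a := by rw [← mul_assoc]; exact pr_tau_pr h
  have h1c : pr c * (tau (R ⊔ Q) * pr c) = pr c := by
    rw [← mul_assoc]; exact pr_tau_pr (h.congr hac)
  have h2 : tau (R ⊔ Q) * (pr a * tau (R ⊔ Q)) = tau (R ⊔ Q) * (pr c * tau (R ⊔ Q)) := by
    have := pat_congr hac
    simpa only [pat, mul_assoc] using this
  have h3 : tau R * tau Q = tau (R ⊔ Q) := tau_mul_tau R Q
  have h4 : tau Q * tau R = tau (R ⊔ Q) := by rw [tau_mul_tau, sup_comm]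
  refine ⟨pat_idem (h.mono le_sup_left), pat_idem ((h.congr hac).mono le_sup_right), ?_, ?_⟩
  · have h5 : pat R a * pat Q c * pat R a =
        tau R * (pr a * (tau (R ⊔ Q) * (pr c * tau (R ⊔ Q)) * (pr a * tau R))) := by
      simp only [pat, mul_assoc, ra2 h3, ra2 h4]
    rw [h5, ← h2]
    have h6 : pr a * (tau (R ⊔ Q) * (pr a * tau (R ⊔ Q)) * (pr a * tau R)) =
        pr a * (tau (R ⊔ Q) * pr a) * (tau (R ⊔ Q) * pr a) * tau R := by
      simp only [mul_assoc]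
    rw [h6, h1, h1, pat, mul_assoc]
  · have h5 : pat Q c * pat R a * pat Q c =
        tau Q * (pr c * (tau (R ⊔ Q) * (pr a * tau (R ⊔ Q)) * (pr c * tau Q))) := by
      simp only [pat, mul_assoc, ra2 h3, ra2 h4]
    rw [h5, h2]
    have h6 : pr c * (tau (R ⊔ Q) * (pr c * tau (R ⊔ Q)) * (pr c * tau Q)) =
        pr c * (tau (R ⊔ Q) * pr c) * (tau (R ⊔ Q) * pr c) * tau Q := by
      simp only [mul_assoc]
    rw [h6, h1c, h1c, pat, mul_assoc]

theorem U_eq {R : Setoid (Fin n)} {a : Fin r → Fin n} (h : Indep R a) :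
    U R a = IG.X (pr a * pat R a) := by
  rw [U, pr_mul_pat h]

theorem D_eq {R : Setoid (Fin n)} {a : Fin r → Fin n} (h : Indep R a) :
    D R a = IG.X (pat R a * pr a) := by
  rw [D, pat_mul_pr h]

theorem U_mul_V {R : Setoid (Fin n)} {a : Fin r → Fin n} (h : Indep R a) :
    U R a * V R a = IG.X (pr a) := by
  rw [U_eq h, V]
  exact (fr_pr_pat h).X_mul_inv

theorem V_mul_U {R : Setoid (Fin n)} {a : Fin r → Fin n} (h : Indep R a) :
    V R a * U R a = IG.X (pat R a) := by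
  rw [U_eq h, V]
  exact (fr_pr_pat h).inv_mul_X

theorem pr_mul_U {R : Setoid (Fin n)} {a : Fin r → Fin n} (h : Indep R a) :
    IG.X (pr a) * U R a = U R a := by
  rw [U_eq h]
  exact (fr_pr_pat h).p_mul_X

theorem U_mul_pat {R : Setoid (Fin n)} {a : Fin r → Fin n} (h : Indep R a) :
    U R a * IG.X (pat R a) = U R a := by
  rw [U_eq h]
  exact (fr_pr_pat h).X_mul_q

theorem pat_mul_V {R : Setoid (Fin n)} {a : Fin r → Fin n} (h : Indep R a) :
    IG.X (pat R a) * V R a = V R a := by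
  rw [V, ← mul_assoc, IG.X_sq (pat_idem h)]

theorem V_mul_pr {R : Setoid (Fin n)} {a : Fin r → Fin n} (h : Indep R a) :
    V R a * IG.X (pr a) = V R a := by
  rw [V, mul_assoc, IG.X_sq (pr_idem a)]

theorem pat_mul_D {R : Setoid (Fin n)} {a : Fin r → Fin n} (h : Indep R a) :
    IG.X (pat R a) * D R a = D R a := by
  rw [D_eq h]
  exact (fr_pr_pat h).symm.p_mul_X

theorem D_mul_pr {R : Setoid (Fin n)} {a : Fin r → Fin n} (h : Indep R a) :
    D R a * IG.X (pr a) = D R a := by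
  rw [D_eq h]
  exact (fr_pr_pat h).symm.X_mul_q

theorem D_mul_D' {R : Setoid (Fin n)} {a : Fin r → Fin n} (h : Indep R a) :
    D R a * D' R a = IG.X (pat R a) := by
  rw [D_eq h, D']
  exact (fr_pr_pat h).symm.X_mul_inv

theorem D'_mul_D {R : Setoid (Fin n)} {a : Fin r → Fin n} (h : Indep R a) :
    D' R a * D R a = IG.X (pr a) := by
  rw [D_eq h, D']
  exact (fr_pr_pat h).symm.inv_mul_X

theorem D'_mul_pat {R : Setoid (Fin n)} {a : Fin r → Fin n} (h : Indep R a) :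
    D' R a * IG.X (pat R a) = D' R a := by
  rw [D', mul_assoc, IG.X_sq (pat_idem h)]

theorem U_bot (a : Fin r → Fin n) : U ⊥ a = IG.X (pr a) := by
  rw [U, tau_bot, mul_one]

theorem D_bot (a : Fin r → Fin n) : D ⊥ a = IG.X (pr a) := by
  rw [D, tau_bot, one_mul]

theorem tau_mul_pat_self {R Q : Setoid (Fin n)} (hRQ : R ≤ Q) (a : Fin r → Fin n) :
    tau R * pat Q a = pat Q a := by
  rw [pat, ← mul_assoc, ← mul_assoc, tau_mul_of_le hRQ]

theorem pat_mul_tau_self {R Q : Setoid (Fin n)} (hRQ : R ≤ Q) (a : Fin r → Fin n) :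
    pat Q a * tau R = pat Q a := by
  rw [pat, mul_assoc, tau_mul_of_le' hRQ]

theorem U_mul_UU {R Q : Setoid (Fin n)} {a : Fin r → Fin n} (hRQ : R ≤ Q) (h : Indep Q a) :
    U R a * UU R Q a = U Q a := by
  have h1 := (fr_pr_pat h).X_LR (tau_idem R) (tau_mul_pat_self hRQ a) (pat_mul_tau_self hRQ a)
    (pr_tau_pr (h.mono hRQ))
  rw [U_eq h, h1, U, UU, pat_mul_tau hRQ, mul_assoc (tau R), pr_mul_pat h]

theorem DD_mul_D {R Q : Setoid (Fin n)} {a : Fin r → Fin n} (hRQ : R ≤ Q) (h : Indep Q a) :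
    DD Q R a * D R a = D Q a := by
  have h1 := (fr_pr_pat h).X_LR' (tau_idem R) (tau_mul_pat_self hRQ a) (pat_mul_tau_self hRQ a)
    (pr_tau_pr (h.mono hRQ))
  rw [D_eq h, h1, D, DD, tau_mul_pat hRQ, pat_mul_pr h, mul_assoc]

theorem UU_congr {R : Setoid (Fin n)} (Q : Setoid (Fin n)) {a b : Fin r → Fin n}
    (hab : ∀ i, R (a i) (b i)) : UU R Q a = UU R Q b := by
  rw [UU, UU, pat_congr hab]

theorem DD_congr {R : Setoid (Fin n)} (Q : Setoid (Fin n)) {a b : Fin r → Fin n}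
    (hab : ∀ i, R (a i) (b i)) : DD Q R a = DD Q R b := by
  rw [DD, DD, pat_congr hab]

/-- the last factor absorbs its pattern: `DD Q R a * X (pat R a) = DD Q R a`. -/
theorem DD_mul_pat {R Q : Setoid (Fin n)} {a : Fin r → Fin n} (hRQ : R ≤ Q) (h : Indep Q a) :
    DD Q R a * IG.X (pat R a) = DD Q R a := by
  rw [DD]
  have h1 := pr_tau_pr h
  refine IG.X_mul_left ?_ (pat_idem (h.mono hRQ)) ?_
  · rw [tau_mul_pat hRQ]
    simp only [mul_assoc, ra2 (tau_mul_of_le hRQ), ra3 h1]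
  · rw [mul_assoc, pat_idem (h.mono hRQ)]

theorem X_pat_pat {R Q : Setoid (Fin n)} {a c : Fin r → Fin n} (h : Indep (R ⊔ Q) a)
    (hac : ∀ i, (R ⊔ Q) (a i) (c i)) :
    IG.X (pat R a * pat Q c) = UU R (R ⊔ Q) a * DD (R ⊔ Q) Q c := by
  have h1 : pr a * (tau (R ⊔ Q) * pr a) = pr a := by rw [← mul_assoc]; exact pr_tau_pr h
  have h1c : pr c * (tau (R ⊔ Q) * pr c) = pr c := by
    rw [← mul_assoc]; exact pr_tau_pr (h.congr hac)
  have h2 : tau (R ⊔ Q) * (pr a * tau (R ⊔ Q)) = tau (R ⊔ Q) * (pr c * tau (R ⊔ Q)) := by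
    have := pat_congr hac
    simpa only [pat, mul_assoc] using this
  have h3 : tau R * tau Q = tau (R ⊔ Q) := tau_mul_tau R Q
  have h4 : tau Q * tau R = tau (R ⊔ Q) := by rw [tau_mul_tau, sup_comm]
  have h5 : tau (R ⊔ Q) * tau R = tau (R ⊔ Q) := tau_mul_of_le' le_sup_left
  have e1 : pat R a * tau Q = pat R a * tau (R ⊔ Q) := by
    rw [pat_mul_tau le_sup_left, pat, mul_assoc, mul_assoc, h3]
  have e2 : tau Q * pat R a * pat Q c = tau (R ⊔ Q) * pat Q c := by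
    rw [tau_mul_pat le_sup_right]
    have e3 : tau Q * pat R a * pat Q c =
        tau (R ⊔ Q) * (pr a * tau (R ⊔ Q)) * (pr c * tau Q) := by
      simp only [pat, mul_assoc, ra2 h3, ra2 h4]
    rw [e3, h2]
    have e4 : tau (R ⊔ Q) * (pr c * tau (R ⊔ Q)) * (pr c * tau Q) =
        tau (R ⊔ Q) * (pr c * (tau (R ⊔ Q) * pr c)) * tau Q := by
      simp only [mul_assoc]
    rw [e4, h1c, mul_assoc]
  have e5 : pat R a * tau Q * pat R a = pat R a := by
    have e6 : pat R a * tau Q * pat R a = tau R * (pr a * (tau (R ⊔ Q) * pr a)) * tau R := by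
      simp only [pat, mul_assoc, ra2 h3, ra2 h5]
    rw [e6, h1, pat]
  have h6 := (fr_pat_pat h hac).X_LR (tau_idem Q) (tau_mul_pat_self le_rfl c)
    (pat_mul_tau_self le_rfl c) e5
  rw [h6, UU, DD, e1, e2]

/-- the general square -/
theorem UU_mul_DD_cut {P R : Setoid (Fin n)} {a : Fin r → Fin n} (hPR : P ≤ R) (h : Indep R a)
    {i c : Fin n} (hi : ∀ j, a j ≠ i) (hic : i ≠ c) (hP : P i c) :
    UU P R a * DD R (cut R i) a = DD P (cut P i) a * UU (cut P i) (cut R i) a := by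
  have hsup : P ⊔ cut R i = R := sup_cut hPR hic hP
  have h' : Indep (P ⊔ cut R i) a := by rw [hsup]; exact h
  have h1 := X_pat_pat h' (c := a) (fun j => (P ⊔ cut R i).refl (a j))
  have hP' : Indep P a := h.mono hPR
  have p1 : pr a * tau P * pr a = pr a := pr_tau_pr hP'
  have p2 : pr a * tau R * pr a = pr a := pr_tau_pr h
  have p3 : pr a * tau P * eps i = pr a * tau (cut P i) := pr_tau_eps hi
  have p4 : eps i * tau P * pr a = tau (cut P i) * pr a := eps_tau_pr hi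
  have t1 : tau P * tau (cut R i) = tau R := by rw [tau_mul_tau, hsup]
  have t2 : tau (cut P i) * tau P = tau P := tau_mul_of_le (cut_le P i)
  have hk : pat P a * eps i = tau P * (pr a * tau (cut P i)) := by
    rw [pat, mul_assoc, mul_assoc, ← mul_assoc (pr a), p3]
  have e5 : pat P a * eps i * pat P a = pat P a := by
    rw [hk]
    have p1' : pr a * (tau P * pr a) = pr a := by rw [← mul_assoc]; exact p1
    simp only [pat, mul_assoc, ra2 t2, ra3 p1]
  have e6 : eps i * pat P a * pat (cut R i) a = tau (cut P i) * (pr a * tau (cut R i)) := by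
    simp only [pat, mul_assoc, ra3 p4, ra2 t1, ra3 p2]
  have h6 := (fr_pat_pat h' (c := a) (fun j => (P ⊔ cut R i).refl (a j))).X_LR (eps_idem i)
    (eps_pat_cut hi) (pat_cut_eps hi) e5
  rw [hsup] at h1
  rw [← h1, h6, hk, e6, DD, UU, tau_mul_pat (cut_le P i), pat_mul_tau (cut_mono hPR i)]

theorem U_mul_DD_cut {R : Setoid (Fin n)} {a : Fin r → Fin n} (h : Indep R a) {i c : Fin n}
    (hi : ∀ j, a j ≠ i) (hic : i ≠ c) (hR : R i c) :
    U R a * DD R (cut R i) a = W a i c * U (cut R i) a := by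
  have hPR : pair i c ≤ R := pair_le hR
  have hP : (pair i c) i c := Or.inr ⟨Or.inl rfl, Or.inr rfl⟩
  rw [← U_mul_UU hPR h, mul_assoc, UU_mul_DD_cut hPR h hi hic hP, cut_pair hic, W, mul_assoc]
  congr 1
  rw [DD, UU, D, U, pat, tau_bot, one_mul, mul_one]

theorem W_comm (a : Fin r → Fin n) (i c : Fin n) : W a i c = W a c i := by
  rw [W, W, pair_comm]

theorem W_mul_pr {a : Fin r → Fin n} (ha : Function.Injective a) {i c : Fin n}
    (hi : ∀ j, a j ≠ i) : W a i c * IG.X (pr a) = W a i c := by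
  rw [W, mul_assoc, D_mul_pr (indep_pair ha hi c)]

theorem pr_mul_W {a : Fin r → Fin n} (ha : Function.Injective a) {i c : Fin n}
    (hi : ∀ j, a j ≠ i) : IG.X (pr a) * W a i c = W a i c := by
  rw [W, ← mul_assoc, pr_mul_U (indep_pair ha hi c)]

theorem W_inv {a : Fin r → Fin n} (ha : Function.Injective a) {i c : Fin n}
    (hi : ∀ j, a j ≠ i) : D' (pair i c) a * V (pair i c) a * W a i c = IG.X (pr a) := by
  have h := indep_pair ha hi c
  have e : D' (pair i c) a * V (pair i c) a * (U (pair i c) a * D (pair i c) a) =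
      D' (pair i c) a * (V (pair i c) a * U (pair i c) a) * D (pair i c) a := by
    simp only [mul_assoc]
  rw [W, e, V_mul_U h, D'_mul_pat h, D'_mul_D h]

theorem pi_U {R : Setoid (Fin n)} {a : Fin r → Fin n} (h : Indep R a) :
    IG.pi (U R a) = pr a * tau R := by
  rw [U_eq h, IG.pi_X (fr_pr_pat h).idem, pr_mul_pat h]

theorem pi_V {R : Setoid (Fin n)} {a : Fin r → Fin n} (h : Indep R a) :
    IG.pi (V R a) = tau R * pr a := by
  rw [V, map_mul, IG.pi_X (pat_idem h), IG.pi_X (pr_idem a), pat_mul_pr h]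

theorem pi_D {R : Setoid (Fin n)} {a : Fin r → Fin n} (h : Indep R a) :
    IG.pi (D R a) = tau R * pr a := by
  rw [D_eq h, IG.pi_X (fr_pr_pat h).symm.idem, pat_mul_pr h]

theorem pi_W {a : Fin r → Fin n} (ha : Function.Injective a) {i c : Fin n}
    (hi : ∀ j, a j ≠ i) : IG.pi (W a i c) = pr a := by
  have h := indep_pair ha hi c
  rw [W, map_mul, pi_U h, pi_D h]
  have e : pr a * tau (pair i c) * (tau (pair i c) * pr a) =
      pr a * (tau (pair i c) * tau (pair i c)) * pr a := by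
    simp only [mul_assoc]
  rw [e, tau_idem, pr_tau_pr h]

end Pool.Agent.IGP
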