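import Mathlib
import Pool.Agent.IGP.Basic
import Pool.Agent.IGP.Calc
import Pool.Agent.IGP.PRank
import Pool.Agent.IGP.Pat
import Pool.Agent.IGP.UD
import Pool.Agent.IGP.InjLemma

/-! MODULE Q (Slide).  Slides, the transport `T`, and the elements `kap R a`.

PAPER PROOFS.
`sl_eq`: let `J = jn a b ≤ R`.  `U R a = U J a * UU J R a`, `U R b = U J b * UU J R b`, `UU J R a = UU J R b`
(`UU_congr`), `X (pat J a) = X (pat J b)`, `X (pat R a) = X (pat R b)`.
`UU J R b * V R b = X(pat J b) * UU J R b * V R b` (UU J R b = X (pat J b * tau R), use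
`V_mul_U J` and `U_mul_UU`: `V J b * U R b = V J b * U J b * UU J R b = X (pat J b) * UU J R b`)
... so `V J b = V J b * X (pr b) = V J b * U R b * V R b = X (pat J b) * UU J R b * V R b`.
`sl a b = U J a * V J b = U J a * X (pat J b) * UU J R b * V R b = U J a * X (pat J a) * UU J R a * V R b
= U J a * UU J R a * V R b = U R a * V R b`.
`sl_comp`: `U R a * V R b * U R b * V R c = U R a * X (pat R b) * V R c = U R a * V R c`.
`exists_transport`: apply `inj_transport` to `s = sl`.  For each configuration in (h0), (h1), (h2)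
produce a setoid `R` with `Indep R a` and all of `a i, b i, c i (, d i)` in the same `R`-class for every
`i`; then use `sl_eq`, `sl_comp`.  The setoid: `R := Setoid.ker Lab`, where `Lab : Fin n → Option (Fin r)`
with `Lab (a i) = Lab (b i) = Lab (c i) = Lab (d i) = some i` and `none` elsewhere; well defined because
`a i = b j` implies `i = j` for any two of the injections (for `a, b` differing only at `i0`:
if `j ≠ i0`, `b j = a j` so `i = j`; if `j = i0` and `i ≠ i0`, `a i = b i` so `b i = b i0`,
contradiction.  For the opposite corners `a, d` of a square (differing at `i` and `j`): at index `i`,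
`d i = b i`, at index `j`, `d j = c j`, elsewhere `d k = b k = a k`; reduce to the pairs `(a,b)`,
`(a,c)`; the same for `b, c`).
`T_section`: change the coordinates of `a` into those of `b` one at a time: `a_k j = b j` if `j < k`,
`a j` otherwise; all `a_k` are sections of `R` (`R (a i) (a_k i)`), hence injective (`Indep.congr`,
`Indep.inj`).  By induction `T a a_k = U R a * V R a_k`: `T a a_0 = T a a = sl a a = U R a * V R a`;
`T a a_{k+1} = T a a_k * T a_k a_{k+1} = U R a V R a_k * sl a_k a_{k+1} = U R a V R a_k U R a_k V R a_{k+1}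
= U R a * V R a_{k+1}` (`sl_eq`, `sl_comp`).
`T_self_eq`: `T a a = sl a a = U R a * V R a = X (pr a)`.
`T_pi`: by `inj_connected` applied to `P b := pi (T a b) = br a b`, from `P a`
(`pi (X (pr a)) = pr a = br a a`); step: `T a c = T a b * T b c`, `T b c = sl b c = U R b * V R c` has `pi`
equal to `pr b * tau R * (tau R * pr c) = pr b * tau R * pr c = br b c` (`pr_tau_br`), and `br a b * br b c = br a c`
(`br_mul_br`).
`kap_congr`: `T b0 b = T b0 a * T a b = T b0 a * U R a * V R b`, so `kap R b = T b0 a * U R a * V R b * U R b =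
T b0 a * U R a * X (pat R b) = kap R a` (`pat_congr`).
`kap_UU`: `U_mul_UU`.  `kinv_kap`: `V R a * T a b0 * T b0 a * U R a = V R a * X (pr a) * U R a = V R a U R a`.
`T_mul_U`: `T a b * U R b = U R a * V R b * U R b = U R a * X (pat R b) = U R a`.
-/

namespace Pool.Agent.IGP

open Part

variable {n r : ℕ}

/-- the smallest setoid relating `a i` and `b i` -/
def jn (a b : Fin r → Fin n) : Setoid (Fin n) :=
  Relation.EqvGen.setoid (fun x y => ∃ i, x = a i ∧ y = b i)

theorem jn_rel (a b : Fin r → Fin n) (i : Fin r) : jn a b (a i) (b i) :=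
  Relation.EqvGen.rel _ _ ⟨i, rfl, rfl⟩

theorem jn_le {a b : Fin r → Fin n} {R : Setoid (Fin n)} (h : ∀ i, R (a i) (b i)) :
    jn a b ≤ R := by
  intro x y hxy
  have hxy' : Relation.EqvGen (fun x y => ∃ i, x = a i ∧ y = b i) x y := hxy
  clear hxy
  induction hxy' with
  | rel x y hxy => obtain ⟨i, rfl, rfl⟩ := hxy; exact h i
  | refl x => exact R.refl x
  | symm x y _ ih => exact R.symm ih
  | trans x y z _ _ ih1 ih2 => exact R.trans ih1 ih2

/-- the slide from `a` to `b` -/
noncomputable def sl (a b : Fin r → Fin n) : IG (Part n) := U (jn a b) a * V (jn a b) b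

theorem sl_eq {R : Setoid (Fin n)} {a b : Fin r → Fin n} (h : Indep R a)
    (hab : ∀ i, R (a i) (b i)) : sl a b = U R a * V R b := by
  have hJR : jn a b ≤ R := jn_le hab
  have hJ : ∀ i, jn a b (a i) (b i) := jn_rel a b
  have hJa : Indep (jn a b) a := h.mono hJR
  have hRb : Indep R b := h.congr hab
  have hJb : Indep (jn a b) b := hRb.mono hJR
  have h1 : V (jn a b) b = IG.X (pat (jn a b) b) * UU (jn a b) R b * V R b := by
    calc V (jn a b) b = V (jn a b) b * IG.X (pr b) := (V_mul_pr hJb).symm
      _ = V (jn a b) b * (U R b * V R b) := by rw [U_mul_V hRb]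
      _ = V (jn a b) b * (U (jn a b) b * UU (jn a b) R b * V R b) := by rw [U_mul_UU hJR hRb]
      _ = (V (jn a b) b * U (jn a b) b) * UU (jn a b) R b * V R b := by simp only [mul_assoc]
      _ = IG.X (pat (jn a b) b) * UU (jn a b) R b * V R b := by rw [V_mul_U hJb]
  calc sl a b = U (jn a b) a * (IG.X (pat (jn a b) b) * UU (jn a b) R b * V R b) := by
        rw [sl, h1]
    _ = U (jn a b) a * (IG.X (pat (jn a b) a) * UU (jn a b) R a * V R b) := by
        rw [pat_congr hJ, UU_congr R hJ]
    _ = (U (jn a b) a * IG.X (pat (jn a b) a)) * UU (jn a b) R a * V R b := by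
        simp only [mul_assoc]
    _ = U R a * V R b := by rw [U_mul_pat hJa, U_mul_UU hJR h]

theorem sl_comp {R : Setoid (Fin n)} {a b c : Fin r → Fin n} (h : Indep R a)
    (hab : ∀ i, R (a i) (b i)) (hbc : ∀ i, R (b i) (c i)) : sl a b * sl b c = sl a c := by
  have hb : Indep R b := h.congr hab
  rw [sl_eq h hab, sl_eq hb hbc, sl_eq h (fun i => R.trans (hab i) (hbc i))]
  calc U R a * V R b * (U R b * V R c) = U R a * (V R b * U R b) * V R c := by
        simp only [mul_assoc]
    _ = U R a * IG.X (pat R a) * V R c := by rw [V_mul_U hb, pat_congr hab]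
    _ = U R a * V R c := by rw [U_mul_pat h]

/-- a transport: a functorial extension of the slides. -/
structure Transport (n r : ℕ) where
  T : (Fin r → Fin n) → (Fin r → Fin n) → IG (Part n)
  comp : ∀ a b c, Function.Injective a → Function.Injective b → Function.Injective c →
    T a b * T b c = T a c
  adj : ∀ (a b : Fin r → Fin n) (i : Fin r), Function.Injective a → Function.Injective b →
    (∀ j, j ≠ i → a j = b j) → T a b = sl a b
  self : ∀ a, Function.Injective a → T a a = sl a a

/-- a common setoid for a family of pairwise compatible tuples -/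
theorem exists_common (S : Set (Fin r → Fin n))
    (hS : ∀ f ∈ S, ∀ g ∈ S, ∀ k l, f k = g l → k = l) :
    ∃ R : Setoid (Fin n), (∀ f ∈ S, Indep R f) ∧ ∀ f ∈ S, ∀ g ∈ S, ∀ k, R (f k) (g k) := by
  classical
  let Lab : Fin n → Option (Fin r) := fun x =>
    if hx : ∃ k, ∃ f ∈ S, x = f k then some hx.choose else none
  have hLab : ∀ f ∈ S, ∀ k, Lab (f k) = some k := by
    intro f hf k
    have hx : ∃ l, ∃ g ∈ S, f k = g l := ⟨k, f, hf, rfl⟩
    simp only [Lab]
    rw [dif_pos hx]
    obtain ⟨g, hg, hfg⟩ := hx.choose_spec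
    exact congrArg some (hS f hf g hg _ _ hfg).symm
  refine ⟨Setoid.ker Lab, ?_, ?_⟩
  · intro f hf i j hij
    have h1 : Lab (f i) = Lab (f j) := hij
    rw [hLab f hf, hLab f hf] at h1
    exact Option.some_injective _ h1
  · intro f hf g hg k
    show Lab (f k) = Lab (g k)
    rw [hLab f hf, hLab g hg]

theorem adj_sep {a b : Fin r → Fin n} {i : Fin r} (ha : Function.Injective a)
    (hb : Function.Injective b) (hab : ∀ j, j ≠ i → a j = b j) (k l : Fin r) (h : a k = b l) :
    k = l := by
  by_cases hl : l = i
  · by_cases hk : k = i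
    · rw [hk, hl]
    · rw [hab k hk] at h
      exact hb h
  · rw [← hab l hl] at h
    exact ha h

theorem exists_transport (h : r + 2 ≤ n) : Nonempty (Transport n r) := by
  obtain ⟨T, t1, t2, t3⟩ := inj_transport h (sl (n := n) (r := r))
    (fun a ha => sl_comp (indep_bot ha) (fun i => rfl) (fun i => rfl))
    (fun a b c i ha hb hc hab hbc => by
      have hac : ∀ j, j ≠ i → a j = c j := fun j hj => (hab j hj).trans (hbc j hj)
      obtain ⟨R, hR1, hR2⟩ := exists_common ({a, b, c} : Set (Fin r → Fin n)) (by
        rintro f (rfl | rfl | rfl) g (rfl | rfl | rfl) k l hfg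
        · exact ha hfg
        · exact adj_sep ha hb hab k l hfg
        · exact adj_sep ha hc hac k l hfg
        · exact adj_sep hb ha (fun j hj => (hab j hj).symm) k l hfg
        · exact hb hfg
        · exact adj_sep hb hc hbc k l hfg
        · exact adj_sep hc ha (fun j hj => (hac j hj).symm) k l hfg
        · exact adj_sep hc hb (fun j hj => (hbc j hj).symm) k l hfg
        · exact hc hfg)
      exact sl_comp (hR1 a (by simp)) (hR2 a (by simp) b (by simp)) (hR2 b (by simp) c (by simp)))
    (fun a b c d i j hij ha hb hc hd hab hcd hac hbd => by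
      have sab := adj_sep ha hb hab
      have scd := adj_sep hc hd hcd
      have sac := adj_sep ha hc hac
      have sbd := adj_sep hb hd hbd
      have sad : ∀ k l, a k = d l → k = l := by
        intro k l hkl
        by_cases hl : l = i
        · subst hl
          rw [← hbd l hij] at hkl
          exact sab k l hkl
        · rw [← hcd l hl] at hkl
          exact sac k l hkl
      have sbc : ∀ k l, b k = c l → k = l := by
        intro k l hkl
        by_cases hl : l = i
        · subst hl
          rw [← hac l hij] at hkl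
          exact (sab l k hkl.symm).symm
        · rw [hcd l hl] at hkl
          exact sbd k l hkl
      obtain ⟨R, hR1, hR2⟩ := exists_common ({a, b, c, d} : Set (Fin r → Fin n)) (by
        rintro f (rfl | rfl | rfl | rfl) g (rfl | rfl | rfl | rfl) k l hfg
        · exact ha hfg
        · exact sab k l hfg
        · exact sac k l hfg
        · exact sad k l hfg
        · exact (sab l k hfg.symm).symm
        · exact hb hfg
        · exact sbc k l hfg
        · exact sbd k l hfg
        · exact (sac l k hfg.symm).symm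
        · exact (sbc l k hfg.symm).symm
        · exact hc hfg
        · exact scd k l hfg
        · exact (sad l k hfg.symm).symm
        · exact (sbd l k hfg.symm).symm
        · exact (scd l k hfg.symm).symm
        · exact hd hfg)
      rw [sl_comp (hR1 a (by simp)) (hR2 a (by simp) b (by simp)) (hR2 b (by simp) d (by simp)),
        sl_comp (hR1 a (by simp)) (hR2 a (by simp) c (by simp)) (hR2 c (by simp) d (by simp))])
  exact ⟨⟨T, t1, t2, t3⟩⟩

namespace Transport

variable (t : Transport n r)

theorem self_eq {a : Fin r → Fin n} (ha : Function.Injective a) : t.T a a = IG.X (pr a) := by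
  rw [t.self a ha, sl_eq (indep_bot ha) (fun i => rfl), U_mul_V (indep_bot ha)]

theorem section_eq {R : Setoid (Fin n)} {a b : Fin r → Fin n} (h : Indep R a)
    (hab : ∀ i, R (a i) (b i)) : t.T a b = U R a * V R b := by
  classical
  -- the intermediate sections
  let p : ℕ → Fin r → Fin n := fun k j => if (j : ℕ) < k then b j else a j
  have hRp : ∀ k j, R (a j) (p k j) := by
    intro k j
    simp only [p]
    split_ifs
    · exact hab j
    · exact R.refl _
  have hpI : ∀ k, Indep R (p k) := fun k => h.congr (hRp k)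
  have key : ∀ k, k ≤ r → t.T a (p k) = U R a * V R (p k) := by
    intro k
    induction k with
    | zero =>
      intro _
      have h0 : p 0 = a := by funext j; simp [p]
      rw [h0, t.self_eq h.inj, U_mul_V h]
    | succ k ih =>
      intro hk
      have hk' : k < r := hk
      have hadj : ∀ j : Fin r, j ≠ ⟨k, hk'⟩ → p k j = p (k + 1) j := by
        intro j hj
        have hne : (j : ℕ) ≠ k := fun h1 => hj (Fin.ext h1)
        simp only [p]
        by_cases h1 : (j : ℕ) < k
        · rw [if_pos h1, if_pos (by omega)]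
        · rw [if_neg h1, if_neg (by omega)]
      have hRR : ∀ j, R (p k j) (p (k + 1) j) := fun j =>
        R.trans (R.symm (hRp k j)) (hRp (k + 1) j)
      rw [← t.comp a (p k) (p (k + 1)) h.inj (hpI k).inj (hpI (k + 1)).inj, ih (by omega),
        t.adj _ _ ⟨k, hk'⟩ (hpI k).inj (hpI (k + 1)).inj hadj, sl_eq (hpI k) hRR]
      calc U R a * V R (p k) * (U R (p k) * V R (p (k + 1))) =
          U R a * (V R (p k) * U R (p k)) * V R (p (k + 1)) := by simp only [mul_assoc]
        _ = U R a * IG.X (pat R a) * V R (p (k + 1)) := by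
            rw [V_mul_U (hpI k), pat_congr (hRp k)]
        _ = U R a * V R (p (k + 1)) := by rw [U_mul_pat h]
  have hr : p r = b := by
    funext j; simp [p]
  have := key r le_rfl
  rwa [hr] at this

theorem mul_U {R : Setoid (Fin n)} {a b : Fin r → Fin n} (h : Indep R a)
    (hab : ∀ i, R (a i) (b i)) : t.T a b * U R b = U R a := by
  rw [t.section_eq h hab, mul_assoc, V_mul_U (h.congr hab), ← pat_congr hab, U_mul_pat h]

theorem mul_pr {a b : Fin r → Fin n} (ha : Function.Injective a) (hb : Function.Injective b) :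
    t.T a b * IG.X (pr b) = t.T a b := by
  rw [← t.self_eq hb, t.comp a b b ha hb hb]

theorem pr_mul {a b : Fin r → Fin n} (ha : Function.Injective a) (hb : Function.Injective b) :
    IG.X (pr a) * t.T a b = t.T a b := by
  rw [← t.self_eq ha, t.comp a a b ha ha hb]

theorem pi_T (h : r + 1 ≤ n) {a b : Fin r → Fin n} (ha : Function.Injective a)
    (hb : Function.Injective b) : IG.pi (t.T a b) = br a b := by
  refine inj_connected h (fun b => IG.pi (t.T a b) = br a b) a ha ?_ ?_ b hb
  · show IG.pi (t.T a a) = br a a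
    rw [t.self_eq ha, IG.pi_X (pr_idem a)]
    rfl
  · intro b c i hb hc hbc hP
    show IG.pi (t.T a c) = br a c
    obtain ⟨R, hR1, hR2⟩ := exists_common ({b, c} : Set (Fin r → Fin n)) (by
        rintro f (rfl | rfl) g (rfl | rfl) k l hfg
        · exact hb hfg
        · exact adj_sep hb hc hbc k l hfg
        · exact adj_sep hc hb (fun j hj => (hbc j hj).symm) k l hfg
        · exact hc hfg)
    have hIb : Indep R b := hR1 b (by simp)
    have hIc : Indep R c := hR1 c (by simp)
    have hbc' := hR2 b (by simp) c (by simp)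
    rw [← t.comp a b c ha hb hc, map_mul, hP, t.adj b c i hb hc hbc, sl_eq hIb hbc', map_mul,
      pi_U hIb, pi_V hIc]
    have h1 : pr b * tau R * (tau R * pr c) = br b c := by
      rw [← pr_tau_br hIb hbc']
      calc pr b * tau R * (tau R * pr c) = pr b * (tau R * tau R) * pr c := by
            simp only [mul_assoc]
        _ = pr b * tau R * pr c := by rw [tau_idem]
    rw [h1, br_mul_br hb]

/-- the elements `kap R a` -/
noncomputable def kap (b0 : Fin r → Fin n) (R : Setoid (Fin n)) (a : Fin r → Fin n) :
    IG (Part n) := t.T b0 a * U R a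

theorem kap_mul_pat {b0 : Fin r → Fin n} {R : Setoid (Fin n)}
    {a : Fin r → Fin n} (h : Indep R a) : t.kap b0 R a * IG.X (pat R a) = t.kap b0 R a := by
  rw [kap, mul_assoc, U_mul_pat h]

theorem pr_mul_kap {b0 : Fin r → Fin n} (hb0 : Function.Injective b0) {R : Setoid (Fin n)}
    {a : Fin r → Fin n} (h : Indep R a) : IG.X (pr b0) * t.kap b0 R a = t.kap b0 R a := by
  rw [kap, ← mul_assoc, t.pr_mul hb0 h.inj]

theorem kap_congr {b0 : Fin r → Fin n} (hb0 : Function.Injective b0) {R : Setoid (Fin n)}
    {a b : Fin r → Fin n} (h : Indep R a) (hab : ∀ i, R (a i) (b i)) :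
    t.kap b0 R a = t.kap b0 R b := by
  rw [kap, kap, ← t.comp b0 a b hb0 h.inj (h.congr hab).inj, mul_assoc, t.mul_U h hab]

theorem kap_mul_UU {b0 : Fin r → Fin n} {R Q : Setoid (Fin n)}
    {a : Fin r → Fin n} (hRQ : R ≤ Q) (h : Indep Q a) :
    t.kap b0 R a * UU R Q a = t.kap b0 Q a := by
  rw [kap, kap, mul_assoc, U_mul_UU hRQ h]

theorem kinv_kap {b0 : Fin r → Fin n} (hb0 : Function.Injective b0) {R : Setoid (Fin n)}
    {a : Fin r → Fin n} (h : Indep R a) :
    (V R a * t.T a b0) * t.kap b0 R a = IG.X (pat R a) := by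
  calc (V R a * t.T a b0) * (t.T b0 a * U R a) = V R a * (t.T a b0 * t.T b0 a) * U R a := by
        simp only [mul_assoc]
    _ = V R a * IG.X (pr a) * U R a := by rw [t.comp a b0 a h.inj hb0 h.inj, t.self_eq h.inj]
    _ = IG.X (pat R a) := by rw [V_mul_pr h, V_mul_U h]

theorem pi_kap (hn : r + 1 ≤ n) {b0 : Fin r → Fin n} (hb0 : Function.Injective b0)
    {R : Setoid (Fin n)} {a : Fin r → Fin n} (h : Indep R a) :
    IG.pi (t.kap b0 R a) = br b0 a * tau R := by
  rw [kap, map_mul, t.pi_T hn hb0 h.inj, pi_U h, ← mul_assoc, br_mul_pr]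

end Transport

end Pool.Agent.IGP
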