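import Mathlib
import Pool.Agent.IGP.Basic
import Pool.Agent.IGP.Calc
import Pool.Agent.IGP.PRank
import Pool.Agent.IGP.Pat
import Pool.Agent.IGP.UD
import Pool.Agent.IGP.InjLemma
import Pool.Agent.IGP.Slide

/-! MODULE R (Zeta).  The central element `W b0 i0 c0` and `kap R a * D R a = (W b0 i0 c0)^k * T b0 a`.

PAPER PROOFS.
`W_congr1`: `a` injective, `i` not in the range of `a`, `c, c' ≠ i`, and `c` or `c'` not in the range of
`a`: `W a i c = W a i c'`.  Trivial if `c = c'`.  Let `R` be the setoid whose only nontrivial block is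
`{i, c, c'}` (e.g. `pair i c ⊔ pair i c'`, or a direct definition, or `Setoid.ker` of a suitable
function).  `Indep R a` since at most one of `i, c, c'` is in the range of `a`.  `U_mul_DD_cut` for
`c` and for `c'` gives `W a i c * U (cut R i) a = W a i c' * U (cut R i) a`; multiply on the right by
`V (cut R i) a` (`U_mul_V`, `Indep (cut R i) a` by `cut_le`) and use `W_mul_pr`.
`W_all` (`r + 2 <= n`): `a` injective, `i, j` not in the range, `c ≠ i`, `d ≠ j`: `W a i c = W a j d`.
If `i ≠ j`: `W a i c = W a i j` (`W_congr1`, `j` not in the range) `= W a j i` (`W_comm`) `= W a j d`.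
If `i = j`: there is `u ≠ i` not in the range of `a` (`r + 2 <= n`): `W a i c = W a i u = W a i d`.
`W_slide`: `a, b` injective differing only at `l`, `a l ≠ b l`, `u` not in the range of `a` nor of `b`:
`W a u (a l) * T a b = T a b * W b u (b l)`.  Let `R` be the setoid with block `{u, a l, b l}`;
`Indep R a`, `Indep R b`, `R (a i) (b i)` for all `i`; `cut R u` has the block `{a l, b l}` and the same
properties.  `DD R (cut R u) a = DD R (cut R u) b` (`DD_congr`).
`T a b * W b u (b l) * U (cut R u) b = T a b * U R b * DD R (cut R u) b = U R a * DD R (cut R u) a =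
W a u (a l) * U (cut R u) a = W a u (a l) * T a b * U (cut R u) b` (`U_mul_DD_cut`, `mul_U`); multiply
on the right by `V (cut R u) b` and use `U_mul_V`, `W_mul_pr`, `mul_pr`.
`T_W`: for `a` injective, `i` not in the range, `c ≠ i`: `T b0 a * W a i c = W b0 i0 c0 * T b0 a`.
By `inj_connected` on `a`: `P a :=` (for all such `i, c`).  `a = b0`: `W b0 i c = W b0 i0 c0` (`W_all`),
`T b0 b0 = X (pr b0)`, `W_mul_pr`, `pr_mul_W`.  Step `a → b` differing at `l` (if `a l = b l` then
`a = b`): choose `u` outside both ranges (`r + 2 <= n`).  `W b i c = W b u (b l)` (`W_all`);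
`T b0 b * W b u (b l) = T b0 a * T a b * W b u (b l) = T b0 a * W a u (a l) * T a b = W b0 i0 c0 * T b0 a * T a b`.
`kap_D`: for `Indep R a` there is `k` with `kap R a * D R a = (W b0 i0 c0)^k * T b0 a`.  Induction on
the number of pairs `(x, y)` with `R x y` (strictly smaller for `cut R i` if `i` is related to some
`c ≠ i`).  If `R = ⊥` (no distinct related points): `U ⊥ a = D ⊥ a = X (pr a)`; `k = 0`.  Otherwise
`R i c`, `i ≠ c`; as `Indep R a`, one of them, say `i`, is not in the range of `a` (if both are values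
`a j`, `a j'`, then `j = j'`, `i = c`).  `kap R a * D R a = T b0 a * U R a * DD R (cut R i) a * D (cut R i) a
= T b0 a * W a i c * U (cut R i) a * D (cut R i) a = ζ * T b0 a * U (cut R i) a * D (cut R i) a = ζ * kap (cut R i) a
* D (cut R i) a = ζ * ζ^k * T b0 a`.
-/

namespace Pool.Agent.IGP

open Part

variable {n r : ℕ}

/-- the partition whose only possibly nontrivial block is `{u, v, w}` -/
def zt_tri (u v w : Fin n) : Setoid (Fin n) where
  r x y := x = y ∨ ((x = u ∨ x = v ∨ x = w) ∧ (y = u ∨ y = v ∨ y = w))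
  iseqv :=
    { refl := fun _ => Or.inl rfl
      symm := by
        rintro x y (h | ⟨h1, h2⟩)
        · exact Or.inl h.symm
        · exact Or.inr ⟨h2, h1⟩
      trans := by
        rintro x y z (rfl | ⟨h1, h2⟩) (rfl | ⟨h1', h2'⟩)
        · exact Or.inl rfl
        · exact Or.inr ⟨h1', h2'⟩
        · exact Or.inr ⟨h1, h2⟩
        · exact Or.inr ⟨h1, h2'⟩ }

/-- if the members of the block in the range of `a` are all equal, `a` is independent -/
theorem zt_indep_tri {a : Fin r → Fin n} (ha : Function.Injective a) {u v w : Fin n}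
    (hu : ∀ j, a j ≠ u) (h : (∀ j, a j ≠ v) ∨ (∀ j, a j ≠ w)) : Indep (zt_tri u v w) a := by
  intro j k hjk
  apply ha
  have hjk' : a j = a k ∨ ((a j = u ∨ a j = v ∨ a j = w) ∧ (a k = u ∨ a k = v ∨ a k = w)) := hjk
  have h1 := hu j
  have h2 := hu k
  rcases h with h | h
  · have h3 := h j
    have h4 := h k
    rcases hjk' with h5 | ⟨h5 | h5 | h5, h6 | h6 | h6⟩
    · exact h5
    all_goals first
      | exact absurd h5 h1
      | exact absurd h5 h3
      | exact absurd h6 h2
      | exact absurd h6 h4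
      | exact h5.trans h6.symm
  · have h3 := h j
    have h4 := h k
    rcases hjk' with h5 | ⟨h5 | h5 | h5, h6 | h6 | h6⟩
    · exact h5
    all_goals first
      | exact absurd h5 h1
      | exact absurd h5 h3
      | exact absurd h6 h2
      | exact absurd h6 h4
      | exact h5.trans h6.symm

theorem W_congr1 {a : Fin r → Fin n} (ha : Function.Injective a) {i c c' : Fin n}
    (hi : ∀ j, a j ≠ i) (hc : i ≠ c) (hc' : i ≠ c') (h : (∀ j, a j ≠ c) ∨ (∀ j, a j ≠ c')) :
    W a i c = W a i c' := by
  have hR := zt_indep_tri ha hi h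
  have h1 := U_mul_DD_cut hR hi hc (Or.inr ⟨Or.inl rfl, Or.inr (Or.inl rfl)⟩)
  have h2 := U_mul_DD_cut hR hi hc' (Or.inr ⟨Or.inl rfl, Or.inr (Or.inr rfl)⟩)
  have h3 : Indep (cut (zt_tri i c c') i) a := hR.mono (cut_le _ _)
  have h4 := congrArg (fun z => z * V (cut (zt_tri i c c') i) a) (h1.symm.trans h2)
  simp only [mul_assoc] at h4
  rw [U_mul_V h3, W_mul_pr ha hi, W_mul_pr ha hi] at h4
  exact h4

/-- a point outside the range of `a` and different from `i` -/
theorem zt_exists_out (hn : r + 2 ≤ n) (a : Fin r → Fin n) (i : Fin n) :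
    ∃ u, u ≠ i ∧ ∀ k, a k ≠ u := by
  classical
  have h1 : (insert i (Finset.univ.image a)).card < (Finset.univ : Finset (Fin n)).card := by
    rw [Finset.card_univ, Fintype.card_fin]
    have h2 := Finset.card_insert_le i (Finset.univ.image a)
    have h3 : (Finset.univ.image a).card ≤ r := by
      simpa using Finset.card_image_le (s := Finset.univ) (f := a)
    omega
  obtain ⟨u, _, hu⟩ := Finset.exists_mem_notMem_of_card_lt_card h1
  refine ⟨u, fun h => hu (by rw [h]; exact Finset.mem_insert_self _ _), fun k h => hu ?_⟩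
  rw [← h]
  exact Finset.mem_insert_of_mem (Finset.mem_image_of_mem _ (Finset.mem_univ _))

theorem W_all (hn : r + 2 ≤ n) {a : Fin r → Fin n} (ha : Function.Injective a) {i j c d : Fin n}
    (hi : ∀ k, a k ≠ i) (hj : ∀ k, a k ≠ j) (hc : i ≠ c) (hd : j ≠ d) :
    W a i c = W a j d := by
  by_cases hij : i = j
  · subst hij
    obtain ⟨u, hu, hua⟩ := zt_exists_out hn a i
    exact (W_congr1 ha hi hc hu.symm (Or.inr hua)).trans (W_congr1 ha hi hu.symm hd (Or.inl hua))
  · rw [W_congr1 ha hi hc hij (Or.inr hj), W_comm,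
      W_congr1 ha hj (Ne.symm hij) hd (Or.inl hi)]

theorem zt_slide (t : Transport n r) {a b : Fin r → Fin n} (ha : Function.Injective a)
    (hb : Function.Injective b) {l : Fin r} (hab : ∀ j, j ≠ l → a j = b j) (hl : a l ≠ b l)
    {u : Fin n} (hua : ∀ k, a k ≠ u) (hub : ∀ k, b k ≠ u) :
    W a u (a l) * t.T a b = t.T a b * W b u (b l) := by
  have hbl : ∀ k, a k ≠ b l := by
    intro k hk
    by_cases hkl : k = l
    · subst hkl
      exact hl hk
    · rw [hab k hkl] at hk
      exact hkl (hb hk)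
  have hal : ∀ k, b k ≠ a l := by
    intro k hk
    by_cases hkl : k = l
    · subst hkl
      exact hl hk.symm
    · rw [← hab k hkl] at hk
      exact hkl (ha hk)
  set R := zt_tri u (a l) (b l) with hR
  have hRa : Indep R a := zt_indep_tri ha hua (Or.inr hbl)
  have hRb : Indep R b := zt_indep_tri hb hub (Or.inl hal)
  have hRab : ∀ i, R (a i) (b i) := by
    intro i
    by_cases hil : i = l
    · subst hil
      exact Or.inr ⟨Or.inr (Or.inl rfl), Or.inr (Or.inr rfl)⟩
    · exact Or.inl (hab i hil)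
  have hCab : ∀ i, (cut R u) (a i) (b i) := by
    intro i
    exact Or.inr ⟨hRab i, hua i, hub i⟩
  have hCa : Indep (cut R u) a := hRa.mono (cut_le _ _)
  have hCb : Indep (cut R u) b := hRb.mono (cut_le _ _)
  have h1 := U_mul_DD_cut hRa hua (Ne.symm (hua l)) (Or.inr ⟨Or.inl rfl, Or.inr (Or.inl rfl)⟩)
  have h2 := U_mul_DD_cut hRb hub (Ne.symm (hub l)) (Or.inr ⟨Or.inl rfl, Or.inr (Or.inr rfl)⟩)
  have h3 : t.T a b * W b u (b l) * U (cut R u) b = W a u (a l) * t.T a b * U (cut R u) b := by
    rw [mul_assoc, ← h2, ← mul_assoc, t.mul_U hRa hRab, ← DD_congr R hCab, h1, mul_assoc,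
      t.mul_U hCa hCab]
  have h4 := congrArg (fun z => z * V (cut R u) b) h3
  simp only [mul_assoc] at h4
  rw [U_mul_V hCb, W_mul_pr hb hub, t.mul_pr ha hb] at h4
  exact h4.symm

theorem T_W (t : Transport n r) (hn : r + 2 ≤ n) {b0 : Fin r → Fin n}
    (hb0 : Function.Injective b0) {i0 c0 : Fin n} (hi0 : ∀ k, b0 k ≠ i0) (hc0 : i0 ≠ c0)
    {a : Fin r → Fin n} (ha : Function.Injective a) {i c : Fin n} (hi : ∀ k, a k ≠ i)
    (hc : i ≠ c) : t.T b0 a * W a i c = W b0 i0 c0 * t.T b0 a := by
  revert i c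
  refine inj_connected (r := r) (n := n) (by omega)
    (fun a => ∀ {i c : Fin n}, (∀ k, a k ≠ i) → i ≠ c →
      t.T b0 a * W a i c = W b0 i0 c0 * t.T b0 a) b0 hb0 ?_ ?_ a ha
  · intro i c hi hc
    rw [t.self_eq hb0, pr_mul_W hb0 hi, W_mul_pr hb0 hi0]
    exact W_all hn hb0 hi hi0 hc hc0
  · intro a b l ha hb hab hP i c hi hc
    by_cases hl : a l = b l
    · have : a = b := by
        funext j
        by_cases hj : j = l
        · rw [hj, hl]
        · exact hab j hj
      subst this
      exact hP hi hc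
    · obtain ⟨u, hu, hua⟩ := zt_exists_out hn a (b l)
      have hub : ∀ k, b k ≠ u := by
        intro k hk
        by_cases hkl : k = l
        · subst hkl
          exact hu hk.symm
        · rw [← hab k hkl] at hk
          exact hua k hk
      rw [W_all hn hb hi hub hc (Ne.symm (hub l)), ← t.comp b0 a b hb0 ha hb, mul_assoc,
        ← zt_slide t ha hb hab hl hua hub, ← mul_assoc, hP hua (Ne.symm (hua l)), mul_assoc]

theorem zt_kap_D (t : Transport n r) (hn : r + 2 ≤ n) {b0 : Fin r → Fin n}
    (hb0 : Function.Injective b0) {i0 c0 : Fin n} (hi0 : ∀ k, b0 k ≠ i0) (hc0 : i0 ≠ c0)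
    {a : Fin r → Fin n} : ∀ (N : ℕ) (R : Setoid (Fin n)),
      {p : Fin n × Fin n | R p.1 p.2}.ncard ≤ N → Indep R a →
    ∃ k : ℕ, t.kap b0 R a * D R a = (W b0 i0 c0) ^ k * t.T b0 a := by
  intro N
  induction N with
  | zero =>
    intro R hN h
    -- there is no point, so `R = ⊥` too
    have hbot : R = ⊥ := by
      apply le_antisymm _ bot_le
      intro x y hxy
      exfalso
      have h1 : {p : Fin n × Fin n | R p.1 p.2} = ∅ := by
        rw [← Set.ncard_eq_zero (Set.toFinite _)]
        omega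
      have h2 : (x, y) ∈ {p : Fin n × Fin n | R p.1 p.2} := hxy
      rw [h1] at h2
      exact h2
    subst hbot
    refine ⟨0, ?_⟩
    have ha := h.inj
    simp only [Transport.kap]
    rw [U_bot, D_bot, t.mul_pr hb0 ha, t.mul_pr hb0 ha, pow_zero, one_mul]
  | succ N ih =>
    intro R hN h
    by_cases hex : ∃ i c, R i c ∧ i ≠ c
    · have hex' : ∃ i c, R i c ∧ i ≠ c ∧ ∀ k, a k ≠ i := by
        obtain ⟨i, c, hR, hic⟩ := hex
        by_cases h1 : ∀ k, a k ≠ i
        · exact ⟨i, c, hR, hic, h1⟩
        · refine ⟨c, i, R.symm hR, hic.symm, fun k hk => ?_⟩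
          push Not at h1
          obtain ⟨k', hk'⟩ := h1
          have h2 : k' = k := by
            apply h
            rw [hk', hk]
            exact hR
          subst h2
          exact hic (hk'.symm.trans hk)
      obtain ⟨i, c, hR, hic, hi⟩ := hex'
      have hcut : Indep (cut R i) a := h.mono (cut_le _ _)
      obtain ⟨k, hk⟩ := ih (cut R i) (by
        have h1 : {p : Fin n × Fin n | (cut R i) p.1 p.2} ⊂ {p : Fin n × Fin n | R p.1 p.2} := by
          refine ⟨fun p hp => cut_le R i hp, fun hsub => ?_⟩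
          have h2 : (i, c) ∈ {p : Fin n × Fin n | (cut R i) p.1 p.2} := hsub hR
          have h3 : i = c ∨ (R i c ∧ i ≠ i ∧ c ≠ i) := h2
          rcases h3 with h3 | ⟨_, h3, _⟩
          · exact hic h3
          · exact h3 rfl
        have h4 := Set.ncard_lt_ncard h1 (Set.toFinite _)
        omega) hcut
      refine ⟨k + 1, ?_⟩
      simp only [Transport.kap] at hk ⊢
      rw [← DD_mul_D (cut_le R i) h, mul_assoc, ← mul_assoc (U R a), U_mul_DD_cut h hi hic hR,
        mul_assoc (W a i c), ← mul_assoc (t.T b0 a), T_W t hn hb0 hi0 hc0 h.inj hi hic, mul_assoc,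
        ← mul_assoc (t.T b0 a), hk, pow_succ', mul_assoc]
    · push Not at hex
      have hbot : R = ⊥ := by
        apply le_antisymm _ bot_le
        intro x y hxy
        exact hex x y hxy
      subst hbot
      refine ⟨0, ?_⟩
      have ha := h.inj
      simp only [Transport.kap]
      rw [U_bot, D_bot, t.mul_pr hb0 ha, t.mul_pr hb0 ha, pow_zero, one_mul]

theorem kap_D (t : Transport n r) (hn : r + 2 ≤ n) {b0 : Fin r → Fin n}
    (hb0 : Function.Injective b0) {i0 c0 : Fin n} (hi0 : ∀ k, b0 k ≠ i0) (hc0 : i0 ≠ c0)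
    {R : Setoid (Fin n)} {a : Fin r → Fin n} (h : Indep R a) :
    ∃ k : ℕ, t.kap b0 R a * D R a = (W b0 i0 c0) ^ k * t.T b0 a :=
  zt_kap_D t hn hb0 hi0 hc0 _ R le_rfl h

end Pool.Agent.IGP
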