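import Mathlib
import Pool.Agent.IGP.Basic
import Pool.Agent.IGP.Reg
import Pool.Agent.IGP.Calc
import Pool.Agent.IGP.PRank
import Pool.Agent.IGP.Pat
import Pool.Agent.IGP.PatRank
import Pool.Agent.IGP.UD
import Pool.Agent.IGP.InjLemma
import Pool.Agent.IGP.Slide
import Pool.Agent.IGP.Zeta

/-! MODULE S (Alpha).  The action of letters on the elements `kap R a`, up to powers of `ζ`.

Notation: `ζ = W b0 i0 c0`; `Zr ζ g h` iff `ζ^k g = ζ^l h` for some `k l`.

PAPER PROOFS.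
`Zr.trans`: `ζ^k g = ζ^l h`, `ζ^i h = ζ^j f`: `ζ^(i+k) g = ζ^(i+l) h = ζ^(l+j) f`.
`alpha`: let `K = R ⊔ Q`, Indep K a, `K (a i) (c i)`.  Then
`kap R a * X (pat R a * pat Q c) = kap R a * UU R K a * DD K Q c = kap K a * DD K Q c = kap K c * DD K Q c`
(`X_pat_pat`, `kap_mul_UU`, `kap_congr`).  `kap K c * DD K Q c = kap K c * DD K Q c * X (pat Q c) =
kap K c * DD K Q c * D Q c * D' Q c = kap K c * D K c * D' Q c = ζ^k * T b0 c * D' Q c` (`DD_mul_pat`,
`D_mul_D'`, `DD_mul_D`, `kap_D`), and `kap Q c = kap Q c * X (pat Q c) = kap Q c * D Q c * D' Q c =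
ζ^l * T b0 c * D' Q c`.  So `ζ^l * (kap R a * X (..)) = ζ^(l+k) T b0 c D' Q c = ζ^k * kap Q c`.
`letter`: let `e` be idempotent of rank `r`, Indep R a, and `prk (br b0 a * tau R * e) = r`.
Put `p = e * star e`, `q = star e * e`, projections of rank `r` (PatRank), `e = p q` (`idem_eq`),
`p = pat P b`, `q = pat Q c` (`proj_eq_pat`).  Let `lab = br b0 a * tau R`; `lab * pat R a = lab`
(as `star lab * lab = pat R a` (`star_lab_mul_lab`) and `lab * star lab * lab = lab`).  So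
`prk (pat R a * p) >= prk (pat R a * p * e) = prk (pat R a * e) >= prk (lab * pat R a * e) = prk (lab * e) = r`
(`p e = e`), and `<= prk p = r`.
`exists_perm` gives `σ` with Indep (R ⊔ P) a, `(R ⊔ P) (a i) (b (σ i))`; let `b' = b ∘ σ`;
`p = pat P b'` (`pat_perm`).
`kap R a * X e = kap R a * X (pat R a) * X (pat P b') * X e` (`kap_mul_pat`; `X p * X e = X e` as
`p e = e`).  By `alpha` (with `P ⊔ R = R ⊔ P`, Indep of `b'` by `Indep.congr`): `Zr (kap P b' * X (pat P b' *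
pat R a)) (kap R a)`, so multiplying on the right by `X (pat R a) * X (pat P b')`, the inverse
(`Fr.X_mul_inv` with `p := pat P b'`, `q := pat R a`):
`Zr (kap P b') (kap R a * X (pat R a) * X (pat P b'))` (`kap_mul_pat`).
Next `prk (pat P b' * pat Q c) = prk e = r`, so `exists_perm` gives `σ'`, `c' = c ∘ σ'`, and by `alpha`
`Zr (kap P b' * X (pat P b' * pat Q c')) (kap Q c')`, and `pat P b' * pat Q c' = e`.  Altogether
`Zr (kap R a * X e) (kap Q c')`.
`word_kap`: induction on a word `w` with all letters of rank `r`, Indep R a,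
`prk (br b0 a * tau R * prodW w) = r`: there are `Q, c`, Indep Q c, `Zr (kap R a * word w) (kap Q c)`.
`w = e :: w'`: `prk (lab * e) = r` (between `r` and `prk e = r`).  `letter` gives `Q1, c1`.  Apply `pi` to
`ζ^k kap R a X e = ζ^l kap Q1 c1`: `pi ζ = pr b0` (`pi_W`), `pr b0 * br b0 x = br b0 x`, `pi_kap`, so
`lab * e = br b0 c1 * tau Q1` (`pi_of_Zr`).  Induction hypothesis for `(Q1, c1)`, `w'`, then transitivity
(multiply the first relation on the right by `word w'`).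
-/

namespace Pool.Agent.IGP

open Part

/-- equality up to powers of `ζ` -/
def Zr {M : Type*} [Monoid M] (ζ g h : M) : Prop := ∃ k l : ℕ, ζ ^ k * g = ζ ^ l * h

section
variable {M : Type*} [Monoid M] {ζ : M}

theorem Zr.refl (g : M) : Zr ζ g g := ⟨0, 0, rfl⟩

theorem Zr.symm {g h : M} (H : Zr ζ g h) : Zr ζ h g := by
  obtain ⟨k, l, H⟩ := H
  exact ⟨l, k, H.symm⟩

theorem Zr.trans {g h f : M} (H : Zr ζ g h) (H' : Zr ζ h f) : Zr ζ g f := by
  obtain ⟨k, l, H⟩ := H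
  obtain ⟨i, j, H'⟩ := H'
  refine ⟨i + k, l + j, ?_⟩
  calc ζ ^ (i + k) * g = ζ ^ i * (ζ ^ k * g) := by rw [pow_add, mul_assoc]
    _ = ζ ^ (i + l) * h := by rw [H, pow_add, mul_assoc]
    _ = ζ ^ l * (ζ ^ i * h) := by rw [add_comm, pow_add, mul_assoc]
    _ = ζ ^ (l + j) * f := by rw [H', pow_add, mul_assoc]

theorem Zr.mul_right {g h : M} (H : Zr ζ g h) (u : M) : Zr ζ (g * u) (h * u) := by
  obtain ⟨k, l, H⟩ := H
  exact ⟨k, l, by rw [← mul_assoc, H, mul_assoc]⟩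

end

variable {n r : ℕ}

theorem alpha (t : Transport n r) (hn : r + 2 ≤ n) {b0 : Fin r → Fin n}
    (hb0 : Function.Injective b0) {i0 c0 : Fin n} (hi0 : ∀ k, b0 k ≠ i0) (hc0 : i0 ≠ c0)
    {R Q : Setoid (Fin n)} {a c : Fin r → Fin n} (h : Indep (R ⊔ Q) a)
    (hac : ∀ i, (R ⊔ Q) (a i) (c i)) :
    Zr (W b0 i0 c0) (t.kap b0 R a * IG.X (pat R a * pat Q c)) (t.kap b0 Q c) := by
  have Rle : R ≤ R ⊔ Q := le_sup_left
  have Qle : Q ≤ R ⊔ Q := le_sup_right
  have hKc : Indep (R ⊔ Q) c := h.congr hac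
  have hQc : Indep Q c := hKc.mono Qle
  obtain ⟨k, hk⟩ := kap_D t hn hb0 hi0 hc0 hKc
  obtain ⟨l, hl⟩ := kap_D t hn hb0 hi0 hc0 hQc
  have e1 : t.kap b0 R a * IG.X (pat R a * pat Q c) =
      W b0 i0 c0 ^ k * t.T b0 c * D' Q c := by
    rw [X_pat_pat h hac, ← mul_assoc, t.kap_mul_UU Rle h, t.kap_congr hb0 h hac,
      ← DD_mul_pat Qle hKc, ← D_mul_D' hQc, ← mul_assoc (DD (R ⊔ Q) Q c), DD_mul_D Qle hKc,
      ← mul_assoc, hk]
  have e2 : t.kap b0 Q c = W b0 i0 c0 ^ l * t.T b0 c * D' Q c := by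
    rw [← hl, mul_assoc, D_mul_D' hQc, t.kap_mul_pat hQc]
  refine ⟨l, k, ?_⟩
  rw [e1, e2]
  simp only [← mul_assoc]
  rw [← pow_add, ← pow_add, add_comm]

private theorem indep_perm {R : Setoid (Fin n)} {a : Fin r → Fin n} (h : Indep R a)
    (σ : Equiv.Perm (Fin r)) : Indep R (a ∘ σ) :=
  fun i j hij => σ.injective (h _ _ hij)

theorem letter (t : Transport n r) (hn : r + 2 ≤ n) {b0 : Fin r → Fin n}
    (hb0 : Function.Injective b0) {i0 c0 : Fin n} (hi0 : ∀ k, b0 k ≠ i0) (hc0 : i0 ≠ c0)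
    {e : Part n} (he : e * e = e) (her : prk e = r) {R : Setoid (Fin n)} {a : Fin r → Fin n}
    (h : Indep R a) (hr : prk (br b0 a * tau R * e) = r) :
    ∃ (Q : Setoid (Fin n)) (c : Fin r → Fin n), Indep Q c ∧
      Zr (W b0 i0 c0) (t.kap b0 R a * IG.X e) (t.kap b0 Q c) := by
  obtain ⟨P, b, hPb, hp⟩ := proj_eq_pat (star_mul_star_self e) (mul_star_idem e)
    (by rw [prk_mul_star, her])
  obtain ⟨Q, c, hQc, hq⟩ := proj_eq_pat (star_star_mul_self e) (star_mul_idem e)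
    (by rw [prk_star_mul, her])
  have hpq : pat P b * pat Q c = e := by rw [← hp, ← hq, idem_eq he]
  have hpe : pat P b * e = e := by rw [← hp, mul_star_mul]
  have hlab : (br b0 a * tau R) * pat R a = br b0 a * tau R := by
    rw [← star_lab_mul_lab hb0 R a, ← mul_assoc, mul_star_mul]
  have hrk : prk (pat R a * pat P b) = r := by
    apply le_antisymm
    · exact (isRank_prk.mul_le_right _ _).trans (prk_pat hPb).le
    · calc r = prk (br b0 a * tau R * e) := hr.symm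
        _ = prk (br b0 a * tau R * (pat R a * pat P b * e)) := by
            rw [mul_assoc (pat R a), hpe, ← mul_assoc _ (pat R a) e, hlab]
        _ ≤ prk (pat R a * pat P b * e) := isRank_prk.mul_le_right _ _
        _ ≤ prk (pat R a * pat P b) := isRank_prk.mul_le_left _ _
  obtain ⟨σ, hσ1, hσ2⟩ := exists_perm h hPb hrk
  have hPb' : Indep P (b ∘ σ) := indep_perm hPb σ
  have hperm : pat P (b ∘ σ) = pat P b := pat_perm P b σ
  -- step from `(P, b')` to `(R, a)`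
  have h1 : Indep (P ⊔ R) (b ∘ σ) := by
    rw [sup_comm]
    exact hσ1.congr hσ2
  have h2 : ∀ i, (P ⊔ R) ((b ∘ σ) i) (a i) := by
    intro i
    rw [sup_comm]
    exact (R ⊔ P).symm (hσ2 i)
  have fr : Fr (pat P (b ∘ σ)) (pat R a) := fr_pat_pat h1 h2
  have z1 := (alpha t hn hb0 hi0 hc0 h1 h2).mul_right
    (IG.X (pat R a) * IG.X (pat P (b ∘ σ)))
  rw [mul_assoc, fr.X_mul_inv, t.kap_mul_pat hPb', ← mul_assoc, t.kap_mul_pat h, hperm] at z1
  have hXe : IG.X (pat P b) * IG.X e = IG.X e :=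
    IG.X_mul_right (pat_idem hPb) he hpe
  have z2 := z1.mul_right (IG.X e)
  rw [mul_assoc, hXe] at z2
  -- step from `(P, b')` to `(Q, c')`
  have hrk2 : prk (pat P (b ∘ σ) * pat Q c) = r := by rw [hperm, hpq, her]
  obtain ⟨σ', h3, h4⟩ := exists_perm hPb' hQc hrk2
  have z3 := alpha t hn hb0 hi0 hc0 (c := c ∘ σ') h3 h4
  rw [hperm, pat_perm Q c σ', hpq] at z3
  exact ⟨Q, c ∘ σ', indep_perm hQc σ', z2.symm.trans z3⟩

/-- applying `pi` to a relation `Zr` -/
theorem pi_of_Zr (t : Transport n r) (hn : r + 2 ≤ n) {b0 : Fin r → Fin n}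
    (hb0 : Function.Injective b0) {i0 c0 : Fin n} (hi0 : ∀ k, b0 k ≠ i0)
    {R Q : Setoid (Fin n)} {a c : Fin r → Fin n} (h : Indep R a) (hQ : Indep Q c)
    {y : IG (Part n)} (H : Zr (W b0 i0 c0) (t.kap b0 R a * y) (t.kap b0 Q c)) :
    br b0 a * tau R * IG.pi y = br b0 c * tau Q := by
  obtain ⟨k, l, H⟩ := H
  have key : ∀ (m : ℕ) (d : Fin r → Fin n) (z : Part n),
      pr b0 ^ m * (br b0 d * z) = br b0 d * z := by
    intro m d z
    induction m with
    | zero => rw [pow_zero, one_mul]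
    | succ m ih => rw [pow_succ, mul_assoc, ← mul_assoc (pr b0) (br b0 d) z, pr_mul_br, ih]
  have H' := congrArg IG.pi H
  rw [map_mul, map_mul, map_mul, map_pow, map_pow, pi_W hb0 hi0,
    t.pi_kap (by omega) hb0 h, t.pi_kap (by omega) hb0 hQ, mul_assoc (br b0 a), key, key] at H'
  rw [mul_assoc]
  exact H'

theorem word_kap (t : Transport n r) (hn : r + 2 ≤ n) {b0 : Fin r → Fin n}
    (hb0 : Function.Injective b0) {i0 c0 : Fin n} (hi0 : ∀ k, b0 k ≠ i0) (hc0 : i0 ≠ c0)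
    (w : List (Idem (Part n))) (hw : ∀ e ∈ w, prk e.1 = r) {R : Setoid (Fin n)}
    {a : Fin r → Fin n} (h : Indep R a) (hr : prk (br b0 a * tau R * IG.prodW w) = r) :
    ∃ (Q : Setoid (Fin n)) (c : Fin r → Fin n), Indep Q c ∧
      Zr (W b0 i0 c0) (t.kap b0 R a * IG.word w) (t.kap b0 Q c) := by
  induction w generalizing R a with
  | nil =>
    refine ⟨R, a, h, ?_⟩
    rw [IG.word_nil, mul_one]
    exact Zr.refl _
  | cons e w ih =>
    have her : prk e.1 = r := hw e (by simp)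
    rw [IG.prodW_cons, ← mul_assoc] at hr
    have hre : prk (br b0 a * tau R * e.1) = r :=
      le_antisymm ((isRank_prk.mul_le_right _ _).trans her.le)
        (hr.symm.le.trans (isRank_prk.mul_le_left _ _))
    obtain ⟨Q1, c1, hQ1, z1⟩ := letter t hn hb0 hi0 hc0 e.2 her h hre
    have hpi := pi_of_Zr t hn hb0 hi0 h hQ1 z1
    rw [IG.pi_X e.2] at hpi
    rw [hpi] at hr
    obtain ⟨Q, c, hQ, z2⟩ := ih (fun d hd => hw d (List.mem_cons_of_mem _ hd)) hQ1 hr
    refine ⟨Q, c, hQ, ?_⟩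
    have z3 := z1.mul_right (IG.word w)
    rw [IG.word_cons, ← IG.X_idem, ← mul_assoc]
    exact z3.trans z2

end Pool.Agent.IGP
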