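import Mathlib
import Pool.Agent.IGP.Basic
import Pool.Agent.IGP.PRank
import Pool.Agent.IGP.Pat
import Pool.Agent.IGP.UD

/-! MODULE T (Shift).  Multiplication by `ζ = W b0 i0 c0` shifts the integer component by a nonzero
constant.

PAPER PROOF.  For `y` with `X (pr b0) * y = y`: `zeta ζ = idem (p τ) * idem (τ p)`, `p = pr b0`,
`τ = tau (pair i0 c0)` (both `pτ`, `τp` are idempotent: `p τ p = p` by `pr_tau_pr` and `indep_pair`), so
`(zeta ζ).fst = p τ τ p = p`, `(zeta ζ).snd = m(pτ, τp) - m(pτ,pτ) - m(τp,τp)`.  And `y = X p * y` gives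
`(zeta y).snd = -m(p,p) + (zeta y).snd + m(p, pi y)`, i.e. `m(p, pi y) = m(p,p)`.  So
`(zeta (ζ * y)).snd = (zeta ζ).snd + (zeta y).snd + m(p, pi y) = (zeta y).snd + z0` with
`z0 = m(p,p) + m(pτ,τp) - m(pτ,pτ) - m(τp,τp)`.
With `N = {g | g ∘ b0 = 0}` and `N' = {g ∈ N | g i0 = g c0}`:
`fl p p = N`, `fl (pτ) (τp) = fl (pτ) (pτ) = fl (τp) (τp) = N'`, so `z0 = finrank N - finrank N' > 0`
since `N' < N` (the indicator function of `i0` is in `N`, not in `N'`;
`Submodule.finrank_lt_finrank_of_lt`).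
`B (pτ) f g` iff `f ∘ b0 = g ∘ b0`, `g i0 = g c0`.  `B (τp) f g` iff `f ∘ b0 = g ∘ b0`, `f i0 = f c0`.
Powers: induction on `k`, as `X (pr b0) * (ζ * y) = ζ * y` (`pr_mul_W`).
-/

namespace Pool.Agent.IGP

open Part

variable {n r : ℕ}

theorem mem_fl_iff (α β : Part n) (g : Fin n → ZMod 2) : g ∈ fl α β ↔ B α 0 g ∧ B β g 0 :=
  Iff.rfl

theorem zeta_shift {b0 : Fin r → Fin n} (hb0 : Function.Injective b0) {i0 c0 : Fin n}
    (hi0 : ∀ k, b0 k ≠ i0) (hc0 : i0 ≠ c0) :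
    ∃ z0 : ℤ, z0 ≠ 0 ∧ ∀ (y : IG (Part n)), IG.X (pr b0) * y = y → ∀ k : ℕ,
      (zeta (coc n) ((W b0 i0 c0) ^ k * y)).snd = (zeta (coc n) y).snd + k * z0 := by
  classical
  have hI : Indep (pair i0 c0) b0 := indep_pair hb0 hi0 c0
  have hprW : IG.X (pr b0) * W b0 i0 c0 = W b0 i0 c0 := pr_mul_W hb0 hi0
  have hWdef : W b0 i0 c0 = IG.X (pr b0 * tau (pair i0 c0)) * IG.X (tau (pair i0 c0) * pr b0) := rfl
  have hpp : pr b0 * pr b0 = pr b0 := pr_idem b0
  have hptp : pr b0 * tau (pair i0 c0) * pr b0 = pr b0 := pr_tau_pr hI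
  have htt : tau (pair i0 c0) * tau (pair i0 c0) = tau (pair i0 c0) := tau_idem _
  -- membership in the relevant spaces
  have hR0 : ∀ (f g : Fin n → ZMod 2), B (tau (pair i0 c0)) f g ↔ f = g ∧ f i0 = f c0 := by
    intro f g
    rw [B_tau]
    refine and_congr_right (fun _ => ⟨fun h => ?_, fun h i j hij => ?_⟩)
    · exact h i0 c0 (Or.inr ⟨Or.inl rfl, Or.inr rfl⟩)
    · rcases hij with hij | ⟨hi | hi, hj | hj⟩
      · rw [hij]
      · rw [hi, hj]
      · rw [hi, hj, h]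
      · rw [hi, hj, h]
      · rw [hi, hj]
  generalize hp : pr b0 = p at *
  generalize ht : tau (pair i0 c0) = t at *
  have hBp : ∀ (f g : Fin n → ZMod 2), B p f g ↔ ∀ i, f (b0 i) = g (b0 i) := by
    intro f g; rw [← hp]; exact B_pr b0 f g
  have hpt0 : ∀ g : Fin n → ZMod 2, B (p * t) 0 g ↔ (∀ i, g (b0 i) = 0) ∧ g i0 = g c0 := by
    intro g
    rw [B_mul]
    constructor
    · rintro ⟨h, h1, h2⟩
      obtain ⟨rfl, h3⟩ := (hR0 _ _).1 h2
      exact ⟨fun i => ((hBp _ _).1 h1 i).symm, h3⟩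
    · rintro ⟨h1, h2⟩
      exact ⟨g, (hBp _ _).2 (fun i => (h1 i).symm), (hR0 _ _).2 ⟨rfl, h2⟩⟩
  have hpt1 : ∀ g : Fin n → ZMod 2, B (p * t) g 0 ↔ (∀ i, g (b0 i) = 0) := by
    intro g
    rw [B_mul]
    constructor
    · rintro ⟨h, h1, h2⟩
      obtain ⟨rfl, h3⟩ := (hR0 _ _).1 h2
      exact (hBp _ _).1 h1
    · intro h1
      exact ⟨0, (hBp _ _).2 h1, (hR0 _ _).2 ⟨rfl, rfl⟩⟩
  have htp0 : ∀ g : Fin n → ZMod 2, B (t * p) 0 g ↔ (∀ i, g (b0 i) = 0) := by
    intro g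
    rw [B_mul]
    constructor
    · rintro ⟨h, h1, h2⟩
      obtain ⟨rfl, h3⟩ := (hR0 _ _).1 h1
      exact fun i => ((hBp _ _).1 h2 i).symm
    · intro h1
      exact ⟨0, (hR0 _ _).2 ⟨rfl, rfl⟩, (hBp _ _).2 (fun i => (h1 i).symm)⟩
  have htp1 : ∀ g : Fin n → ZMod 2, B (t * p) g 0 ↔ (∀ i, g (b0 i) = 0) ∧ g i0 = g c0 := by
    intro g
    rw [B_mul]
    constructor
    · rintro ⟨h, h1, h2⟩
      obtain ⟨rfl, h3⟩ := (hR0 _ _).1 h1
      exact ⟨(hBp _ _).1 h2, h3⟩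
    · rintro ⟨h1, h2⟩
      exact ⟨g, (hR0 _ _).2 ⟨rfl, h2⟩, (hBp _ _).2 h1⟩
  have hN1 : fl (p * t) (p * t) = fl (p * t) (t * p) := by
    ext g
    rw [mem_fl_iff, mem_fl_iff, hpt0, hpt1, htp1]
    tauto
  have hN2 : fl (t * p) (t * p) = fl (p * t) (t * p) := by
    ext g
    rw [mem_fl_iff, mem_fl_iff, htp0, hpt0, htp1]
    tauto
  have hlt : fl (p * t) (t * p) < fl p p := by
    rw [SetLike.lt_iff_le_and_exists]
    constructor
    · intro g hg
      rw [mem_fl_iff, hpt0, htp1] at hg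
      rw [mem_fl_iff, hBp, hBp]
      exact ⟨fun i => (hg.1.1 i).symm, hg.1.1⟩
    · refine ⟨fun x => if x = i0 then 1 else 0, ?_, ?_⟩
      · rw [mem_fl_iff, hBp, hBp]
        constructor
        · intro i
          simp [hi0 i]
        · intro i
          simp [hi0 i]
      · rw [mem_fl_iff, hpt0]
        rintro ⟨⟨-, h⟩, -⟩
        simp [hc0.symm] at h
  have hfin : Module.finrank (ZMod 2) (fl (p * t) (t * p)) < Module.finrank (ZMod 2) (fl p p) :=
    Submodule.finrank_lt_finrank_of_lt hlt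
  have h1 : (p * t) * (p * t) = p * t := by rw [← mul_assoc, hptp]
  have h2 : (t * p) * (t * p) = t * p := by
    calc (t * p) * (t * p) = t * (p * t * p) := by simp only [mul_assoc]
      _ = t * p := by rw [hptp]
  have h3 : (p * t) * (t * p) = p := by
    calc (p * t) * (t * p) = p * (t * t) * p := by simp only [mul_assoc]
      _ = p := by rw [htt, hptp]
  have hW : zeta (coc n) (W b0 i0 c0) =
      Ext.idem (coc n) ℤ (p * t) * Ext.idem (coc n) ℤ (t * p) := by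
    rw [hWdef, map_mul, zeta_X _ h1, zeta_X _ h2]
  have hfst : (zeta (coc n) (W b0 i0 c0)).fst = p := by
    rw [hW, Ext.mul_fst, Ext.idem_fst, Ext.idem_fst, h3]
  have hsnd : (zeta (coc n) (W b0 i0 c0)).snd =
      -(coc n).m (p * t) (p * t) + -(coc n).m (t * p) (t * p) + (coc n).m (p * t) (t * p) := by
    rw [hW, Ext.mul_snd, Ext.idem_fst, Ext.idem_fst, Ext.idem_snd, Ext.idem_snd]
    simp
  have hm1 : (coc n).m (p * t) (p * t) = (coc n).m (p * t) (t * p) := by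
    change (Module.finrank (ZMod 2) (fl (p * t) (p * t)) : ℤ) = _
    rw [hN1]; rfl
  have hm2 : (coc n).m (t * p) (t * p) = (coc n).m (p * t) (t * p) := by
    change (Module.finrank (ZMod 2) (fl (t * p) (t * p)) : ℤ) = _
    rw [hN2]; rfl
  have hm3 : (coc n).m (p * t) (t * p) < (coc n).m p p := by
    change (Module.finrank (ZMod 2) (fl (p * t) (t * p)) : ℤ) <
      (Module.finrank (ZMod 2) (fl p p) : ℤ)
    exact_mod_cast hfin
  refine ⟨(coc n).m p p - (coc n).m (p * t) (t * p), (sub_pos.2 hm3).ne', ?_⟩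
  -- one step
  have hstep : ∀ y : IG (Part n), IG.X p * y = y →
      (zeta (coc n) (W b0 i0 c0 * y)).snd = (zeta (coc n) y).snd +
        ((coc n).m p p - (coc n).m (p * t) (t * p)) := by
    intro y hy
    have e1 : (zeta (coc n) (IG.X p * y)).snd = (zeta (coc n) y).snd := by rw [hy]
    rw [map_mul, Ext.mul_snd, zeta_X _ hpp, Ext.idem_fst, Ext.idem_snd] at e1
    simp only [Int.cast_id] at e1
    rw [map_mul, Ext.mul_snd, hfst, hsnd, hm1, hm2]
    simp only [Int.cast_id]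
    linarith
  intro y hy k
  have hk : ∀ k : ℕ, IG.X p * ((W b0 i0 c0) ^ k * y) = (W b0 i0 c0) ^ k * y := by
    intro k
    induction k with
    | zero => rw [pow_zero, one_mul, hy]
    | succ k ih => rw [pow_succ', mul_assoc, ← mul_assoc, hprW]
  induction k with
  | zero => simp
  | succ k ih =>
    rw [pow_succ', mul_assoc, hstep _ (hk k), ih]
    push_cast
    ring

end Pool.Agent.IGP
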