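import Mathlib
import Pool.Agent.IGP.Basic
import Pool.Agent.IGP.Reg
import Pool.Agent.IGP.PRank
import Pool.Agent.IGP.Pat
import Pool.Agent.IGP.PatRank
import Pool.Agent.IGP.UD
import Pool.Agent.IGP.Slide
import Pool.Agent.IGP.Alpha
import Pool.Agent.IGP.Shift

/-! MODULE V (Low).  Regular elements of `IG (Part n)` of rank `r`, `r + 2 <= n`, are determined by
their value in `Ext (coc n) ℤ`.

PAPER PROOFS.
`low_eq`: let `x, y` be regular, `zeta x = zeta y`, `β = pi x = pi y` (`zeta_fst`), `prk β = r`,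
`r + 2 <= n`.  `b0 = Fin.castLE`, `i0 = ⟨r, _⟩`, `c0 = ⟨r+1, _⟩`.  `p := β * star β = pat R a`
(`proj_eq_pat`, `prk_mul_star`).  `X p * x = x` (`X_mul_reg`, `p β = β` by `mul_star_mul`), same for `y`.
`x = word w`, `y = word w'` with all letters of rank `r` (`exists_level_word`).
`lab := br b0 a * tau R`.  `prk (lab * β) = r`: `>= prk (star lab * lab * β) = prk (pat R a * β) = prk β`
(`star_lab_mul_lab`), `<= prk β`.
`word_kap`: `Zr (kap R a * x) (kap Q c)`, `Zr (kap R a * y) (kap Q' c')`.  `pi_of_Zr`: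
`br b0 c * tau Q = lab * β = br b0 c' * tau Q'`, so `lab_inj` and `kap_congr` give `kap Q c = kap Q' c'`.
So `ζ^N kap R a x = ζ^M kap R a y` for some `N, M` (Zr.trans, Zr.symm).  Apply `(zeta _).snd` and
`zeta_shift` (with `pr_mul_kap`): `N z0 + z = M z0 + z` with `z = (zeta (kap R a * x)).snd = (zeta (kap R a *
y)).snd`; so `N = M`.  Cancel `ζ^N` on the left (`W_inv`: there is `ζ'` with `ζ' * ζ = X (pr b0)`, and
`X (pr b0) * kap = kap`; induction on `N`): `kap R a * x = kap R a * y`.  Multiply by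
`V R a * T a b0` (`kinv_kap`): `X p * x = X p * y`, so `x = y`.
`low_all`: the rank `r = prk (pi x)` is not high, so there is an idempotent `e ≠ 1` with
`prk (pi x) < prk e`; `prk e <= prk 1 = n` (`prk_one`, `prk (1 * e) <= prk 1`), and `prk e ≠ n`
(otherwise `prk (1 * e) = prk 1` gives `c` with `1 * e * c = 1`, so `e = e (e c) = e c = 1`).  So
`r + 2 <= n`; apply `low_eq`.
-/

namespace Pool.Agent.IGP

open Part

variable {n : ℕ}

theorem lo_cancel {M : Type*} [Monoid M] {ζ ζ' P : M} (h1 : ζ' * ζ = P) (h2 : P * ζ = ζ) {x y : M}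
    (hx : P * x = x) (hy : P * y = y) (N : ℕ) (h : ζ ^ N * x = ζ ^ N * y) : x = y := by
  have key : ∀ (z : M), P * z = z → ∀ k : ℕ, P * (ζ ^ k * z) = ζ ^ k * z := by
    intro z hz k
    cases k with
    | zero => rw [pow_zero, one_mul, hz]
    | succ k => rw [pow_succ', mul_assoc, ← mul_assoc P, h2]
  induction N with
  | zero => simpa using h
  | succ N ih =>
    apply ih
    have h3 := congrArg (fun z => ζ' * z) h
    simp only [pow_succ', mul_assoc] at h3
    rw [← mul_assoc ζ', ← mul_assoc ζ', h1, key x hx, key y hy] at h3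
    exact h3

theorem low_eq {r : ℕ} (hn : r + 2 ≤ n) {x y : IG (Part n)}
    (hx : IsReg (prk : Part n → ℕ) x) (hy : IsReg (prk : Part n → ℕ) y)
    (hr : prk (IG.pi x) = r) (hxy : zeta (coc n) x = zeta (coc n) y) : x = y := by
  have hrk : IsRank (prk : Part n → ℕ) := isRank_prk
  have hpi : IG.pi y = IG.pi x := by
    rw [← zeta_fst (coc n) x, ← zeta_fst (coc n) y, hxy]
  let b0 : Fin r → Fin n := Fin.castLE (by omega)
  have hb0 : Function.Injective b0 := Fin.castLE_injective _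
  let i0 : Fin n := ⟨r, by omega⟩
  let c0 : Fin n := ⟨r + 1, by omega⟩
  have hi0 : ∀ k, b0 k ≠ i0 := by
    intro k hk
    have h1 := congrArg Fin.val hk
    have h2 : (b0 k : ℕ) = k := rfl
    have h3 : (i0 : ℕ) = r := rfl
    have h4 := k.2
    omega
  have hc0 : i0 ≠ c0 := by
    intro h
    have h1 := congrArg Fin.val h
    have h2 : (c0 : ℕ) = r + 1 := rfl
    have h3 : (i0 : ℕ) = r := rfl
    omega
  obtain ⟨t⟩ := exists_transport hn
  set β := IG.pi x with hβ
  obtain ⟨R, a, hI, hp⟩ := proj_eq_pat (star_mul_star_self β) (mul_star_idem β)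
    ((prk_mul_star β).trans hr)
  have hpβ : pat R a * β = β := by rw [← hp]; exact mul_star_mul β
  have hpp : pat R a * pat R a = pat R a := pat_idem hI
  have hXx : IG.X (pat R a) * x = x := X_mul_reg hrk hx hpp hpβ
  have hXy : IG.X (pat R a) * y = y := X_mul_reg hrk hy hpp (by rw [hpi]; exact hpβ)
  obtain ⟨w, _, hw, hwr⟩ := exists_level_word hrk hx
  obtain ⟨w', _, hw', hwr'⟩ := exists_level_word hrk hy
  have hwβ : IG.prodW w = β := by rw [← IG.pi_word, hw]
  have hwβ' : IG.prodW w' = β := by rw [← IG.pi_word, hw', hpi]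
  have hlab : prk (br b0 a * tau R * β) = r := by
    apply le_antisymm
    · exact (hrk.mul_le_right _ _).trans hr.le
    · have h1 : prk (star (br b0 a * tau R) * (br b0 a * tau R * β)) = r := by
        rw [← mul_assoc, star_lab_mul_lab hb0, hpβ, hr]
      exact h1.ge.trans (hrk.mul_le_right _ _)
  obtain ⟨Q, c, hQ, hZ⟩ := word_kap t hn hb0 hi0 hc0 w (fun e he => (hwr e he).trans hr) hI
    (by rw [hwβ]; exact hlab)
  obtain ⟨Q', c', hQ', hZ'⟩ := word_kap t hn hb0 hi0 hc0 w'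
    (fun e he => (hwr' e he).trans (by rw [hpi]; exact hr)) hI (by rw [hwβ']; exact hlab)
  rw [hw] at hZ
  rw [hw'] at hZ'
  have h1 := pi_of_Zr t hn hb0 hi0 hI hQ hZ
  have h2 := pi_of_Zr t hn hb0 hi0 hI hQ' hZ'
  rw [hpi] at h2
  obtain ⟨hQQ, hcc⟩ := lab_inj hb0 (h1.symm.trans h2)
  subst hQQ
  have hkap : t.kap b0 Q c = t.kap b0 Q c' := t.kap_congr hb0 hQ hcc
  rw [← hkap] at hZ'
  obtain ⟨N, M, hNM⟩ := hZ.trans hZ'.symm
  have hPx : IG.X (pr b0) * (t.kap b0 R a * x) = t.kap b0 R a * x := by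
    rw [← mul_assoc, t.pr_mul_kap hb0 hI]
  have hPy : IG.X (pr b0) * (t.kap b0 R a * y) = t.kap b0 R a * y := by
    rw [← mul_assoc, t.pr_mul_kap hb0 hI]
  obtain ⟨z0, hz0, hsh⟩ := zeta_shift hb0 hi0 hc0
  have hN : N = M := by
    have h3 := hsh _ hPx N
    have h4 := hsh _ hPy M
    rw [hNM, h4, map_mul, map_mul, hxy] at h3
    have h5 : (M : ℤ) * z0 = N * z0 := by linarith
    exact_mod_cast (mul_right_cancel₀ hz0 h5).symm
  subst hN
  have hkk : t.kap b0 R a * x = t.kap b0 R a * y :=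
    lo_cancel (W_inv hb0 hi0 (c := c0)) (pr_mul_W hb0 hi0) hPx hPy N hNM
  have h6 := congrArg (fun z => (V R a * t.T a b0) * z) hkk
  rw [← mul_assoc, ← mul_assoc (V R a * t.T a b0), t.kinv_kap hb0 hI, hXx, hXy] at h6
  exact h6

theorem low_all (x y : IG (Part n)) (hx : IsReg (prk : Part n → ℕ) x)
    (hy : IsReg (prk : Part n → ℕ) y)
    (hH : ¬ High (prk : Part n → ℕ) (prk (IG.pi x)))
    (hxy : zeta (coc n) x = zeta (coc n) y) : x = y := by
  have hrk : IsRank (prk : Part n → ℕ) := isRank_prk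
  unfold High at hH
  push Not at hH
  obtain ⟨e, he, hlt, hne⟩ := hH
  have h1 : prk e ≤ n := by
    have h2 := hrk.mul_le_left 1 e
    rwa [one_mul, prk_one] at h2
  have h2 : prk e ≠ n := by
    intro h3
    obtain ⟨c, hc⟩ := hrk.stab_right 1 e (by rw [one_mul, prk_one, h3])
    rw [one_mul] at hc
    apply hne
    calc e = e * (e * c) := by rw [hc, mul_one]
      _ = e * c := by rw [← mul_assoc, he]
      _ = 1 := hc
  exact low_eq (r := prk (IG.pi x)) (by omega) hx hy rfl hxy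

end Pool.Agent.IGP
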