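import Mathlib
import Pool.Agent.IGP.Basic
import Pool.Agent.IGP.Abstract
import Pool.Agent.IGP.PRank
import Pool.Agent.IGP.Low

/-! Assembly. -/

namespace Pool.Agent.IGP

open Part

theorem final (n : ℕ) : ResiduallyFinite (IG (Part n)) :=
  residuallyFinite_of (rk := (prk : Part n → ℕ)) isRank_prk (coc n) low_all

end Pool.Agent.IGP
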